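import Pool.Agent.R227.SA10
import Pool.Agent.TH298.AN.ODEM
import Pool.Agent.Helper327_Sch.UDefs

set_option autoImplicit false

open MeasureTheory Set Filter Complex
open scoped Topology ContDiff ComplexConjugate

namespace Pool.Agent.Helper327_Sch.CC

open Pool.Agent.TH298.Sch (Sol dd X er)
open Pool.Agent.TH298.AN (mc ms)
open Pool.Agent.R227.SA (Dat la)
open Pool.Agent.Helper327_Sch (J)

variable {Ω : Set ℂ} {lam c : ℝ}

namespace CC1

open Pool.Agent.R227.SA Pool.Agent.R227.LP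

theorem dat_ae0 {u : ℂ → ℝ} {G : ℂ → ℂ} (ho : IsOpen Ω) (hb : Bornology.IsBounded Ω)
    (hreg : interior (closure Ω) = Ω) (hlam : 0 < lam) (h : Sol Ω lam c u G) :
    ∃ v : ℂ → ℝ, Dat Ω lam c v ∧ ∀ᵐ x ∂(volume.restrict Ω), u x = v x + c := by
  obtain ⟨g, R, M, hR, hΩR, hN, hgM, hgm, hout, hg, hae⟩ := from_sol hb ho.measurableSet hlam h
  have hg0 : ∀ x, R ≤ ‖x‖ → g x = 0 := fun x hx => hout x fun hx' => by
    have := hΩR hx'
    rw [mem_ball_zero_iff] at this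
    linarith
  have hp1 := pot_c1 hR hgm hgM hg0
  set v : ℂ → ℝ := fun x => lam / (2 * Real.pi) * pot g x with hv
  have hv1 : ContDiff ℝ 1 v := contDiff_const.mul hp1
  -- the exterior
  have hEo : IsOpen (closure Ω)ᶜ := isClosed_closure.isOpen_compl
  have hE : EqOn v (fun _ => 0) (closure Ω)ᶜ := by
    refine MeasureTheory.Measure.eqOn_open_of_ae_eq (μ := volume) ?_ hEo hv1.continuous.continuousOn
      continuousOn_const
    refine (ae_restrict_iff' hEo.measurableSet).2 ?_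
    filter_upwards [hae] with x hx hxE
    change lam / (2 * Real.pi) * pot g x = 0
    rw [hx, indicator_of_notMem fun h => hxE (subset_closure h)]
  have hEd : EqOn (fderiv ℝ v) (fun _ => 0) (closure Ω)ᶜ := by
    intro x hx
    have h1 : v =ᶠ[𝓝 x] fun _ => 0 := by
      filter_upwards [hEo.mem_nhds hx] with y hy
      exact hE hy
    rw [h1.fderiv_eq]
    simp
  have hcl : Ωᶜ ⊆ closure ((closure Ω)ᶜ) := by
    rw [closure_compl, hreg]
  have hE2 : EqOn v (fun _ => 0) (closure ((closure Ω)ᶜ)) :=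
    hE.closure hv1.continuous continuous_const
  have hE3 : EqOn (fderiv ℝ v) (fun _ => 0) (closure ((closure Ω)ᶜ)) :=
    hEd.closure (hv1.continuous_fderiv (by norm_num)) continuous_const
  refine ⟨v, ⟨hv1, fun x hx => hE2 (hcl hx), fun x hx => hE3 (hcl hx),
    fun x₀ hx₀ => loc_U hlam hR hgm hgM hg0 hg ho hx₀⟩, ?_⟩
  refine (ae_restrict_iff' ho.measurableSet).2 ?_
  filter_upwards [hae] with x hx hxE
  have e : v x = u x - c := by
    change lam / (2 * Real.pi) * pot g x = _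
    rw [hx, indicator_of_mem hxE]
  rw [e]
  ring

theorem glob0 {v : ℂ → ℝ} (D : Dat Ω lam c v) (p : ℂ) (r : ℝ) (hr : 0 < r)
    (hball : Metric.closedBall p r ⊆ Ω) :
    ∃ (V : ℂ → ℝ) (ρ : ℝ), ContDiff ℝ (⊤ : ℕ∞) V ∧ r < ρ ∧
      (∀ x : ℂ, ‖x‖ < ρ → dd 1 (dd 1 V) x + dd Complex.I (dd Complex.I V) x = -(lam * V x)) ∧
      ∀ x : ℂ, ‖x‖ < ρ → V x = v (x + p) + c := by
  have hΩ : IsOpen Ω := by
    rw [Metric.isOpen_iff]
    intro x hx
    obtain ⟨s, hs, U, -, hb, -⟩ := D.loc x hx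
    exact ⟨s, hs, hb⟩
  obtain ⟨δ, hδ, hth⟩ := (isCompact_closedBall p r).exists_thickening_subset_open hΩ hball
  rw [thickening_closedBall hδ hr.le] at hth
  let χ : ContDiffBump (0 : ℂ) := ⟨r + δ / 3, r + 2 * δ / 3, by positivity, by linarith⟩
  have hχ1 : ∀ x : ℂ, ‖x‖ ≤ r + δ / 3 → χ x = 1 := by
    intro x hx
    exact χ.one_of_mem_closedBall (by simpa using hx)
  have hχ0 : ∀ x : ℂ, r + 2 * δ / 3 ≤ ‖x‖ → χ x = 0 := by
    intro x hx
    exact χ.zero_of_le_dist (by simpa using hx)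
  -- the local description
  have hloc : ∀ x : ℂ, ‖x‖ < r + δ → ∃ U : ℂ → ℝ, ContDiff ℝ (⊤ : ℕ∞) U ∧
      (fun y => v (y + p) + c) =ᶠ[𝓝 x] (fun y => U (y + p)) ∧
      la U (x + p) = -(lam * U (x + p)) := by
    intro x hx
    have hxΩ : x + p ∈ Ω := hth (by
      rw [Metric.mem_ball, dist_eq_norm, add_sub_cancel_right]
      linarith)
    obtain ⟨s, hs, U, hU, hb, h⟩ := D.loc (x + p) hxΩ
    refine ⟨U, hU.sm, ?_, (h _ (Metric.mem_ball_self hs)).2⟩
    have h1 : ∀ᶠ y in 𝓝 x, y ∈ Metric.ball x s := Metric.ball_mem_nhds x hs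
    filter_upwards [h1] with y hy
    refine (h (y + p) ?_).1
    rw [Metric.mem_ball, dist_eq_norm] at hy ⊢
    rwa [add_sub_add_right_eq_sub]
  refine ⟨fun x => χ x * (v (x + p) + c), r + δ / 3, ?_, by linarith, ?_, ?_⟩
  · rw [contDiff_iff_contDiffAt]
    intro x
    rcases lt_or_ge ‖x‖ (r + δ) with hx | hx
    · obtain ⟨U, hU, he, -⟩ := hloc x hx
      have h2 : ContDiffAt ℝ (⊤ : ℕ∞) χ x := χ.contDiff.contDiffAt
      have h3 : ContDiffAt ℝ (⊤ : ℕ∞) (fun y => U (y + p)) x :=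
        (hU.comp (contDiff_id.add contDiff_const)).contDiffAt
      exact h2.mul (h3.congr_of_eventuallyEq he)
    · have h1 : (fun x => χ x * (v (x + p) + c)) =ᶠ[𝓝 x] fun _ => 0 := by
        have h2 : ∀ᶠ y in 𝓝 x, r + 2 * δ / 3 < ‖y‖ :=
          (continuous_norm.tendsto x).eventually (eventually_gt_nhds (by linarith))
        filter_upwards [h2] with y hy
        rw [hχ0 y hy.le, zero_mul]
      exact contDiffAt_const.congr_of_eventuallyEq h1
  · intro x hx
    obtain ⟨U, hU, he, hla⟩ := hloc x (by linarith)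
    have he' : (fun x => χ x * (v (x + p) + c)) =ᶠ[𝓝 x] (fun y => U (y + p)) := by
      have h2 : ∀ᶠ y in 𝓝 x, ‖y‖ < r + δ / 3 :=
        (continuous_norm.tendsto x).eventually (eventually_lt_nhds hx)
      filter_upwards [h2, he] with y hy hy2
      rw [hχ1 y hy.le, one_mul]
      exact hy2
    have e2 : ∀ h, dd h (fun x => χ x * (v (x + p) + c)) =ᶠ[𝓝 x] dd h (fun y => U (y + p)) := by
      intro h
      filter_upwards [he'.eventuallyEq_nhds] with y hy
      exact congrArg (fun L : ℂ →L[ℝ] ℝ => L h) hy.fderiv_eq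
    have e3 : ∀ h, dd h (dd h (fun x => χ x * (v (x + p) + c))) x =
        dd h (dd h (fun y => U (y + p))) x := by
      intro h
      exact congrArg (fun L : ℂ →L[ℝ] ℝ => L h) (e2 h).fderiv_eq
    have e4 : ∀ h, dd h (dd h (fun y => U (y + p))) x = dd h (dd h U) (x + p) := by
      intro h
      have e : dd h (fun y => U (y + p)) = fun y => dd h U (y + p) :=
        funext fun y => dd_trans U h p y
      rw [e]
      exact dd_trans (dd h U) h p x
    unfold la at hla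
    rw [e3, e3, e4, e4, hla]
    have := he'.eq_of_nhds
    simp only at this ⊢
    rw [this]
  · intro x hx
    simp only
    rw [hχ1 x hx.le, one_mul]

end CC1

theorem dat_ae {u : ℂ → ℝ} {G : ℂ → ℂ} (ho : IsOpen Ω) (hb : Bornology.IsBounded Ω)
    (hreg : interior (closure Ω) = Ω) (hlam : 0 < lam) (h : Sol Ω lam c u G) :
    ∃ v : ℂ → ℝ, Dat Ω lam c v ∧ ∀ᵐ x ∂(volume.restrict Ω), u x = v x + c :=
  CC1.dat_ae0 ho hb hreg hlam h

theorem glob {v : ℂ → ℝ} (D : Dat Ω lam c v) (p : ℂ) (r : ℝ) (hr : 0 < r)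
    (hball : Metric.closedBall p r ⊆ Ω) :
    ∃ (V : ℂ → ℝ) (ρ : ℝ), ContDiff ℝ (⊤ : ℕ∞) V ∧ r < ρ ∧
      (∀ x : ℂ, ‖x‖ < ρ → dd 1 (dd 1 V) x + dd Complex.I (dd Complex.I V) x = -(lam * V x)) ∧
      ∀ x : ℂ, ‖x‖ < ρ → V x = v (x + p) + c :=
  CC1.glob0 D p r hr hball

end Pool.Agent.Helper327_Sch.CC
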