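import Pool.Agent.R227.SA10
import Pool.Agent.R227.SA11
import Pool.Agent.TH298.AN.ODEM
import Pool.Agent.Helper327_Sch.UDefs

set_option autoImplicit false

open MeasureTheory Set Filter Complex
open scoped Topology ContDiff ComplexConjugate

namespace Pool.Agent.Helper327_Sch.CC

open Pool.Agent.TH298.Sch (Sol dd X er)
open Pool.Agent.TH298.AN (mc ms)
open Pool.Agent.R227.SA (Dat la)
open Pool.Agent.Helper327_Sch (J)

variable {Ω : Set ℂ} {lam c : ℝ}

namespace CC3

open TH259.NS (B)
open Pool.Agent.R227.SA (fourier_uniq orth_cc orth_ss orth_cs int_cos_int)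

lemma J_B (N : ℕ) (t : ℝ) : J N t = (t / 2) ^ N * B N ((t / 2) ^ 2) := by
  unfold Pool.Agent.Helper327_Sch.J B
  rw [← tsum_mul_left]
  refine tsum_congr fun k => ?_
  unfold TH259.NS.bt
  rw [pow_add, pow_mul]
  ring

lemma J_sq {lam : ℝ} (hlam : 0 < lam) (N : ℕ) (s : ℝ) :
    J N (Real.sqrt lam * s) = (Real.sqrt lam / 2) ^ N * (s ^ N * B N (lam * s ^ 2 / 4)) := by
  rw [J_B]
  have h1 : (Real.sqrt lam * s / 2) ^ 2 = lam * s ^ 2 / 4 := by
    rw [div_pow, mul_pow, Real.sq_sqrt hlam.le]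
    norm_num
  rw [h1]
  have h2 : Real.sqrt lam * s / 2 = Real.sqrt lam / 2 * s := by ring
  rw [h2, mul_pow]
  ring

/-- the squares of the cosines -/
noncomputable def cc (n : ℕ) : ℝ := ∫ θ in (-Real.pi)..Real.pi, Real.cos (n * θ) * Real.cos (n * θ)

/-- the squares of the sines -/
noncomputable def sc (n : ℕ) : ℝ := ∫ θ in (-Real.pi)..Real.pi, Real.sin (n * θ) * Real.sin (n * θ)

lemma cc_ne (n : ℕ) : cc n ≠ 0 := by
  have hpi := Real.pi_pos
  unfold cc
  rcases Nat.eq_zero_or_pos n with h | h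
  · subst h
    simp
  · rw [orth_cc, int_cos_int (n + n) (by omega)]
    simp

lemma sc_ne (n : ℕ) (h : 0 < n) : sc n ≠ 0 := by
  have hpi := Real.pi_pos
  unfold sc
  rw [orth_ss, int_cos_int (n + n) (by omega)]
  simp

lemma cos_cos (m n : ℕ) : ∫ θ in (-Real.pi)..Real.pi, Real.cos (m * θ) * Real.cos (n * θ) =
    if m = n then cc n else 0 := by
  split_ifs with h
  · subst h
    rfl
  · rw [orth_cc, int_cos_int (n + m) (by omega), int_cos_int (n - m) (by omega)]
    simp

lemma sin_sin (m n : ℕ) : ∫ θ in (-Real.pi)..Real.pi, Real.sin (m * θ) * Real.sin (n * θ) =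
    if m = n then sc n else 0 := by
  split_ifs with h
  · subst h
    rfl
  · rw [orth_ss, int_cos_int (n + m) (by omega), int_cos_int (n - m) (by omega)]
    simp

lemma sin_cos (m n : ℕ) : ∫ θ in (-Real.pi)..Real.pi, Real.sin (m * θ) * Real.cos (n * θ) = 0 := by
  rw [← orth_cs m n]
  refine intervalIntegral.integral_congr fun θ _ => ?_
  ring

lemma sum_cos (N : ℕ) (j α β : ℕ → ℝ) (n : ℕ) :
    ∫ θ in (-Real.pi)..Real.pi, (∑ m ∈ Finset.range (N + 1),
      j m * (α m * Real.cos (m * θ) + β m * Real.sin (m * θ))) * Real.cos (n * θ) =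
      if n ∈ Finset.range (N + 1) then j n * α n * cc n else 0 := by
  have e : ∀ θ : ℝ, (∑ m ∈ Finset.range (N + 1),
      j m * (α m * Real.cos (m * θ) + β m * Real.sin (m * θ))) * Real.cos (n * θ) =
      ∑ m ∈ Finset.range (N + 1), (j m * α m * (Real.cos (m * θ) * Real.cos (n * θ)) +
        j m * β m * (Real.sin (m * θ) * Real.cos (n * θ))) := by
    intro θ
    rw [Finset.sum_mul]
    refine Finset.sum_congr rfl fun m _ => ?_
    ring
  simp only [e]
  rw [intervalIntegral.integral_finsetSum (fun m _ => Continuous.intervalIntegrable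
    (by fun_prop) _ _), ← Finset.sum_ite_eq (Finset.range (N + 1)) n fun m => j m * α m * cc m]
  refine Finset.sum_congr rfl fun m _ => ?_
  rw [intervalIntegral.integral_add (Continuous.intervalIntegrable (by fun_prop) _ _)
    (Continuous.intervalIntegrable (by fun_prop) _ _), intervalIntegral.integral_const_mul,
    intervalIntegral.integral_const_mul, cos_cos, sin_cos]
  by_cases h : m = n
  · subst h
    simp
  · rw [if_neg h, if_neg (Ne.symm h)]
    ring

lemma sum_sin (N : ℕ) (j α β : ℕ → ℝ) (n : ℕ) :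
    ∫ θ in (-Real.pi)..Real.pi, (∑ m ∈ Finset.range (N + 1),
      j m * (α m * Real.cos (m * θ) + β m * Real.sin (m * θ))) * Real.sin (n * θ) =
      if n ∈ Finset.range (N + 1) then j n * β n * sc n else 0 := by
  have e : ∀ θ : ℝ, (∑ m ∈ Finset.range (N + 1),
      j m * (α m * Real.cos (m * θ) + β m * Real.sin (m * θ))) * Real.sin (n * θ) =
      ∑ m ∈ Finset.range (N + 1), (j m * α m * (Real.cos (m * θ) * Real.sin (n * θ)) +
        j m * β m * (Real.sin (m * θ) * Real.sin (n * θ))) := by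
    intro θ
    rw [Finset.sum_mul]
    refine Finset.sum_congr rfl fun m _ => ?_
    ring
  simp only [e]
  rw [intervalIntegral.integral_finsetSum (fun m _ => Continuous.intervalIntegrable
    (by fun_prop) _ _), ← Finset.sum_ite_eq (Finset.range (N + 1)) n fun m => j m * β m * sc m]
  refine Finset.sum_congr rfl fun m _ => ?_
  rw [intervalIntegral.integral_add (Continuous.intervalIntegrable (by fun_prop) _ _)
    (Continuous.intervalIntegrable (by fun_prop) _ _), intervalIntegral.integral_const_mul,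
    intervalIntegral.integral_const_mul, orth_cs, sin_sin]
  by_cases h : m = n
  · subst h
    simp
  · rw [if_neg h, if_neg (Ne.symm h)]
    ring

lemma X_polar (x : ℂ) : X ‖x‖ (Complex.arg x) = x := by
  unfold Pool.Agent.TH298.Sch.X
  rw [Complex.ofReal_cos, Complex.ofReal_sin, Complex.norm_mul_cos_add_sin_mul_I]

end CC3

open CC3

theorem finite_of_modes {V : ℂ → ℝ} {ρ r : ℝ} (hlam : 0 < lam) (hV : ContDiff ℝ (⊤ : ℕ∞) V)
    (hH : ∀ x : ℂ, ‖x‖ < ρ → dd 1 (dd 1 V) x + dd Complex.I (dd Complex.I V) x = -(lam * V x))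
    (hr : 0 < r) (hrρ : r < ρ) (N : ℕ)
    (hN : ∀ n : ℕ, N < n → ∀ s ∈ Icc 0 r, mc V n s = 0 ∧ ms V n s = 0) :
    ∃ α β : ℕ → ℝ, ∀ x : ℂ, ‖x‖ ≤ r → V x = ∑ m ∈ Finset.range (N + 1),
      J m (Real.sqrt lam * ‖x‖) * (α m * Real.cos (m * arg x) + β m * Real.sin (m * arg x)) := by
  have hρ : 0 < ρ := hr.trans hrρ
  have hod := Pool.Agent.TH298.AN.odem ρ lam V hρ hlam hV hH
  choose a ha using fun n => (hod n).1
  choose b hb using fun n => (hod n).2
  have hsl : 0 < Real.sqrt lam := Real.sqrt_pos.2 hlam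
  have hc : ∀ n : ℕ, (Real.sqrt lam / 2) ^ n ≠ 0 := fun n => by positivity
  refine ⟨fun n => a n / ((Real.sqrt lam / 2) ^ n * cc n),
    fun n => b n / ((Real.sqrt lam / 2) ^ n * sc n), fun x hx => ?_⟩
  have hXc : Continuous fun θ => V (X ‖x‖ θ) := hV.continuous.comp (by
    unfold Pool.Agent.TH298.Sch.X; fun_prop)
  have hs1 : ‖x‖ ∈ Icc 0 r := ⟨norm_nonneg x, hx⟩
  have hs2 : ‖x‖ ∈ Icc 0 ρ := ⟨norm_nonneg x, hx.trans hrρ.le⟩
  have hg : Continuous fun θ : ℝ => V (X ‖x‖ θ) - ∑ m ∈ Finset.range (N + 1),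
      J m (Real.sqrt lam * ‖x‖) * (a m / ((Real.sqrt lam / 2) ^ m * cc m) * Real.cos (m * θ) +
        b m / ((Real.sqrt lam / 2) ^ m * sc m) * Real.sin (m * θ)) :=
    hXc.sub (by fun_prop)
  have hfc : ∀ n : ℕ, Continuous fun θ : ℝ => V (X ‖x‖ θ) * Real.cos (n * θ) := fun n =>
    hXc.mul (by fun_prop)
  have hfs : ∀ n : ℕ, Continuous fun θ : ℝ => V (X ‖x‖ θ) * Real.sin (n * θ) := fun n =>
    hXc.mul (by fun_prop)
  have key := Pool.Agent.R227.SA.fourier_uniq hg (fun n => ?_) (fun n => ?_)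
  · have h := key (arg x) ⟨(Complex.neg_pi_lt_arg x).le, Complex.arg_le_pi x⟩
    simp only [X_polar] at h
    linarith
  · simp only [sub_mul]
    rw [intervalIntegral.integral_sub ((hfc n).intervalIntegrable _ _)
      (Continuous.intervalIntegrable (by fun_prop) _ _)]
    rw [sum_cos N (fun m => J m (Real.sqrt lam * ‖x‖))
      (fun m => a m / ((Real.sqrt lam / 2) ^ m * cc m))
      (fun m => b m / ((Real.sqrt lam / 2) ^ m * sc m)) n]
    split_ifs with h
    · have h1 := ha n ‖x‖ hs2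
      unfold Pool.Agent.TH298.AN.mc at h1
      rw [h1, J_sq hlam]
      have h2 := hc n
      have h3 := cc_ne n
      field_simp
      ring
    · have h1 := (hN n (by simpa using h) ‖x‖ hs1).1
      unfold Pool.Agent.TH298.AN.mc at h1
      rw [h1, sub_zero]
  · simp only [sub_mul]
    rw [intervalIntegral.integral_sub ((hfs n).intervalIntegrable _ _)
      (Continuous.intervalIntegrable (by fun_prop) _ _)]
    rw [sum_sin N (fun m => J m (Real.sqrt lam * ‖x‖))
      (fun m => a m / ((Real.sqrt lam / 2) ^ m * cc m))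
      (fun m => b m / ((Real.sqrt lam / 2) ^ m * sc m)) n]
    split_ifs with h
    · rcases Nat.eq_zero_or_pos n with h0 | h0
      · subst h0
        have hz : sc 0 = 0 := by
          unfold sc
          simp
        rw [hz]
        simp
      · have h1 := hb n ‖x‖ hs2
        unfold Pool.Agent.TH298.AN.ms at h1
        rw [h1, J_sq hlam]
        have h2 := hc n
        have h3 := sc_ne n h0
        field_simp
        ring
    · have h1 := (hN n (by simpa using h) ‖x‖ hs1).2
      unfold Pool.Agent.TH298.AN.ms at h1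
      rw [h1, sub_zero]

end Pool.Agent.Helper327_Sch.CC
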