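import Pool.Agent.Helper327_Sch.Defs
import Pool.Agent.Y971.SG.Bes
import Pool.Agent.Helper327_Sch.UDefs

set_option autoImplicit false

open Complex Polynomial Filter Topology Set
open scoped ComplexConjugate

namespace Pool.Agent.Helper327_Sch

open Pool.Agent.Y245.SG (Bn Sys)

open scoped ContDiff

theorem J_bn (lam : ℝ) (hlam : 0 < lam) (m : ℕ) (r : ℝ) :
    ((J m (Real.sqrt lam * r) : ℝ) : ℂ) =
      ((Real.sqrt lam / 2 * r) ^ m : ℝ) * Bn m ((lam / 4 * r ^ 2 : ℝ) : ℂ) := by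
  have hs : (Real.sqrt lam) ^ 2 = lam := Real.sq_sqrt hlam.le
  rw [J, Bn, ofReal_tsum, ← tsum_mul_left]
  congr 1
  funext k
  have h1 : (Real.sqrt lam * r / 2) ^ (2 * k + m) =
      (Real.sqrt lam / 2 * r) ^ m * (lam / 4 * r ^ 2) ^ k := by
    have : lam / 4 * r ^ 2 = (Real.sqrt lam / 2 * r) ^ 2 := by
      rw [mul_pow, div_pow, hs]; norm_num
    rw [this, ← pow_mul, ← pow_add]
    congr 1
    · ring
    · ring
  rw [h1]
  push_cast
  rw [neg_pow ((lam : ℂ) / 4 * (r : ℂ) ^ 2) k]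
  ring

namespace SF13

lemma bn_real (m : ℕ) (t : ℝ) : (Bn m (t : ℂ)) = (((Bn m (t : ℂ)).re : ℝ) : ℂ) := by
  have : Bn m (t : ℂ) =
      ((∑' k : ℕ, (-t) ^ k / ((k.factorial : ℝ) * ((k + m).factorial : ℝ)) : ℝ) : ℂ) := by
    rw [Bn, ofReal_tsum]
    congr 1
    funext k
    push_cast
    rfl
  rw [this, ofReal_re]

lemma J_re (lam : ℝ) (hlam : 0 < lam) (m : ℕ) (r : ℝ) :
    J m (Real.sqrt lam * r) =
      (Real.sqrt lam / 2) ^ m * r ^ m * (Bn m ((lam / 4 * r ^ 2 : ℝ) : ℂ)).re := by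
  have h := J_bn lam hlam m r
  rw [bn_real] at h
  rw [← mul_pow]
  exact_mod_cast h

lemma norm_cos (z : ℂ) (n : ℕ) : ‖z‖ ^ n * Real.cos (n * arg z) = (z ^ n).re := by
  have h : z ^ n = ((‖z‖ ^ n : ℝ) : ℂ) * exp (((n * arg z : ℝ) : ℂ) * I) := by
    conv_lhs => rw [← norm_mul_exp_arg_mul_I z]
    rw [mul_pow, ← exp_nat_mul]
    push_cast
    ring_nf
  rw [h, re_ofReal_mul, exp_ofReal_mul_I_re]

lemma norm_sin (z : ℂ) (n : ℕ) : ‖z‖ ^ n * Real.sin (n * arg z) = (z ^ n).im := by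
  have h : z ^ n = ((‖z‖ ^ n : ℝ) : ℂ) * exp (((n * arg z : ℝ) : ℂ) * I) := by
    conv_lhs => rw [← norm_mul_exp_arg_mul_I z]
    rw [mul_pow, ← exp_nat_mul]
    push_cast
    ring_nf
  rw [h, im_ofReal_mul, exp_ofReal_mul_I_im]

end SF13

theorem uu_of_J (lam : ℝ) (hlam : 0 < lam) (α β : ℕ → ℝ) (M : ℕ) (z : ℂ) :
    ∑ m ∈ Finset.range (M + 1), J m (Real.sqrt lam * ‖z‖) *
        (α m * Real.cos (m * arg z) + β m * Real.sin (m * arg z)) =
      UU (lam / 4) (α 0)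
        (fun m => (((Real.sqrt lam / 2) ^ (m + 1) / 2 : ℝ) : ℂ) * (α (m + 1) - β (m + 1) * I)) M z := by
  rw [Finset.sum_range_succ', UU, F, add_re, re_sum, add_comm]
  have hN : lam / 4 * normSq z = lam / 4 * ‖z‖ ^ 2 := by rw [normSq_eq_norm_sq]
  rw [hN]
  congr 1
  · rw [SF13.J_re lam hlam, re_ofReal_mul]
    simp
    ring
  · apply Finset.sum_congr rfl
    intro m _
    rw [SF13.J_re lam hlam, SF13.bn_real, ofReal_re, re_mul_ofReal]
    have h1 := SF13.norm_cos z (m + 1)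
    have h2 := SF13.norm_sin z (m + 1)
    have h3 : ((Real.sqrt lam / 2) ^ (m + 1) / 2 : ℝ) * (2 * (α (m + 1) * (z ^ (m + 1)).re +
        β (m + 1) * (z ^ (m + 1)).im)) =
        ((((Real.sqrt lam / 2) ^ (m + 1) / 2 : ℝ) : ℂ) * (α (m + 1) - β (m + 1) * I) * z ^ (m + 1) +
        conj ((((Real.sqrt lam / 2) ^ (m + 1) / 2 : ℝ) : ℂ) * (α (m + 1) - β (m + 1) * I)) *
          conj z ^ (m + 1)).re := by
      rw [← map_pow, ← map_mul, add_re, conj_re, mul_assoc, re_ofReal_mul]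
      have : (((α (m + 1) : ℂ) - β (m + 1) * I) * z ^ (m + 1)).re =
          α (m + 1) * (z ^ (m + 1)).re + β (m + 1) * (z ^ (m + 1)).im := by
        simp [mul_re, sub_re, sub_im]
      rw [this]
      ring
    rw [← h3, ← h1, ← h2]
    push_cast
    ring

theorem UU_top (κ e : ℝ) (a : ℕ → ℂ) (M : ℕ) :
    (∀ m < M, a m = 0) ∨ ∃ M', 0 < M' ∧ M' ≤ M ∧ a (M' - 1) ≠ 0 ∧ UU κ e a M = UU κ e a M' := by
  induction M with
  | zero => left; intro m hm; omega
  | succ M ih =>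
    by_cases h : a M = 0
    · have hU : UU κ e a (M + 1) = UU κ e a M := by
        funext z
        rw [UU, UU, F, F, Finset.sum_range_succ, h]
        simp
      rcases ih with ih | ⟨M', h1, h2, h3, h4⟩
      · left
        intro m hm
        rcases Nat.lt_succ_iff_lt_or_eq.1 hm with hm | rfl
        · exact ih m hm
        · exact h
      · right
        exact ⟨M', h1, by omega, h3, by rw [hU, h4]⟩
    · right
      exact ⟨M + 1, by omega, le_refl _, by simpa using h, rfl⟩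

theorem bn_zeros (κ : ℝ) (hκ : 0 < κ) (R : ℝ) :
    ({r : ℝ | r = 0 ∨ Bn 1 ((κ * r ^ 2 : ℝ) : ℂ) = 0} ∩ Icc 0 R).Finite := by
  have hd : Differentiable ℂ (fun z : ℂ => Bn 1 ((κ : ℂ) * z ^ 2)) := by
    intro z
    have h1 := Pool.Agent.Y971.SG.hasDerivAt_Bn 1 ((κ : ℂ) * z ^ 2)
    have h2 : DifferentiableAt ℂ (fun z : ℂ => (κ : ℂ) * z ^ 2) z := by fun_prop
    exact DifferentiableAt.fun_comp' z h1.differentiableAt h2
  have han : AnalyticOnNhd ℂ (fun z : ℂ => Bn 1 ((κ : ℂ) * z ^ 2)) univ :=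
    hd.differentiableOn.analyticOnNhd isOpen_univ
  have h0 : Bn 1 ((κ : ℂ) * 0 ^ 2) = 1 := by
    have : Bn 1 ((κ : ℂ) * 0 ^ 2) = Bn 1 0 := by norm_num
    rw [this, Bn, tsum_eq_single 0]
    · simp
    · intro k hk
      simp [hk]
  have hfin : ({r : ℝ | Bn 1 ((κ * r ^ 2 : ℝ) : ℂ) = 0} ∩ Icc 0 R).Finite := by
    by_contra hinf
    have hinf : ({r : ℝ | Bn 1 ((κ * r ^ 2 : ℝ) : ℂ) = 0} ∩ Icc 0 R).Infinite := hinf
    obtain ⟨x, _, hx⟩ := hinf.exists_accPt_of_subset_isCompact isCompact_Icc inter_subset_right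
    have hfr : ∃ᶠ z in 𝓝[≠] (x : ℂ), Bn 1 ((κ : ℂ) * z ^ 2) = 0 := by
      rw [accPt_iff_frequently] at hx
      rw [frequently_nhdsWithin_iff]
      have ht : Tendsto (fun r : ℝ => (r : ℂ)) (𝓝 x) (𝓝 (x : ℂ)) :=
        continuous_ofReal.tendsto x
      refine ht.frequently ?_
      refine hx.mono ?_
      rintro r ⟨hr1, hr2⟩
      refine ⟨?_, ?_⟩
      · have := hr2.1
        simpa using this
      · simpa using hr1
    have := han.eqOn_zero_of_preconnected_of_frequently_eq_zero isPreconnected_univ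
      (mem_univ (x : ℂ)) hfr
    have h00 := this (mem_univ (0 : ℂ))
    simp only [Pi.zero_apply] at h00
    rw [h0] at h00
    exact one_ne_zero h00
  refine (hfin.union (finite_singleton (0 : ℝ))).subset ?_
  rintro r ⟨hr1 | hr1, hr2⟩
  · right; exact hr1
  · left; exact ⟨hr1, hr2⟩

end Pool.Agent.Helper327_Sch
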