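import Pool.Agent.Helper327_Sch.Defs
import Pool.Agent.Y971.SG.Bes

set_option autoImplicit false

open Complex Polynomial Filter Topology Set
open scoped ComplexConjugate

namespace Pool.Agent.Helper327_Sch

open Pool.Agent.Y245.SG (Bn Sys)

theorem rec_bn (w : ℂ) : Rec w (fun m => Bn m w) := by
  intro m
  exact ((Pool.Agent.Y971.SG.bes m).2.2.2 w)

theorem rec_fam (x y : ℂ → ℂ) (ω : ℂ) : Rec (exp ω) (fun m => fam x y m ω) := by
  intro m
  show exp ω * fam x y (m + 2) ω = ((m : ℂ) + 1) * fam x y (m + 1) ω - fam x y m ω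
  rw [fam, ← mul_assoc, ← Complex.exp_add]
  simp

theorem pAB (m : ℕ) : pA m * pB (m + 1) - pA (m + 1) * pB m = X ^ (m + 1) := by
  induction m with
  | zero => simp [pA, pB]
  | succ n ih =>
    have h1 : pA (n + 2) = C ((n : ℂ) + 1) * pA (n + 1) - X * pA n := by rw [pA]
    have h2 : pB (n + 2) = C ((n : ℂ) + 1) * pB (n + 1) - X * pB n := by rw [pB]
    show pA (n + 1) * pB (n + 2) - pA (n + 2) * pB (n + 1) = X ^ (n + 1 + 1)
    rw [h1, h2, pow_succ, ← ih]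
    ring

theorem pAB2 (m : ℕ) : pA m * pB (m + 2) - pA (m + 2) * pB m = C ((m : ℂ) + 1) * X ^ (m + 1) := by
  have h1 : pA (m + 2) = C ((m : ℂ) + 1) * pA (m + 1) - X * pA m := by rw [pA]
  have h2 : pB (m + 2) = C ((m : ℂ) + 1) * pB (m + 1) - X * pB m := by rw [pB]
  rw [h1, h2, ← pAB m]
  ring

theorem SF1.evA (w : ℂ) (m : ℕ) :
    (pA (m + 2)).eval w = ((m : ℂ) + 1) * (pA (m + 1)).eval w - w * (pA m).eval w := by
  have h1 : pA (m + 2) = C ((m : ℂ) + 1) * pA (m + 1) - X * pA m := by rw [pA]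
  rw [h1]
  simp

theorem SF1.evB (w : ℂ) (m : ℕ) :
    (pB (m + 2)).eval w = ((m : ℂ) + 1) * (pB (m + 1)).eval w - w * (pB m).eval w := by
  have h1 : pB (m + 2) = C ((m : ℂ) + 1) * pB (m + 1) - X * pB m := by rw [pB]
  rw [h1]
  simp

theorem rec_rep (w : ℂ) (f : ℕ → ℂ) (h : Rec w f) (m : ℕ) :
    w ^ m * f m = (pA m).eval w * f 0 + (pB m).eval w * f 1 := by
  have key : ∀ m : ℕ, (w ^ m * f m = (pA m).eval w * f 0 + (pB m).eval w * f 1) ∧
      (w ^ (m + 1) * f (m + 1) = (pA (m + 1)).eval w * f 0 + (pB (m + 1)).eval w * f 1) := by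
    intro m
    induction m with
    | zero => simp [pA, pB]
    | succ n ih =>
      refine ⟨ih.2, ?_⟩
      have e : w ^ (n + 2) * f (n + 2) = w ^ (n + 1) * (w * f (n + 2)) := by ring
      show w ^ (n + 2) * f (n + 2) = (pA (n + 2)).eval w * f 0 + (pB (n + 2)).eval w * f 1
      rw [e, h n, SF1.evA, SF1.evB]
      have e2 : w ^ (n + 1) * (((n : ℂ) + 1) * f (n + 1) - f n) =
          ((n : ℂ) + 1) * (w ^ (n + 1) * f (n + 1)) - w * (w ^ n * f n) := by ring
      rw [e2, ih.1, ih.2]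
      ring
  exact (key m).1

theorem rep0 (κ e : ℂ) (a b : ℕ → ℂ) (M : ℕ) (f : ℕ → ℂ) (z ζ : ℂ) (h : Rec (ww κ z ζ) f) :
    ww κ z ζ ^ M * F e a b M f z ζ =
      N0 κ e a b M pA z ζ * f 0 + N0 κ e a b M pB z ζ * f 1 := by
  unfold F N0
  generalize ww κ z ζ = w at h ⊢
  have r := rec_rep w f h
  simp only [coe_aeval_eq_eval, Algebra.algebraMap_self, RingHom.id_apply]
  have hs : w ^ M * ∑ m ∈ Finset.range M, (a m * z ^ (m + 1) + b m * ζ ^ (m + 1)) * f (m + 1) =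
      (∑ m ∈ Finset.range M, (a m * z ^ (m + 1) + b m * ζ ^ (m + 1)) * w ^ (M - 1 - m) *
        (pA (m + 1)).eval w) * f 0 +
      (∑ m ∈ Finset.range M, (a m * z ^ (m + 1) + b m * ζ ^ (m + 1)) * w ^ (M - 1 - m) *
        (pB (m + 1)).eval w) * f 1 := by
    rw [Finset.mul_sum, Finset.sum_mul, Finset.sum_mul, ← Finset.sum_add_distrib]
    refine Finset.sum_congr rfl fun m hm => ?_
    have hm' : m < M := Finset.mem_range.1 hm
    have e1 : w ^ M = w ^ (M - 1 - m) * w ^ (m + 1) := by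
      rw [← pow_add]; congr 1; omega
    rw [e1]
    have e2 : w ^ (M - 1 - m) * w ^ (m + 1) * ((a m * z ^ (m + 1) + b m * ζ ^ (m + 1)) * f (m + 1)) =
        w ^ (M - 1 - m) * (a m * z ^ (m + 1) + b m * ζ ^ (m + 1)) * (w ^ (m + 1) * f (m + 1)) := by
      ring
    rw [e2, r (m + 1)]
    ring
  rw [mul_add, hs]
  have h0A : (pA 0).eval w = 1 := by simp [pA]
  have h0B : (pB 0).eval w = 0 := by simp [pB]
  rw [h0A, h0B]
  ring

theorem rep1 (κ e : ℂ) (a b : ℕ → ℂ) (M : ℕ) (f : ℕ → ℂ) (z ζ : ℂ) (h : Rec (ww κ z ζ) f) :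
    ww κ z ζ ^ (M + 1) * F1 κ e a b M f z ζ =
      N1 κ e a b M pA z ζ * f 0 + N1 κ e a b M pB z ζ * f 1 := by
  unfold F1 N1
  generalize ww κ z ζ = w at h ⊢
  have r := rec_rep w f h
  simp only [coe_aeval_eq_eval, Algebra.algebraMap_self, RingHom.id_apply]
  have hs : w ^ (M + 1) *
      ∑ m ∈ Finset.range M, (a m * z ^ m * f m - κ * b m * ζ ^ (m + 2) * f (m + 2)) =
      (∑ m ∈ Finset.range M, (a m * z ^ m * w ^ (M + 1 - m) * (pA m).eval w -
        κ * b m * ζ ^ (m + 2) * w ^ (M - 1 - m) * (pA (m + 2)).eval w)) * f 0 +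
      (∑ m ∈ Finset.range M, (a m * z ^ m * w ^ (M + 1 - m) * (pB m).eval w -
        κ * b m * ζ ^ (m + 2) * w ^ (M - 1 - m) * (pB (m + 2)).eval w)) * f 1 := by
    rw [Finset.mul_sum, Finset.sum_mul, Finset.sum_mul, ← Finset.sum_add_distrib]
    refine Finset.sum_congr rfl fun m hm => ?_
    have hm' : m < M := Finset.mem_range.1 hm
    have e1 : w ^ (M + 1) = w ^ (M + 1 - m) * w ^ m := by
      rw [← pow_add]; congr 1; omega
    have e2 : w ^ (M + 1) = w ^ (M - 1 - m) * w ^ (m + 2) := by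
      rw [← pow_add]; congr 1; omega
    have e3 : w ^ (M + 1) * (a m * z ^ m * f m - κ * b m * ζ ^ (m + 2) * f (m + 2)) =
        (a m * z ^ m) * (w ^ (M + 1) * f m) - κ * b m * ζ ^ (m + 2) * (w ^ (M + 1) * f (m + 2)) := by
      ring
    have e4 : w ^ (M + 1) * f m = w ^ (M + 1 - m) * (w ^ m * f m) := by rw [e1]; ring
    have e5 : w ^ (M + 1) * f (m + 2) = w ^ (M - 1 - m) * (w ^ (m + 2) * f (m + 2)) := by
      rw [e2]; ring
    rw [e3, e4, e5, r m, r (m + 2)]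
    ring
  have h1 : w ^ (M + 1) * (κ * e * ζ * f 1) =
      (κ * e * ζ * w ^ M * (pA 1).eval w) * f 0 + (κ * e * ζ * w ^ M * (pB 1).eval w) * f 1 := by
    have e1 : w ^ (M + 1) * (κ * e * ζ * f 1) = κ * e * ζ * w ^ M * (w ^ 1 * f 1) := by ring
    rw [e1, r 1]
    ring
  rw [mul_sub, hs, h1]
  ring

/-- if the two derivatives vanish for one nonzero solution, the determinant vanishes -/
theorem dd_zero (κ e : ℂ) (a b : ℕ → ℂ) (M : ℕ) (f : ℕ → ℂ) (z ζ : ℂ) (h : Rec (ww κ z ζ) f)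
    (hf : f 0 ≠ 0 ∨ f 1 ≠ 0) (h1 : F1 κ e a b M f z ζ = 0) (h2 : F1 κ e b a M f ζ z = 0) :
    DD κ e a b M z ζ = 0 := by
  have hw : ww κ ζ z = ww κ z ζ := by unfold ww; ring
  have r1 := rep1 κ e a b M f z ζ h
  have h' : Rec (ww κ ζ z) f := by rw [hw]; exact h
  have r2 := rep1 κ e b a M f ζ z h'
  rw [h1, mul_zero] at r1
  rw [h2, mul_zero] at r2
  unfold DD
  generalize N1 κ e a b M pA z ζ = p at r1 ⊢
  generalize N1 κ e a b M pB z ζ = q at r1 ⊢
  generalize N1 κ e b a M pA ζ z = s at r2 ⊢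
  generalize N1 κ e b a M pB ζ z = t at r2 ⊢
  rcases hf with hf | hf
  · have : (p * t - s * q) * f 0 = 0 := by linear_combination q * r2 - t * r1
    exact (mul_eq_zero.1 this).resolve_right hf
  · have : (p * t - s * q) * f 1 = 0 := by linear_combination s * r1 - p * r2
    exact (mul_eq_zero.1 this).resolve_right hf

end Pool.Agent.Helper327_Sch
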