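import Pool.Agent.Helper327_Sch.Defs
import Pool.Agent.Y971.SG.Bes
import Pool.Agent.R227.SA13
import Pool.Agent.Helper327_Sch.Fin.SF1
import Pool.Agent.Helper327_Sch.UDefs

set_option autoImplicit false

open Complex Polynomial Filter Topology Set
open scoped ComplexConjugate

namespace Pool.Agent.Helper327_Sch

open Pool.Agent.Y245.SG (Bn Sys)

open scoped ContDiff

namespace SF9

/-- the real linear map `v ↦ p v + q v̄` -/
noncomputable def Lpq (p q : ℂ) : ℂ →L[ℝ] ℂ :=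
  p • (ContinuousLinearMap.id ℝ ℂ) + q • (Complex.conjCLE : ℂ →L[ℝ] ℂ)

lemma Lpq_apply (p q v : ℂ) : Lpq p q v = p * v + q * conj v := by
  simp [Lpq]

/-- the Wirtinger derivatives of `g` at `z` are `p` and `q` -/
def Wd (g : ℂ → ℂ) (p q z : ℂ) : Prop := HasFDerivAt g (Lpq p q) z

lemma Wd.congr {g : ℂ → ℂ} {p q p' q' z : ℂ} (h : Wd g p q z) (hp : p = p') (hq : q = q') :
    Wd g p' q' z := by subst hp; subst hq; exact h

lemma Wd.const (c z : ℂ) : Wd (fun _ => c) 0 0 z := by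
  have h := hasFDerivAt_const (𝕜 := ℝ) (E := ℂ) c z
  have e : Lpq 0 0 = 0 := by ext <;> simp [Lpq]
  rw [Wd, e]
  exact h

lemma Wd.id (z : ℂ) : Wd (fun z => z) 1 0 z := by
  have h := hasFDerivAt_id (𝕜 := ℝ) z
  have e : Lpq 1 0 = ContinuousLinearMap.id ℝ ℂ := by ext <;> simp [Lpq]
  rw [Wd, e]
  exact h

lemma Wd.conj (z : ℂ) : Wd (fun z => conj z) 0 1 z := by
  have h := (Complex.conjCLE : ℂ →L[ℝ] ℂ).hasFDerivAt (x := z)
  have e : Lpq 0 1 = (Complex.conjCLE : ℂ →L[ℝ] ℂ) := by ext <;> simp [Lpq]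
  rw [Wd, e]
  exact h

lemma Wd.add {f g : ℂ → ℂ} {p q p' q' z : ℂ} (hf : Wd f p q z) (hg : Wd g p' q' z) :
    Wd (fun z => f z + g z) (p + p') (q + q') z := by
  have h := HasFDerivAt.add hf hg
  have e : Lpq (p + p') (q + q') = Lpq p q + Lpq p' q' := by
    ext v; simp [Lpq_apply]; ring
  rw [Wd, e]
  exact h

lemma Wd.sub {f g : ℂ → ℂ} {p q p' q' z : ℂ} (hf : Wd f p q z) (hg : Wd g p' q' z) :
    Wd (fun z => f z - g z) (p - p') (q - q') z := by
  have h := HasFDerivAt.sub hf hg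
  have e : Lpq (p - p') (q - q') = Lpq p q - Lpq p' q' := by
    ext v; simp [Lpq_apply]; ring
  rw [Wd, e]
  exact h

lemma Wd.mul {f g : ℂ → ℂ} {p q p' q' z : ℂ} (hf : Wd f p q z) (hg : Wd g p' q' z) :
    Wd (fun z => f z * g z) (p * g z + f z * p') (q * g z + f z * q') z := by
  have h := HasFDerivAt.mul hf hg
  have e : Lpq (p * g z + f z * p') (q * g z + f z * q') = f z • Lpq p' q' + g z • Lpq p q := by
    ext v; simp [Lpq_apply]; ring
  rw [Wd, e]
  exact h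

lemma Wd.sum {ι : Type} (s : Finset ι) {f : ι → ℂ → ℂ} {p q : ι → ℂ} {z : ℂ}
    (h : ∀ i ∈ s, Wd (f i) (p i) (q i) z) :
    Wd (fun z => ∑ i ∈ s, f i z) (∑ i ∈ s, p i) (∑ i ∈ s, q i) z := by
  classical
  induction s using Finset.induction_on with
  | empty => simpa using Wd.const 0 z
  | insert a s ha ih =>
    have h1 := ih fun i hi => h i (Finset.mem_insert_of_mem hi)
    have h2 := (h a (Finset.mem_insert_self _ _)).add h1
    simp only [Finset.sum_insert ha]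
    exact h2

lemma Wd.comp {h : ℂ → ℂ} {h' : ℂ} {g : ℂ → ℂ} {p q z : ℂ} (hh : HasDerivAt h h' (g z))
    (hg : Wd g p q z) : Wd (fun z => h (g z)) (h' * p) (h' * q) z := by
  have h1 : HasFDerivAt h ((ContinuousLinearMap.toSpanSingleton ℂ h').restrictScalars ℝ) (g z) :=
    hh.hasFDerivAt.restrictScalars ℝ
  have h2 := HasFDerivAt.comp z h1 hg
  have e : Lpq (h' * p) (h' * q) =
      ((ContinuousLinearMap.toSpanSingleton ℂ h').restrictScalars ℝ).comp (Lpq p q) := by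
    ext v; simp [Lpq_apply]; ring
  rw [Wd, e]
  exact h2

lemma Wd.pow {f : ℂ → ℂ} {p q z : ℂ} (hf : Wd f p q z) (n : ℕ) :
    Wd (fun z => f z ^ (n + 1)) (((n : ℂ) + 1) * f z ^ n * p) (((n : ℂ) + 1) * f z ^ n * q) z := by
  have h := hasDerivAt_pow (n + 1) (f z)
  have h2 := Wd.comp (h := fun w => w ^ (n + 1)) h hf
  refine h2.congr ?_ ?_ <;> simp

/-- `w = κ z z̄` -/
noncomputable def w (κ : ℝ) (z : ℂ) : ℂ := ((κ * normSq z : ℝ) : ℂ)

lemma w_eq (κ : ℝ) (z : ℂ) : w κ z = κ * z * conj z := by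
  rw [w, mul_assoc, Complex.mul_conj]; push_cast; ring

lemma Wd_w (κ : ℝ) (z : ℂ) : Wd (w κ) (κ * conj z) (κ * z) z := by
  have h := ((Wd.const (κ : ℂ) z).mul (Wd.id z)).mul (Wd.conj z)
  have e : w κ = fun z => (κ : ℂ) * z * conj z := funext (w_eq κ)
  rw [e]
  exact h.congr (by simp) (by simp)

lemma Wd_B (κ : ℝ) (m : ℕ) (z : ℂ) : Wd (fun z => Bn m (w κ z))
    (-Bn (m + 1) (w κ z) * (κ * conj z)) (-Bn (m + 1) (w κ z) * (κ * z)) z :=
  Wd.comp (Pool.Agent.Y971.SG.hasDerivAt_Bn m _) (Wd_w κ z)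

/-- the term `z^m Bn m w`, `z̄`-derivative -/
lemma Wd_T0 (κ : ℝ) (m : ℕ) (z : ℂ) : ∃ P, Wd (fun z => z ^ m * Bn m (w κ z)) P
    (-(κ * z ^ (m + 1) * Bn (m + 1) (w κ z))) z := by
  cases m with
  | zero =>
    refine ⟨_, (((Wd.const 1 z).mul (Wd_B κ 0 z)).congr rfl ?_ : Wd _ _ _ _)⟩
    simp; ring
  | succ n =>
    refine ⟨_, ((((Wd.id z).pow n).mul (Wd_B κ (n + 1) z)).congr rfl ?_ : Wd _ _ _ _)⟩
    simp; ring

/-- the term `z^(m+1) Bn (m+1) w` -/
lemma Wd_T (κ : ℝ) (m : ℕ) (z : ℂ) : Wd (fun z => z ^ (m + 1) * Bn (m + 1) (w κ z))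
    (z ^ m * Bn m (w κ z)) (-(κ * z ^ (m + 2) * Bn (m + 2) (w κ z))) z := by
  have h := ((Wd.id z).pow m).mul (Wd_B κ (m + 1) z)
  refine h.congr ?_ ?_
  · have hr := Pool.Agent.Y971.SG.rec_Bn m (w κ z)
    have hw := w_eq κ z
    have : -Bn (m + 1 + 1) (w κ z) * (κ * conj z) * z = Bn m (w κ z) - ((m : ℂ) + 1) * Bn (m + 1) (w κ z) := by
      have h3 : -Bn (m + 1 + 1) (w κ z) * (κ * conj z) * z = -(w κ z * Bn (m + 2) (w κ z)) := by
        rw [show m + 1 + 1 = m + 2 from rfl]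
        conv_rhs => rw [show w κ z * Bn (m + 2) (w κ z) = (κ * z * conj z) * Bn (m + 2) (w κ z) by rw [← hw]]
        ring
      rw [h3, hr]; ring
    simp only [mul_one]
    linear_combination z ^ m * this
  · simp only [mul_zero, zero_mul, zero_add]
    ring

/-- the term `z̄^(m+1) Bn (m+1) w` -/
lemma Wd_Tc (κ : ℝ) (m : ℕ) (z : ℂ) : Wd (fun z => conj z ^ (m + 1) * Bn (m + 1) (w κ z))
    (-(κ * conj z ^ (m + 2) * Bn (m + 2) (w κ z))) (conj z ^ m * Bn m (w κ z)) z := by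
  have h := ((Wd.conj z).pow m).mul (Wd_B κ (m + 1) z)
  refine h.congr ?_ ?_
  · simp only [mul_zero, zero_mul, zero_add]
    ring
  · have hr := Pool.Agent.Y971.SG.rec_Bn m (w κ z)
    have hw := w_eq κ z
    have : -Bn (m + 1 + 1) (w κ z) * (κ * z) * conj z = Bn m (w κ z) - ((m : ℂ) + 1) * Bn (m + 1) (w κ z) := by
      have h3 : -Bn (m + 1 + 1) (w κ z) * (κ * z) * conj z = -(w κ z * Bn (m + 2) (w κ z)) := by
        rw [show m + 1 + 1 = m + 2 from rfl]
        conv_rhs => rw [show w κ z * Bn (m + 2) (w κ z) = (κ * z * conj z) * Bn (m + 2) (w κ z) by rw [← hw]]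
        ring
      rw [h3, hr]; ring
    simp only [mul_one]
    linear_combination conj z ^ m * this

/-- the complex function -/
noncomputable def FF (κ e : ℝ) (a : ℕ → ℂ) (M : ℕ) (z : ℂ) : ℂ :=
  F e a (fun m => conj (a m)) M (fun m => Bn m (w κ z)) z (conj z)

/-- its derivative -/
noncomputable def GG (κ e : ℝ) (a : ℕ → ℂ) (M : ℕ) (z : ℂ) : ℂ :=
  F1 κ e a (fun m => conj (a m)) M (fun m => Bn m (w κ z)) z (conj z)

lemma UU_eq (κ e : ℝ) (a : ℕ → ℂ) (M : ℕ) : UU κ e a M = fun z => (FF κ e a M z).re := rfl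

lemma Wd_FF (κ e : ℝ) (a : ℕ → ℂ) (M : ℕ) (z : ℂ) : Wd (FF κ e a M) (GG κ e a M z)
    (F1 κ e (fun m => conj (a m)) a M (fun m => Bn m (w κ z)) (conj z) z) z := by
  have h1 := (Wd.const (e : ℂ) z).mul (Wd_B κ 0 z)
  have h2 := Wd.sum (Finset.range M) (z := z)
    (f := fun m z => a m * (z ^ (m + 1) * Bn (m + 1) (w κ z)) +
      conj (a m) * (conj z ^ (m + 1) * Bn (m + 1) (w κ z)))
    (fun m _ => ((Wd.const (a m) z).mul (Wd_T κ m z)).add
      ((Wd.const (conj (a m)) z).mul (Wd_Tc κ m z)))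
  have h3 := h1.add h2
  have e1 : FF κ e a M = fun z => (e : ℂ) * Bn 0 (w κ z) + ∑ m ∈ Finset.range M,
      (a m * (z ^ (m + 1) * Bn (m + 1) (w κ z)) +
      conj (a m) * (conj z ^ (m + 1) * Bn (m + 1) (w κ z))) := by
    funext z
    simp only [FF, F]
    congr 1
    refine Finset.sum_congr rfl fun m _ => ?_
    ring
  rw [e1]
  refine h3.congr ?_ ?_
  · simp only [GG, F1, zero_mul, zero_add]
    rw [sub_eq_add_neg, add_comm]
    congr 1
    · refine Finset.sum_congr rfl fun m _ => ?_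
      ring
    · ring
  · simp only [F1, zero_mul, zero_add]
    rw [sub_eq_add_neg, add_comm]
    congr 1
    · refine Finset.sum_congr rfl fun m _ => ?_
      ring
    · ring

lemma Wd_GG (κ e : ℝ) (a : ℕ → ℂ) (M : ℕ) (z : ℂ) : ∃ P, Wd (GG κ e a M) P
    (-(κ * FF κ e a M z)) z := by
  choose P hP using fun m => Wd_T0 κ m z
  have h1 := (Wd.const ((κ : ℂ) * e) z).mul (Wd_Tc κ 0 z)
  have h2 := Wd.sum (Finset.range M) (z := z)
    (f := fun m z => a m * (z ^ m * Bn m (w κ z)) -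
      (κ * conj (a m)) * (conj z ^ (m + 2) * Bn (m + 2) (w κ z)))
    (fun m _ => ((Wd.const (a m) z).mul (hP m)).sub
      ((Wd.const ((κ : ℂ) * conj (a m)) z).mul (Wd_Tc κ (m + 1) z)))
  have h3 := h2.sub h1
  have e1 : GG κ e a M = fun z => (∑ m ∈ Finset.range M,
      (a m * (z ^ m * Bn m (w κ z)) -
      (κ * conj (a m)) * (conj z ^ (m + 2) * Bn (m + 2) (w κ z)))) -
      (κ : ℂ) * e * (conj z ^ (0 + 1) * Bn (0 + 1) (w κ z)) := by
    funext z
    simp only [GG, F1]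
    congr 1
    · refine Finset.sum_congr rfl fun m _ => ?_
      ring
    · simp; ring
  rw [e1]
  refine ⟨_, h3.congr rfl ?_⟩
  simp only [FF, F, zero_mul, zero_add, pow_zero, one_mul]
  rw [mul_add, neg_add, Finset.mul_sum, ← Finset.sum_neg_distrib, sub_eq_add_neg, add_comm]
  congr 1
  · ring
  · refine Finset.sum_congr rfl fun m _ => ?_
    ring

lemma bn_conj (m : ℕ) (x : ℝ) : conj (Bn m (x : ℂ)) = Bn m (x : ℂ) := by
  have h := Pool.Agent.Y971.SG.hasSum_tm m (x : ℂ)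
  have h2 := (Complex.hasSum_conj'.2 h)
  have e : (fun k => conj (Pool.Agent.Y971.SG.tm m (x : ℂ) k)) =
      Pool.Agent.Y971.SG.tm m (x : ℂ) := by
    funext k
    simp [Pool.Agent.Y971.SG.tm]
  rw [e] at h2
  exact h2.unique h

lemma bw_conj (κ : ℝ) (m : ℕ) (z : ℂ) : conj (Bn m (w κ z)) = Bn m (w κ z) := bn_conj m _

lemma FF_smooth (κ e : ℝ) (a : ℕ → ℂ) (M : ℕ) : ContDiff ℝ ∞ (FF κ e a M) := by
  have hc : ContDiff ℝ ∞ (fun z : ℂ => conj z) := Complex.conjCLE.contDiff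
  have hw : ContDiff ℝ ∞ (w κ) := by
    have e : w κ = fun z => (κ : ℂ) * z * conj z := funext (w_eq κ)
    rw [e]
    exact (contDiff_const.mul contDiff_id).mul hc
  have hB : ∀ m, ContDiff ℝ ∞ (fun z => Bn m (w κ z)) := by
    intro m
    have h1 : ContDiff ℂ ∞ (Bn m) := (Pool.Agent.Y971.SG.bes m).1.contDiff
    exact (h1.restrict_scalars ℝ).comp hw
  unfold FF F
  refine (contDiff_const.mul (hB 0)).add (ContDiff.sum fun m _ => ?_)
  exact ((contDiff_const.mul (contDiff_id.pow _)).add (contDiff_const.mul (hc.pow _))).mul (hB _)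

end SF9

open SF9 in
theorem UU_cast (κ e : ℝ) (a : ℕ → ℂ) (M : ℕ) (z : ℂ) :
    F e a (fun m => conj (a m)) M (fun m => Bn m ((κ * normSq z : ℝ) : ℂ)) z (conj z) =
      (UU κ e a M z : ℂ) := by
  rw [eq_comm]
  refine Complex.conj_eq_iff_re.1 ?_
  simp only [F, map_add, map_mul, map_sum, map_pow, Complex.conj_conj, bn_conj, Complex.conj_ofReal]
  congr 1
  refine Finset.sum_congr rfl fun m _ => ?_
  ring

open SF9 in
theorem F1_conj (κ e : ℝ) (a : ℕ → ℂ) (M : ℕ) (z : ℂ) :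
    F1 κ e (fun m => conj (a m)) a M (fun m => Bn m ((κ * normSq z : ℝ) : ℂ)) (conj z) z =
      conj (F1 κ e a (fun m => conj (a m)) M (fun m => Bn m ((κ * normSq z : ℝ) : ℂ)) z (conj z)) := by
  simp only [F1, map_sub, map_mul, map_sum, map_pow, Complex.conj_conj, bn_conj, Complex.conj_ofReal]

open SF9 in
theorem UU_smooth (κ e : ℝ) (a : ℕ → ℂ) (M : ℕ) : ContDiff ℝ ∞ (UU κ e a M) :=
  Complex.reCLM.contDiff.comp (FF_smooth κ e a M)

open SF9 in
theorem UU_fderiv (κ e : ℝ) (a : ℕ → ℂ) (M : ℕ) (z v : ℂ) :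
    fderiv ℝ (UU κ e a M) z v =
      2 * (F1 κ e a (fun m => conj (a m)) M (fun m => Bn m ((κ * normSq z : ℝ) : ℂ)) z (conj z) *
        v).re := by
  have h1 : HasFDerivAt (FF κ e a M) _ z := Wd_FF κ e a M z
  have h2 : HasFDerivAt (UU κ e a M) _ z := Complex.reCLM.hasFDerivAt.comp z h1
  rw [h2.fderiv]
  have h3 := F1_conj κ e a M z
  change (Complex.reCLM (Lpq _ _ v)) = _
  rw [Lpq_apply]
  simp only [w]
  rw [h3]
  simp only [GG, w, Complex.reCLM_apply]
  rw [← map_mul, Complex.add_re, Complex.conj_re]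
  ring

open SF9 in
theorem UU_crit (κ e : ℝ) (a : ℕ → ℂ) (M : ℕ) (z : ℂ) :
    fderiv ℝ (UU κ e a M) z = 0 ↔
      F1 κ e a (fun m => conj (a m)) M (fun m => Bn m ((κ * normSq z : ℝ) : ℂ)) z (conj z) = 0 := by
  constructor
  · intro h
    set G := F1 κ e a (fun m => conj (a m)) M (fun m => Bn m ((κ * normSq z : ℝ) : ℂ)) z (conj z)
      with hG
    have h1 := UU_fderiv κ e a M z (conj G)
    rw [h, ← hG, Complex.mul_conj] at h1
    simp only [ContinuousLinearMap.zero_apply, Complex.ofReal_re] at h1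
    have h2 : normSq G = 0 := by linarith
    exact Complex.normSq_eq_zero.1 h2
  · intro h
    ext v
    rw [UU_fderiv, h]
    simp

open SF9 in
/-- the Helmholtz equation -/
theorem UU_la (κ e : ℝ) (a : ℕ → ℂ) (M : ℕ) (z : ℂ) :
    Pool.Agent.R227.SA.la (UU κ e a M) z = -(4 * κ * UU κ e a M z) := by
  obtain ⟨P, hP⟩ := Wd_GG κ e a M z
  have key : ∀ v : ℂ, Pool.Agent.TH298.Sch.dd v (Pool.Agent.TH298.Sch.dd v (UU κ e a M)) z =
      2 * ((P * v + (-(κ * FF κ e a M z)) * conj v) * v).re := by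
    intro v
    have e1 : Pool.Agent.TH298.Sch.dd v (UU κ e a M) = fun z => 2 * (GG κ e a M z * v).re := by
      funext y
      exact UU_fderiv κ e a M y v
    rw [e1]
    have h2 : HasFDerivAt (fun z => GG κ e a M z * v) _ z := HasFDerivAt.mul_const hP v
    have h3 : HasFDerivAt (fun z => (GG κ e a M z * v).re) _ z :=
      Complex.reCLM.hasFDerivAt.comp z h2
    have h4 := h3.const_mul (2 : ℝ)
    unfold Pool.Agent.TH298.Sch.dd
    rw [h4.fderiv]
    simp [Lpq_apply]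
    ring
  unfold Pool.Agent.R227.SA.la
  rw [key, key]
  have h5 : UU κ e a M z = (FF κ e a M z).re := rfl
  rw [h5]
  simp [Complex.add_re, Complex.mul_re]
  ring

open SF9 in
theorem UU_wat (κ e : ℝ) (a : ℕ → ℂ) (M : ℕ) :
    Pool.Agent.R227.SA.Wat Set.univ (4 * κ) (UU κ e a M) := by
  refine ⟨(UU_smooth κ e a M).continuous, fun x hx => absurd (Set.mem_univ x) hx, fun x₀ _ => ?_⟩
  let b : ContDiffBump x₀ := ⟨1, 2, one_pos, one_lt_two⟩
  refine ⟨1, one_pos, fun x => b x * UU κ e a M x, ⟨?_, ?_⟩, Set.subset_univ _, fun x hx => ?_⟩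
  · exact b.contDiff.mul (UU_smooth κ e a M)
  · exact b.hasCompactSupport.mul_right
  · have hev : (fun x => b x * UU κ e a M x) =ᶠ[𝓝 x] UU κ e a M := by
      filter_upwards [Metric.isOpen_ball.mem_nhds hx] with y hy
      rw [b.one_of_mem_closedBall (Metric.ball_subset_closedBall hy), one_mul]
    have h1 : b x * UU κ e a M x = UU κ e a M x := hev.eq_of_nhds
    refine ⟨h1.symm, ?_⟩
    have h2 : Pool.Agent.R227.SA.la (fun x => b x * UU κ e a M x) x =
        Pool.Agent.R227.SA.la (UU κ e a M) x := by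
      have hd : ∀ v, Pool.Agent.TH298.Sch.dd v (fun x => b x * UU κ e a M x) =ᶠ[𝓝 x]
          Pool.Agent.TH298.Sch.dd v (UU κ e a M) := by
        intro v
        filter_upwards [hev.fderiv (𝕜 := ℝ)] with y hy
        unfold Pool.Agent.TH298.Sch.dd
        rw [hy]
      unfold Pool.Agent.R227.SA.la
      have hdd : ∀ v, Pool.Agent.TH298.Sch.dd v
          (Pool.Agent.TH298.Sch.dd v (fun x => b x * UU κ e a M x)) x =
          Pool.Agent.TH298.Sch.dd v (Pool.Agent.TH298.Sch.dd v (UU κ e a M)) x := by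
        intro v
        have h3 := (hd v).fderiv_eq (𝕜 := ℝ)
        change fderiv ℝ _ x v = fderiv ℝ _ x v
        rw [h3]
      rw [hdd, hdd]
    rw [h2, UU_la]
    exact congrArg (fun t => -(4 * κ * t)) h1.symm

end Pool.Agent.Helper327_Sch
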