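import Pool.Agent.R227.SA10
import Pool.Agent.TH298.AN.ODEM
import Pool.Agent.Helper327_Sch.UDefs
import Pool.Agent.Helper327_Sch.Fin.SF9
import Pool.Agent.Helper327_Sch.Fin.SF13
import Pool.Agent.Helper327_Drum.Fin.ST0

/-!
Unique continuation of a finite Fourier-Bessel expansion (job CC4 of helper327, by helper389).
-/

set_option autoImplicit false

open MeasureTheory Set Filter Complex
open scoped Topology ContDiff ComplexConjugate

namespace Pool.Agent.Helper327_Sch.CC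

open Pool.Agent.TH298.Sch (Sol dd X er)
open Pool.Agent.TH298.AN (mc ms)
open Pool.Agent.R227.SA (Dat la)
open Pool.Agent.Helper327_Sch (J)

variable {Ω : Set ℂ} {lam c : ℝ}

namespace CC4

theorem dat_analytic {v : ℂ → ℝ} (D : Dat Ω lam c v) (hlam : 0 < lam) {x₀ : ℂ} (hx : x₀ ∈ Ω) :
    AnalyticAt ℝ (fun x => v x + c) x₀ := by
  obtain ⟨r, hr, U, hU, _, h⟩ := D.loc x₀ hx
  have h1 : AnalyticAt ℝ U x₀ :=
    Pool.Agent.Helper327_Drum.helm_analytic hU hlam hr fun x hx => (h x hx).2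
  refine h1.congr ?_
  filter_upwards [Metric.ball_mem_nhds x₀ hr] with x hx
  exact ((h x hx).1).symm

theorem wat_analytic {κ : ℝ} {w : ℂ → ℝ} (h : Pool.Agent.R227.SA.Wat Set.univ κ w) (hκ : 0 < κ)
    (x₀ : ℂ) : AnalyticAt ℝ w x₀ := by
  obtain ⟨r, hr, U, hU, _, h⟩ := h.loc x₀ (Set.mem_univ _)
  have h1 : AnalyticAt ℝ U x₀ :=
    Pool.Agent.Helper327_Drum.helm_analytic hU hκ hr fun x hx => (h x hx).2
  refine h1.congr ?_
  filter_upwards [Metric.ball_mem_nhds x₀ hr] with x hx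
  exact ((h x hx).1).symm

end CC4

open CC4 in
/-- Unique continuation: an expansion valid in a disc is valid in the whole domain. -/
theorem propagate {v : ℂ → ℝ} (D : Dat Ω lam c v) (ho : IsOpen Ω) (hco : IsPreconnected Ω)
    (hlam : 0 < lam) (p : ℂ) (r : ℝ) (hr : 0 < r) (hball : Metric.ball p r ⊆ Ω) (M : ℕ)
    (α β : ℕ → ℝ)
    (h : ∀ x ∈ Metric.ball p r, v x + c = ∑ m ∈ Finset.range (M + 1),
      J m (Real.sqrt lam * ‖x - p‖) *
        (α m * Real.cos (m * arg (x - p)) + β m * Real.sin (m * arg (x - p)))) :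
    ∀ x ∈ Ω, v x + c = ∑ m ∈ Finset.range (M + 1),
      J m (Real.sqrt lam * ‖x - p‖) *
        (α m * Real.cos (m * arg (x - p)) + β m * Real.sin (m * arg (x - p))) := by
  obtain ⟨a, ha⟩ : ∃ a : ℕ → ℂ, a = fun m =>
    (((Real.sqrt lam / 2) ^ (m + 1) / 2 : ℝ) : ℂ) * (α (m + 1) - β (m + 1) * I) := ⟨_, rfl⟩
  have hW : ∀ x : ℂ, ∑ m ∈ Finset.range (M + 1), J m (Real.sqrt lam * ‖x - p‖) *
      (α m * Real.cos (m * arg (x - p)) + β m * Real.sin (m * arg (x - p))) =
        UU (lam / 4) (α 0) a M (x - p) := by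
    intro x
    rw [ha]
    exact uu_of_J lam hlam α β M (x - p)
  simp only [hW] at h ⊢
  have hWa : ∀ x₀ : ℂ, AnalyticAt ℝ (fun x : ℂ => UU (lam / 4) (α 0) a M (x - p)) x₀ := by
    intro x₀
    have h1 : AnalyticAt ℝ (UU (lam / 4) (α 0) a M) (x₀ - p) :=
      wat_analytic (UU_wat (lam / 4) (α 0) a M) (by linarith) (x₀ - p)
    have h2 : AnalyticAt ℝ (fun x : ℂ => x - p) x₀ := analyticAt_id.sub analyticAt_const
    exact AnalyticAt.comp (g := UU (lam / 4) (α 0) a M) (f := fun x : ℂ => x - p) h1 h2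
  have hG : AnalyticOnNhd ℝ (fun x : ℂ => (v x + c) - UU (lam / 4) (α 0) a M (x - p)) Ω :=
    fun x hx => (dat_analytic D hlam hx).sub (hWa x)
  have h0 : (fun x : ℂ => (v x + c) - UU (lam / 4) (α 0) a M (x - p)) =ᶠ[𝓝 p] 0 := by
    filter_upwards [Metric.ball_mem_nhds p hr] with x hx
    rw [h x hx, sub_self]
    rfl
  have hz := hG.eqOn_zero_of_preconnected_of_eventuallyEq_zero hco
    (hball (Metric.mem_ball_self hr)) h0
  intro x hx
  have h3 := hz hx
  simp only [Pi.zero_apply] at h3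
  linarith

end Pool.Agent.Helper327_Sch.CC
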