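import Pool.Agent.R227.SA10
import Pool.Agent.TH298.AN.ODEM
import Pool.Agent.TH298.AN.Main
import Pool.Agent.Helper327_Sch.UDefs
import Pool.Agent.Helper327_Sch.Fin.CC3

/-! A linear relation with trigonometric right-hand side between a solution of the Helmholtz equation
in a disc and its radial derivative on a concentric circle kills the high modes. -/

set_option autoImplicit false

open MeasureTheory Set Filter Complex
open scoped Topology ContDiff ComplexConjugate

namespace Pool.Agent.Helper327_Sch.CC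

open Pool.Agent.TH298.Sch (Sol dd X er)
open Pool.Agent.TH298.AN (mc ms dc ds)
open Pool.Agent.R227.SA (Dat la)
open Pool.Agent.Helper327_Sch (J)

variable {Ω : Set ℂ} {lam c : ℝ}

namespace CR

open TH259.NS (B B_deriv B_zero)
open Pool.Agent.TH298.AN.ODEM (ze pe ze_deriv)

/-- lower bound for large index -/
theorem B_half (n : ℕ) {t : ℝ} (ht : 0 ≤ t) (hn : 2 * (t * Real.exp t) ≤ n + 1) :
    1 / (2 * (n.factorial : ℝ)) ≤ B n t := by
  have hn0 : (0 : ℝ) < n.factorial := by positivity
  have h1 : ∀ s ∈ Icc (0 : ℝ) t, ‖-B (n + 1) s‖ ≤ Real.exp t / ((n + 1).factorial : ℝ) := by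
    intro s hs
    rw [norm_neg, Real.norm_eq_abs]
    refine (Pool.Agent.TH298.AN.B_abs (n + 1) hs.1).trans ?_
    exact div_le_div_of_nonneg_right (Real.exp_le_exp.2 hs.2) (by positivity)
  have h2 := (convex_Icc (0 : ℝ) t).norm_image_sub_le_of_norm_hasDerivWithin_le
    (f := B n) (fun s _ => (B_deriv n s).hasDerivWithinAt) h1
    (left_mem_Icc.2 ht) (right_mem_Icc.2 ht)
  rw [Real.norm_eq_abs, Real.norm_eq_abs, sub_zero, abs_of_nonneg ht, B_zero] at h2
  have h3 := (abs_le.1 h2).1
  have h4 : Real.exp t / ((n + 1).factorial : ℝ) * t ≤ 1 / (2 * (n.factorial : ℝ)) := by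
    rw [Nat.factorial_succ, div_mul_eq_mul_div, div_le_div_iff₀ (by positivity) (by positivity)]
    push_cast
    have h5 : Real.exp t * t * (2 * (n.factorial : ℝ)) =
        2 * (t * Real.exp t) * n.factorial := by ring
    rw [h5, one_mul]
    exact mul_le_mul_of_nonneg_right hn hn0.le
  have h5 : 1 / (n.factorial : ℝ) = 1 / (2 * (n.factorial : ℝ)) + 1 / (2 * (n.factorial : ℝ)) := by
    field_simp; norm_num
  linarith

/-- upper bound for the next one -/
theorem B_next (n : ℕ) {t : ℝ} (ht : 0 ≤ t) :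
    |2 * t * B (n + 1) t| ≤ 2 * (t * Real.exp t) / ((n + 1 : ℝ) * n.factorial) := by
  have h1 := Pool.Agent.TH298.AN.B_abs (n + 1) ht
  rw [Nat.factorial_succ] at h1
  push_cast at h1
  rw [abs_mul, abs_of_nonneg (by positivity : (0 : ℝ) ≤ 2 * t)]
  calc 2 * t * |B (n + 1) t| ≤ 2 * t * (Real.exp t / ((n + 1 : ℝ) * n.factorial)) :=
        mul_le_mul_of_nonneg_left h1 (by positivity)
    _ = _ := by ring

theorem robin_ne {A E : ℝ} (hAE : A ≠ 0 ∨ E ≠ 0) {lam r : ℝ} (hlam : 0 < lam) (hr : 0 < r) :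
    ∃ N : ℕ, ∀ n : ℕ, N < n → A * ze n lam r + E * (pe n lam r / r) ≠ 0 := by
  set t : ℝ := lam * r ^ 2 / 4 with ht
  have ht0 : 0 ≤ t := by positivity
  obtain ⟨N1, hN1⟩ := exists_nat_ge (2 * (t * Real.exp t))
  obtain ⟨N2, hN2⟩ := exists_nat_ge (2 + |A| * r / |E|)
  refine ⟨max N1 N2, fun n hn h0 => ?_⟩
  have hn1 : 2 * (t * Real.exp t) ≤ n + 1 := by
    have : (N1 : ℝ) < n := by exact_mod_cast (le_max_left _ _).trans_lt hn
    linarith
  have hn2 : 2 + |A| * r / |E| < n := by
    have : (N2 : ℝ) < n := by exact_mod_cast (le_max_right _ _).trans_lt hn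
    linarith
  have hB := B_half n ht0 hn1
  have hB1 := B_next n ht0
  have hnf : (0 : ℝ) < n.factorial := by positivity
  have hrn : r ^ n ≠ 0 := pow_ne_zero _ hr.ne'
  have h1 : (A + E * n / r) * B n t - E / r * (2 * t * B (n + 1) t) = 0 := by
    have h2 : A * ze n lam r + E * (pe n lam r / r) =
        r ^ n * ((A + E * n / r) * B n t - E / r * (2 * t * B (n + 1) t)) := by
      unfold ze pe
      rw [← ht]
      field_simp
      ring
    rw [h2] at h0
    exact (mul_eq_zero.1 h0).resolve_left hrn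
  rcases eq_or_ne E 0 with hE | hE
  · have hA : A ≠ 0 := by
      rcases hAE with h | h
      · exact h
      · exact absurd hE h
    rw [hE] at h1
    simp only [zero_mul, zero_div, add_zero, sub_zero, mul_eq_zero] at h1
    rcases h1 with h1 | h1
    · exact hA h1
    · rw [h1] at hB
      have : (0 : ℝ) < 1 / (2 * (n.factorial : ℝ)) := by positivity
      linarith
  · have hE0 : 0 < |E| := abs_pos.2 hE
    have h2 : (A + E * n / r) * B n t = E / r * (2 * t * B (n + 1) t) := by linarith
    have h3 : |A + E * n / r| * B n t = |E| / r * |2 * t * B (n + 1) t| := by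
      have hBn : 0 ≤ B n t := le_trans (by positivity) hB
      have := congrArg abs h2
      rw [abs_mul, abs_mul, abs_of_nonneg hBn, abs_div, abs_of_pos hr] at this
      exact this
    have h4 : 2 * |E| / r < |A + E * n / r| := by
      have h5 : |E * n / r| = |E| * n / r := by
        rw [abs_div, abs_mul, abs_of_pos hr, Nat.abs_cast]
      have h6 : |E * n / r| - |A| ≤ |A + E * n / r| := by
        have := abs_sub_abs_le_abs_sub (E * n / r) (-A)
        rw [abs_neg, sub_neg_eq_add, add_comm (E * n / r)] at this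
        exact this
      have h7 : 2 * |E| / r < |E| * n / r - |A| := by
        have h8 : (2 + |A| * r / |E|) * (|E| / r) < n * (|E| / r) :=
          mul_lt_mul_of_pos_right hn2 (by positivity)
        have h9 : (2 + |A| * r / |E|) * (|E| / r) = 2 * |E| / r + |A| := by
          field_simp
        have h10 : (n : ℝ) * (|E| / r) = |E| * n / r := by ring
        rw [h9, h10] at h8
        linarith
      rw [h5] at h6
      linarith
    have h5 : |E| / r * |2 * t * B (n + 1) t| ≤ |E| / r * (1 / n.factorial) := by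
      refine mul_le_mul_of_nonneg_left (hB1.trans ?_) (by positivity)
      rw [div_le_div_iff₀ (by positivity) hnf, one_mul]
      exact mul_le_mul_of_nonneg_right hn1 hnf.le
    have h6 : 2 * |E| / r * (1 / (2 * (n.factorial : ℝ))) < |A + E * n / r| * B n t :=
      mul_lt_mul h4 hB (by positivity) (abs_nonneg _)
    rw [h3] at h6
    have h7 : 2 * |E| / r * (1 / (2 * (n.factorial : ℝ))) = |E| / r * (1 / n.factorial) := by
      field_simp
    rw [h7] at h6
    linarith

end CR

open CR TH259.NS in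
open Pool.Agent.TH298.AN.ODEM (ze pe ze_deriv) in
theorem modes_zero_R {V : ℂ → ℝ} {ρ r : ℝ} (hlam : 0 < lam) (hV : ContDiff ℝ (⊤ : ℕ∞) V)
    (hH : ∀ x : ℂ, ‖x‖ < ρ → dd 1 (dd 1 V) x + dd Complex.I (dd Complex.I V) x = -(lam * V x))
    (hr : 0 < r) (hrρ : r < ρ) (A E : ℝ) (hAE : A ≠ 0 ∨ E ≠ 0) (M : ℕ) (a b : ℕ → ℝ)
    (hd : ∀ θ : ℝ, A * V (X r θ) + E * fderiv ℝ V (X r θ) (er θ) =
      ∑ m ∈ Finset.range (M + 1), (a m * Real.cos (m * θ) + b m * Real.sin (m * θ))) :
    ∃ N : ℕ, ∀ n : ℕ, N < n → ∀ s ∈ Icc 0 r, mc V n s = 0 ∧ ms V n s = 0 := by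
  have hρ : 0 < ρ := hr.trans hrρ
  obtain ⟨N, hN⟩ := robin_ne hAE hlam hr
  have hod := Pool.Agent.TH298.AN.odem ρ lam V hρ hlam hV hH
  have hXc : Continuous fun θ => V (X r θ) := hV.continuous.comp (by
    unfold Pool.Agent.TH298.Sch.X; fun_prop)
  have hXd : Continuous fun θ => fderiv ℝ V (X r θ) (er θ) :=
    (Pool.Agent.TH298.AN.cont_dr hV).comp (by fun_prop : Continuous fun θ : ℝ => (r, θ))
  have key : ∀ (n : ℕ) (y : ℝ → ℝ) (y' : ℝ) (α : ℝ), N < n → HasDerivAt y y' r →
      (∀ s ∈ Icc 0 ρ, y s = α * s ^ n * B n (lam * s ^ 2 / 4)) → A * y r + E * y' = 0 →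
      ∀ s ∈ Icc 0 r, y s = 0 := by
    intro n y y' α hn hy hα h0 s hs
    have h1 : y =ᶠ[𝓝 r] fun s => α * ze n lam s := by
      filter_upwards [Ioo_mem_nhds hr hrρ] with s hs
      rw [hα s ⟨hs.1.le, hs.2.le⟩]
      unfold Pool.Agent.TH298.AN.ODEM.ze
      ring
    have h2 : y' = α * (pe n lam r / r) :=
      (hy.congr_of_eventuallyEq h1.symm).unique ((ze_deriv n lam hr).const_mul α)
    have h3 : y r = α * ze n lam r := h1.self_of_nhds
    have h4 : α * (A * ze n lam r + E * (pe n lam r / r)) = 0 := by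
      rw [h2, h3] at h0
      linarith
    have h5 : α = 0 := (mul_eq_zero.1 h4).resolve_right (hN n hn)
    rw [hα s ⟨hs.1, hs.2.trans hrρ.le⟩, h5, zero_mul, zero_mul]
  refine ⟨max M N, fun n hn s hs => ⟨?_, ?_⟩⟩
  · obtain ⟨α, hα⟩ := (hod n).1
    refine key n (mc V n) (dc V n r) α ((le_max_right _ _).trans_lt hn)
      (Pool.Agent.TH298.AN.mc_deriv hV n r) hα ?_ s hs
    have h1 : A * mc V n r + E * dc V n r = ∫ θ in (-Real.pi)..Real.pi,
        (∑ m ∈ Finset.range (M + 1), (1 : ℝ) * (a m * Real.cos (m * θ) +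
          b m * Real.sin (m * θ))) * Real.cos (n * θ) := by
      unfold Pool.Agent.TH298.AN.mc Pool.Agent.TH298.AN.dc
      have hc1 : Continuous fun θ : ℝ => A * (V (X r θ) * Real.cos (n * θ)) :=
        continuous_const.mul (hXc.mul (by fun_prop))
      have hc2 : Continuous fun θ : ℝ => E * (fderiv ℝ V (X r θ) (er θ) * Real.cos (n * θ)) :=
        continuous_const.mul (hXd.mul (by fun_prop))
      rw [← intervalIntegral.integral_const_mul, ← intervalIntegral.integral_const_mul,
        ← intervalIntegral.integral_add (hc1.intervalIntegrable _ _) (hc2.intervalIntegrable _ _)]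
      refine intervalIntegral.integral_congr fun θ _ => ?_
      simp only [one_mul]
      rw [← hd θ]
      ring
    rw [h1, CC3.sum_cos M (fun _ => 1) a b n, if_neg]
    rw [Finset.mem_range, not_lt]
    exact (le_max_left _ _).trans_lt hn
  · obtain ⟨α, hα⟩ := (hod n).2
    refine key n (ms V n) (ds V n r) α ((le_max_right _ _).trans_lt hn)
      (Pool.Agent.TH298.AN.ms_deriv hV n r) hα ?_ s hs
    have h1 : A * ms V n r + E * ds V n r = ∫ θ in (-Real.pi)..Real.pi,
        (∑ m ∈ Finset.range (M + 1), (1 : ℝ) * (a m * Real.cos (m * θ) +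
          b m * Real.sin (m * θ))) * Real.sin (n * θ) := by
      unfold Pool.Agent.TH298.AN.ms Pool.Agent.TH298.AN.ds
      have hc1 : Continuous fun θ : ℝ => A * (V (X r θ) * Real.sin (n * θ)) :=
        continuous_const.mul (hXc.mul (by fun_prop))
      have hc2 : Continuous fun θ : ℝ => E * (fderiv ℝ V (X r θ) (er θ) * Real.sin (n * θ)) :=
        continuous_const.mul (hXd.mul (by fun_prop))
      rw [← intervalIntegral.integral_const_mul, ← intervalIntegral.integral_const_mul,
        ← intervalIntegral.integral_add (hc1.intervalIntegrable _ _) (hc2.intervalIntegrable _ _)]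
      refine intervalIntegral.integral_congr fun θ _ => ?_
      simp only [one_mul]
      rw [← hd θ]
      ring
    rw [h1, CC3.sum_sin M (fun _ => 1) a b n, if_neg]
    rw [Finset.mem_range, not_lt]
    exact (le_max_left _ _).trans_lt hn

end Pool.Agent.Helper327_Sch.CC
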