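import Pool.Agent.Helper327_Sch.Fin.FIN
import Pool.Agent.Helper327_Sch.Fin.CC1
import Pool.Agent.Helper327_Sch.Fin.CC3
import Pool.Agent.Helper327_Sch.Fin.CC4
import Pool.Agent.Helper327_Sch.Fin.CR

/-! Solutions of the overdetermined problem whose values and radial derivatives on one circle in the
domain satisfy a linear relation with a trigonometric polynomial on the right-hand side. -/

set_option autoImplicit false

open MeasureTheory Set Filter Complex
open scoped Topology ContDiff ComplexConjugate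

namespace Pool.Agent.Helper327_Sch.CC

open Pool.Agent.TH298.Sch (Sol dd X er)
open Pool.Agent.TH298.AN (mc ms)
open Pool.Agent.R227.SA (Dat la)
open Pool.Agent.Helper327_Sch (J)

variable {Ω : Set ℂ} {lam c : ℝ}

theorem X_analytic (r : ℝ) (θ : ℝ) : AnalyticAt ℝ (fun θ : ℝ => X r θ) θ := by
  unfold X
  have hc : AnalyticAt ℝ (fun θ : ℝ => ((Real.cos θ : ℝ) : ℂ)) θ :=
    Complex.ofRealCLM.analyticAt _ |>.comp Real.analyticAt_cos
  have hs : AnalyticAt ℝ (fun θ : ℝ => ((Real.sin θ : ℝ) : ℂ)) θ :=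
    Complex.ofRealCLM.analyticAt _ |>.comp Real.analyticAt_sin
  exact analyticAt_const.mul (hc.add (hs.mul analyticAt_const))

theorem S_analytic (M : ℕ) (a b : ℕ → ℝ) (θ : ℝ) : AnalyticAt ℝ (fun θ : ℝ =>
    ∑ m ∈ Finset.range (M + 1), (a m * Real.cos (m * θ) + b m * Real.sin (m * θ))) θ := by
  refine Finset.analyticAt_fun_sum _ fun m _ => ?_
  have h : AnalyticAt ℝ (fun θ : ℝ => (m : ℝ) * θ) θ := analyticAt_const.mul analyticAt_id
  exact (analyticAt_const.mul (Real.analyticAt_cos.comp h)).add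
    (analyticAt_const.mul (Real.analyticAt_sin.comp h))

theorem X_arg {p x : ℂ} {r : ℝ} (hx : x ∈ Metric.sphere p r) : p + X r (arg (x - p)) = x := by
  unfold X
  have h1 : ‖x - p‖ = r := by rwa [mem_sphere_iff_norm] at hx
  have h2 := Complex.norm_mul_cos_add_sin_mul_I (x - p)
  rw [h1] at h2
  push_cast at h2 ⊢
  rw [h2]; ring

theorem trig_of_inf {f : ℂ → ℝ} {p : ℂ} {r : ℝ} (hr : 0 < r)
    (hf : ∀ x ∈ Metric.sphere p r, AnalyticAt ℝ f x) (M : ℕ) (a b : ℕ → ℝ)
    (h : {x ∈ Metric.sphere p r | f x = ∑ m ∈ Finset.range (M + 1),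
      (a m * Real.cos (m * arg (x - p)) + b m * Real.sin (m * arg (x - p)))}.Infinite) (θ : ℝ) :
    f (p + X r θ) = ∑ m ∈ Finset.range (M + 1),
      (a m * Real.cos (m * θ) + b m * Real.sin (m * θ)) := by
  have hXs : ∀ θ : ℝ, p + X r θ ∈ Metric.sphere p r := by
    intro θ
    rw [mem_sphere_iff_norm, add_sub_cancel_left]
    unfold X
    have h1 : ((Real.cos θ : ℂ) + Real.sin θ * Complex.I) = Complex.exp (θ * I) := by
      rw [Complex.exp_mul_I, ofReal_cos, ofReal_sin]
    rw [norm_mul, h1, Complex.norm_exp_ofReal_mul_I, mul_one, Complex.norm_real, Real.norm_eq_abs,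
      abs_of_pos hr]
  have hg : AnalyticOnNhd ℝ (fun θ : ℝ => f (p + X r θ)) univ := by
    intro t _
    have h1 : AnalyticAt ℝ (fun θ : ℝ => p + X r θ) t := analyticAt_const.add (X_analytic r t)
    exact AnalyticAt.comp (g := f) (f := fun θ : ℝ => p + X r θ) (hf _ (hXs t)) h1
  have hS : AnalyticOnNhd ℝ (fun θ : ℝ => ∑ m ∈ Finset.range (M + 1),
      (a m * Real.cos (m * θ) + b m * Real.sin (m * θ))) univ := fun t _ => S_analytic M a b t
  have hinj : InjOn (fun x : ℂ => arg (x - p)) {x ∈ Metric.sphere p r | f x =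
      ∑ m ∈ Finset.range (M + 1),
      (a m * Real.cos (m * arg (x - p)) + b m * Real.sin (m * arg (x - p)))} := by
    rintro x ⟨hx, -⟩ y ⟨hy, -⟩ hxy
    rw [← X_arg hx, ← X_arg hy]
    simp only at hxy
    rw [hxy]
  have hinf := h.image hinj
  obtain ⟨t₀, -, hacc⟩ := hinf.exists_accPt_of_subset_isCompact
    (isCompact_Icc : IsCompact (Icc (-Real.pi) Real.pi)) (by
      rintro _ ⟨x, -, rfl⟩
      exact ⟨(Complex.neg_pi_lt_arg _).le, Complex.arg_le_pi _⟩)
  have hfreq : ∃ᶠ t in 𝓝[≠] t₀, f (p + X r t) = ∑ m ∈ Finset.range (M + 1),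
      (a m * Real.cos (m * t) + b m * Real.sin (m * t)) := by
    rw [accPt_iff_frequently_nhdsNE] at hacc
    refine hacc.mono ?_
    rintro _ ⟨x, ⟨hx, hfx⟩, rfl⟩
    simp only
    rw [X_arg hx, hfx]
  exact hg.eqOn_of_preconnected_of_frequently_eq hS isPreconnected_univ (mem_univ t₀) hfreq
    (mem_univ θ)

/-- a circle in a bounded domain with connected complement bounds a disc in the domain -/
theorem ball_of_sphere {Ω : Set ℂ} (hb : Bornology.IsBounded Ω)
    (hco : IsPreconnected Ωᶜ) {p : ℂ} {r : ℝ} (hs : Metric.sphere p r ⊆ Ω) :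
    Metric.closedBall p r ⊆ Ω := by
  intro x hx
  by_contra hxΩ
  have hxb : x ∈ Metric.ball p r := by
    rcases (Metric.mem_closedBall.1 hx).lt_or_eq with h1 | h1
    · exact h1
    · exact absurd (hs h1) hxΩ
  obtain ⟨K, hK⟩ := hb.subset_closedBall p
  have hy : ∃ y : ℂ, y ∉ Ω ∧ r < dist y p := by
    refine ⟨p + ((|K| + |r| + 1 : ℝ) : ℂ), fun hy => ?_, ?_⟩
    · have h1 := hK hy
      rw [Metric.mem_closedBall, dist_eq_norm, add_sub_cancel_left, Complex.norm_real,
        Real.norm_eq_abs, abs_of_nonneg (by positivity)] at h1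
      have := le_abs_self K
      have := abs_nonneg r
      linarith
    · rw [dist_eq_norm, add_sub_cancel_left, Complex.norm_real,
        Real.norm_eq_abs, abs_of_nonneg (by positivity)]
      have := le_abs_self r
      have := abs_nonneg K
      linarith
  obtain ⟨y, hyΩ, hyr⟩ := hy
  have hcov : Ωᶜ ⊆ Metric.ball p r ∪ (Metric.closedBall p r)ᶜ := by
    intro z hz
    rcases lt_trichotomy (dist z p) r with h1 | h1 | h1
    · exact Or.inl h1
    · exact absurd (hs h1) hz
    · exact Or.inr fun h2 => absurd (Metric.mem_closedBall.1 h2) (not_le.2 h1)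
  obtain ⟨z, -, hz1, hz2⟩ := hco _ _ Metric.isOpen_ball Metric.isClosed_closedBall.isOpen_compl
    hcov ⟨x, hxΩ, hxb⟩ ⟨y, hyΩ, fun h2 => absurd (Metric.mem_closedBall.1 h2) (not_le.2 hyr)⟩
  exact hz2 (Metric.ball_subset_closedBall hz1)

theorem norm_X {r : ℝ} (hr : 0 < r) (θ : ℝ) : ‖X r θ‖ = r := by
  unfold X
  have h1 : ((Real.cos θ : ℂ) + Real.sin θ * Complex.I) = Complex.exp (θ * I) := by
    rw [Complex.exp_mul_I, ofReal_cos, ofReal_sin]
  rw [norm_mul, h1, Complex.norm_exp_ofReal_mul_I, mul_one, Complex.norm_real, Real.norm_eq_abs,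
    abs_of_pos hr]

theorem fderiv_analytic {u : ℂ → ℝ} (p : ℂ) {x : ℂ} (h : AnalyticAt ℝ u x) :
    AnalyticAt ℝ (fun x => fderiv ℝ u x (x - p)) x := by
  have h1 := h.fderiv
  have h2 : AnalyticAt ℝ (fun x : ℂ => x - p) x := analyticAt_id.sub analyticAt_const
  have h3 := (ContinuousLinearMap.apply ℝ ℝ (E := ℂ)).analyticAt_bilinear (x - p, fderiv ℝ u x)
  exact AnalyticAt.comp₂
    (h := fun q : ℂ × (ℂ →L[ℝ] ℝ) => (ContinuousLinearMap.apply ℝ ℝ (E := ℂ)) q.1 q.2) h3 h2 h1

/-- a linear relation with trigonometric right-hand side at infinitely many points of a circle -/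
theorem circ_level (ho : IsOpen Ω) (hb : Bornology.IsBounded Ω) (hΩ : IsConnected Ω)
    (hco : IsPreconnected Ωᶜ) (hreg : interior (closure Ω) = Ω) (hlam : 0 < lam)
    {u : ℂ → ℝ} {G : ℂ → ℂ} (h : Sol Ω lam c u G) (hu0 : ¬ (u =ᵐ[volume.restrict Ω] 0))
    (hcont : ContinuousOn u Ω) (p : ℂ) (r : ℝ) (hr : 0 < r) (hsph : Metric.sphere p r ⊆ Ω)
    (A E : ℝ) (hAE : A ≠ 0 ∨ E ≠ 0) (M : ℕ) (a b : ℕ → ℝ)
    (hT : {x ∈ Metric.sphere p r | A * u x + E * fderiv ℝ u x (x - p) =
      ∑ m ∈ Finset.range (M + 1),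
        (a m * Real.cos (m * arg (x - p)) + b m * Real.sin (m * arg (x - p)))}.Infinite) :
    ∃ R K : ℝ, 0 < R ∧ Ω = Metric.ball p R ∧ J 1 (Real.sqrt lam * R) = 0 ∧
      ∀ x ∈ Ω, u x = K * J 0 (Real.sqrt lam * ‖x - p‖) := by
  have hball := ball_of_sphere hb hco hsph
  obtain ⟨v, D, hv⟩ := dat_ae ho hb hreg hlam h
  have huv : ∀ x ∈ Ω, u x = v x + c := by
    have := Measure.eqOn_open_of_ae_eq (μ := volume) (U := Ω) (f := u) (g := fun x => v x + c)
      hv ho hcont (D.c1.continuous.add continuous_const).continuousOn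
    exact fun x hx => this hx
  have hua : ∀ x ∈ Ω, AnalyticAt ℝ u x := by
    intro x hx
    refine (CC4.dat_analytic D hlam hx).congr ?_
    filter_upwards [ho.mem_nhds hx] with y hy
    exact (huv y hy).symm
  have hfa : ∀ x ∈ Metric.sphere p r,
      AnalyticAt ℝ (fun x => A * u x + E * fderiv ℝ u x (x - p)) x := fun x hx =>
    (analyticAt_const.mul (hua x (hsph hx))).add
      (analyticAt_const.mul (fderiv_analytic p (hua x (hsph hx))))
  have hTa := trig_of_inf (f := fun x => A * u x + E * fderiv ℝ u x (x - p)) hr hfa M a b hT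
  obtain ⟨V, ρ, hV, hrρ, hH, hVv⟩ := glob D p r hr hball
  have hVu : ∀ x : ℂ, ‖x‖ ≤ r → V x = u (x + p) := by
    intro x hx
    rw [hVv x (lt_of_le_of_lt hx hrρ), huv]
    apply hball
    rw [Metric.mem_closedBall, dist_eq_norm, add_sub_cancel_right]
    exact hx
  have hN : ∃ N : ℕ, ∀ n : ℕ, N < n → ∀ s ∈ Icc 0 r, mc V n s = 0 ∧ ms V n s = 0 := by
    refine modes_zero_R hlam hV hH hr hrρ A (E * r) ?_ M a b fun θ => ?_
    · rcases hAE with h1 | h1
      · exact Or.inl h1
      · exact Or.inr (mul_ne_zero h1 hr.ne')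
    · have hX : X r θ = r * er θ := rfl
      have h1 : fderiv ℝ V (X r θ) = fderiv ℝ u (X r θ + p) := by
        have h2 : V =ᶠ[𝓝 (X r θ)] fun x => u (x + p) := by
          have h3 : ∀ᶠ x in 𝓝 (X r θ), ‖x‖ < ρ :=
            continuous_norm.continuousAt.eventually_lt continuousAt_const
              (by rw [norm_X hr θ]; exact hrρ)
          have h4 : ∀ᶠ x in 𝓝 (X r θ), x + p ∈ Ω := by
            have h5 : ContinuousAt (fun x : ℂ => x + p) (X r θ) := by fun_prop
            refine h5.eventually_mem (ho.mem_nhds (hball ?_))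
            rw [Metric.mem_closedBall, dist_eq_norm, add_sub_cancel_right, norm_X hr θ]
          filter_upwards [h3, h4] with x hx1 hx2
          rw [hVv x hx1, huv _ hx2]
        rw [h2.fderiv_eq]
        exact fderiv_comp_add_right p
      have h6 := hTa θ
      simp only [add_sub_cancel_left] at h6
      rw [add_comm p (X r θ)] at h6
      rw [← h6, hVu _ (norm_X hr θ).le, h1]
      have h8 : X r θ = (r : ℝ) • er θ := by rw [hX, Complex.real_smul]
      have h9 : (fderiv ℝ u (X r θ + p)) (X r θ) = r * (fderiv ℝ u (X r θ + p)) (er θ) := by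
        conv_lhs => rw [show (fderiv ℝ u (X r θ + p)) (X r θ) =
          (fderiv ℝ u (X r θ + p)) (r • er θ) from congrArg _ h8]
        rw [map_smul, smul_eq_mul]
      rw [h9]
      ring
  obtain ⟨N, hN⟩ := hN
  obtain ⟨α, β, hαβ⟩ := finite_of_modes hlam hV hH hr hrρ N hN
  have hexp := propagate D ho hΩ.isPreconnected hlam p r hr
    (Metric.ball_subset_closedBall.trans hball) N α β (by
      intro x hx
      have h1 : ‖x - p‖ < r := by rwa [Metric.mem_ball, dist_eq_norm] at hx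
      rw [← hαβ (x - p) h1.le, hVv (x - p) (h1.trans hrρ), sub_add_cancel])
  obtain ⟨R, hR, hΩR, hJR, hm⟩ := finite_modes ho hb hΩ.nonempty hco hreg hlam h hu0 p N α β (by
    filter_upwards [hv, ae_restrict_mem ho.measurableSet] with x hx hxΩ
    rw [hx, hexp x hxΩ])
  refine ⟨R, α 0, hR, hΩR, hJR, fun x hx => ?_⟩
  rw [huv x hx, hexp x hx, Finset.sum_eq_single 0]
  · simp [mul_comm]
  · intro m hm1 hm2
    obtain ⟨h1, h2⟩ := hm m (Nat.one_le_iff_ne_zero.2 hm2)
      (Nat.lt_succ_iff.1 (Finset.mem_range.1 hm1))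
    rw [h1, h2]; ring
  · intro h0
    exact absurd (Finset.mem_range.2 (Nat.succ_pos N)) h0

end Pool.Agent.Helper327_Sch.CC
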