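import Pool.Agent.Helper327_Sch.Defs

set_option autoImplicit false

open Complex Polynomial Filter Topology Set
open scoped ComplexConjugate

namespace Pool.Agent.Helper327_Sch

open Pool.Agent.Y245.SG (Bn Sys)

namespace SF11

theorem ann_preconn (p : ℂ) (a b : ℝ) (ha : 0 ≤ a) :
    IsPreconnected {x : ℂ | a < ‖x - p‖ ∧ ‖x - p‖ < b} := by
  have himg : {x : ℂ | a < ‖x - p‖ ∧ ‖x - p‖ < b} =
      (fun q : ℝ × ℝ => p + (q.1 : ℂ) * Complex.exp ((q.2 : ℂ) * Complex.I)) ''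
        ((Ioo a b) ×ˢ (Set.univ : Set ℝ)) := by
    ext x
    constructor
    · rintro ⟨h1, h2⟩
      refine ⟨(‖x - p‖, Complex.arg (x - p)), ⟨⟨h1, h2⟩, mem_univ _⟩, ?_⟩
      simp only
      rw [Complex.norm_mul_exp_arg_mul_I]
      ring
    · rintro ⟨⟨s, t⟩, ⟨⟨h1, h2⟩, -⟩, rfl⟩
      simp only at h1 h2
      have hs : 0 ≤ s := by linarith
      have hn : ‖p + (s : ℂ) * Complex.exp ((t : ℂ) * Complex.I) - p‖ = s := by
        rw [add_sub_cancel_left, norm_mul, Complex.norm_exp_ofReal_mul_I, mul_one,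
          Complex.norm_real, Real.norm_of_nonneg hs]
      simp only [mem_ofPred_eq, hn]
      exact ⟨h1, h2⟩
  rw [himg]
  apply IsPreconnected.image
  · exact isPreconnected_Ioo.prod isPreconnected_univ
  · apply Continuous.continuousOn
    fun_prop

theorem meet_frontier {A Ω : Set ℂ} (hA : IsPreconnected A) (h1 : (A ∩ Ω).Nonempty)
    (h2 : (A ∩ Ωᶜ).Nonempty) : (A ∩ frontier Ω).Nonempty := by
  by_contra hcon
  have hno : ∀ x ∈ A, x ∉ frontier Ω := fun x hx hf => hcon ⟨x, hx, hf⟩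
  have hin : ∀ x ∈ A, x ∈ Ω → x ∈ interior Ω := by
    intro x hx hxo
    by_contra hni
    exact hno x hx ⟨subset_closure hxo, hni⟩
  have hout : ∀ x ∈ A, x ∉ Ω → x ∈ (closure Ω)ᶜ := by
    intro x hx hxo hc
    exact hno x hx ⟨hc, fun h => hxo (interior_subset h)⟩
  obtain ⟨a, ha, hao⟩ := h1
  obtain ⟨b, hb, hbo⟩ := h2
  obtain ⟨w, -, hw1, hw2⟩ := hA _ _ isOpen_interior isClosed_closure.isOpen_compl (by
    intro y hy
    by_cases h : y ∈ Ω
    · exact Or.inl (hin y hy h)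
    · exact Or.inr (hout y hy h)) ⟨a, ha, hin a ha hao⟩ ⟨b, hb, hout b hb hbo⟩
  exact hw2 (subset_closure (interior_subset hw1))

end SF11

theorem frontier_inf (Ω : Set ℂ) (ho : IsOpen Ω) (hb : Bornology.IsBounded Ω) (hne : Ω.Nonempty) :
    (frontier Ω).Infinite := by
  obtain ⟨z0, hz0⟩ := hne
  obtain ⟨ε, hε, hball⟩ := Metric.isOpen_iff.1 ho z0 hz0
  obtain ⟨R, hR⟩ := hb.subset_closedBall (0 : ℂ)
  have key : Ioo (z0.re - ε) (z0.re + ε) ⊆ Complex.re '' frontier Ω := by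
    intro s hs
    have hconv : Convex ℝ {z : ℂ | z.re = s} := by
      intro x hx y hy a b _ _ hab
      simp only [mem_ofPred_eq] at hx hy ⊢
      simp only [Complex.add_re, Complex.real_smul, Complex.mul_re, Complex.ofReal_re,
        Complex.ofReal_im, zero_mul, sub_zero, hx, hy]
      rw [← add_mul, hab, one_mul]
    have h1 : ({z : ℂ | z.re = s} ∩ Ω).Nonempty := by
      refine ⟨⟨s, z0.im⟩, rfl, hball ?_⟩
      rw [Metric.mem_ball, dist_eq_norm]
      have : (⟨s, z0.im⟩ : ℂ) - z0 = ((s - z0.re : ℝ) : ℂ) := by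
        apply Complex.ext <;> simp
      rw [this, Complex.norm_real, Real.norm_eq_abs, abs_lt]
      constructor <;> linarith [hs.1, hs.2]
    have h2 : ({z : ℂ | z.re = s} ∩ Ωᶜ).Nonempty := by
      refine ⟨⟨s, |R| + 1⟩, rfl, fun hmem => ?_⟩
      have := hR hmem
      rw [Metric.mem_closedBall, dist_zero_right] at this
      have h3 := Complex.abs_im_le_norm (⟨s, |R| + 1⟩ : ℂ)
      simp only at h3
      have h4 : |R| + 1 ≤ |(|R| + 1)| := le_abs_self _
      have h5 : R ≤ |R| := le_abs_self _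
      linarith
    obtain ⟨w, hw1, hw2⟩ := SF11.meet_frontier hconv.isPreconnected h1 h2
    exact ⟨w, hw2, hw1⟩
  intro hfin
  exact (Ioo_infinite (by linarith)) ((hfin.image _).subset key)

theorem ball_of_circles (Ω : Set ℂ) (ho : IsOpen Ω) (hb : Bornology.IsBounded Ω)
    (hne : Ω.Nonempty) (hco : IsPreconnected Ωᶜ) (p : ℂ) (T : Set ℝ)
    (hT : ∀ R : ℝ, (T ∩ Icc 0 R).Finite) (hfr : ∀ x ∈ frontier Ω, ‖x - p‖ ∈ T) :
    ∃ r ∈ T, 0 < r ∧ Ω = Metric.ball p r := by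
  obtain ⟨x1, hx1, hmax⟩ := hb.isCompact_closure.exists_isMaxOn hne.closure
    (f := fun x : ℂ => ‖x - p‖) (by fun_prop)
  set r := ‖x1 - p‖ with hr
  have hcl : Ω ⊆ Metric.closedBall p r := by
    intro y hy
    rw [Metric.mem_closedBall, dist_eq_norm]
    exact hmax (subset_closure hy)
  have hsub : Ω ⊆ Metric.ball p r := by
    rw [← interior_closedBall' p r]
    exact interior_maximal hcl ho
  have hrpos : 0 < r := by
    obtain ⟨y, hy⟩ := hne
    have := hsub hy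
    rw [Metric.mem_ball, dist_eq_norm] at this
    exact (norm_nonneg _).trans_lt this
  have hx1n : x1 ∉ Ω := fun h => by
    have := hsub h
    rw [Metric.mem_ball, dist_eq_norm] at this
    exact lt_irrefl _ this
  have hx1f : x1 ∈ frontier Ω := by
    rw [frontier, ho.interior_eq]
    exact ⟨hx1, hx1n⟩
  have hrT : r ∈ T := hfr x1 hx1f
  obtain ⟨r', hr'0, hr'r, hgap⟩ : ∃ r' : ℝ, 0 ≤ r' ∧ r' < r ∧ ∀ t ∈ T, r' < t → t < r → False := by
    have hS : (insert 0 ((T ∩ Icc 0 r) \ {r}) : Set ℝ).Finite := ((hT r).sdiff).insert 0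
    obtain ⟨r', hr'S, hr'max⟩ := Set.exists_max_image _ id hS ⟨0, mem_insert _ _⟩
    have hS2 : ∀ t ∈ (insert 0 ((T ∩ Icc 0 r) \ {r}) : Set ℝ), 0 ≤ t ∧ t < r := by
      intro t ht
      rcases ht with rfl | ht
      · exact ⟨le_refl _, hrpos⟩
      · exact ⟨ht.1.2.1, lt_of_le_of_ne ht.1.2.2 (by simpa using ht.2)⟩
    refine ⟨r', (hS2 r' hr'S).1, (hS2 r' hr'S).2, fun t htT h1 h2 => ?_⟩
    have : t ∈ (insert 0 ((T ∩ Icc 0 r) \ {r}) : Set ℝ) :=
      Or.inr ⟨⟨htT, (hS2 r' hr'S).1.trans h1.le, h2.le⟩, by simpa using h2.ne⟩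
    have h3 := hr'max t this
    simp only [id] at h3
    linarith
  set A : Set ℂ := {x : ℂ | r' < ‖x - p‖ ∧ ‖x - p‖ < r} with hA
  have hAc : IsPreconnected A := SF11.ann_preconn p r' r hr'0
  have hAne : (A ∩ Ω).Nonempty := by
    have hopen : IsOpen {x : ℂ | r' < ‖x - p‖} := isOpen_lt continuous_const (by fun_prop)
    obtain ⟨y, hy1, hy2⟩ := mem_closure_iff.1 hx1 _ hopen (show r' < ‖x1 - p‖ from hr'r)
    refine ⟨y, ⟨hy1, ?_⟩, hy2⟩
    have := hsub hy2
    rwa [Metric.mem_ball, dist_eq_norm] at this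
  have hAsub : A ⊆ Ω := by
    by_contra hcon
    rw [Set.not_subset] at hcon
    obtain ⟨y, hy1, hy2⟩ := hcon
    obtain ⟨w, hw1, hw2⟩ := SF11.meet_frontier hAc hAne ⟨y, hy1, hy2⟩
    exact hgap _ (hfr w hw2) hw1.1 hw1.2
  have hUsub : ∀ x : ℂ, ‖x - p‖ < (r' + r) / 2 → x ∈ Ω := by
    intro x hx
    by_contra hxn
    have hU : IsOpen {x : ℂ | ‖x - p‖ < (r' + r) / 2} := isOpen_lt (by fun_prop) continuous_const
    have hV : IsOpen {x : ℂ | (r' + r) / 2 < ‖x - p‖} := isOpen_lt continuous_const (by fun_prop)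
    obtain ⟨w, -, hw1, hw2⟩ := hco _ _ hU hV (by
      intro y hy
      rcases lt_trichotomy ‖y - p‖ ((r' + r) / 2) with h | h | h
      · exact Or.inl h
      · exact absurd (hAsub ⟨by rw [h]; linarith, by rw [h]; linarith⟩) hy
      · exact Or.inr h) ⟨x, hxn, hx⟩ ⟨x1, hx1n, show (r' + r) / 2 < ‖x1 - p‖ by linarith⟩
    simp only [mem_ofPred_eq] at hw1 hw2
    linarith
  refine ⟨r, hrT, hrpos, Subset.antisymm hsub ?_⟩
  intro x hx
  rw [Metric.mem_ball, dist_eq_norm] at hx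
  rcases lt_or_ge ‖x - p‖ ((r' + r) / 2) with h | h
  · exact hUsub x h
  · exact hAsub ⟨by linarith, hx⟩

end Pool.Agent.Helper327_Sch
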