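import Pool.Agent.Helper327_Sch.Defs
import Pool.Agent.Y971.SG.Bes
import Pool.Agent.Helper327_Sch.Fin.SF1

set_option autoImplicit false

open Complex Polynomial Filter Topology Set
open scoped ComplexConjugate

namespace Pool.Agent.Helper327_Sch

open Pool.Agent.Y245.SG (Bn Sys)

theorem fam_deriv (x y : ℂ → ℂ) (hS : Sys x y) (m : ℕ) (ω : ℂ) :
    HasDerivAt (fam x y m) (-(exp ω) * fam x y (m + 1) ω) ω := by
  have hE : exp ω * exp (-ω) = 1 := by rw [← Complex.exp_add, add_neg_cancel, Complex.exp_zero]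
  have key : ∀ m : ℕ, HasDerivAt (fam x y m) (-(exp ω) * fam x y (m + 1) ω) ω ∧
      HasDerivAt (fam x y (m + 1)) (-(exp ω) * fam x y (m + 2) ω) ω := by
    intro m
    induction m with
    | zero =>
      refine ⟨(hS ω).1, (hS ω).2.congr_deriv ?_⟩
      have e : fam x y (0 + 2) ω = exp (-ω) * (((0 : ℕ) + 1 : ℂ) * y ω - x ω) := rfl
      rw [e]
      push_cast
      linear_combination -(x ω - y ω) * hE
    | succ m ih =>
      refine ⟨ih.2, ?_⟩
      have h1 : HasDerivAt (fun ω : ℂ => exp (-ω)) (exp (-ω) * (-1)) ω :=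
        (hasDerivAt_neg ω).cexp
      have h2 := h1.mul ((ih.2.const_mul ((m : ℂ) + 1)).sub ih.1)
      have e : fam x y (m + 1 + 1) = fun ω => exp (-ω) *
          (((m : ℂ) + 1) * fam x y (m + 1) ω - fam x y m ω) := rfl
      rw [e]
      refine h2.congr_deriv ?_
      have e3 : fam x y (m + 1 + 2) ω = exp (-ω) *
          ((((m + 1 : ℕ) : ℂ) + 1) * fam x y (m + 2) ω - fam x y (m + 1) ω) := rfl
      have e2 : fam x y (m + 2) ω = exp (-ω) *
          (((m : ℂ) + 1) * fam x y (m + 1) ω - fam x y m ω) := rfl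
      rw [e3]
      simp only [Pi.sub_apply]
      push_cast
      linear_combination e2 + fam x y (m + 2) ω * hE
  exact (key m).1

theorem curve_deriv (x y : ℂ → ℂ) (hS : Sys x y) (κ : ℝ) (hκ : 0 < κ) (e : ℂ) (a b : ℕ → ℂ) (M : ℕ)
    (γ : ℝ → ℂ) (γ' : ℂ) (t : ℝ) (hγ : HasDerivAt γ γ' t) (h0 : γ t ≠ 0) :
    HasDerivAt (fun s => F e a b M (fun m => fam x y m ((Real.log (κ * normSq (γ s)) : ℝ) : ℂ))
        (γ s) (conj (γ s)))
      (F1 κ e a b M (fun m => fam x y m ((Real.log (κ * normSq (γ t)) : ℝ) : ℂ)) (γ t)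
          (conj (γ t)) * γ' +
        F1 κ e b a M (fun m => fam x y m ((Real.log (κ * normSq (γ t)) : ℝ) : ℂ)) (conj (γ t))
          (γ t) * conj γ') t := by
  have hz : γ t ≠ 0 := h0
  have hζ : conj (γ t) ≠ 0 := by simpa using h0
  have hκ' : (κ : ℂ) ≠ 0 := by exact_mod_cast hκ.ne'
  have hpos : 0 < κ * normSq (γ t) := mul_pos hκ (normSq_pos.2 h0)
  have hconj : HasDerivAt (fun s => conj (γ s)) (conj γ') t := hγ.star
  -- the derivative of the logarithm
  have hL : HasDerivAt (fun s => ((Real.log (κ * normSq (γ s)) : ℝ) : ℂ))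
      (γ' / γ t + conj γ' / conj (γ t)) t := by
    have h1 := hγ.mul hconj
    have h2 : HasDerivAt (fun s => normSq (γ s)) ((γ' * conj (γ t) + γ t * conj γ').re) t := by
      have h3 := (Complex.reCLM.hasFDerivAt (x := γ t * conj (γ t))).comp_hasDerivAt t h1
      have e : (fun s => normSq (γ s)) = (⇑Complex.reCLM ∘ ((fun s => γ s) * fun s => conj (γ s))) := by
        funext s
        simp only [Function.comp, Pi.mul_apply, Complex.mul_conj, Complex.reCLM_apply,
          Complex.ofReal_re]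
      rw [e]
      exact h3
    have h3 := ((h2.const_mul κ).log hpos.ne').ofReal_comp
    refine h3.congr_deriv ?_
    have e1 : (((γ' * conj (γ t) + γ t * conj γ').re : ℝ) : ℂ) =
        γ' * conj (γ t) + γ t * conj γ' := by
      apply Complex.conj_eq_iff_re.1
      simp only [map_add, map_mul, Complex.conj_conj]
      ring
    have e2 : ((normSq (γ t) : ℝ) : ℂ) = γ t * conj (γ t) := (Complex.mul_conj _).symm
    rw [Complex.ofReal_div, Complex.ofReal_mul, Complex.ofReal_mul, e1, e2]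
    field_simp
  -- the exponential
  have hE : exp ((Real.log (κ * normSq (γ t)) : ℝ) : ℂ) = κ * (γ t * conj (γ t)) := by
    rw [← Complex.ofReal_exp, Real.exp_log hpos, Complex.ofReal_mul, Complex.mul_conj]
  have hf : ∀ m : ℕ, HasDerivAt (fun s => fam x y m ((Real.log (κ * normSq (γ s)) : ℝ) : ℂ))
      (-(κ * (γ t * conj (γ t))) * fam x y (m + 1) ((Real.log (κ * normSq (γ t)) : ℝ) : ℂ) *
        (γ' / γ t + conj γ' / conj (γ t))) t := by
    intro m
    have h := (fam_deriv x y hS m ((Real.log (κ * normSq (γ t)) : ℝ) : ℂ)).comp t hL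
    rw [hE] at h
    exact h
  have hr : ∀ m : ℕ, κ * (γ t * conj (γ t)) * fam x y (m + 2) ((Real.log (κ * normSq (γ t)) : ℝ) : ℂ)
      = ((m : ℂ) + 1) * fam x y (m + 1) ((Real.log (κ * normSq (γ t)) : ℝ) : ℂ) -
        fam x y m ((Real.log (κ * normSq (γ t)) : ℝ) : ℂ) := by
    intro m
    have h := rec_fam x y ((Real.log (κ * normSq (γ t)) : ℝ) : ℂ) m
    rw [hE] at h
    exact h
  set f : ℕ → ℂ := fun m => fam x y m ((Real.log (κ * normSq (γ t)) : ℝ) : ℂ) with hfdef
  have hsum : HasDerivAt (fun s => ∑ m ∈ Finset.range M, (a m * (γ s) ^ (m + 1) +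
      b m * (conj (γ s)) ^ (m + 1)) * fam x y (m + 1) ((Real.log (κ * normSq (γ s)) : ℝ) : ℂ))
      (∑ m ∈ Finset.range M, ((a m * (γ t) ^ m * f m - κ * b m * (conj (γ t)) ^ (m + 2) * f (m + 2)) * γ' +
        (b m * (conj (γ t)) ^ m * f m - κ * a m * (γ t) ^ (m + 2) * f (m + 2)) * conj γ')) t := by
    refine HasDerivAt.fun_sum fun m _ => ?_
    have p1 := (hγ.fun_pow (m + 1)).const_mul (a m)
    have p2 := (hconj.fun_pow (m + 1)).const_mul (b m)
    refine ((p1.add p2).mul (hf (m + 1))).congr_deriv ?_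
    have h := hr m
    change κ * (γ t * conj (γ t)) * f (m + 2) = ((m : ℂ) + 1) * f (m + 1) - f m at h
    rw [Nat.add_sub_cancel]
    change (a m * (((m + 1 : ℕ) : ℂ) * γ t ^ m * γ') + b m * (((m + 1 : ℕ) : ℂ) * conj (γ t) ^ m * conj γ')) *
      f (m + 1) + (a m * γ t ^ (m + 1) + b m * conj (γ t) ^ (m + 1)) *
      (-(κ * (γ t * conj (γ t))) * f (m + 2) * (γ' / γ t + conj γ' / conj (γ t))) = _
    have q : γ t * conj (γ t) * (γ' / γ t + conj γ' / conj (γ t)) =
        γ' * conj (γ t) + conj γ' * γ t := by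
      field_simp
    push_cast
    linear_combination (a m * γ t ^ (m + 1) + b m * conj (γ t) ^ (m + 1)) * (-κ * f (m + 2)) * q -
      (a m * γ t ^ m * γ' + b m * conj (γ t) ^ m * conj γ') * h
  have h0' : HasDerivAt (fun s => e * fam x y 0 ((Real.log (κ * normSq (γ s)) : ℝ) : ℂ))
      (-(κ * e * conj (γ t) * f 1) * γ' - (κ * e * γ t * f 1) * conj γ') t := by
    refine ((hf 0).const_mul e).congr_deriv ?_
    change e * (-(κ * (γ t * conj (γ t))) * f (0 + 1) * (γ' / γ t + conj γ' / conj (γ t))) = _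
    have q : γ t * conj (γ t) * (γ' / γ t + conj γ' / conj (γ t)) =
        γ' * conj (γ t) + conj γ' * γ t := by
      field_simp
    rw [zero_add]
    linear_combination (-κ * e * f 1) * q
  refine (h0'.add hsum).congr_deriv ?_
  unfold F1
  rw [Finset.sum_add_distrib, ← Finset.sum_mul, ← Finset.sum_mul]
  ring

theorem fam_bn (m : ℕ) (ω : ℂ) :
    fam (fun ω => Bn 0 (exp ω)) (fun ω => Bn 1 (exp ω)) m ω = Bn m (exp ω) := by
  have hE : exp (-ω) * exp ω = 1 := by rw [← Complex.exp_add, neg_add_cancel, Complex.exp_zero]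
  have key : ∀ m : ℕ, fam (fun ω => Bn 0 (exp ω)) (fun ω => Bn 1 (exp ω)) m ω = Bn m (exp ω) ∧
      fam (fun ω => Bn 0 (exp ω)) (fun ω => Bn 1 (exp ω)) (m + 1) ω = Bn (m + 1) (exp ω) := by
    intro m
    induction m with
    | zero => exact ⟨rfl, rfl⟩
    | succ m ih =>
      refine ⟨ih.2, ?_⟩
      have e : fam (fun ω => Bn 0 (exp ω)) (fun ω => Bn 1 (exp ω)) (m + 1 + 1) ω = exp (-ω) *
          (((m : ℂ) + 1) * fam (fun ω => Bn 0 (exp ω)) (fun ω => Bn 1 (exp ω)) (m + 1) ω -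
            fam (fun ω => Bn 0 (exp ω)) (fun ω => Bn 1 (exp ω)) m ω) := rfl
      have h := Pool.Agent.Y971.SG.rec_Bn m (exp ω)
      rw [e, ih.1, ih.2, ← h, ← mul_assoc, hE, one_mul]
  exact (key m).1

end Pool.Agent.Helper327_Sch
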