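import Pool.Agent.Helper327_Sch.Defs
import Pool.Agent.Y971.SG.Bes
import Pool.Agent.Y987.SG.Zer
import Pool.Agent.Helper327_Sch.Fin.SF1

set_option autoImplicit false

open Complex Polynomial Filter Topology Set
open scoped ComplexConjugate

namespace Pool.Agent.Helper327_Sch

open Pool.Agent.Y245.SG (Bn Sys)

/-- the derivative cannot vanish at infinitely many points of a circle -/
theorem circle_case (κ : ℝ) (hκ : 0 < κ) (e : ℂ) (a b : ℕ → ℂ) (M : ℕ) (hM : 0 < M)
    (ha : a (M - 1) ≠ 0) (hb : b (M - 1) ≠ 0) (ρ : ℝ) (hρ : 0 < ρ) (S : Set ℂ) (hS : S.Infinite)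
    (h : ∀ z ∈ S, normSq z = ρ ∧
      F1 κ e a b M (fun m => Bn m ((κ * ρ : ℝ) : ℂ)) z (conj z) = 0) : False := by
  set w : ℂ := ((κ * ρ : ℝ) : ℂ) with hw
  set f : ℕ → ℂ := fun m => Bn m w with hf
  have hκC : (κ : ℂ) ≠ 0 := by exact_mod_cast hκ.ne'
  have hρC : (ρ : ℂ) ≠ 0 := by exact_mod_cast hρ.ne'
  let P : ℂ[X] := ∑ m ∈ Finset.range M, (C (a m * f m) * X ^ (m + M + 1) -
      C (κ * b m * ρ ^ (m + 2) * f (m + 2)) * X ^ (M - 1 - m)) - C (κ * e * ρ * f 1) * X ^ M
  have hroot : ∀ z ∈ S, P.eval z = 0 := by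
    intro z hz
    obtain ⟨h1, h2⟩ := h z hz
    have hzz : z * conj z = (ρ : ℂ) := by rw [mul_conj, h1]
    have key : P.eval z = z ^ (M + 1) * F1 κ e a b M f z (conj z) := by
      simp only [P, F1, eval_sub, eval_finsetSum, eval_mul, eval_C, eval_pow, eval_X]
      rw [mul_sub, Finset.mul_sum]
      congr 1
      · apply Finset.sum_congr rfl
        intro m hm
        have hm' : m < M := Finset.mem_range.1 hm
        have e1 : z ^ (M + 1) * (conj z) ^ (m + 2) = (ρ : ℂ) ^ (m + 2) * z ^ (M - 1 - m) := by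
          have : M + 1 = (m + 2) + (M - 1 - m) := by omega
          rw [← hzz, mul_pow]
          conv_lhs => rw [this, pow_add]
          ring
        have e2 : z ^ (m + M + 1) = z ^ (M + 1) * z ^ m := by
          rw [← pow_add]; congr 1; omega
        rw [e2]
        linear_combination (κ * b m * f (m + 2)) * e1
      · rw [← hzz]
        ring
    rw [key, h2, mul_zero]
  have hP : P = 0 := by
    apply Polynomial.eq_zero_of_infinite_isRoot
    exact hS.mono (fun z hz => hroot z hz)
  have hc1 : a (M - 1) * f (M - 1) = 0 := by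
    have h1 : P.coeff (M + M) = 0 := by rw [hP]; simp
    simp only [P, coeff_sub, finsetSum_coeff, coeff_C_mul_X_pow] at h1
    rw [Finset.sum_eq_single (M - 1)] at h1
    · rw [if_pos (by omega), if_neg (by omega), if_neg (by omega)] at h1
      simpa using h1
    · intro m hm hne
      have hm' : m < M := Finset.mem_range.1 hm
      rw [if_neg (by omega), if_neg (by omega), sub_zero]
    · intro hcon
      exact absurd (Finset.mem_range.2 (by omega)) hcon
  have hc2 : κ * b (M - 1) * ρ ^ (M - 1 + 2) * f (M - 1 + 2) = 0 := by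
    have h1 : P.coeff 0 = 0 := by rw [hP]; simp
    simp only [P, coeff_sub, finsetSum_coeff, coeff_C_mul_X_pow] at h1
    rw [Finset.sum_eq_single (M - 1)] at h1
    · rw [if_neg (by omega), if_pos (by omega), if_neg (by omega)] at h1
      simpa using h1
    · intro m hm hne
      have hm' : m < M := Finset.mem_range.1 hm
      rw [if_neg (by omega), if_neg (by omega), sub_zero]
    · intro hcon
      exact absurd (Finset.mem_range.2 (by omega)) hcon
  have hf1 : f (M - 1) = 0 := by
    rcases mul_eq_zero.1 hc1 with h1 | h1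
    · exact absurd h1 ha
    · exact h1
  have hf2 : f (M - 1 + 2) = 0 := by
    rcases mul_eq_zero.1 hc2 with h1 | h1
    · exact absurd h1 (mul_ne_zero (mul_ne_zero hκC hb) (pow_ne_zero _ hρC))
    · exact h1
  have hrec := rec_bn w (M - 1)
  have hrec' : w * f (M - 1 + 2) = (((M - 1 : ℕ) : ℂ) + 1) * f (M - 1 + 1) - f (M - 1) := hrec
  rw [hf1, hf2, mul_zero, sub_zero] at hrec'
  have hne : (((M - 1 : ℕ) : ℂ) + 1) ≠ 0 := by exact_mod_cast Nat.succ_ne_zero (M - 1)
  have hf3 : f (M - 1 + 1) = 0 := by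
    rcases mul_eq_zero.1 hrec'.symm with h1 | h1
    · exact absurd h1 hne
    · exact h1
  exact Pool.Agent.Y987.SG.bnc Pool.Agent.Y971.SG.bes (M - 1) w ⟨hf1, hf3⟩

end Pool.Agent.Helper327_Sch
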