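import Pool.Agent.Helper327_Sch.Defs
import Pool.Agent.Helper327_Sch.Fin.SF1

set_option autoImplicit false

open Complex Polynomial Filter Topology Set
open scoped ComplexConjugate

namespace Pool.Agent.Helper327_Sch

open Pool.Agent.Y245.SG (Bn Sys)

namespace SF2

/-- first function in the variable `x = 1 / T` -/
noncomputable def pf (κ e : ℂ) (a b : ℕ → ℂ) (N : ℕ) (A : ℕ → ℂ) (x : ℂ) : ℂ :=
  ∑ m ∈ Finset.range (N + 1), (a m * x ^ (N - m) * A m -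
    κ * b m * (κ⁻¹) ^ (m + 2) * x ^ (m + 2 + N) * A (m + 2)) - κ * e * κ⁻¹ * x ^ (1 + N) * A 1

/-- second function in the variable `x = 1 / T` -/
noncomputable def qf (κ e : ℂ) (a b : ℕ → ℂ) (N : ℕ) (A : ℕ → ℂ) (x : ℂ) : ℂ :=
  ∑ m ∈ Finset.range (N + 1), (b m * (κ⁻¹) ^ m * x ^ (m + (N + 2)) * A m -
    κ * a m * x ^ (N - m) * A (m + 2)) - κ * e * x ^ (N + 1) * A 1

theorem pf_cont (κ e : ℂ) (a b : ℕ → ℂ) (N : ℕ) (A : ℕ → ℂ) : Continuous (pf κ e a b N A) := by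
  unfold pf
  fun_prop

theorem qf_cont (κ e : ℂ) (a b : ℕ → ℂ) (N : ℕ) (A : ℕ → ℂ) : Continuous (qf κ e a b N A) := by
  unfold qf
  fun_prop

theorem pf_zero (κ e : ℂ) (a b : ℕ → ℂ) (N : ℕ) (A : ℕ → ℂ) : pf κ e a b N A 0 = a N * A N := by
  unfold pf
  rw [Finset.sum_eq_single N]
  · rw [Nat.sub_self, pow_zero, zero_pow (by omega), zero_pow (by omega)]
    ring
  · intro m hm hmN
    rw [Finset.mem_range] at hm
    rw [zero_pow (by omega), zero_pow (by omega)]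
    ring
  · intro h
    exact absurd (Finset.mem_range.2 (Nat.lt_succ_self N)) h

theorem qf_zero (κ e : ℂ) (a b : ℕ → ℂ) (N : ℕ) (A : ℕ → ℂ) :
    qf κ e a b N A 0 = -(κ * a N * A (N + 2)) := by
  unfold qf
  rw [Finset.sum_eq_single N]
  · rw [Nat.sub_self, pow_zero, zero_pow (by omega), zero_pow (by omega)]
    ring
  · intro m hm hmN
    rw [Finset.mem_range] at hm
    rw [zero_pow (by omega), zero_pow (by omega)]
    ring
  · intro h
    exact absurd (Finset.mem_range.2 (Nat.lt_succ_self N)) h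

theorem N1_pf (κ e : ℂ) (hκ : κ ≠ 0) (a b : ℕ → ℂ) (N : ℕ) (A : ℕ → ℂ[X]) {x : ℂ} (hx : x ≠ 0) :
    N1 κ e a b (N + 1) A x⁻¹ (x * κ⁻¹) * x ^ N = pf κ e a b N (fun m => (A m).eval 1) x := by
  have hw : ww κ x⁻¹ (x * κ⁻¹) = 1 := by
    unfold ww
    rw [Algebra.algebraMap_self_apply]
    field_simp
  unfold N1 pf
  rw [hw, sub_mul, Finset.sum_mul]
  simp only [one_pow, mul_one, Polynomial.coe_aeval_eq_eval, Algebra.algebraMap_self_apply]
  congr 1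
  · refine Finset.sum_congr rfl fun m hm => ?_
    rw [Finset.mem_range] at hm
    have h1 : x ^ N = x ^ (N - m) * x ^ m := by
      rw [← pow_add]
      congr 1
      omega
    have h2 : (x⁻¹) ^ m * x ^ m = 1 := by
      rw [← mul_pow, inv_mul_cancel₀ hx, one_pow]
    have h3 : a m * x⁻¹ ^ m * eval 1 (A m) * x ^ N = a m * x ^ (N - m) * eval 1 (A m) := by
      rw [h1]
      linear_combination (a m * eval 1 (A m) * x ^ (N - m)) * h2
    rw [sub_mul, h3, mul_pow, pow_add x (m + 2) N]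
    ring
  · rw [pow_add x 1 N]
    ring

theorem N1_qf (κ e : ℂ) (hκ : κ ≠ 0) (a b : ℕ → ℂ) (N : ℕ) (A : ℕ → ℂ[X]) {x : ℂ} (hx : x ≠ 0) :
    N1 κ e b a (N + 1) A (x * κ⁻¹) x⁻¹ * x ^ (N + 2) =
      qf κ e a b N (fun m => (A m).eval 1) x := by
  have hw : ww κ (x * κ⁻¹) x⁻¹ = 1 := by
    unfold ww
    rw [Algebra.algebraMap_self_apply]
    field_simp
  unfold N1 qf
  rw [hw, sub_mul, Finset.sum_mul]
  simp only [one_pow, mul_one, Polynomial.coe_aeval_eq_eval, Algebra.algebraMap_self_apply]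
  congr 1
  · refine Finset.sum_congr rfl fun m hm => ?_
    rw [Finset.mem_range] at hm
    have h1 : x ^ (N + 2) = x ^ (N - m) * x ^ (m + 2) := by
      rw [← pow_add]
      congr 1
      omega
    have h2 : (x⁻¹) ^ (m + 2) * x ^ (m + 2) = 1 := by
      rw [← mul_pow, inv_mul_cancel₀ hx, one_pow]
    have h3 : κ * a m * x⁻¹ ^ (m + 2) * eval 1 (A (m + 2)) * x ^ (N + 2) =
        κ * a m * x ^ (N - m) * eval 1 (A (m + 2)) := by
      rw [h1]
      linear_combination (κ * a m * eval 1 (A (m + 2)) * x ^ (N - m)) * h2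
    rw [sub_mul, h3, mul_pow, pow_add x m (N + 2)]
    ring
  · have h2 : x⁻¹ * x = 1 := inv_mul_cancel₀ hx
    rw [show N + 2 = (N + 1) + 1 from rfl, pow_succ x (N + 1)]
    linear_combination (κ * e * eval 1 (A 1) * x ^ (N + 1)) * h2

end SF2

open SF2

theorem dd_ne (κ e : ℂ) (hκ : κ ≠ 0) (a b : ℕ → ℂ) (M : ℕ) (hM : 0 < M) (ha : a (M - 1) ≠ 0) :
    ∃ z ζ : ℂ, DD κ e a b M z ζ ≠ 0 := by
  obtain ⟨N, rfl⟩ : ∃ N, M = N + 1 := ⟨M - 1, by omega⟩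
  rw [Nat.add_sub_cancel] at ha
  by_contra hcon
  push Not at hcon
  obtain ⟨EA, hEA⟩ : ∃ EA : ℕ → ℂ, EA = fun m => (pA m).eval 1 := ⟨_, rfl⟩
  obtain ⟨EB, hEB⟩ : ∃ EB : ℕ → ℂ, EB = fun m => (pB m).eval 1 := ⟨_, rfl⟩
  have h0 : ∀ x : ℂ, x ≠ 0 → pf κ e a b N EA x * qf κ e a b N EB x -
      qf κ e a b N EA x * pf κ e a b N EB x = 0 := by
    intro x hx
    have h1 := hcon x⁻¹ (x * κ⁻¹)
    unfold DD at h1
    rw [hEA, hEB, ← N1_pf κ e hκ a b N pA hx, ← N1_pf κ e hκ a b N pB hx,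
      ← N1_qf κ e hκ a b N pA hx, ← N1_qf κ e hκ a b N pB hx]
    linear_combination (x ^ N * x ^ (N + 2)) * h1
  have hcont : Continuous fun x => pf κ e a b N EA x * qf κ e a b N EB x -
      qf κ e a b N EA x * pf κ e a b N EB x :=
    ((pf_cont κ e a b N EA).mul (qf_cont κ e a b N EB)).sub
      ((qf_cont κ e a b N EA).mul (pf_cont κ e a b N EB))
  have h2 : (fun x => pf κ e a b N EA x * qf κ e a b N EB x -
      qf κ e a b N EA x * pf κ e a b N EB x) = fun _ => 0 :=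
    Continuous.ext_on (dense_compl_singleton (0 : ℂ)) hcont continuous_const (fun x hx => h0 x hx)
  have h3 := congrFun h2 0
  simp only [pf_zero, qf_zero] at h3
  have h4 := congrArg (fun p : ℂ[X] => p.eval 1) (pAB2 N)
  simp only [eval_sub, eval_mul, eval_C, eval_pow, eval_X, one_pow, mul_one] at h4
  have h5 : EA N * EB (N + 2) - EA (N + 2) * EB N = (N : ℂ) + 1 := by
    rw [hEA, hEB]
    exact h4
  have h6 : κ * a N ^ 2 * ((N : ℂ) + 1) = 0 := by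
    rw [← h5]
    linear_combination -h3
  have h7 : (N : ℂ) + 1 ≠ 0 := by exact_mod_cast Nat.succ_ne_zero N
  exact (mul_ne_zero (mul_ne_zero hκ (pow_ne_zero 2 ha)) h7) h6

namespace SF2

theorem map_ww {R S : Type*} [CommRing R] [Algebra ℂ R] [CommRing S] [Algebra ℂ S] (φ : R →ₐ[ℂ] S)
    (κ : ℂ) (z ζ : R) : φ (ww κ z ζ) = ww κ (φ z) (φ ζ) := by
  unfold ww
  rw [map_mul, map_mul, AlgHom.commutes]

theorem map_N1' {R S : Type*} [CommRing R] [Algebra ℂ R] [CommRing S] [Algebra ℂ S] (φ : R →ₐ[ℂ] S)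
    (κ e : ℂ) (a b : ℕ → ℂ) (M : ℕ) (A : ℕ → ℂ[X]) (z ζ : R) :
    φ (N1 κ e a b M A z ζ) = N1 κ e a b M A (φ z) (φ ζ) := by
  simp only [N1, map_sub, map_sum, map_mul, map_pow, AlgHom.commutes, ← map_ww φ,
    Polynomial.aeval_algHom_apply]

theorem map_DD' {R S : Type*} [CommRing R] [Algebra ℂ R] [CommRing S] [Algebra ℂ S] (φ : R →ₐ[ℂ] S)
    (κ e : ℂ) (a b : ℕ → ℂ) (M : ℕ) (z ζ : R) :
    φ (DD κ e a b M z ζ) = DD κ e a b M (φ z) (φ ζ) := by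
  simp only [DD, map_sub, map_mul, map_N1']

end SF2

theorem dd_mv (κ e : ℂ) (hκ : κ ≠ 0) (a b : ℕ → ℂ) (M : ℕ) (hM : 0 < M) (ha : a (M - 1) ≠ 0) :
    (DD κ e a b M (MvPolynomial.X 0 : MvPolynomial (Fin 2) ℂ) (MvPolynomial.X 1)) ≠ 0 := by
  obtain ⟨z, ζ, h⟩ := dd_ne κ e hκ a b M hM ha
  intro h0
  apply h
  have h1 := map_DD' (MvPolynomial.aeval ![z, ζ] : MvPolynomial (Fin 2) ℂ →ₐ[ℂ] ℂ) κ e a b M
    (MvPolynomial.X 0) (MvPolynomial.X 1)
  rw [h0, map_zero, MvPolynomial.aeval_X, MvPolynomial.aeval_X] at h1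
  exact h1.symm

/-- the expressions commute with algebra homomorphisms -/
theorem map_N1 {R S : Type*} [CommRing R] [Algebra ℂ R] [CommRing S] [Algebra ℂ S] (φ : R →ₐ[ℂ] S)
    (κ e : ℂ) (a b : ℕ → ℂ) (M : ℕ) (A : ℕ → ℂ[X]) (z ζ : R) :
    φ (N1 κ e a b M A z ζ) = N1 κ e a b M A (φ z) (φ ζ) := map_N1' φ κ e a b M A z ζ

theorem map_N0 {R S : Type*} [CommRing R] [Algebra ℂ R] [CommRing S] [Algebra ℂ S] (φ : R →ₐ[ℂ] S)
    (κ e : ℂ) (a b : ℕ → ℂ) (M : ℕ) (A : ℕ → ℂ[X]) (z ζ : R) :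
    φ (N0 κ e a b M A z ζ) = N0 κ e a b M A (φ z) (φ ζ) := by
  simp only [N0, map_add, map_sum, map_mul, map_pow, AlgHom.commutes, ← map_ww φ,
    Polynomial.aeval_algHom_apply]

theorem map_DD {R S : Type*} [CommRing R] [Algebra ℂ R] [CommRing S] [Algebra ℂ S] (φ : R →ₐ[ℂ] S)
    (κ e : ℂ) (a b : ℕ → ℂ) (M : ℕ) (z ζ : R) :
    φ (DD κ e a b M z ζ) = DD κ e a b M (φ z) (φ ζ) := map_DD' φ κ e a b M z ζ

end Pool.Agent.Helper327_Sch
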