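import Pool.Agent.Helper327_Sch.Defs
import Pool.Agent.Y245.SG.Stm
import Pool.Agent.Y971.SG.Bes
import Pool.Agent.Y987.SG.Zer

set_option autoImplicit false

open Complex Polynomial Filter Topology Set
open scoped ComplexConjugate

namespace Pool.Agent.Helper327_Sch

open Pool.Agent.Y245.SG (Bn Sys)

/-- no relation for the first solution -/
theorem hom_one (d : ℕ) (h : ℕ → ℂ[X]) (hne : ∃ i ≤ d, h i ≠ 0) :
    ∃ ω : ℂ, ∑ i ∈ Finset.range (d + 1), (h i).eval (exp ω) * Bn 0 (exp ω) ^ i *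
      Bn 1 (exp ω) ^ (d - i) ≠ 0 := by
  have hB := Pool.Agent.Y971.SG.bes
  have hNC := Pool.Agent.Y987.SG.bnc
  have hINF := Pool.Agent.Y987.SG.binf
  by_contra hcon
  push Not at hcon
  have hd0 : Differentiable ℂ (Bn 0) := (hB 0).1
  have hd1 : Differentiable ℂ (Bn 1) := (hB 1).1
  have hz : ∀ z : ℂ, z ≠ 0 → ∑ i ∈ Finset.range (d + 1),
      (h i).eval z * Bn 0 z ^ i * Bn 1 z ^ (d - i) = 0 := by
    intro z hz
    have h1 := hcon (Complex.log z)
    simp only [Complex.exp_log hz] at h1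
    exact h1
  have hB00 : Bn 0 0 = 1 := by
    have := Pool.Agent.Y987.SG.Bn_zero 0
    simpa using this
  -- the least index
  obtain ⟨i0, hi0N, hi0, hmin⟩ : ∃ i0 ≤ d, h i0 ≠ 0 ∧ ∀ i < i0, h i = 0 := by
    classical
    obtain ⟨i, hiN, hi⟩ := hne
    have hE : ∃ i, h i ≠ 0 := ⟨i, hi⟩
    refine ⟨Nat.find hE, (Nat.find_min' hE hi).trans hiN, Nat.find_spec hE, ?_⟩
    intro j hj
    by_contra hne
    exact Nat.find_min hE hj hne
  obtain ⟨F, hF⟩ : ∃ F : ℂ → ℂ, F = fun z => ∑ i ∈ Finset.range (d + 1),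
      (if i0 ≤ i then (h i).eval z * Bn 0 z ^ (i - i0) * Bn 1 z ^ (d - i) else 0) := ⟨_, rfl⟩
  have hFc : Continuous F := by
    rw [hF]
    refine continuous_finsetSum _ fun i _ => ?_
    split_ifs
    · exact (((h i).continuous).mul (hd0.continuous.pow _)).mul (hd1.continuous.pow _)
    · exact continuous_const
  have hFz : ∀ z, z ≠ 0 → Bn 0 z ≠ 0 → F z = 0 := by
    intro z hz0 hzB
    have h1 : Bn 0 z ^ i0 * F z = 0 := by
      rw [← hz z hz0, hF, Finset.mul_sum]
      refine Finset.sum_congr rfl fun i _ => ?_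
      by_cases hi : i0 ≤ i
      · rw [if_pos hi]
        have h2 : Bn 0 z ^ i = Bn 0 z ^ i0 * Bn 0 z ^ (i - i0) := by
          rw [← pow_add]
          congr 1
          omega
        rw [h2]
        ring
      · rw [if_neg hi, hmin i (by omega)]
        simp
    exact (mul_eq_zero.mp h1).resolve_left (pow_ne_zero _ hzB)
  have hroot : ∀ z, Bn 0 z = 0 → (h i0).eval z = 0 := by
    intro z hzB
    have hz0 : z ≠ 0 := by
      rintro rfl
      rw [hB00] at hzB
      exact one_ne_zero hzB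
    -- F z = 0
    have hFz0 : F z = 0 := by
      have hA : AnalyticOnNhd ℂ (Bn 0) Set.univ := fun w _ => hd0.analyticAt w
      rcases (hd0.analyticAt z).eventually_eq_zero_or_eventually_ne_zero with h1 | h1
      · exfalso
        have h2 := hA.eqOn_zero_of_preconnected_of_eventuallyEq_zero isPreconnected_univ
          (Set.mem_univ z) h1
        have h3 : Bn 0 0 = 0 := h2 (Set.mem_univ 0)
        rw [hB00] at h3
        exact one_ne_zero h3
      · have h2 : ∀ᶠ w in 𝓝[≠] z, F w = 0 := by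
          have h3 : ∀ᶠ w in 𝓝[≠] z, w ≠ 0 :=
            (continuousAt_id.eventually_ne hz0).filter_mono nhdsWithin_le_nhds
          filter_upwards [h1, h3] with w hw1 hw2
          exact hFz w hw2 hw1
        have h4 : Tendsto F (𝓝[≠] z) (𝓝 (F z)) := hFc.continuousAt.mono_left nhdsWithin_le_nhds
        have h5 : Tendsto F (𝓝[≠] z) (𝓝 0) :=
          (tendsto_congr' h2).mpr tendsto_const_nhds
        exact tendsto_nhds_unique h4 h5
    rw [hF] at hFz0
    have h6 : ∑ i ∈ Finset.range (d + 1), (if i0 ≤ i then (h i).eval z * Bn 0 z ^ (i - i0) *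
        Bn 1 z ^ (d - i) else 0) = (h i0).eval z * Bn 1 z ^ (d - i0) := by
      rw [Finset.sum_eq_single i0]
      · rw [if_pos le_rfl, Nat.sub_self, pow_zero, mul_one]
      · intro i _ hi
        by_cases h7 : i0 ≤ i
        · rw [if_pos h7, hzB, zero_pow (by omega), mul_zero, zero_mul]
        · rw [if_neg h7]
      · intro h7
        exact absurd (Finset.mem_range.mpr (by omega)) h7
    have h7 : (h i0).eval z * Bn 1 z ^ (d - i0) = 0 := h6.symm.trans hFz0
    have h8 : Bn 1 z ≠ 0 := fun h => hNC hB 0 z ⟨hzB, h⟩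
    exact (mul_eq_zero.mp h7).resolve_right (pow_ne_zero _ h8)
  -- infinitely many roots
  refine hi0 (Polynomial.eq_zero_of_infinite_isRoot _ (Set.Infinite.mono ?_ (hINF hB)))
  intro z hz
  exact hroot z hz

/-- no relation, on an infinite bounded set of reals, for a combination of the two solutions -/
theorem hom (v0 v1 : ℂ → ℂ) (hv0 : Differentiable ℂ v0) (hv1 : Differentiable ℂ v1)
    (hp0 : ∀ ω, v0 (ω + 2 * Real.pi * I) = v0 ω) (hp1 : ∀ ω, v1 (ω + 2 * Real.pi * I) = v1 ω)
    (p q : ℂ) (hpq : p ≠ 0 ∨ q ≠ 0) (d : ℕ) (h : ℕ → ℂ[X]) (hne : ∃ i ≤ d, h i ≠ 0)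
    (S : Set ℝ) (hS : S.Infinite) (r : ℝ) (hr : ∀ s ∈ S, |s| ≤ r)
    (hrel : ∀ s ∈ S, ∑ i ∈ Finset.range (d + 1), (h i).eval (exp (s : ℂ)) *
      (p * Bn 0 (exp (s : ℂ)) + q * ((s : ℂ) * Bn 0 (exp (s : ℂ)) + v0 s)) ^ i *
      (p * Bn 1 (exp (s : ℂ)) + q * ((s : ℂ) * Bn 1 (exp (s : ℂ)) + v1 s)) ^ (d - i) = 0) :
    False := by
  have hd0 : Differentiable ℂ (Bn 0) := (Pool.Agent.Y971.SG.bes 0).1
  have hd1 : Differentiable ℂ (Bn 1) := (Pool.Agent.Y971.SG.bes 1).1
  obtain ⟨Φ, hΦ⟩ : ∃ Φ : ℂ → ℂ, Φ = fun s => ∑ i ∈ Finset.range (d + 1), (h i).eval (exp s) *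
      (p * Bn 0 (exp s) + q * (s * Bn 0 (exp s) + v0 s)) ^ i *
      (p * Bn 1 (exp s) + q * (s * Bn 1 (exp s) + v1 s)) ^ (d - i) := ⟨_, rfl⟩
  have e0 : Differentiable ℂ fun s => Bn 0 (exp s) := hd0.comp Complex.differentiable_exp
  have e1 : Differentiable ℂ fun s => Bn 1 (exp s) := hd1.comp Complex.differentiable_exp
  have hΦd : Differentiable ℂ Φ := by
    rw [hΦ]
    refine Differentiable.fun_sum fun i _ => ?_
    have e2 : Differentiable ℂ fun s => (h i).eval (exp s) :=
      (h i).differentiable.comp Complex.differentiable_exp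
    exact (e2.mul (((e0.const_mul p).add (((differentiable_id.mul e0).add hv0).const_mul q)).pow
      i)).mul (((e1.const_mul p).add (((differentiable_id.mul e1).add hv1).const_mul q)).pow _)
  -- accumulation point
  have hΦ0 : ∀ ω, Φ ω = 0 := by
    have hS' : ((fun s : ℝ => (s : ℂ)) '' S).Infinite := hS.image Complex.ofReal_injective.injOn
    obtain ⟨z, -, hz⟩ := hS'.exists_accPt_of_subset_isCompact (isCompact_closedBall (0 : ℂ) r)
      (by
        rintro _ ⟨s, hs, rfl⟩
        simpa using hr s hs)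
    rw [accPt_iff_frequently_nhdsNE] at hz
    have hA : AnalyticOnNhd ℂ Φ Set.univ := fun w _ => hΦd.analyticAt w
    have hA0 : AnalyticOnNhd ℂ (fun _ : ℂ => (0 : ℂ)) Set.univ := fun w _ => analyticAt_const
    have h1 := hA.eq_of_frequently_eq hA0 (z₀ := z) (hz.mono (by
      rintro _ ⟨s, hs, rfl⟩
      rw [hΦ]
      exact hrel s hs))
    intro ω
    rw [h1]
  obtain ⟨ω, hω⟩ := hom_one d h hne
  apply hω
  by_cases hq : q = 0
  · have hp : p ≠ 0 := hpq.resolve_right (not_not.2 hq)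
    have h1 := hΦ0 ω
    rw [hΦ] at h1
    simp only [hq, zero_mul, add_zero] at h1
    have h2 : p ^ d * ∑ i ∈ Finset.range (d + 1), (h i).eval (exp ω) * Bn 0 (exp ω) ^ i *
        Bn 1 (exp ω) ^ (d - i) = 0 := by
      rw [← h1, Finset.mul_sum]
      refine Finset.sum_congr rfl fun i hi => ?_
      have h3 : p ^ d = p ^ i * p ^ (d - i) := by
        rw [← pow_add]
        congr 1
        have := Finset.mem_range.1 hi
        omega
      rw [h3, mul_pow, mul_pow]
      ring
    exact (mul_eq_zero.1 h2).resolve_left (pow_ne_zero _ hp)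
  · set x : ℂ := Bn 0 (exp ω) with hx
    set y : ℂ := Bn 1 (exp ω) with hy
    set A : ℂ := p * x + q * (ω * x + v0 ω) with hA
    set B : ℂ := p * y + q * (ω * y + v1 ω) with hB
    have hper : ∀ n : ℕ, exp (ω + n * (2 * Real.pi * I)) = exp ω ∧
        v0 (ω + n * (2 * Real.pi * I)) = v0 ω ∧ v1 (ω + n * (2 * Real.pi * I)) = v1 ω := by
      intro n
      induction n with
      | zero => simp
      | succ n ih =>
        have e : ω + ((n + 1 : ℕ) : ℂ) * (2 * Real.pi * I) =
            (ω + n * (2 * Real.pi * I)) + 2 * Real.pi * I := by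
          push_cast
          ring
        rw [e, Complex.exp_periodic, hp0, hp1]
        exact ih
    obtain ⟨R, hR⟩ : ∃ R : ℂ → ℂ, R = fun u => ∑ i ∈ Finset.range (d + 1),
        (h i).eval (exp ω) * (A * u + x) ^ i * (B * u + y) ^ (d - i) := ⟨_, rfl⟩
    have hRc : Continuous R := by
      rw [hR]
      fun_prop
    have hR0 : ∀ n : ℕ, R (1 / ((2 * Real.pi * I * q) * ((n : ℂ) + 1))) = 0 := by
      intro n
      have h1 := hΦ0 (ω + ((n + 1 : ℕ) : ℂ) * (2 * Real.pi * I))
      obtain ⟨p1, p2, p3⟩ := hper (n + 1)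
      rw [hΦ] at h1
      simp only [p1, p2, p3] at h1
      rw [← hx, ← hy] at h1
      set t : ℂ := (2 * Real.pi * I * q) * ((n : ℂ) + 1) with ht
      have hpi : (2 * Real.pi * I : ℂ) ≠ 0 := Complex.two_pi_I_ne_zero
      have hn1 : ((n : ℂ) + 1) ≠ 0 := Nat.cast_add_one_ne_zero n
      have ht0 : t ≠ 0 := mul_ne_zero (mul_ne_zero hpi hq) hn1
      have h2 : (1 / t) ^ d * ∑ i ∈ Finset.range (d + 1), (h i).eval (exp ω) *
          (p * x + q * ((ω + ((n + 1 : ℕ) : ℂ) * (2 * Real.pi * I)) * x + v0 ω)) ^ i *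
          (p * y + q * ((ω + ((n + 1 : ℕ) : ℂ) * (2 * Real.pi * I)) * y + v1 ω)) ^ (d - i) = 0 := by
        rw [h1, mul_zero]
      rw [hR]
      simp only
      rw [← h2, Finset.mul_sum]
      refine Finset.sum_congr rfl fun i hi => ?_
      have h3 : (1 / t) ^ d = (1 / t) ^ i * (1 / t) ^ (d - i) := by
        rw [← pow_add]
        congr 1
        have := Finset.mem_range.1 hi
        omega
      have h4 : A * (1 / t) + x =
          (1 / t) * (p * x + q * ((ω + ((n + 1 : ℕ) : ℂ) * (2 * Real.pi * I)) * x + v0 ω)) := by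
        rw [hA]
        field_simp
        rw [ht]
        push_cast
        ring
      have h5 : B * (1 / t) + y =
          (1 / t) * (p * y + q * ((ω + ((n + 1 : ℕ) : ℂ) * (2 * Real.pi * I)) * y + v1 ω)) := by
        rw [hB]
        field_simp
        rw [ht]
        push_cast
        ring
      rw [h3, h4, h5, mul_pow, mul_pow]
      ring
    have hlim : Tendsto (fun n : ℕ => 1 / ((2 * Real.pi * I * q) * ((n : ℂ) + 1))) atTop (𝓝 0) := by
      have h1 : Tendsto (fun n : ℕ => 1 / ((n : ℂ) + 1)) atTop (𝓝 0) :=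
        tendsto_one_div_add_atTop_nhds_zero_nat
      have h2 := h1.const_mul (1 / (2 * Real.pi * I * q))
      rw [mul_zero] at h2
      refine h2.congr fun n => ?_
      rw [one_div_mul_one_div]
    have h1 : Tendsto (fun n : ℕ => R (1 / ((2 * Real.pi * I * q) * ((n : ℂ) + 1)))) atTop
        (𝓝 (R 0)) := (hRc.tendsto 0).comp hlim
    have h2 : R 0 = 0 := by
      refine tendsto_nhds_unique h1 ?_
      simp only [hR0]
      exact tendsto_const_nhds
    rw [hR] at h2
    simpa using h2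

end Pool.Agent.Helper327_Sch
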