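import Pool.Agent.Helper327_Sch.Defs

set_option autoImplicit false

open Complex Polynomial Filter Topology Set
open scoped ComplexConjugate

namespace Pool.Agent.Helper327_Sch

open Pool.Agent.Y245.SG (Bn Sys)

namespace SF3

/-- the polynomial relation for `x` over `ℂ[w]` -/
noncomputable def P (κ : ℂ) (D : MvPolynomial (Fin 2) ℂ) (N : ℕ) : ℂ[X][X] :=
  ∑ m ∈ D.support, monomial (m 0 + N - m 1) (monomial (m 1) (D.coeff m * (κ⁻¹) ^ m 1))

theorem coeff_P (κ : ℂ) (D : MvPolynomial (Fin 2) ℂ) (N : ℕ) (hN : ∀ m ∈ D.support, m 1 ≤ N)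
    (m : Fin 2 →₀ ℕ) (hm : m ∈ D.support) :
    ((P κ D N).coeff (m 0 + N - m 1)).coeff (m 1) = D.coeff m * (κ⁻¹) ^ m 1 := by
  unfold P
  rw [finsetSum_coeff, finsetSum_coeff, Finset.sum_eq_single m]
  · rw [coeff_monomial, if_pos rfl, coeff_monomial, if_pos rfl]
  · intro m' hm' hne
    rw [coeff_monomial]
    split_ifs with h
    · rw [coeff_monomial]
      split_ifs with h'
      · exfalso
        apply hne
        have h1 := hN m hm
        have h2 := hN m' hm'
        have h3 : m' 0 = m 0 := by omega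
        ext i
        fin_cases i
        · exact h3
        · exact h'
      · rfl
    · rfl
  · intro h
    exact absurd hm h

end SF3

theorem alg {L : Type*} [Field L] [Algebra ℂ L] (κ : ℂ) (hκ : κ ≠ 0) (x y : L)
    (hw : Transcendental ℂ (ww κ x y)) (D : MvPolynomial (Fin 2) ℂ) (hD : D ≠ 0)
    (hDx : MvPolynomial.aeval ![x, y] D = 0) (α β : MvPolynomial (Fin 2) ℂ)
    (hne : MvPolynomial.aeval ![x, y] α ≠ 0 ∨ MvPolynomial.aeval ![x, y] β ≠ 0) (p q : L)
    (hrel : MvPolynomial.aeval ![x, y] α * p + MvPolynomial.aeval ![x, y] β * q = 0) :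
    ∃ (d : ℕ) (h : ℕ → ℂ[X]), (∃ i ≤ d, h i ≠ 0) ∧
      ∑ i ∈ Finset.range (d + 1), aeval (ww κ x y) (h i) * p ^ i * q ^ (d - i) = 0 := by
  by_cases hp : p = 0
  · refine ⟨1, fun i => if i = 1 then 1 else 0, ⟨1, le_rfl, by simp⟩, ?_⟩
    simp [hp]
  set w := ww κ x y with hwdef
  let alg1 : Algebra ℂ[X] L := (aeval w : ℂ[X] →ₐ[ℂ] L).toRingHom.toAlgebra
  have hmap : ∀ f : ℂ[X], algebraMap ℂ[X] L f = aeval w f := fun f => rfl
  have hinj : Function.Injective (algebraMap ℂ[X] L) := transcendental_iff_injective.1 hw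
  have hw0 : w ≠ 0 := by
    intro h
    have h1 : aeval w (X : ℂ[X]) = aeval w (0 : ℂ[X]) := by
      rw [aeval_X, h, map_zero]
    have h2 : (X : ℂ[X]) = 0 := hinj h1
    exact X_ne_zero h2
  have hx0 : x ≠ 0 := by
    intro h
    apply hw0
    rw [hwdef, ww, h, zero_mul, mul_zero]
  have hκ' : algebraMap ℂ L κ ≠ 0 := by
    intro h
    exact hκ ((map_eq_zero _).1 h)
  have hy : y = algebraMap ℂ L (κ⁻¹) * w * x⁻¹ := by
    rw [hwdef, ww, map_inv₀]
    field_simp
  -- constants are algebraic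
  have hcst : ∀ c : ℂ, IsAlgebraic ℂ[X] (algebraMap ℂ L c) := by
    intro c
    have h1 : algebraMap ℂ L c = algebraMap ℂ[X] L (C c) := by
      rw [hmap, aeval_C]
    rw [h1]
    exact isAlgebraic_algebraMap _
  have hwa : IsAlgebraic ℂ[X] w := by
    have h1 : w = algebraMap ℂ[X] L X := by
      rw [hmap, aeval_X]
    rw [h1]
    exact isAlgebraic_algebraMap _
  -- x is algebraic
  have hxa : IsAlgebraic ℂ[X] x := by
    obtain ⟨N, hN⟩ : ∃ N, ∀ m ∈ D.support, m 1 ≤ N :=
      ⟨D.support.sup fun m => m 1, fun m hm => Finset.le_sup (f := fun m => m 1) hm⟩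
    refine ⟨SF3.P κ D N, ?_, ?_⟩
    · intro h0
      obtain ⟨m, hm⟩ : ∃ m, m ∈ D.support := by
        by_contra hcon
        push Not at hcon
        apply hD
        rw [← MvPolynomial.support_eq_empty]
        exact Finset.eq_empty_of_forall_notMem hcon
      have h1 := SF3.coeff_P κ D N hN m hm
      rw [h0, coeff_zero, coeff_zero] at h1
      have h2 : D.coeff m ≠ 0 := MvPolynomial.mem_support_iff.1 hm
      exact mul_ne_zero h2 (pow_ne_zero _ (inv_ne_zero hκ)) h1.symm
    · have h1 : aeval x (SF3.P κ D N) = x ^ N * MvPolynomial.aeval ![x, y] D := by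
        unfold SF3.P
        rw [map_sum]
        conv_rhs => rw [D.as_sum, map_sum, Finset.mul_sum]
        refine Finset.sum_congr rfl fun m hm => ?_
        rw [aeval_monomial, hmap, aeval_monomial, MvPolynomial.aeval_monomial,
          Finsupp.prod_fintype _ _ (fun i => pow_zero _), Fin.prod_univ_two]
        simp only [Matrix.cons_val_zero, Matrix.cons_val_one]
        have h2 := hN m hm
        have h3 : x ^ N * x ^ m 0 = x ^ (m 0 + N - m 1) * x ^ m 1 := by
          rw [← pow_add, ← pow_add]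
          congr 1
          omega
        have h4 : y ^ m 1 = algebraMap ℂ L ((κ⁻¹) ^ m 1) * w ^ m 1 * (x ^ m 1)⁻¹ := by
          rw [hy, mul_pow, mul_pow, ← map_pow, inv_pow x]
        rw [h4, map_mul]
        have h5 : x ^ m 1 ≠ 0 := pow_ne_zero _ hx0
        have h6 : x ^ N * (algebraMap ℂ L (D.coeff m) * (x ^ m 0 *
            (algebraMap ℂ L ((κ⁻¹) ^ m 1) * w ^ m 1 * (x ^ m 1)⁻¹))) =
            (x ^ N * x ^ m 0) * (algebraMap ℂ L (D.coeff m) *
            algebraMap ℂ L ((κ⁻¹) ^ m 1) * w ^ m 1 * (x ^ m 1)⁻¹) := by ring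
        rw [h6, h3]
        field_simp
      rw [h1, hDx, mul_zero]
  have hya : IsAlgebraic ℂ[X] y := by
    rw [hy]
    exact ((hcst _).mul hwa).mul hxa.inv
  have hall : ∀ f : MvPolynomial (Fin 2) ℂ, IsAlgebraic ℂ[X] (MvPolynomial.aeval ![x, y] f) := by
    intro f
    induction f using MvPolynomial.induction_on with
    | C a =>
      rw [MvPolynomial.aeval_C]
      exact hcst a
    | add f g hf hg =>
      rw [map_add]
      exact hf.add hg
    | mul_X f i hf =>
      rw [map_mul, MvPolynomial.aeval_X]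
      refine hf.mul ?_
      fin_cases i
      · exact hxa
      · exact hya
  have hβ : MvPolynomial.aeval ![x, y] β ≠ 0 := by
    intro h
    rcases hne with h1 | h1
    · rw [h, zero_mul, add_zero] at hrel
      exact (mul_ne_zero h1 hp) hrel
    · exact h1 h
  have hqp : q / p = -(MvPolynomial.aeval ![x, y] α) * (MvPolynomial.aeval ![x, y] β)⁻¹ := by
    have h1 : MvPolynomial.aeval ![x, y] β * q = -(MvPolynomial.aeval ![x, y] α * p) := by
      linear_combination hrel
    field_simp
    linear_combination h1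
  have hqa : IsAlgebraic ℂ[X] (q / p) := by
    rw [hqp]
    exact (hall α).neg.mul (hall β).inv
  obtain ⟨Q, hQ0, hQ⟩ := hqa
  refine ⟨Q.natDegree, fun i => Q.coeff (Q.natDegree - i), ⟨0, Nat.zero_le _, ?_⟩, ?_⟩
  · change Q.coeff (Q.natDegree - 0) ≠ 0
    rw [Nat.sub_zero]
    exact leadingCoeff_ne_zero.2 hQ0
  · rw [aeval_eq_sum_range] at hQ
    have h1 : ∑ i ∈ Finset.range (Q.natDegree + 1),
        aeval w (Q.coeff (Q.natDegree - i)) * p ^ i * q ^ (Q.natDegree - i) =
        ∑ i ∈ Finset.range (Q.natDegree + 1),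
          aeval w (Q.coeff i) * p ^ (Q.natDegree - i) * q ^ i := by
      rw [← Finset.sum_range_reflect]
      refine Finset.sum_congr rfl fun i hi => ?_
      rw [Finset.mem_range] at hi
      have h2 : Q.natDegree + 1 - 1 - i = Q.natDegree - i := by omega
      have h3 : Q.natDegree - (Q.natDegree - i) = i := by omega
      rw [h2, h3]
    have h2 : ∑ i ∈ Finset.range (Q.natDegree + 1),
        aeval w (Q.coeff i) * p ^ (Q.natDegree - i) * q ^ i =
        p ^ Q.natDegree * ∑ i ∈ Finset.range (Q.natDegree + 1), Q.coeff i • (q / p) ^ i := by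
      rw [Finset.mul_sum]
      refine Finset.sum_congr rfl fun i hi => ?_
      rw [Finset.mem_range] at hi
      have h3 : p ^ Q.natDegree = p ^ (Q.natDegree - i) * p ^ i := by
        rw [← pow_add]
        congr 1
        omega
      rw [h3, Algebra.smul_def, hmap, div_pow]
      have h4 : p ^ i ≠ 0 := pow_ne_zero _ hp
      field_simp
    change ∑ i ∈ Finset.range (Q.natDegree + 1),
        aeval w (Q.coeff (Q.natDegree - i)) * p ^ i * q ^ (Q.natDegree - i) = 0
    rw [h1, h2, hQ, mul_zero]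

end Pool.Agent.Helper327_Sch
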