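import Pool.Agent.Helper327_Sch.Defs
import Pool.Agent.Helper327_Sch.Fin.SF2
import Pool.Agent.Helper327_Sch.Fin.SF3

set_option autoImplicit false

open Complex Polynomial Filter Topology Set
open scoped ComplexConjugate

namespace Pool.Agent.Helper327_Sch

open Pool.Agent.Y245.SG (Bn Sys)

namespace SF5

/-- functions vanishing at all but finitely many indices -/
def finI : Ideal (ℕ → ℂ) where
  carrier := {f | {n | f n ≠ 0}.Finite}
  zero_mem' := by simp
  add_mem' := by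
    intro f g hf hg
    refine (hf.union hg).subset ?_
    intro n hn
    by_contra h
    simp only [Set.mem_union, Set.mem_setOf_eq, not_or, not_not] at h
    exact hn (by simp [h.1, h.2])
  smul_mem' := by
    intro c f hf
    refine hf.subset ?_
    intro n hn h
    exact hn (by simp [h])

theorem exists_field : ∃ (L : Type) (_ : Field L) (_ : Algebra ℂ L) (φ : (ℕ → ℂ) →ₐ[ℂ] L),
    ∀ f, φ f = 0 → {n | f n = 0}.Infinite := by
  have hJ : finI ≠ ⊤ := by
    intro h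
    have h1 : (1 : ℕ → ℂ) ∈ finI := by rw [h]; trivial
    have h2 : {n : ℕ | (1 : ℕ → ℂ) n ≠ 0}.Finite := h1
    have h3 : {n : ℕ | (1 : ℕ → ℂ) n ≠ 0} = Set.univ := by
      ext n; simp
    rw [h3] at h2
    exact Set.infinite_univ h2
  obtain ⟨I, hI, hJI⟩ := Ideal.exists_le_maximal finI hJ
  refine ⟨(ℕ → ℂ) ⧸ I, Ideal.Quotient.field I, inferInstance, Ideal.Quotient.mkₐ ℂ I, ?_⟩
  intro f hf hfin
  have hfI : f ∈ I := Ideal.Quotient.eq_zero_iff_mem.1 hf
  have h1 : (1 : ℕ → ℂ) - f * (fun n => (f n)⁻¹) ∈ I := by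
    apply hJI
    refine hfin.subset ?_
    intro n hn
    by_contra h
    apply hn
    have h0 : f n ≠ 0 := h
    simp [h0]
  have h2 : f * (fun n => (f n)⁻¹) ∈ I := I.mul_mem_right _ hfI
  have h3 : (1 : ℕ → ℂ) ∈ I := by
    have := I.add_mem h1 h2
    simpa using this
  exact hI.ne_top ((Ideal.eq_top_iff_one I).2 h3)

theorem map_ww {R S : Type*} [CommRing R] [Algebra ℂ R] [CommRing S] [Algebra ℂ S] (φ : R →ₐ[ℂ] S)
    (κ : ℂ) (z ζ : R) : φ (ww κ z ζ) = ww κ (φ z) (φ ζ) := by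
  simp [ww]

theorem map_mv {R S : Type*} [CommRing R] [Algebra ℂ R] [CommRing S] [Algebra ℂ S] (φ : R →ₐ[ℂ] S)
    (z ζ : R) (α : MvPolynomial (Fin 2) ℂ) :
    φ (MvPolynomial.aeval ![z, ζ] α) = MvPolynomial.aeval ![φ z, φ ζ] α := by
  have h : φ.comp (MvPolynomial.aeval ![z, ζ]) = MvPolynomial.aeval ![φ z, φ ζ] := by
    apply MvPolynomial.algHom_ext
    intro i
    fin_cases i <;> simp
  rw [← h]
  rfl

end SF5

/-- a linear relation `α X_n + β Y_n = 0` along a sequence on which `DD` vanishes gives a homogeneous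
polynomial relation on an infinite set of indices -/
theorem germ_rel (κ e : ℂ) (hκ : κ ≠ 0) (a b : ℕ → ℂ) (M : ℕ) (hM : 0 < M) (ha : a (M - 1) ≠ 0)
    (z ζ : ℕ → ℂ) (hinj : Function.Injective fun n => ww κ (z n) (ζ n))
    (hD : ∀ n, DD κ e a b M (z n) (ζ n) = 0) (α β : MvPolynomial (Fin 2) ℂ)
    (hne : ∀ n, MvPolynomial.aeval ![z n, ζ n] α ≠ 0 ∨ MvPolynomial.aeval ![z n, ζ n] β ≠ 0)
    (p q : ℕ → ℂ)
    (hrel : ∀ n, MvPolynomial.aeval ![z n, ζ n] α * p n + MvPolynomial.aeval ![z n, ζ n] β * q n = 0) :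
    ∃ (d : ℕ) (h : ℕ → ℂ[X]), (∃ i ≤ d, h i ≠ 0) ∧
      {n | ∑ i ∈ Finset.range (d + 1), (h i).eval (ww κ (z n) (ζ n)) * p n ^ i * q n ^ (d - i) = 0}.Infinite := by
  obtain ⟨L, iF, iA, φ, hφ⟩ := SF5.exists_field
  have ev : ∀ n, ∀ f : ℕ → ℂ, Pi.evalAlgHom ℂ (fun _ : ℕ => ℂ) n f = f n := fun n f => rfl
  have evm : ∀ n (γ : MvPolynomial (Fin 2) ℂ), (MvPolynomial.aeval ![z, ζ] γ : ℕ → ℂ) n =
      MvPolynomial.aeval ![z n, ζ n] γ := by
    intro n γ
    have := SF5.map_mv (Pi.evalAlgHom ℂ (fun _ : ℕ => ℂ) n) z ζ γ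
    simpa [ev] using this
  have hDL : MvPolynomial.aeval ![φ z, φ ζ]
      (DD κ e a b M (MvPolynomial.X 0 : MvPolynomial (Fin 2) ℂ) (MvPolynomial.X 1)) = 0 := by
    have h0 : DD κ e a b M z ζ = 0 := by
      funext n
      have := map_DD (Pi.evalAlgHom ℂ (fun _ : ℕ => ℂ) n) κ e a b M z ζ
      rw [ev, ev, ev, hD n] at this
      exact this
    rw [map_DD]
    simp only [MvPolynomial.aeval_X, Matrix.cons_val_zero, Matrix.cons_val_one]
    rw [← map_DD, h0, map_zero]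
  have haev : ∀ (h : ℂ[X]), aeval (ww κ (φ z) (φ ζ)) h =
      φ (fun n => h.eval (ww κ (z n) (ζ n))) := by
    intro h
    rw [← SF5.map_ww, Polynomial.aeval_algHom_apply]
    congr 1
    funext n
    have h1 := Polynomial.aeval_algHom_apply (Pi.evalAlgHom ℂ (fun _ : ℕ => ℂ) n) (ww κ z ζ) h
    rw [SF5.map_ww, ev, ev, ev] at h1
    rw [← h1, Polynomial.coe_aeval_eq_eval]
  have htr : Transcendental ℂ (ww κ (φ z) (φ ζ)) := by
    rintro ⟨P, hP0, hP⟩
    rw [haev] at hP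
    have hinf := hφ _ hP
    have hfin : {n | P.eval (ww κ (z n) (ζ n)) = 0}.Finite := by
      have h1 : {n | P.eval (ww κ (z n) (ζ n)) = 0} =
          (fun n => ww κ (z n) (ζ n)) ⁻¹' {x | P.eval x = 0} := rfl
      rw [h1]
      apply Set.Finite.preimage hinj.injOn
      refine (P.roots.toFinset.finite_toSet).subset ?_
      intro x hx
      simp only [Finset.mem_coe, Multiset.mem_toFinset]
      exact (Polynomial.mem_roots hP0).2 hx
    exact hinf hfin
  have hneL : MvPolynomial.aeval ![φ z, φ ζ] α ≠ 0 ∨ MvPolynomial.aeval ![φ z, φ ζ] β ≠ 0 := by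
    by_contra hh
    push Not at hh
    obtain ⟨h1, h2⟩ := hh
    rw [← SF5.map_mv] at h1 h2
    set A : ℕ → ℂ := MvPolynomial.aeval ![z, ζ] α with hA
    set B : ℕ → ℂ := MvPolynomial.aeval ![z, ζ] β with hB
    have h3 : (1 : ℕ → ℂ) = A * (fun n => (A n)⁻¹) +
        B * (fun n => if A n = 0 then (B n)⁻¹ else 0) := by
      funext n
      simp only [Pi.one_apply, Pi.add_apply, Pi.mul_apply]
      by_cases hn : A n = 0
      · have hBn : B n ≠ 0 := by
          rcases hne n with h | h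
          · rw [← evm] at h; exact absurd hn h
          · rw [← evm] at h; exact h
        simp [hn, hBn]
      · simp [hn]
    have h4 : φ 1 = 0 := by
      rw [h3, map_add, map_mul, map_mul, h1, h2]
      simp
    rw [map_one] at h4
    exact one_ne_zero h4
  have hrelL : MvPolynomial.aeval ![φ z, φ ζ] α * φ p + MvPolynomial.aeval ![φ z, φ ζ] β * φ q = 0 := by
    rw [← SF5.map_mv, ← SF5.map_mv, ← map_mul, ← map_mul, ← map_add]
    have : (MvPolynomial.aeval ![z, ζ] α : ℕ → ℂ) * p + (MvPolynomial.aeval ![z, ζ] β : ℕ → ℂ) * q = 0 := by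
      funext n
      simp only [Pi.add_apply, Pi.mul_apply, evm, hrel n, Pi.zero_apply]
    rw [this, map_zero]
  obtain ⟨d, h, hnz, hsum⟩ := alg κ hκ (φ z) (φ ζ) htr _ (dd_mv κ e hκ a b M hM ha) hDL α β hneL
    (φ p) (φ q) hrelL
  refine ⟨d, h, hnz, ?_⟩
  have h1 : φ (∑ i ∈ Finset.range (d + 1),
      (fun n => (h i).eval (ww κ (z n) (ζ n))) * p ^ i * q ^ (d - i)) = 0 := by
    rw [map_sum, ← hsum]
    refine Finset.sum_congr rfl fun i _ => ?_
    rw [map_mul, map_mul, map_pow, map_pow, haev]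
  have h2 := hφ _ h1
  refine h2.mono ?_
  intro n hn
  simp only [Set.mem_setOf_eq, Finset.sum_apply, Pi.mul_apply, Pi.pow_apply] at hn ⊢
  exact hn

end Pool.Agent.Helper327_Sch
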