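import Pool.Agent.Helper327_Sch.Defs
import Pool.Agent.Y971.SG.Bes
import Pool.Agent.Y987.SG.Zer
import Pool.Agent.Y96.SG.Sol2
import Pool.Agent.Helper327_Sch.Fin.SF1
import Pool.Agent.Helper327_Sch.Fin.SF2
import Pool.Agent.Helper327_Sch.Fin.SF4
import Pool.Agent.Helper327_Sch.Fin.SF5

set_option autoImplicit false

open Complex Polynomial Filter Topology Set
open scoped ComplexConjugate

namespace Pool.Agent.Helper327_Sch

open Pool.Agent.Y245.SG (Bn Sys)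

namespace SF8

theorem ww_eq (κ : ℝ) (z : ℂ) : ww (κ : ℂ) z (conj z) = ((κ * normSq z : ℝ) : ℂ) := by
  unfold ww
  rw [Complex.mul_conj]
  simp

theorem exp_s (κ : ℝ) (hκ : 0 < κ) (z : ℂ) (hz : 0 < normSq z) :
    exp ((Real.log (κ * normSq z) : ℝ) : ℂ) = ((κ * normSq z : ℝ) : ℂ) := by
  rw [← Complex.ofReal_exp, Real.exp_log (mul_pos hκ hz)]

theorem fin (κ : ℝ) (hκ : 0 < κ) (e : ℂ) (a b : ℕ → ℂ) (M : ℕ) (hM : 0 < M)
    (ha : a (M - 1) ≠ 0) (z : ℕ → ℂ) (hinj : Function.Injective fun n => normSq (z n)) (r1 r2 : ℝ)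
    (hr1 : 0 < r1) (hz : ∀ n, r1 ≤ normSq (z n) ∧ normSq (z n) ≤ r2)
    (hD : ∀ n, DD (κ : ℂ) e a b M (z n) (conj (z n)) = 0)
    (v0 v1 : ℂ → ℂ) (hv0 : Differentiable ℂ v0) (hv1 : Differentiable ℂ v1)
    (hp0 : ∀ ω, v0 (ω + 2 * Real.pi * I) = v0 ω) (hp1 : ∀ ω, v1 (ω + 2 * Real.pi * I) = v1 ω)
    (p q : ℂ) (hpq : p ≠ 0 ∨ q ≠ 0) (α β : MvPolynomial (Fin 2) ℂ)
    (hne : ∀ n, MvPolynomial.aeval ![z n, conj (z n)] α ≠ 0 ∨
      MvPolynomial.aeval ![z n, conj (z n)] β ≠ 0)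
    (hrel : ∀ n, MvPolynomial.aeval ![z n, conj (z n)] α *
        (p * Bn 0 ((κ * normSq (z n) : ℝ) : ℂ) + q * (((Real.log (κ * normSq (z n)) : ℝ) : ℂ) *
          Bn 0 ((κ * normSq (z n) : ℝ) : ℂ) + v0 ((Real.log (κ * normSq (z n)) : ℝ) : ℂ))) +
      MvPolynomial.aeval ![z n, conj (z n)] β *
        (p * Bn 1 ((κ * normSq (z n) : ℝ) : ℂ) + q * (((Real.log (κ * normSq (z n)) : ℝ) : ℂ) *
          Bn 1 ((κ * normSq (z n) : ℝ) : ℂ) + v1 ((Real.log (κ * normSq (z n)) : ℝ) : ℂ))) = 0) :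
    False := by
  have hpos : ∀ n, 0 < normSq (z n) := fun n => lt_of_lt_of_le hr1 (hz n).1
  have hκ' : (κ : ℂ) ≠ 0 := by exact_mod_cast hκ.ne'
  have hinj' : Function.Injective fun n => ww (κ : ℂ) (z n) ((fun n => conj (z n)) n) := by
    intro m n hmn
    have h1 : ww (κ : ℂ) (z m) (conj (z m)) = ww (κ : ℂ) (z n) (conj (z n)) := hmn
    rw [ww_eq, ww_eq] at h1
    have h2 : κ * normSq (z m) = κ * normSq (z n) := by exact_mod_cast h1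
    exact hinj (mul_left_cancel₀ hκ.ne' h2)
  obtain ⟨d, h, hne', hinf⟩ := germ_rel (κ : ℂ) e hκ' a b M hM ha z (fun n => conj (z n)) hinj' hD
    α β hne _ _ hrel
  set s : ℕ → ℝ := fun n => Real.log (κ * normSq (z n)) with hs
  have hsinj : Function.Injective s := by
    intro m n hmn
    have h1 : Real.log (κ * normSq (z m)) = Real.log (κ * normSq (z n)) := hmn
    have h2 := Real.log_injOn_pos (Set.mem_Ioi.2 (mul_pos hκ (hpos m)))
      (Set.mem_Ioi.2 (mul_pos hκ (hpos n))) h1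
    exact hinj (mul_left_cancel₀ hκ.ne' h2)
  refine hom v0 v1 hv0 hv1 hp0 hp1 p q hpq d h hne' (s '' _)
    (hinf.image (hsinj.injOn)) (max |Real.log (κ * r1)| |Real.log (κ * r2)|) ?_ ?_
  · rintro _ ⟨n, -, rfl⟩
    refine abs_le_max_abs_abs ?_ ?_
    · exact Real.log_le_log (mul_pos hκ hr1) (mul_le_mul_of_nonneg_left (hz n).1 hκ.le)
    · exact Real.log_le_log (mul_pos hκ (hpos n)) (mul_le_mul_of_nonneg_left (hz n).2 hκ.le)
  · rintro _ ⟨n, hn, rfl⟩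
    have h1 : exp ((s n : ℝ) : ℂ) = ((κ * normSq (z n) : ℝ) : ℂ) := exp_s κ hκ (z n) (hpos n)
    rw [h1]
    have h2 := hn
    simp only [Set.mem_ofPred_eq] at h2
    rw [ww_eq] at h2
    exact h2

theorem dz (κ : ℝ) (e : ℂ) (a b : ℕ → ℂ) (M : ℕ) (z : ℂ)
    (h1 : F1 κ e a b M (fun m => Bn m ((κ * normSq z : ℝ) : ℂ)) z (conj z) = 0)
    (h2 : F1 κ e b a M (fun m => Bn m ((κ * normSq z : ℝ) : ℂ)) (conj z) z = 0) :
    DD (κ : ℂ) e a b M z (conj z) = 0 := by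
  refine dd_zero (κ : ℂ) e a b M (fun m => Bn m ((κ * normSq z : ℝ) : ℂ)) z (conj z) ?_ ?_ h1 h2
  · rw [ww_eq]
    exact rec_bn _
  · by_contra hcon
    push Not at hcon
    exact Pool.Agent.Y987.SG.bnc Pool.Agent.Y971.SG.bes 0 _ hcon

theorem ev1 (κ e : ℂ) (a b : ℕ → ℂ) (M : ℕ) (A : ℕ → ℂ[X]) (z ζ : ℂ) :
    MvPolynomial.aeval ![z, ζ] (N1 κ e a b M A (MvPolynomial.X 0 : MvPolynomial (Fin 2) ℂ)
      (MvPolynomial.X 1)) = N1 κ e a b M A z ζ := by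
  rw [map_N1]
  simp

theorem ev1s (κ e : ℂ) (a b : ℕ → ℂ) (M : ℕ) (A : ℕ → ℂ[X]) (z ζ : ℂ) :
    MvPolynomial.aeval ![z, ζ] (N1 κ e a b M A (MvPolynomial.X 1 : MvPolynomial (Fin 2) ℂ)
      (MvPolynomial.X 0)) = N1 κ e a b M A ζ z := by
  rw [map_N1]
  simp

theorem ev0 (κ e : ℂ) (a b : ℕ → ℂ) (M : ℕ) (A : ℕ → ℂ[X]) (z ζ : ℂ) :
    MvPolynomial.aeval ![z, ζ] (N0 κ e a b M A (MvPolynomial.X 0 : MvPolynomial (Fin 2) ℂ)
      (MvPolynomial.X 1)) = N0 κ e a b M A z ζ := by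
  rw [map_N0]
  simp

theorem ww_swap (κ : ℂ) (z ζ : ℂ) : ww κ ζ z = ww κ z ζ := by
  unfold ww; rw [mul_comm ζ z]

end SF8

/-- all coefficients vanish at infinitely many of the points -/
theorem case_a (κ : ℝ) (hκ : 0 < κ) (e : ℂ) (a b : ℕ → ℂ) (M : ℕ) (hM : 0 < M)
    (ha : a (M - 1) ≠ 0) (z : ℕ → ℂ) (hinj : Function.Injective fun n => normSq (z n)) (r1 r2 : ℝ)
    (hr1 : 0 < r1) (hz : ∀ n, r1 ≤ normSq (z n) ∧ normSq (z n) ≤ r2)
    (h1 : ∀ n, F1 κ e a b M (fun m => Bn m ((κ * normSq (z n) : ℝ) : ℂ)) (z n) (conj (z n)) = 0)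
    (h2 : ∀ n, F1 κ e b a M (fun m => Bn m ((κ * normSq (z n) : ℝ) : ℂ)) (conj (z n)) (z n) = 0) :
    {n | N1 (κ : ℂ) e a b M pA (z n) (conj (z n)) = 0 ∧ N1 (κ : ℂ) e a b M pB (z n) (conj (z n)) = 0 ∧
      N1 (κ : ℂ) e b a M pA (conj (z n)) (z n) = 0 ∧
      N1 (κ : ℂ) e b a M pB (conj (z n)) (z n) = 0}.Infinite := by
  have hpos : ∀ n, 0 < normSq (z n) := fun n => lt_of_lt_of_le hr1 (hz n).1
  have hwne : ∀ n, (((κ * normSq (z n) : ℝ)) : ℂ) ≠ 0 := fun n => by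
    exact_mod_cast (mul_pos hκ (hpos n)).ne'
  have hD : ∀ n, DD (κ : ℂ) e a b M (z n) (conj (z n)) = 0 := fun n =>
    SF8.dz κ e a b M (z n) (h1 n) (h2 n)
  by_contra hfin
  rw [Set.not_infinite] at hfin
  have hcomp := hfin.infinite_compl
  set P : Set ℕ := {n | N1 (κ : ℂ) e a b M pA (z n) (conj (z n)) ≠ 0 ∨
    N1 (κ : ℂ) e a b M pB (z n) (conj (z n)) ≠ 0} with hP
  set Q : Set ℕ := {n | N1 (κ : ℂ) e b a M pA (conj (z n)) (z n) ≠ 0 ∨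
    N1 (κ : ℂ) e b a M pB (conj (z n)) (z n) ≠ 0} with hQ
  have hPQ : (P ∪ Q).Infinite := by
    refine hcomp.mono ?_
    intro n hn
    by_contra hcon
    apply hn
    simp only [hP, hQ, Set.mem_union, Set.mem_ofPred_eq, not_or, not_not] at hcon
    exact ⟨hcon.1.1, hcon.1.2, hcon.2.1, hcon.2.2⟩
  rcases Set.infinite_union.1 hPQ with hi | hi
  · set g : ℕ ↪ P := hi.natEmbedding P with hg
    refine SF8.fin κ hκ e a b M hM ha (fun n => z (g n)) ?_ r1 r2 hr1 (fun n => hz _)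
      (fun n => hD _) (fun _ => 0) (fun _ => 0) (differentiable_const _) (differentiable_const _)
      (fun _ => rfl) (fun _ => rfl) 1 0 (Or.inl one_ne_zero)
      (N1 (κ : ℂ) e a b M pA (MvPolynomial.X 0) (MvPolynomial.X 1))
      (N1 (κ : ℂ) e a b M pB (MvPolynomial.X 0) (MvPolynomial.X 1)) ?_ ?_
    · intro m n hmn
      exact g.injective (Subtype.ext (hinj hmn))
    · intro n
      rw [SF8.ev1, SF8.ev1]
      exact (g n).2
    · intro n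
      rw [SF8.ev1, SF8.ev1]
      have h3 := rep1 (κ : ℂ) e a b M (fun m => Bn m ((κ * normSq (z (g n)) : ℝ) : ℂ)) (z (g n))
        (conj (z (g n))) (by rw [SF8.ww_eq]; exact rec_bn _)
      rw [h1 (g n), mul_zero] at h3
      simp only [one_mul, zero_mul, add_zero]
      exact h3.symm
  · set g : ℕ ↪ Q := hi.natEmbedding Q with hg
    refine SF8.fin κ hκ e a b M hM ha (fun n => z (g n)) ?_ r1 r2 hr1 (fun n => hz _)
      (fun n => hD _) (fun _ => 0) (fun _ => 0) (differentiable_const _) (differentiable_const _)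
      (fun _ => rfl) (fun _ => rfl) 1 0 (Or.inl one_ne_zero)
      (N1 (κ : ℂ) e b a M pA (MvPolynomial.X 1) (MvPolynomial.X 0))
      (N1 (κ : ℂ) e b a M pB (MvPolynomial.X 1) (MvPolynomial.X 0)) ?_ ?_
    · intro m n hmn
      exact g.injective (Subtype.ext (hinj hmn))
    · intro n
      rw [SF8.ev1s, SF8.ev1s]
      exact (g n).2
    · intro n
      rw [SF8.ev1s, SF8.ev1s]
      have h3 := rep1 (κ : ℂ) e b a M (fun m => Bn m ((κ * normSq (z (g n)) : ℝ) : ℂ))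
        (conj (z (g n))) (z (g n)) (by rw [SF8.ww_swap, SF8.ww_eq]; exact rec_bn _)
      rw [h2 (g n), mul_zero] at h3
      simp only [one_mul, zero_mul, add_zero]
      exact h3.symm

theorem case_b (κ : ℝ) (hκ : 0 < κ) (e : ℂ) (a b : ℕ → ℂ) (M : ℕ) (hM : 0 < M)
    (ha : a (M - 1) ≠ 0) (z : ℕ → ℂ) (hinj : Function.Injective fun n => normSq (z n)) (r1 r2 : ℝ)
    (hr1 : 0 < r1) (hz : ∀ n, r1 ≤ normSq (z n) ∧ normSq (z n) ≤ r2)
    (hD : ∀ n, DD (κ : ℂ) e a b M (z n) (conj (z n)) = 0)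
    (v0 v1 : ℂ → ℂ) (hv0 : Differentiable ℂ v0) (hv1 : Differentiable ℂ v1)
    (hp0 : ∀ ω, v0 (ω + 2 * Real.pi * I) = v0 ω) (hp1 : ∀ ω, v1 (ω + 2 * Real.pi * I) = v1 ω)
    (c c2 : ℂ) (hc : c ≠ 0)
    (hU : ∀ n, F e a b M (fun m => Bn m ((κ * normSq (z n) : ℝ) : ℂ)) (z n) (conj (z n)) = c)
    (hU2 : ∀ n, F e a b M (fun m => fam (fun ω => ω * Bn 0 (exp ω) + v0 ω)
      (fun ω => ω * Bn 1 (exp ω) + v1 ω) m ((Real.log (κ * normSq (z n)) : ℝ) : ℂ))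
      (z n) (conj (z n)) = c2) : False := by
  have hpos : ∀ n, 0 < normSq (z n) := fun n => lt_of_lt_of_le hr1 (hz n).1
  have hwne : ∀ n, (((κ * normSq (z n) : ℝ)) : ℂ) ≠ 0 := fun n => by
    exact_mod_cast (mul_pos hκ (hpos n)).ne'
  have e1 : ∀ n, ((κ * normSq (z n) : ℝ) : ℂ) ^ M * c =
      N0 (κ : ℂ) e a b M pA (z n) (conj (z n)) * Bn 0 ((κ * normSq (z n) : ℝ) : ℂ) +
      N0 (κ : ℂ) e a b M pB (z n) (conj (z n)) * Bn 1 ((κ * normSq (z n) : ℝ) : ℂ) := by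
    intro n
    have h3 := rep0 (κ : ℂ) e a b M (fun m => Bn m ((κ * normSq (z n) : ℝ) : ℂ)) (z n)
      (conj (z n)) (by rw [SF8.ww_eq]; exact rec_bn _)
    rw [hU n, SF8.ww_eq] at h3
    exact h3
  have e2 : ∀ n, ((κ * normSq (z n) : ℝ) : ℂ) ^ M * c2 =
      N0 (κ : ℂ) e a b M pA (z n) (conj (z n)) * (((Real.log (κ * normSq (z n)) : ℝ) : ℂ) *
        Bn 0 ((κ * normSq (z n) : ℝ) : ℂ) + v0 ((Real.log (κ * normSq (z n)) : ℝ) : ℂ)) +
      N0 (κ : ℂ) e a b M pB (z n) (conj (z n)) * (((Real.log (κ * normSq (z n)) : ℝ) : ℂ) *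
        Bn 1 ((κ * normSq (z n) : ℝ) : ℂ) + v1 ((Real.log (κ * normSq (z n)) : ℝ) : ℂ)) := by
    intro n
    have hexp := SF8.exp_s κ hκ (z n) (hpos n)
    have h3 := rep0 (κ : ℂ) e a b M (fun m => fam (fun ω => ω * Bn 0 (exp ω) + v0 ω)
      (fun ω => ω * Bn 1 (exp ω) + v1 ω) m ((Real.log (κ * normSq (z n)) : ℝ) : ℂ)) (z n)
      (conj (z n)) (by rw [SF8.ww_eq, ← hexp]; exact rec_fam _ _ _)
    rw [hU2 n, SF8.ww_eq] at h3
    rw [h3]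
    simp only [fam, hexp]
  refine SF8.fin κ hκ e a b M hM ha z hinj r1 r2 hr1 hz hD v0 v1 hv0 hv1 hp0 hp1 c2 (-c)
    (Or.inr (neg_ne_zero.2 hc))
    (N0 (κ : ℂ) e a b M pA (MvPolynomial.X 0) (MvPolynomial.X 1))
    (N0 (κ : ℂ) e a b M pB (MvPolynomial.X 0) (MvPolynomial.X 1)) ?_ ?_
  · intro n
    rw [SF8.ev0, SF8.ev0]
    by_contra hcon
    push Not at hcon
    have h4 := e1 n
    rw [hcon.1, hcon.2, zero_mul, zero_mul, add_zero] at h4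
    rcases mul_eq_zero.1 h4 with h5 | h5
    · exact pow_ne_zero M (hwne n) h5
    · exact hc h5
  · intro n
    rw [SF8.ev0, SF8.ev0]
    linear_combination (-c2) * (e1 n) + c * (e2 n)

end Pool.Agent.Helper327_Sch
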