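import Pool.Agent.Helper327_Sch.Defs
import Pool.Agent.Y96.SG.Sol2
import Pool.Agent.Y971.SG.Bes
import Pool.Agent.Helper327_Sch.Fin.SF1
import Pool.Agent.Helper327_Sch.Fin.SF6
import Pool.Agent.Helper327_Sch.Fin.SF7
import Pool.Agent.Helper327_Sch.Fin.SF8

set_option autoImplicit false

open Complex Polynomial Filter Topology Set
open scoped ComplexConjugate

namespace Pool.Agent.Helper327_Sch

open Pool.Agent.Y245.SG (Bn Sys)

namespace SF10

theorem an_N1 (κ e : ℂ) (a b : ℕ → ℂ) (M : ℕ) (A : ℕ → ℂ[X]) {f g : ℝ → ℂ} {t : ℝ}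
    (hf : AnalyticAt ℝ f t) (hg : AnalyticAt ℝ g t) :
    AnalyticAt ℝ (fun s => N1 κ e a b M A (f s) (g s)) t := by
  have hw : AnalyticAt ℝ (fun s => ww κ (f s) (g s)) t := by
    unfold ww
    exact analyticAt_const.mul (hf.mul hg)
  have hp : ∀ p : ℂ[X], AnalyticAt ℝ (fun s => aeval (ww κ (f s) (g s)) p) t :=
    fun p => hw.aeval_polynomial p
  unfold N1
  refine AnalyticAt.sub ?_ ?_
  · refine Finset.analyticAt_fun_sum _ ?_
    intro m _
    refine AnalyticAt.sub ?_ ?_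
    · exact ((analyticAt_const.mul (hf.pow m)).mul (hw.pow _)).mul (hp _)
    · exact ((analyticAt_const.mul (hg.pow _)).mul (hw.pow _)).mul (hp _)
  · exact ((analyticAt_const.mul hg).mul (hw.pow _)).mul (hp _)

theorem an_conj {f : ℝ → ℂ} {t : ℝ} (hf : AnalyticAt ℝ f t) :
    AnalyticAt ℝ (fun s => conj (f s)) t :=
  (Complex.conjCLE.toContinuousLinearMap.analyticAt (f t)).comp hf

theorem zero_of_inf {α β : ℝ} {g : ℝ → ℂ} (hg : ∀ t ∈ Ioo α β, AnalyticAt ℝ g t)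
    {K : Set ℝ} (hK : IsCompact K) (hKs : K ⊆ Ioo α β) {T : Set ℝ} (hT : T.Infinite) (hTK : T ⊆ K)
    (h0 : ∀ t ∈ T, g t = 0) : ∀ t ∈ Ioo α β, g t = 0 := by
  obtain ⟨x, hx, hacc⟩ := hT.exists_accPt_of_subset_isCompact hK hTK
  have h1 : ∃ᶠ y in 𝓝[≠] x, y ∈ T := accPt_iff_frequently_nhdsNE.mp hacc
  have h2 : ∃ᶠ y in 𝓝[≠] x, g y = 0 := h1.mono fun y hy => h0 y hy
  have h3 : AnalyticOnNhd ℝ g (Ioo α β) := hg
  exact fun t ht =>
    h3.eqOn_zero_of_preconnected_of_frequently_eq_zero isPreconnected_Ioo (hKs hx) h2 ht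

theorem ww_eq (κ : ℝ) (z : ℂ) : ww (κ : ℂ) z (conj z) = ((κ * normSq z : ℝ) : ℂ) := by
  unfold ww
  rw [Complex.mul_conj]
  push_cast
  simp

theorem ww_comm (κ : ℂ) (z ζ : ℂ) : ww κ z ζ = ww κ ζ z := by
  unfold ww; ring

theorem exp_log (κ : ℝ) (hκ : 0 < κ) (z : ℂ) (hz : z ≠ 0) :
    exp ((Real.log (κ * normSq z) : ℝ) : ℂ) = ww (κ : ℂ) z (conj z) := by
  rw [ww_eq, ← Complex.ofReal_exp, Real.exp_log (mul_pos hκ (normSq_pos.mpr hz))]

theorem F1_zero (κ e : ℂ) (a b : ℕ → ℂ) (M : ℕ) (f : ℕ → ℂ) (z ζ : ℂ) (h : Rec (ww κ z ζ) f)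
    (hw : ww κ z ζ ≠ 0) (hA : N1 κ e a b M pA z ζ = 0) (hB : N1 κ e a b M pB z ζ = 0) :
    F1 κ e a b M f z ζ = 0 := by
  have h1 := rep1 κ e a b M f z ζ h
  rw [hA, hB, zero_mul, zero_mul, add_zero] at h1
  exact (mul_eq_zero.mp h1).resolve_left (pow_ne_zero _ hw)

end SF10

/-- no analytic arc of critical points with a nonzero value -/
theorem arc (κ : ℝ) (hκ : 0 < κ) (e : ℂ) (a b : ℕ → ℂ) (M : ℕ) (hM : 0 < M) (ha : a (M - 1) ≠ 0)
    (hb : b (M - 1) ≠ 0) (α β : ℝ) (hαβ : α < β) (γ : ℝ → ℂ) (hγ : ∀ t ∈ Ioo α β, AnalyticAt ℝ γ t)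
    (hinj : InjOn γ (Ioo α β)) (h0 : ∀ t ∈ Ioo α β, γ t ≠ 0) (c : ℂ) (hc : c ≠ 0)
    (hU : ∀ t ∈ Ioo α β, F e a b M (fun m => Bn m ((κ * normSq (γ t) : ℝ) : ℂ)) (γ t)
      (conj (γ t)) = c)
    (h1 : ∀ t ∈ Ioo α β, F1 κ e a b M (fun m => Bn m ((κ * normSq (γ t) : ℝ) : ℂ)) (γ t)
      (conj (γ t)) = 0)
    (h2 : ∀ t ∈ Ioo α β, F1 κ e b a M (fun m => Bn m ((κ * normSq (γ t) : ℝ) : ℂ)) (conj (γ t))
      (γ t) = 0) : False := by
  by_cases hcst : ∃ ρ : ℝ, ∀ t ∈ Ioo α β, normSq (γ t) = ρ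
  · obtain ⟨ρ, hρ⟩ := hcst
    have hmid : (α + β) / 2 ∈ Ioo α β := ⟨by linarith, by linarith⟩
    have hρ0 : 0 < ρ := by
      rw [← hρ _ hmid]
      exact normSq_pos.mpr (h0 _ hmid)
    refine circle_case κ hκ e a b M hM ha hb ρ hρ0 (γ '' Ioo α β)
      ((Set.Ioo_infinite hαβ).image hinj) ?_
    rintro z ⟨t, ht, rfl⟩
    refine ⟨hρ t ht, ?_⟩
    have h := h1 t ht
    rw [hρ t ht] at h
    exact h
  · have hex : ∃ t1 ∈ Ioo α β, ∃ t2 ∈ Ioo α β, normSq (γ t1) ≠ normSq (γ t2) := by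
      by_contra hno
      push Not at hno
      have hmid : (α + β) / 2 ∈ Ioo α β := ⟨by linarith, by linarith⟩
      exact hcst ⟨normSq (γ ((α + β) / 2)), fun t ht => hno t ht _ hmid⟩
    obtain ⟨t1, ht1, t2, ht2, hne⟩ := hex
    have hsub : uIcc t1 t2 ⊆ Ioo α β := by
      intro x hx
      rw [mem_uIcc] at hx
      rcases hx with hx | hx
      · exact ⟨lt_of_lt_of_le ht1.1 hx.1, lt_of_le_of_lt hx.2 ht2.2⟩
      · exact ⟨lt_of_lt_of_le ht2.1 hx.1, lt_of_le_of_lt hx.2 ht1.2⟩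
    have hcont : ContinuousOn (fun t => normSq (γ t)) (uIcc t1 t2) := by
      intro t ht
      exact (Complex.continuous_normSq.continuousAt.comp
        (hγ t (hsub ht)).continuousAt).continuousWithinAt
    have hivt := intermediate_value_uIcc hcont
    set r1 := min (normSq (γ t1)) (normSq (γ t2)) with hr1
    set r2 := max (normSq (γ t1)) (normSq (γ t2)) with hr2
    have hr12 : r1 < r2 := by
      rw [hr1, hr2]
      exact min_lt_max.mpr hne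
    have hr1pos : 0 < r1 := lt_min (normSq_pos.mpr (h0 _ ht1)) (normSq_pos.mpr (h0 _ ht2))
    let y : ℕ → ℝ := fun n => r1 + (r2 - r1) / ((n : ℝ) + 1)
    have hy1 : ∀ n, r1 ≤ y n := by
      intro n
      have : 0 ≤ (r2 - r1) / ((n : ℝ) + 1) := div_nonneg (by linarith) (by positivity)
      show r1 ≤ r1 + (r2 - r1) / ((n : ℝ) + 1)
      linarith
    have hy2 : ∀ n, y n ≤ r2 := by
      intro n
      have hn : (0 : ℝ) ≤ n := Nat.cast_nonneg n
      have : (r2 - r1) / ((n : ℝ) + 1) ≤ r2 - r1 := div_le_self (by linarith) (by linarith)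
      show r1 + (r2 - r1) / ((n : ℝ) + 1) ≤ r2
      linarith
    have hyinj : Function.Injective y := by
      intro n m hnm
      have hn : (0 : ℝ) < (n : ℝ) + 1 := by positivity
      have hm : (0 : ℝ) < (m : ℝ) + 1 := by positivity
      have h3 : (r2 - r1) / ((n : ℝ) + 1) = (r2 - r1) / ((m : ℝ) + 1) := by
        have h4 : r1 + (r2 - r1) / ((n : ℝ) + 1) = r1 + (r2 - r1) / ((m : ℝ) + 1) := hnm
        linarith
      rw [div_eq_div_iff hn.ne' hm.ne'] at h3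
      have h5 : (m : ℝ) + 1 = (n : ℝ) + 1 := mul_left_cancel₀ (sub_ne_zero.mpr hr12.ne') h3
      have h6 : (m : ℝ) = n := by linarith
      exact_mod_cast h6.symm
    have hch : ∀ n, ∃ t ∈ uIcc t1 t2, normSq (γ t) = y n := by
      intro n
      have : y n ∈ uIcc (normSq (γ t1)) (normSq (γ t2)) := ⟨hy1 n, hy2 n⟩
      obtain ⟨t, ht, hty⟩ := hivt this
      exact ⟨t, ht, hty⟩
    choose τ hτ hτy using hch
    have hτinj : Function.Injective τ := by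
      intro n m hnm
      apply hyinj
      rw [← hτy, ← hτy, hnm]
    have hτS : ∀ n, τ n ∈ Ioo α β := fun n => hsub (hτ n)
    have hzinj : Function.Injective fun n => normSq (γ (τ n)) := by
      intro n m hnm
      apply hyinj
      rw [← hτy, ← hτy]
      exact hnm
    have hz : ∀ n, r1 ≤ normSq (γ (τ n)) ∧ normSq (γ (τ n)) ≤ r2 := by
      intro n
      rw [hτy]
      exact ⟨hy1 n, hy2 n⟩
    have hinf := case_a κ hκ e a b M hM ha (fun n => γ (τ n)) hzinj r1 r2 hr1pos hz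
      (fun n => h1 _ (hτS n)) (fun n => h2 _ (hτS n))
    have hTinf := hinf.image (hτinj.injOn (s := {n | N1 (κ : ℂ) e a b M pA (γ (τ n)) (conj (γ (τ n))) = 0 ∧
      N1 (κ : ℂ) e a b M pB (γ (τ n)) (conj (γ (τ n))) = 0 ∧
      N1 (κ : ℂ) e b a M pA (conj (γ (τ n))) (γ (τ n)) = 0 ∧
      N1 (κ : ℂ) e b a M pB (conj (γ (τ n))) (γ (τ n)) = 0}))
    have hTK : τ '' {n | N1 (κ : ℂ) e a b M pA (γ (τ n)) (conj (γ (τ n))) = 0 ∧
      N1 (κ : ℂ) e a b M pB (γ (τ n)) (conj (γ (τ n))) = 0 ∧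
      N1 (κ : ℂ) e b a M pA (conj (γ (τ n))) (γ (τ n)) = 0 ∧
      N1 (κ : ℂ) e b a M pB (conj (γ (τ n))) (γ (τ n)) = 0} ⊆ uIcc t1 t2 := by
      rintro _ ⟨n, -, rfl⟩
      exact hτ n
    have hZ1 : ∀ t ∈ Ioo α β, N1 (κ : ℂ) e a b M pA (γ t) (conj (γ t)) = 0 := by
      refine SF10.zero_of_inf (g := fun t => N1 (κ : ℂ) e a b M pA (γ t) (conj (γ t)))
        (fun t ht => SF10.an_N1 _ _ _ _ _ _ (hγ t ht) (SF10.an_conj (hγ t ht)))
        isCompact_uIcc hsub hTinf hTK ?_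
      rintro _ ⟨n, hn, rfl⟩
      exact hn.1
    have hZ2 : ∀ t ∈ Ioo α β, N1 (κ : ℂ) e a b M pB (γ t) (conj (γ t)) = 0 := by
      refine SF10.zero_of_inf (g := fun t => N1 (κ : ℂ) e a b M pB (γ t) (conj (γ t)))
        (fun t ht => SF10.an_N1 _ _ _ _ _ _ (hγ t ht) (SF10.an_conj (hγ t ht)))
        isCompact_uIcc hsub hTinf hTK ?_
      rintro _ ⟨n, hn, rfl⟩
      exact hn.2.1
    have hZ3 : ∀ t ∈ Ioo α β, N1 (κ : ℂ) e b a M pA (conj (γ t)) (γ t) = 0 := by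
      refine SF10.zero_of_inf (g := fun t => N1 (κ : ℂ) e b a M pA (conj (γ t)) (γ t))
        (fun t ht => SF10.an_N1 _ _ _ _ _ _ (SF10.an_conj (hγ t ht)) (hγ t ht))
        isCompact_uIcc hsub hTinf hTK ?_
      rintro _ ⟨n, hn, rfl⟩
      exact hn.2.2.1
    have hZ4 : ∀ t ∈ Ioo α β, N1 (κ : ℂ) e b a M pB (conj (γ t)) (γ t) = 0 := by
      refine SF10.zero_of_inf (g := fun t => N1 (κ : ℂ) e b a M pB (conj (γ t)) (γ t))
        (fun t ht => SF10.an_N1 _ _ _ _ _ _ (SF10.an_conj (hγ t ht)) (hγ t ht))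
        isCompact_uIcc hsub hTinf hTK ?_
      rintro _ ⟨n, hn, rfl⟩
      exact hn.2.2.2
    obtain ⟨v0, v1, hv0, hv1, hp0, hp1, hS⟩ :=
      Pool.Agent.Y96.SG.sol2 Pool.Agent.Y971.SG.bes
    let H : ℝ → ℂ := fun s => F e a b M (fun m => fam (fun ω => ω * Bn 0 (exp ω) + v0 ω)
      (fun ω => ω * Bn 1 (exp ω) + v1 ω) m ((Real.log (κ * normSq (γ s)) : ℝ) : ℂ))
      (γ s) (conj (γ s))
    have hH : ∀ t ∈ Ioo α β, HasDerivAt H 0 t := by
      intro t ht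
      have hd := curve_deriv (fun ω => ω * Bn 0 (exp ω) + v0 ω)
        (fun ω => ω * Bn 1 (exp ω) + v1 ω) hS κ hκ e a b M γ (deriv γ t) t
        (hγ t ht).differentiableAt.hasDerivAt (h0 t ht)
      have hR : Rec (ww (κ : ℂ) (γ t) (conj (γ t)))
          (fun m => fam (fun ω => ω * Bn 0 (exp ω) + v0 ω)
            (fun ω => ω * Bn 1 (exp ω) + v1 ω) m ((Real.log (κ * normSq (γ t)) : ℝ) : ℂ)) := by
        rw [← SF10.exp_log κ hκ (γ t) (h0 t ht)]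
        exact rec_fam _ _ _
      have hw : ww (κ : ℂ) (γ t) (conj (γ t)) ≠ 0 := by
        rw [← SF10.exp_log κ hκ (γ t) (h0 t ht)]
        exact Complex.exp_ne_zero _
      have hR' := hR
      rw [SF10.ww_comm] at hR'
      have hw' := hw
      rw [SF10.ww_comm] at hw'
      have e1 := SF10.F1_zero (κ : ℂ) e a b M _ _ _ hR hw (hZ1 t ht) (hZ2 t ht)
      have e2 := SF10.F1_zero (κ : ℂ) e b a M _ _ _ hR' hw' (hZ3 t ht) (hZ4 t ht)
      refine hd.congr_deriv ?_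
      rw [e1, e2, zero_mul, zero_mul, add_zero]
    have hconst : ∀ t ∈ Ioo α β, H t = H t1 := by
      intro t ht
      refine isOpen_Ioo.is_const_of_deriv_eq_zero isPreconnected_Ioo
        (fun s hs => (hH s hs).differentiableAt.differentiableWithinAt)
        (fun s hs => (hH s hs).deriv) ht ht1
    refine case_b κ hκ e a b M hM ha (fun n => γ (τ n)) hzinj r1 r2 hr1pos hz ?_ v0 v1 hv0 hv1
      hp0 hp1 c (H t1) hc (fun n => hU _ (hτS n)) (fun n => hconst _ (hτS n))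
    intro n
    show DD (κ : ℂ) e a b M (γ (τ n)) (conj (γ (τ n))) = 0
    unfold DD
    rw [hZ1 _ (hτS n), hZ3 _ (hτS n), zero_mul, zero_mul, sub_zero]

end Pool.Agent.Helper327_Sch
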