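import Pool.Agent.Helper327_Sch.Defs
import Pool.Agent.Helper327_Drum.Fin.ST1
import Pool.Agent.Helper327_Sch.Fin.SF10
import Pool.Agent.Helper327_Sch.Fin.SF7
import Pool.Agent.Helper327_Sch.Fin.SF9
import Pool.Agent.Helper327_Sch.UDefs

set_option autoImplicit false

open Complex Polynomial Filter Topology Set
open scoped ComplexConjugate

namespace Pool.Agent.Helper327_Sch

open Pool.Agent.Y245.SG (Bn Sys)

open scoped ContDiff

namespace SF12

theorem inf_sphere : (Metric.sphere (0 : ℂ) 1).Infinite := by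
  have h1 : (Set.range fun t : ℝ => Complex.exp (t * Complex.I)) ⊆ Metric.sphere (0 : ℂ) 1 := by
    rintro _ ⟨t, rfl⟩
    simp [Complex.norm_exp_ofReal_mul_I]
  refine Set.Infinite.mono h1 ?_
  have h2 : Set.InjOn (fun t : ℝ => Complex.exp (t * Complex.I)) (Ioo (0 : ℝ) 1) := by
    intro t ht s hs h
    simp only at h
    have h3 := congrArg Complex.re h
    rw [Complex.exp_ofReal_mul_I_re, Complex.exp_ofReal_mul_I_re] at h3
    have hpi := Real.pi_gt_three
    exact Real.injOn_cos ⟨ht.1.le, by linarith [ht.2]⟩ ⟨hs.1.le, by linarith [hs.2]⟩ h3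
  exact ((Ioo_infinite zero_lt_one).image h2).mono (Set.image_subset_range _ _)

end SF12

/-- a nonradial finite sum has isolated critical points -/
theorem crit_iso (κ e : ℝ) (hκ : 0 < κ) (a : ℕ → ℂ) (M : ℕ) (hM : 0 < M) (ha : a (M - 1) ≠ 0)
    (x₀ : ℂ) : ¬ AccPt x₀ (𝓟 {x | fderiv ℝ (UU κ e a M) x = 0}) := by
  intro hacc
  have hb : (fun m => conj (a m)) (M - 1) ≠ 0 := by
    simpa using ha
  -- the function is not identically zero
  have hne : ∃ x, UU κ e a M x ≠ 0 := by
    by_contra hcon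
    push Not at hcon
    have hU0 : UU κ e a M = fun _ => 0 := funext hcon
    have hfd : ∀ z, fderiv ℝ (UU κ e a M) z = 0 := by
      intro z
      rw [hU0]
      simp
    refine circle_case κ hκ (e : ℂ) a (fun m => conj (a m)) M hM ha hb 1 one_pos
      (Metric.sphere (0 : ℂ) 1) SF12.inf_sphere ?_
    intro z hz
    have hz1 : normSq z = 1 := by
      rw [normSq_eq_norm_sq]
      have : ‖z‖ = 1 := by simpa using hz
      rw [this]
      norm_num
    refine ⟨hz1, ?_⟩
    have h1 := (UU_crit κ e a M z).1 (hfd z)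
    rw [hz1] at h1
    exact h1
  have hlam : (0 : ℝ) < 4 * κ := by positivity
  have hacc' : AccPt x₀ (𝓟 {x | x ∈ (Set.univ : Set ℂ) ∧ fderiv ℝ (UU κ e a M) x = 0}) := by
    simpa using hacc
  obtain ⟨hx0, e₁, δ, ψ, he₁, hδ, hψ2, hψa, hψ0, hψd, -, hcr⟩ :=
    Pool.Agent.Helper327_Drum.crit_graph isOpen_univ isPreconnected_univ hlam
      (UU_wat κ e a M) hne (Set.mem_univ x₀) hacc'
  have he₁0 : e₁ ≠ 0 := by
    intro h
    rw [h, norm_zero] at he₁
    exact zero_ne_one he₁
  -- bound on ψ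
  have hψlt : ∀ t, |t| < δ → |ψ t| < δ := by
    intro t ht
    have h1 : ‖ψ t - ψ 0‖ ≤ 1 / 2 * ‖t - 0‖ := by
      refine Convex.norm_image_sub_le_of_norm_deriv_le (s := Ioo (-δ) δ) (f := ψ) (C := 1 / 2)
        (fun x _ => (hψ2.differentiable (by norm_num)).differentiableAt) ?_ (convex_Ioo _ _)
        ⟨by linarith, hδ⟩ (abs_lt.1 ht)
      intro x hx
      rw [Real.norm_eq_abs]
      exact hψd x (abs_lt.2 hx)
    rw [hψ0, sub_zero, sub_zero, Real.norm_eq_abs, Real.norm_eq_abs] at h1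
    have h2 := abs_nonneg t
    linarith
  set γ : ℝ → ℂ := fun t => x₀ + ((t : ℂ) + (ψ t : ℂ) * Complex.I) * e₁ with hγdef
  have hγ0 : γ 0 = x₀ := by simp [hγdef, hψ0]
  have hcrit : ∀ t, |t| < δ → fderiv ℝ (UU κ e a M) (γ t) = 0 := by
    intro t ht
    exact (hcr t (ψ t) ht (hψlt t ht)).2 rfl
  have hγinj : Function.Injective γ := by
    intro t t' h
    simp only [hγdef, add_right_inj] at h
    have h1 := mul_right_cancel₀ he₁0 h
    have h2 := congrArg Complex.re h1
    simpa using h2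
  have hγdiff : Differentiable ℝ γ := by
    have h1 : Differentiable ℝ (fun t : ℝ => (t : ℂ)) := Complex.ofRealCLM.differentiable
    have h2 : Differentiable ℝ (fun t : ℝ => (ψ t : ℂ)) :=
      Complex.ofRealCLM.differentiable.comp (hψ2.differentiable (by norm_num))
    exact ((h1.add (h2.mul_const _)).mul_const _).const_add _
  have hUdiff : Differentiable ℝ (UU κ e a M) := (UU_smooth κ e a M).differentiable (by simp)
  have hconst : ∀ t, |t| < δ → UU κ e a M (γ t) = UU κ e a M x₀ := by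
    intro t ht
    have h1 : ∀ s, |s| < δ → HasDerivAt (fun s => UU κ e a M (γ s)) 0 s := by
      intro s hs
      have h2 := (hUdiff (γ s)).hasFDerivAt
      rw [hcrit s hs] at h2
      have h3 := h2.comp_hasDerivAt s (hγdiff s).hasDerivAt
      rw [_root_.zero_apply] at h3
      exact h3
    have h4 := IsOpen.is_const_of_deriv_eq_zero (𝕜 := ℝ) (s := Ioo (-δ) δ)
      (f := fun s => UU κ e a M (γ s)) isOpen_Ioo isPreconnected_Ioo
      (fun s hs => (h1 s (abs_lt.2 hs)).differentiableAt.differentiableWithinAt)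
      (fun s hs => (h1 s (abs_lt.2 hs)).deriv) (abs_lt.1 ht)
      (show (0 : ℝ) ∈ Ioo (-δ) δ from ⟨by linarith, hδ⟩)
    simpa [hγ0] using h4
  -- analyticity
  obtain ⟨δ', hδ', han⟩ := Metric.eventually_nhds_iff.1 hψa.eventually_analyticAt
  have hγan : ∀ t, |t| < δ' → AnalyticAt ℝ γ t := by
    intro t ht
    have h1 : AnalyticAt ℝ ψ t := han (by rwa [Real.dist_eq, sub_zero])
    have h2 : AnalyticAt ℝ (fun t : ℝ => (t : ℂ)) t := Complex.ofRealCLM.analyticAt t
    have h3 : AnalyticAt ℝ (fun t : ℝ => (ψ t : ℂ)) t :=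
      (Complex.ofRealCLM.analyticAt (ψ t)).comp h1
    exact analyticAt_const.add ((h2.add (h3.mul analyticAt_const)).mul analyticAt_const)
  -- the arc
  have hη : 0 < min δ δ' := lt_min hδ hδ'
  obtain ⟨α, β, hαβ, hsub, hγne⟩ : ∃ α β : ℝ, α < β ∧ (∀ t ∈ Ioo α β, |t| < min δ δ') ∧
      ∀ t ∈ Ioo α β, γ t ≠ 0 := by
    by_cases hz : ∃ t₀ ∈ Ioo (0 : ℝ) (min δ δ'), γ t₀ = 0
    · obtain ⟨t₀, ht₀, hz⟩ := hz
      refine ⟨t₀, min δ δ', ht₀.2, ?_, ?_⟩
      · intro t ht
        rw [abs_of_pos (ht₀.1.trans ht.1)]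
        exact ht.2
      · intro t ht h
        have := hγinj (h.trans hz.symm)
        exact ht.1.ne' this
    · push Not at hz
      refine ⟨0, min δ δ', hη, ?_, hz⟩
      intro t ht
      rw [abs_of_pos ht.1]
      exact ht.2
  have hc : ((UU κ e a M x₀ : ℝ) : ℂ) ≠ 0 := by
    exact_mod_cast hx0
  have hF1 : ∀ t ∈ Ioo α β, F1 κ e a (fun m => conj (a m)) M
      (fun m => Bn m ((κ * normSq (γ t) : ℝ) : ℂ)) (γ t) (conj (γ t)) = 0 := by
    intro t ht
    exact (UU_crit κ e a M (γ t)).1 (hcrit t ((hsub t ht).trans_le (min_le_left _ _)))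
  refine arc κ hκ (e : ℂ) a (fun m => conj (a m)) M hM ha hb α β hαβ γ
    (fun t ht => hγan t ((hsub t ht).trans_le (min_le_right _ _))) hγinj.injOn hγne _ hc ?_ hF1 ?_
  · intro t ht
    rw [UU_cast, hconst t ((hsub t ht).trans_le (min_le_left _ _))]
  · intro t ht
    rw [F1_conj, hF1 t ht, map_zero]

end Pool.Agent.Helper327_Sch
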