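import Pool.Agent.Helper327_Sch.Fin.SFD
import Pool.Agent.Helper327_Sch.Fin.SF9
import Pool.Agent.Helper327_Sch.Fin.SF11
import Pool.Agent.Helper327_Sch.Fin.SF12
import Pool.Agent.Helper327_Sch.Fin.SF13

/-! Solutions of the overdetermined problem that are finite Fourier–Bessel sums. -/

set_option autoImplicit false

open MeasureTheory Set Filter Complex
open scoped Topology ContDiff ComplexConjugate

namespace Pool.Agent.Helper327_Sch

open Pool.Agent.TH298.Sch (Sol)
open Pool.Agent.Y245.SG (Bn Sys)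

lemma UU_triv (κ e : ℝ) (a : ℕ → ℂ) (M : ℕ) (h : ∀ m < M, a m = 0) : UU κ e a M = UU κ e a 0 := by
  funext z
  unfold UU F
  rw [Finset.sum_eq_zero, Finset.range_zero, Finset.sum_empty]
  intro m hm
  rw [h m (Finset.mem_range.1 hm)]
  simp [h m (Finset.mem_range.1 hm)]

variable {Ω : Set ℂ} {lam c : ℝ}

theorem finite_modes (ho : IsOpen Ω) (hb : Bornology.IsBounded Ω) (hne : Ω.Nonempty)
    (hco : IsPreconnected Ωᶜ) (hreg : interior (closure Ω) = Ω) (hlam : 0 < lam)
    {u : ℂ → ℝ} {G : ℂ → ℂ} (h : Sol Ω lam c u G) (hu0 : ¬ (u =ᵐ[volume.restrict Ω] 0))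
    (p : ℂ) (M : ℕ) (α β : ℕ → ℝ)
    (hF : ∀ᵐ x ∂(volume.restrict Ω), u x = ∑ m ∈ Finset.range (M + 1),
      J m (Real.sqrt lam * ‖x - p‖) *
        (α m * Real.cos (m * arg (x - p)) + β m * Real.sin (m * arg (x - p)))) :
    ∃ r, 0 < r ∧ Ω = Metric.ball p r ∧ J 1 (Real.sqrt lam * r) = 0 ∧
      ∀ m, 1 ≤ m → m ≤ M → α m = 0 ∧ β m = 0 := by
  have hκ : 0 < lam / 4 := by positivity
  have hsq : 0 < Real.sqrt lam := Real.sqrt_pos.2 hlam
  set a : ℕ → ℂ := fun m => (((Real.sqrt lam / 2) ^ (m + 1) / 2 : ℝ) : ℂ) *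
    (α (m + 1) - β (m + 1) * I) with ha
  set W0 : ℂ → ℝ := UU (lam / 4) (α 0) a M with hW0
  set W : ℂ → ℝ := fun x => W0 (x - p) with hW
  have hae : ∀ᵐ x ∂(volume.restrict Ω), u x = W x := by
    filter_upwards [hF] with x hx
    rw [hx, uu_of_J lam hlam α β M (x - p)]
  have hWs : ContDiff ℝ 1 W :=
    ((UU_smooth (lam / 4) (α 0) a M).of_le (by exact_mod_cast le_top)).comp
      (contDiff_id.sub contDiff_const)
  have hbd := bd_of_sol ho hb hreg hlam h W hWs hae
  have hder : ∀ x, fderiv ℝ W x = fderiv ℝ W0 (x - p) := fun x => fderiv_comp_sub p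
  have hinf := frontier_inf Ω ho hb hne
  have hcomp : IsCompact (frontier Ω) :=
    hb.isCompact_closure.of_isClosed_subset isClosed_frontier frontier_subset_closure
  rcases UU_top (lam / 4) (α 0) a M with htriv | ⟨M', hM', -, haM', hUU⟩
  · -- radial case
    have hW0' : W0 = UU (lam / 4) (α 0) a 0 := UU_triv _ _ _ _ htriv
    have hα0 : α 0 ≠ 0 := by
      intro h0
      apply hu0
      filter_upwards [hae] with x hx
      rw [hx, hW]
      simp only [hW0']
      simp [UU, F, h0]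
    have hcrit : ∀ x ∈ frontier Ω, ‖x - p‖ ∈
        {r : ℝ | r = 0 ∨ Bn 1 ((lam / 4 * r ^ 2 : ℝ) : ℂ) = 0} := by
      intro x hx
      have h1 := (hbd x hx).2
      rw [hder, hW0', UU_crit] at h1
      simp only [F1, Finset.range_zero, Finset.sum_empty, zero_sub, neg_eq_zero, mul_eq_zero,
        ofReal_eq_zero, map_eq_zero] at h1
      rw [mem_setOf_eq]
      have hn : normSq (x - p) = ‖x - p‖ ^ 2 := normSq_eq_norm_sq _
      rcases h1 with ((h1 | h1) | h1) | h1
      · exact absurd h1 hκ.ne'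
      · exact absurd h1 hα0
      · left; rw [h1, norm_zero]
      · right; rw [← hn]; exact h1
    obtain ⟨r, hrT, hr0, hball⟩ := ball_of_circles Ω ho hb hne hco p _
      (fun R => bn_zeros (lam / 4) hκ R) hcrit
    refine ⟨r, hr0, hball, ?_, ?_⟩
    · rcases hrT with h1 | h1
      · exact absurd h1 hr0.ne'
      · have h2 := J_bn lam hlam 1 r
        rw [h1, mul_zero] at h2
        exact_mod_cast h2
    · intro m hm1 hm2
      obtain ⟨k, rfl⟩ : ∃ k, m = k + 1 := ⟨m - 1, by omega⟩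
      have h1 := htriv k (by omega)
      rw [ha] at h1
      simp only [mul_eq_zero, ofReal_eq_zero] at h1
      rcases h1 with h1 | h1
      · exfalso
        have : 0 < (Real.sqrt lam / 2) ^ (k + 1) / 2 := by positivity
        exact this.ne' h1
      · have h2 := congrArg Complex.re h1
        have h3 := congrArg Complex.im h1
        simp at h2 h3
        exact ⟨h2, h3⟩
  · exfalso
    obtain ⟨x₀, -, hacc⟩ := hinf.exists_accPt_of_subset_isCompact hcomp (le_refl _)
    refine crit_iso (lam / 4) (α 0) hκ a M' hM' haM' (x₀ - p) ?_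
    rw [accPt_iff_frequently] at hacc ⊢
    have hmap : Tendsto (fun x : ℂ => x - p) (𝓝 x₀) (𝓝 (x₀ - p)) :=
      (continuous_id.sub continuous_const).tendsto _
    refine hmap.frequently (hacc.mono ?_)
    rintro x ⟨hx1, hx2⟩
    refine ⟨fun hcon => hx1 (sub_left_injective hcon), ?_⟩
    have h1 := (hbd x hx2).2
    rw [hder, hW0, hUU] at h1
    exact h1

/-- critical points of a finite Fourier–Bessel sum -/
theorem modes_iso (hlam : 0 < lam) (p : ℂ) (M : ℕ) (α β : ℕ → ℝ)
    (hm : ∃ m, 1 ≤ m ∧ m ≤ M ∧ ¬ (α m = 0 ∧ β m = 0)) (x₀ : ℂ) :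
    ¬ AccPt x₀ (𝓟 {x | fderiv ℝ (fun x => ∑ m ∈ Finset.range (M + 1),
      J m (Real.sqrt lam * ‖x - p‖) *
        (α m * Real.cos (m * arg (x - p)) + β m * Real.sin (m * arg (x - p)))) x = 0}) := by
  have hκ : 0 < lam / 4 := by positivity
  have hsq : 0 < Real.sqrt lam := Real.sqrt_pos.2 hlam
  set a : ℕ → ℂ := fun m => (((Real.sqrt lam / 2) ^ (m + 1) / 2 : ℝ) : ℂ) *
    (α (m + 1) - β (m + 1) * I) with ha
  set W0 : ℂ → ℝ := UU (lam / 4) (α 0) a M with hW0
  have hfun : (fun x : ℂ => ∑ m ∈ Finset.range (M + 1), J m (Real.sqrt lam * ‖x - p‖) *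
      (α m * Real.cos (m * arg (x - p)) + β m * Real.sin (m * arg (x - p)))) =
      fun x => W0 (x - p) := by
    funext x
    rw [uu_of_J lam hlam α β M (x - p)]
  rw [hfun]
  have hder : ∀ x, fderiv ℝ (fun x => W0 (x - p)) x = fderiv ℝ W0 (x - p) :=
    fun x => fderiv_comp_sub p
  rcases UU_top (lam / 4) (α 0) a M with htriv | ⟨M', hM', -, haM', hUU⟩
  · exfalso
    obtain ⟨m, hm1, hm2, hm3⟩ := hm
    apply hm3
    obtain ⟨k, rfl⟩ : ∃ k, m = k + 1 := ⟨m - 1, by omega⟩
    have h1 := htriv k (by omega)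
    rw [ha] at h1
    simp only [mul_eq_zero, ofReal_eq_zero] at h1
    rcases h1 with h1 | h1
    · exfalso
      have : 0 < (Real.sqrt lam / 2) ^ (k + 1) / 2 := by positivity
      exact this.ne' h1
    · have h2 := congrArg Complex.re h1
      have h3 := congrArg Complex.im h1
      simp at h2 h3
      exact ⟨h2, h3⟩
  · intro hacc
    refine crit_iso (lam / 4) (α 0) hκ a M' hM' haM' (x₀ - p) ?_
    rw [accPt_iff_frequently] at hacc ⊢
    have hmap : Tendsto (fun x : ℂ => x - p) (𝓝 x₀) (𝓝 (x₀ - p)) :=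
      (continuous_id.sub continuous_const).tendsto _
    refine hmap.frequently (hacc.mono ?_)
    rintro x ⟨hx1, hx2⟩
    refine ⟨fun hcon => hx1 (sub_left_injective hcon), ?_⟩
    rw [mem_setOf_eq, hder, hW0, hUU] at hx2
    exact hx2

end Pool.Agent.Helper327_Sch
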