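import Mathlib

/-! Osgood: a function that is complex differentiable on `ℂ × ℂ` is analytic (copied from helper114, `Pool.Agent.Helper114.AB.J`). -/

open Set Filter Topology

namespace Pool.Agent.Helper327_Sch.OG

open scoped Manifold ContDiff

section

namespace Osg16
open BoundedContinuousFunction Complex Metric

/-- the circle as a bounded continuous function -/
noncomputable def cb (c : ℂ) : ℝ →ᵇ ℂ :=
  BoundedContinuousFunction.ofNormedAddCommGroup (circleMap c 1) (continuous_circleMap c 1)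
    (‖c‖ + 1) (by
      intro θ
      have h : circleMap c 1 θ = c + circleMap 0 1 θ := by simp [circleMap]
      rw [h]
      refine (norm_add_le _ _).trans ?_
      rw [norm_circleMap_zero, abs_one])

theorem cb_apply (c : ℂ) (θ : ℝ) : cb c θ = circleMap c 1 θ := rfl

theorem lb (c z : ℂ) (θ : ℝ) : 1 - ‖z - c‖ ≤ ‖circleMap c 1 θ - z‖ := by
  have h : ‖circleMap c 1 θ - c‖ = 1 := by
    rw [circleMap_sub_center, norm_circleMap_zero, abs_one]
  have h2 : circleMap c 1 θ - c = (circleMap c 1 θ - z) + (z - c) := by ring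
  have h3 := norm_add_le (circleMap c 1 θ - z) (z - c)
  rw [← h2, h] at h3
  linarith

theorem sub_ne {c z : ℂ} (hz : ‖z - c‖ < 1) (θ : ℝ) : circleMap c 1 θ - z ≠ 0 := by
  have := lb c z θ
  intro h0
  rw [h0, norm_zero] at this
  linarith

/-- explicit inverse -/
noncomputable def vinv (c z : ℂ) (hz : ‖z - c‖ < 1) : ℝ →ᵇ ℂ :=
  BoundedContinuousFunction.ofNormedAddCommGroup (fun θ => (circleMap c 1 θ - z)⁻¹)
    (((continuous_circleMap c 1).sub continuous_const).inv₀ (sub_ne hz))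
    ((1 - ‖z - c‖)⁻¹) (by
      intro θ
      rw [norm_inv]
      exact inv_anti₀ (by linarith) (lb c z θ))

/-- the Cauchy kernel as an element of a Banach algebra -/
noncomputable def u (c z : ℂ) : ℝ →ᵇ ℂ := Ring.inverse (cb c - algebraMap ℂ (ℝ →ᵇ ℂ) z)

theorem arg_apply (c z : ℂ) (θ : ℝ) :
    (cb c - algebraMap ℂ (ℝ →ᵇ ℂ) z) θ = circleMap c 1 θ - z := rfl

/-- the unit -/
noncomputable def un (c z : ℂ) (hz : ‖z - c‖ < 1) : (ℝ →ᵇ ℂ)ˣ where
  val := cb c - algebraMap ℂ (ℝ →ᵇ ℂ) z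
  inv := vinv c z hz
  val_inv := by
    ext θ
    show (circleMap c 1 θ - z) * (circleMap c 1 θ - z)⁻¹ = 1
    exact mul_inv_cancel₀ (sub_ne hz θ)
  inv_val := by
    ext θ
    show (circleMap c 1 θ - z)⁻¹ * (circleMap c 1 θ - z) = 1
    exact inv_mul_cancel₀ (sub_ne hz θ)

theorem u_apply {c z : ℂ} (hz : ‖z - c‖ < 1) (θ : ℝ) : u c z θ = (circleMap c 1 θ - z)⁻¹ := by
  have : u c z = vinv c z hz := Ring.inverse_unit (un c z hz)
  rw [this]
  rfl

theorem u_an (c : ℂ) : AnalyticAt ℂ (u c) c := by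
  have h1 : AnalyticAt ℂ (Ring.inverse : (ℝ →ᵇ ℂ) → (ℝ →ᵇ ℂ))
      (cb c - algebraMap ℂ (ℝ →ᵇ ℂ) c) :=
    analyticAt_inverse (𝕜 := ℂ) (un c c (by simp))
  have h2 : AnalyticAt ℂ (fun z : ℂ => cb c - algebraMap ℂ (ℝ →ᵇ ℂ) z) c := by
    refine analyticAt_const.sub ?_
    exact (Algebra.linearMap ℂ (ℝ →ᵇ ℂ)).toContinuousLinearMap.analyticAt c
  exact AnalyticAt.comp_of_eq (g := Ring.inverse) (f := fun z : ℂ => cb c - algebraMap ℂ (ℝ →ᵇ ℂ) z) h1 h2 rfl

section B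
variable (k : ℝ → ℝ → ℂ)

/-- the bilinear form -/
noncomputable def Bf (φ ψ : ℝ →ᵇ ℂ) : ℂ :=
  ∫ θ in (0:ℝ)..(2 * Real.pi), ∫ η in (0:ℝ)..(2 * Real.pi), k θ η * (φ θ * ψ η)

variable {k} (hk : Continuous (fun p : ℝ × ℝ => k p.1 p.2))
include hk

theorem cont_in (φ ψ : ℝ →ᵇ ℂ) (θ : ℝ) : Continuous fun η => k θ η * (φ θ * ψ η) := by
  have h1 : Continuous fun η => k θ η := hk.comp (by fun_prop : Continuous fun η : ℝ => (θ, η))
  have h2 := ψ.continuous
  fun_prop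

theorem cont_out (φ ψ : ℝ →ᵇ ℂ) :
    Continuous fun θ => ∫ η in (0:ℝ)..(2 * Real.pi), k θ η * (φ θ * ψ η) := by
  apply intervalIntegral.continuous_parametric_intervalIntegral_of_continuous'
  have h1 := φ.continuous
  have h2 := ψ.continuous
  show Continuous fun p : ℝ × ℝ => k p.1 p.2 * (φ p.1 * ψ p.2)
  fun_prop

theorem exB : ∃ B : (ℝ →ᵇ ℂ) →L[ℂ] (ℝ →ᵇ ℂ) →L[ℂ] ℂ, ∀ φ ψ, B φ ψ = Bf k φ ψ := by
  have hadd1 : ∀ φ φ' ψ, Bf k (φ + φ') ψ = Bf k φ ψ + Bf k φ' ψ := by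
    intro φ φ' ψ
    unfold Bf
    rw [← intervalIntegral.integral_add ((cont_out hk φ ψ).intervalIntegrable _ _)
      ((cont_out hk φ' ψ).intervalIntegrable _ _)]
    congr 1
    funext θ
    rw [← intervalIntegral.integral_add ((cont_in hk φ ψ θ).intervalIntegrable _ _)
      ((cont_in hk φ' ψ θ).intervalIntegrable _ _)]
    congr 1
    funext η
    simp only [BoundedContinuousFunction.coe_add, Pi.add_apply]
    ring
  have hadd2 : ∀ φ ψ ψ', Bf k φ (ψ + ψ') = Bf k φ ψ + Bf k φ ψ' := by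
    intro φ ψ ψ'
    unfold Bf
    rw [← intervalIntegral.integral_add ((cont_out hk φ ψ).intervalIntegrable _ _)
      ((cont_out hk φ ψ').intervalIntegrable _ _)]
    congr 1
    funext θ
    rw [← intervalIntegral.integral_add ((cont_in hk φ ψ θ).intervalIntegrable _ _)
      ((cont_in hk φ ψ' θ).intervalIntegrable _ _)]
    congr 1
    funext η
    simp only [BoundedContinuousFunction.coe_add, Pi.add_apply]
    ring
  have hsm1 : ∀ (c : ℂ) φ ψ, Bf k (c • φ) ψ = c • Bf k φ ψ := by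
    intro c φ ψ
    unfold Bf
    rw [← intervalIntegral.integral_smul]
    congr 1
    funext θ
    rw [← intervalIntegral.integral_smul]
    congr 1
    funext η
    simp only [BoundedContinuousFunction.coe_smul, smul_eq_mul]
    ring
  have hsm2 : ∀ (c : ℂ) φ ψ, Bf k φ (c • ψ) = c • Bf k φ ψ := by
    intro c φ ψ
    unfold Bf
    rw [← intervalIntegral.integral_smul]
    congr 1
    funext θ
    rw [← intervalIntegral.integral_smul]
    congr 1
    funext η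
    simp only [BoundedContinuousFunction.coe_smul, smul_eq_mul]
    ring
  obtain ⟨M, hM⟩ := (isCompact_Icc (a := (0:ℝ)) (b := 2 * Real.pi)).prod
    (isCompact_Icc (a := (0:ℝ)) (b := 2 * Real.pi)) |>.exists_bound_of_continuousOn
      (f := fun p : ℝ × ℝ => k p.1 p.2) hk.continuousOn
  have hM0 : 0 ≤ M := (norm_nonneg _).trans (hM (0, 0) ⟨⟨le_rfl, by positivity⟩,
    ⟨le_rfl, by positivity⟩⟩)
  have hsub : ∀ x ∈ Set.uIoc (0:ℝ) (2 * Real.pi), x ∈ Icc (0:ℝ) (2 * Real.pi) := by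
    intro x hx
    rw [Set.uIoc_of_le (by positivity)] at hx
    exact ⟨hx.1.le, hx.2⟩
  refine ⟨(LinearMap.mk₂ ℂ (Bf k) hadd1 hsm1 hadd2 hsm2).mkContinuous₂
    (M * |2 * Real.pi - 0| * |2 * Real.pi - 0|) ?_, ?_⟩
  · intro φ ψ
    show ‖Bf k φ ψ‖ ≤ _
    unfold Bf
    have h1 : ∀ θ ∈ Set.uIoc (0:ℝ) (2 * Real.pi),
        ‖∫ η in (0:ℝ)..(2 * Real.pi), k θ η * (φ θ * ψ η)‖ ≤
          (M * (‖φ‖ * ‖ψ‖)) * |2 * Real.pi - 0| := by
      intro θ hθ
      apply intervalIntegral.norm_integral_le_of_norm_le_const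
      intro η hη
      rw [norm_mul, norm_mul]
      have := hM (θ, η) ⟨hsub θ hθ, hsub η hη⟩
      have h2 := φ.norm_coe_le_norm θ
      have h3 := ψ.norm_coe_le_norm η
      gcongr
    have h4 := intervalIntegral.norm_integral_le_of_norm_le_const h1
    refine h4.trans (le_of_eq ?_)
    ring
  · intro φ ψ
    rfl

end B

/-- a complex differentiable function of two variables is analytic -/
theorem osgood (g : ℂ × ℂ → ℂ) (hg : Differentiable ℂ g) (p₀ : ℂ × ℂ) : AnalyticAt ℂ g p₀ := by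
  obtain ⟨z₀, w₀⟩ := p₀
  set k : ℝ → ℝ → ℂ := fun θ η => deriv (circleMap z₀ 1) θ * deriv (circleMap w₀ 1) η *
    g (circleMap z₀ 1 θ, circleMap w₀ 1 η) with hkdef
  have hk : Continuous (fun p : ℝ × ℝ => k p.1 p.2) := by
    simp only [hkdef, deriv_circleMap]
    have h1 := continuous_circleMap z₀ 1
    have h2 := continuous_circleMap w₀ 1
    have h3 := continuous_circleMap 0 1
    have h4 := hg.continuous
    fun_prop
  obtain ⟨B, hB⟩ := exB hk
  have key : ∀ z w : ℂ, ‖z - z₀‖ < 1 → ‖w - w₀‖ < 1 →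
      B (u z₀ z) (u w₀ w) = (2 * Real.pi * I : ℂ) * ((2 * Real.pi * I : ℂ) * g (z, w)) := by
    intro z w hz hw
    have hz' : z ∈ ball z₀ 1 := by rwa [mem_ball, dist_eq_norm]
    have hw' : w ∈ ball w₀ 1 := by rwa [mem_ball, dist_eq_norm]
    rw [hB]
    have h1 : ∀ ζ : ℂ, (∮ v in C(w₀, 1), (v - w)⁻¹ • g (ζ, v)) = (2 * Real.pi * I : ℂ) • g (ζ, w) := by
      intro ζ
      have hd : Differentiable ℂ fun v => g (ζ, v) :=
        hg.comp ((differentiable_const ζ).prodMk differentiable_id)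
      exact hd.differentiableOn.circleIntegral_sub_inv_smul hw'
    have h2 : (∮ ζ in C(z₀, 1), (ζ - z)⁻¹ • ((2 * Real.pi * I : ℂ) • g (ζ, w))) =
        (2 * Real.pi * I : ℂ) • ((2 * Real.pi * I : ℂ) • g (z, w)) := by
      have hd : Differentiable ℂ fun ζ => (2 * Real.pi * I : ℂ) • g (ζ, w) :=
        (Differentiable.const_smul (f := fun ζ => g (ζ, w))
          (hg.comp (differentiable_id.prodMk (differentiable_const w))) (2 * Real.pi * I : ℂ) :)
      exact hd.differentiableOn.circleIntegral_sub_inv_smul hz'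
    rw [smul_eq_mul, smul_eq_mul] at h2
    rw [← h2]
    unfold Bf circleIntegral
    congr 1
    funext θ
    have h3 : (2 * Real.pi * I : ℂ) • g (circleMap z₀ 1 θ, w) =
        ∮ v in C(w₀, 1), (v - w)⁻¹ • g (circleMap z₀ 1 θ, v) := (h1 _).symm
    show _ = deriv (circleMap z₀ 1) θ • ((circleMap z₀ 1 θ - z)⁻¹ •
      ((2 * Real.pi * I : ℂ) • g (circleMap z₀ 1 θ, w)))
    rw [h3]
    unfold circleIntegral
    rw [← intervalIntegral.integral_smul, ← intervalIntegral.integral_smul]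
    congr 1
    funext η
    rw [u_apply hz, u_apply hw]
    simp only [hkdef, smul_eq_mul]
    ring
  have han : AnalyticAt ℂ (fun p : ℂ × ℂ => B (u z₀ p.1) (u w₀ p.2)) (z₀, w₀) := by
    have h1 : AnalyticAt ℂ (fun p : ℂ × ℂ => u z₀ p.1) (z₀, w₀) :=
      AnalyticAt.comp_of_eq (g := u z₀) (f := fun p : ℂ × ℂ => p.1) (u_an z₀) analyticAt_fst rfl
    have h2 : AnalyticAt ℂ (fun p : ℂ × ℂ => u w₀ p.2) (z₀, w₀) :=
      AnalyticAt.comp_of_eq (g := u w₀) (f := fun p : ℂ × ℂ => p.2) (u_an w₀) analyticAt_snd rfl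
    have h3 := (B.analyticAt_bilinear (u z₀ z₀, u w₀ w₀))
    exact AnalyticAt.comp_of_eq (g := fun x : (ℝ →ᵇ ℂ) × (ℝ →ᵇ ℂ) => B x.1 x.2)
      (f := fun p : ℂ × ℂ => (u z₀ p.1, u w₀ p.2)) h3 (h1.prod h2) rfl
  have han2 : AnalyticAt ℂ (fun p : ℂ × ℂ => ((2 * Real.pi * I : ℂ) * (2 * Real.pi * I : ℂ))⁻¹ *
      B (u z₀ p.1) (u w₀ p.2)) (z₀, w₀) := analyticAt_const.mul han
  refine han2.congr ?_
  have hU : ball z₀ 1 ×ˢ ball w₀ 1 ∈ 𝓝 ((z₀, w₀) : ℂ × ℂ) :=
    prod_mem_nhds (ball_mem_nhds _ one_pos) (ball_mem_nhds _ one_pos)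
  filter_upwards [hU] with p hp
  have h1 : ‖p.1 - z₀‖ < 1 := by rw [← dist_eq_norm]; exact hp.1
  have h2 : ‖p.2 - w₀‖ < 1 := by rw [← dist_eq_norm]; exact hp.2
  rw [key p.1 p.2 h1 h2]
  have h3 : (2 * Real.pi * I : ℂ) ≠ 0 := by
    simp [Real.pi_ne_zero, I_ne_zero]
  field_simp

end Osg16

end

end Pool.Agent.Helper327_Sch.OG
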