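import Pool.Agent.R227.SA10

/-! The continuously differentiable solution, extended by zero, together with its relation to the
given weak solution. -/

set_option autoImplicit false

open MeasureTheory Set Filter
open scoped Topology ENNReal NNReal ContDiff

namespace Pool.Agent.Helper327_Sch

open Pool.Agent.R227.SA Pool.Agent.R227.LP
open Pool.Agent.TH298.Sch (Sol)

variable {Ω : Set ℂ} {lam c : ℝ}

theorem dat_of_sol' {u : ℂ → ℝ} {G : ℂ → ℂ} (ho : IsOpen Ω) (hb : Bornology.IsBounded Ω)
    (hreg : interior (closure Ω) = Ω) (hlam : 0 < lam) (h : Sol Ω lam c u G) :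
    ∃ v : ℂ → ℝ, ContDiff ℝ 1 v ∧ (∀ x, x ∉ Ω → v x = 0) ∧ (∀ x, x ∉ Ω → fderiv ℝ v x = 0) ∧
      ∀ᵐ x ∂(volume.restrict Ω), v x = u x - c := by
  obtain ⟨g, R, M, hR, hΩR, hN, hgM, hgm, hout, hg, hae⟩ := from_sol hb ho.measurableSet hlam h
  have hg0 : ∀ x, R ≤ ‖x‖ → g x = 0 := fun x hx => hout x fun hx' => by
    have := hΩR hx'
    rw [mem_ball_zero_iff] at this
    linarith
  have hp1 := pot_c1 hR hgm hgM hg0
  set v : ℂ → ℝ := fun x => lam / (2 * Real.pi) * pot g x with hv
  have hv1 : ContDiff ℝ 1 v := contDiff_const.mul hp1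
  have hEo : IsOpen (closure Ω)ᶜ := isClosed_closure.isOpen_compl
  have hE : EqOn v (fun _ => 0) (closure Ω)ᶜ := by
    refine MeasureTheory.Measure.eqOn_open_of_ae_eq (μ := volume) ?_ hEo hv1.continuous.continuousOn
      continuousOn_const
    refine (ae_restrict_iff' hEo.measurableSet).2 ?_
    filter_upwards [hae] with x hx hxE
    change lam / (2 * Real.pi) * pot g x = 0
    rw [hx, indicator_of_notMem fun h => hxE (subset_closure h)]
  have hEd : EqOn (fderiv ℝ v) (fun _ => 0) (closure Ω)ᶜ := by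
    intro x hx
    have h1 : v =ᶠ[𝓝 x] fun _ => 0 := by
      filter_upwards [hEo.mem_nhds hx] with y hy
      exact hE hy
    rw [h1.fderiv_eq]
    simp
  have hcl : Ωᶜ ⊆ closure ((closure Ω)ᶜ) := by
    rw [closure_compl, hreg]
  have hE2 : EqOn v (fun _ => 0) (closure ((closure Ω)ᶜ)) :=
    hE.closure hv1.continuous continuous_const
  have hE3 : EqOn (fderiv ℝ v) (fun _ => 0) (closure ((closure Ω)ᶜ)) :=
    hEd.closure (hv1.continuous_fderiv (by norm_num)) continuous_const
  refine ⟨v, hv1, fun x hx => hE2 (hcl hx), fun x hx => hE3 (hcl hx), ?_⟩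
  refine (ae_restrict_iff' ho.measurableSet).2 ?_
  filter_upwards [hae] with x hx hxE
  change lam / (2 * Real.pi) * pot g x = _
  rw [hx, indicator_of_mem hxE]

/-- if the solution agrees almost everywhere with a smooth function `W`, then `W - c` and its
derivative vanish on the boundary -/
theorem bd_of_sol {u : ℂ → ℝ} {G : ℂ → ℂ} (ho : IsOpen Ω) (hb : Bornology.IsBounded Ω)
    (hreg : interior (closure Ω) = Ω) (hlam : 0 < lam) (h : Sol Ω lam c u G)
    (W : ℂ → ℝ) (hW : ContDiff ℝ 1 W) (hae : ∀ᵐ x ∂(volume.restrict Ω), u x = W x) :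
    ∀ x ∈ frontier Ω, W x = c ∧ fderiv ℝ W x = 0 := by
  obtain ⟨v, hv1, hv0, hvd, hva⟩ := dat_of_sol' ho hb hreg hlam h
  have hEq : EqOn v (fun x => W x - c) Ω := by
    refine MeasureTheory.Measure.eqOn_open_of_ae_eq (μ := volume) ?_ ho hv1.continuous.continuousOn
      ((hW.continuous.sub continuous_const).continuousOn)
    filter_upwards [hva, hae] with x h1 h2
    rw [h1, h2]
  have hEqd : EqOn (fderiv ℝ v) (fderiv ℝ W) Ω := by
    intro x hx
    have h1 : v =ᶠ[𝓝 x] fun x => W x - c := by
      filter_upwards [ho.mem_nhds hx] with y hy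
      exact hEq hy
    rw [h1.fderiv_eq, fderiv_sub_const]
  have h2 : EqOn v (fun x => W x - c) (closure Ω) :=
    hEq.closure hv1.continuous (hW.continuous.sub continuous_const)
  have h3 : EqOn (fderiv ℝ v) (fderiv ℝ W) (closure Ω) :=
    hEqd.closure (hv1.continuous_fderiv (by norm_num)) (hW.continuous_fderiv (by norm_num))
  intro x hx
  have hxc : x ∈ closure Ω := frontier_subset_closure hx
  have hxn : x ∉ Ω := by
    rw [ho.frontier_eq] at hx
    exact hx.2
  constructor
  · have := h2 hxc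
    rw [hv0 x hxn] at this
    simp only at this
    linarith
  · rw [← h3 hxc]
    exact hvd x hxn

end Pool.Agent.Helper327_Sch
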