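import Pool.Agent.Helper327_Sch.Fin.PW9
import Pool.Agent.Helper327_Sch.Fin.SFD
import Pool.Agent.Helper327_Sch.Fin.SF11

/-! The overdetermined problem has no solution that is a finite sum of plane waves. -/

set_option autoImplicit false

open MeasureTheory Set Filter Complex
open scoped Topology ContDiff ComplexConjugate

namespace Pool.Agent.Helper327_Sch.PW

open Pool.Agent.TH298.Sch (Sol)

variable {Ω : Set ℂ} {lam c : ℝ}

lemma fderiv_cos (e : ℂ) (A φ t : ℝ) (x : ℂ) (he : ‖e‖ = 1) :
    fderiv ℝ (fun x : ℂ => A * Real.cos (t * (conj e * x).re + φ)) x e =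
      -(A * t * Real.sin (t * (conj e * x).re + φ)) := by
  have hcc : (conj e * e).re = 1 := by
    rw [mul_comm, Complex.mul_conj, Complex.ofReal_re, Complex.normSq_eq_norm_sq, he, one_pow]
  have h1 : HasDerivAt (fun s : ℝ => (fun x : ℂ => A * Real.cos (t * (conj e * x).re + φ))
      (x + s * e)) (-(A * t * Real.sin (t * (conj e * x).re + φ))) 0 := by
    have h2 : (fun s : ℝ => (fun x : ℂ => A * Real.cos (t * (conj e * x).re + φ)) (x + s * e)) =
        fun s : ℝ => A * Real.cos (t * (conj e * x).re + φ + t * s) := by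
      funext s
      have : (conj e * (x + s * e)).re = (conj e * x).re + s := by
        have h3 : conj e * (x + s * e) = conj e * x + s * (conj e * e) := by ring
        rw [h3, Complex.add_re, Complex.re_ofReal_mul, hcc, mul_one]
      simp only [this]
      congr 2
      ring
    rw [h2]
    have h4 : HasDerivAt (fun s : ℝ => t * (conj e * x).re + φ + t * s) t 0 := by
      simpa using ((hasDerivAt_id (0 : ℝ)).const_mul t).const_add (t * (conj e * x).re + φ)
    have h5 := (h4.cos).const_mul A
    refine h5.congr_deriv ?_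
    simp only [mul_zero, add_zero]
    ring
  have hdiff : DifferentiableAt ℝ (fun x : ℂ => A * Real.cos (t * (conj e * x).re + φ)) x := by
    have h6 : ContDiff ℝ 1 (fun x : ℂ => A * Real.cos (t * (conj e * x).re + φ)) := by
      have h7 : ContDiff ℝ 1 (fun x : ℂ => (conj e * x).re) :=
        Complex.reCLM.contDiff.comp (contDiff_const.mul contDiff_id)
      exact contDiff_const.mul (Real.contDiff_cos.comp ((contDiff_const.mul h7).add contDiff_const))
    exact h6.differentiable (by norm_num) x
  have h8 : HasDerivAt (fun s : ℝ => x + s * e) e 0 := by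
    have := ((Complex.ofRealCLM.hasDerivAt (x := (0 : ℝ))).mul_const e).const_add x
    simpa using this
  have h9 : HasFDerivAt (fun x : ℂ => A * Real.cos (t * (conj e * x).re + φ))
      (fderiv ℝ (fun x : ℂ => A * Real.cos (t * (conj e * x).re + φ)) x) (x + (0 : ℝ) * e) := by
    simpa using hdiff.hasFDerivAt
  have h10 := h9.comp_hasDerivAt (0 : ℝ) h8
  exact h10.unique h1

theorem no_plane_waves (ho : IsOpen Ω) (hb : Bornology.IsBounded Ω) (hne : Ω.Nonempty)
    (hreg : interior (closure Ω) = Ω) (hlam : 0 < lam)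
    {u : ℂ → ℝ} {G : ℂ → ℂ} (h : Sol Ω lam c u G) (hu0 : ¬ (u =ᵐ[volume.restrict Ω] 0))
    (N : ℕ) (d : Fin N → ℂ) (hd : ∀ j, ‖d j‖ = 1) (a b : Fin N → ℝ)
    (hF : ∀ᵐ x ∂(volume.restrict Ω), u x = waves lam N d a b x) : False := by
  have hsq : 0 < Real.sqrt lam := Real.sqrt_pos.2 hlam
  have hbd := bd_of_sol ho hb hreg hlam h (waves lam N d a b)
    ((waves_smooth lam N d a b).of_le (by exact_mod_cast le_top)) hF
  have hinf := frontier_inf Ω ho hb hne
  have hcomp : IsCompact (frontier Ω) :=
    hb.isCompact_closure.of_isClosed_subset isClosed_frontier frontier_subset_closure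
  obtain ⟨x₀, -, hx₀⟩ := hinf.exists_accPt_of_subset_isCompact hcomp Subset.rfl
  have hone : ∃ (e : ℂ) (A φ : ℝ), ‖e‖ = 1 ∧ ∀ x,
      waves lam N d a b x = A * Real.cos (Real.sqrt lam * (conj e * x).re + φ) := by
    by_contra hcon
    exact waves_iso lam hlam N d hd a b hcon x₀
      (hx₀.mono (principal_mono.2 fun x hx => (hbd x hx).2))
  obtain ⟨e, A, φ, he, hW⟩ := hone
  have hWf : waves lam N d a b = fun x => A * Real.cos (Real.sqrt lam * (conj e * x).re + φ) :=
    funext hW
  have hA : A ≠ 0 := by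
    intro hA
    apply hu0
    filter_upwards [hF] with x hx
    rw [hx, hW, hA, zero_mul]
    rfl
  have hcrit : ∀ x ∈ frontier Ω, Real.sin (Real.sqrt lam * (conj e * x).re + φ) = 0 := by
    intro x hx
    have h1 := (hbd x hx).2
    rw [hWf] at h1
    have h2 := fderiv_cos e A φ (Real.sqrt lam) x he
    rw [h1] at h2
    have h3 : A * Real.sqrt lam * Real.sin (Real.sqrt lam * (conj e * x).re + φ) = 0 := by
      have : (0 : ℂ →L[ℝ] ℝ) e = 0 := rfl
      rw [this] at h2
      linarith
    exact (mul_eq_zero.1 h3).resolve_left (mul_ne_zero hA hsq.ne')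
  have hcc : (conj e * e).re = 1 := by
    rw [mul_comm, Complex.mul_conj, Complex.ofReal_re, Complex.normSq_eq_norm_sq, he, one_pow]
  -- a point of Ω off the critical lines
  obtain ⟨x₁, hx₁, hs₁⟩ : ∃ x ∈ Ω, Real.sin (Real.sqrt lam * (conj e * x).re + φ) ≠ 0 := by
    obtain ⟨x, hx⟩ := hne
    obtain ⟨r, hr, hball⟩ := Metric.isOpen_iff.1 ho x hx
    by_cases hsx : Real.sin (Real.sqrt lam * (conj e * x).re + φ) = 0
    · set s : ℝ := min (r / 2) (1 / Real.sqrt lam) with hs
      have hspos : 0 < s := lt_min (by linarith) (by positivity)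
      refine ⟨x + s * e, hball ?_, ?_⟩
      · rw [Metric.mem_ball, dist_eq_norm, add_sub_cancel_left, norm_mul, he, mul_one,
          Complex.norm_real, Real.norm_of_nonneg hspos.le]
        exact (min_le_left _ _).trans_lt (by linarith)
      · have h3 : (conj e * (x + s * e)).re = (conj e * x).re + s := by
          have h3 : conj e * (x + s * e) = conj e * x + s * (conj e * e) := by ring
          rw [h3, Complex.add_re, Complex.re_ofReal_mul, hcc, mul_one]
        rw [h3]
        have h4 : Real.sqrt lam * ((conj e * x).re + s) + φ =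
            (Real.sqrt lam * (conj e * x).re + φ) + Real.sqrt lam * s := by ring
        rw [h4, Real.sin_add, hsx, zero_mul, zero_add]
        have h5 : Real.cos (Real.sqrt lam * (conj e * x).re + φ) ≠ 0 := by
          intro h6
          have := Real.sin_sq_add_cos_sq (Real.sqrt lam * (conj e * x).re + φ)
          rw [hsx, h6] at this
          norm_num at this
        refine mul_ne_zero h5 (ne_of_gt (Real.sin_pos_of_pos_of_lt_pi (by positivity) ?_))
        have h7 : Real.sqrt lam * s ≤ 1 := by
          calc Real.sqrt lam * s ≤ Real.sqrt lam * (1 / Real.sqrt lam) :=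
                mul_le_mul_of_nonneg_left (min_le_right _ _) hsq.le
            _ = 1 := by field_simp
        linarith [Real.pi_gt_three]
    · exact ⟨x, hx, hsx⟩
  -- the perpendicular line
  have hre : ∀ s : ℝ, (conj e * (x₁ + s * (I * e))).re = (conj e * x₁).re := by
    intro s
    have h3 : conj e * (x₁ + s * (I * e)) = conj e * x₁ + s * (I * (conj e * e)) := by ring
    have h4 : conj e * e = 1 := by
      rw [mul_comm, Complex.mul_conj, Complex.normSq_eq_norm_sq, he]
      norm_num
    rw [h3, h4, Complex.add_re, Complex.re_ofReal_mul]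
    simp
  have hpre : IsPreconnected ((fun s : ℝ => x₁ + s * (I * e)) '' Set.univ) := by
    apply isPreconnected_univ.image
    fun_prop
  obtain ⟨y, ⟨s, -, hys⟩, hyf⟩ := SF11.meet_frontier hpre (Ω := Ω) ⟨x₁, ⟨0, mem_univ _, by simp⟩, hx₁⟩ (by
    obtain ⟨R, hR⟩ := hb.subset_closedBall (0 : ℂ)
    refine ⟨x₁ + ((‖x₁‖ + |R| + 1 : ℝ) : ℂ) * (I * e), ⟨_, mem_univ _, rfl⟩, ?_⟩
    intro hin
    have h1 := hR hin
    rw [Metric.mem_closedBall, dist_zero_right] at h1
    have h2 : ‖((‖x₁‖ + |R| + 1 : ℝ) : ℂ) * (I * e)‖ = ‖x₁‖ + |R| + 1 := by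
      rw [norm_mul, norm_mul, he, Complex.norm_I, Complex.norm_real, Real.norm_of_nonneg (by positivity)]
      ring
    have h3 : ‖((‖x₁‖ + |R| + 1 : ℝ) : ℂ) * (I * e)‖ ≤
        ‖x₁ + ((‖x₁‖ + |R| + 1 : ℝ) : ℂ) * (I * e)‖ + ‖x₁‖ := by
      have := norm_sub_le (x₁ + ((‖x₁‖ + |R| + 1 : ℝ) : ℂ) * (I * e)) x₁
      simpa using this
    have h4 := le_abs_self R
    linarith)
  have h1 := hcrit y hyf
  rw [← hys] at h1
  simp only [hre] at h1
  exact hs₁ h1

end Pool.Agent.Helper327_Sch.PW
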