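import Pool.Agent.Helper327_Sch.PDefs

set_option autoImplicit false

open Complex Filter Topology Set MeasureTheory
open scoped ComplexConjugate

namespace Pool.Agent.Helper327_Sch.PW

variable {ι : Type} [Fintype ι]

namespace PW1

theorem im_sq {e : ℂ} (h : ‖e‖ = 1) : e.re ^ 2 + e.im ^ 2 = 1 := by
  have h1 := Complex.sq_norm e
  rw [h, Complex.normSq_apply] at h1
  nlinarith

theorem eq_or {e e' : ℂ} (h : ‖e‖ = 1) (h' : ‖e'‖ = 1) (hre : e.re = e'.re) :
    e = e' ∨ e.im = -e'.im := by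
  have h1 := im_sq h
  have h2 := im_sq h'
  rw [hre] at h1
  have h3 : (e.im - e'.im) * (e.im + e'.im) = 0 := by nlinarith
  rcases mul_eq_zero.1 h3 with h4 | h4
  · left; exact Complex.ext hre (by linarith)
  · right; linarith

theorem three {e1 e2 e3 : ℂ} (h1 : ‖e1‖ = 1) (h2 : ‖e2‖ = 1) (h3 : ‖e3‖ = 1)
    (h12 : e1.re = e2.re) (h13 : e1.re = e3.re) : e1 = e2 ∨ e1 = e3 ∨ e2 = e3 := by
  rcases eq_or h1 h2 h12 with h | h
  · exact Or.inl h
  · rcases eq_or h1 h3 h13 with h' | h'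
    · exact Or.inr (Or.inl h')
    · right; right
      exact Complex.ext (by rw [← h12, h13]) (by linarith)

theorem re_swap (a v : ℂ) : (conj a * v).re = (a * conj v).re := by
  simp [Complex.mul_re]

theorem unit_mul {a v : ℂ} (ha : ‖a‖ = 1) (hv : ‖v‖ = 1) : ‖a * conj v‖ = 1 := by
  rw [norm_mul, RCLike.norm_conj, ha, hv, one_mul]

theorem cancel {a b v : ℂ} (hv : ‖v‖ = 1) (h : a * conj v = b * conj v) : a = b := by
  have h0 : conj v ≠ 0 := by
    intro h0
    have h1 : ‖conj v‖ = 1 := by rw [RCLike.norm_conj, hv]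
    rw [h0, norm_zero] at h1
    exact zero_ne_one h1
  exact mul_right_cancel₀ h0 h

theorem point {ι : Type} [Fintype ι] (d : ι → ℂ) (hinj : Function.Injective d) (h1 : ∀ i, ‖d i‖ = 1)
    (hneg : ∀ i, ∃ j, d j = -d i) (h3 : ∃ i j, d j ≠ d i ∧ d j ≠ -d i) (v : ℂ) (hv : ‖v‖ = 1) :
    ∃ i j, d j ≠ d i ∧ d j ≠ -d i ∧ ∀ k, k ≠ i → k ≠ j → (conj (d k) * v).re < (conj (d i) * v).re := by
  classical
  obtain ⟨i0, j0, hij1, hij2⟩ := h3
  obtain ⟨i, -, hi⟩ := Finset.exists_max_image Finset.univ (fun k => (conj (d k) * v).re) ⟨i0, Finset.mem_univ _⟩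
  have hmax : ∀ k, (conj (d k) * v).re ≤ (conj (d i) * v).re := fun k => hi k (Finset.mem_univ _)
  have hpos : 0 < (conj (d i) * v).re := by
    by_contra hcon
    push Not at hcon
    have hz : ∀ k, (conj (d k) * v).re = 0 := by
      intro k
      have ha := hmax k
      obtain ⟨k', hk'⟩ := hneg k
      have hb := hmax k'
      rw [hk'] at hb
      have hc : (conj (-d k) * v).re = -(conj (d k) * v).re := by
        rw [map_neg, neg_mul, Complex.neg_re]
      rw [hc] at hb
      linarith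
    have ha := hz i0
    have hb := hz j0
    rw [re_swap] at ha hb
    have hua := unit_mul (h1 i0) hv
    have hub := unit_mul (h1 j0) hv
    rcases eq_or hub hua (by rw [ha, hb]) with h | h
    · exact hij1 (cancel hv h)
    · apply hij2
      apply cancel hv
      rw [neg_mul]
      exact Complex.ext (by rw [Complex.neg_re, ha, hb, neg_zero]) (by rw [Complex.neg_im, h])
  by_cases hex : ∃ j, j ≠ i ∧ (conj (d j) * v).re = (conj (d i) * v).re
  · obtain ⟨j, hji, hj⟩ := hex
    refine ⟨i, j, fun h => hji (hinj h), fun h => ?_, fun k hki hkj => ?_⟩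
    · rw [h, map_neg, neg_mul, Complex.neg_re] at hj
      linarith
    · refine lt_of_le_of_ne (hmax k) (fun heq => ?_)
      rcases three (unit_mul (h1 i) hv) (unit_mul (h1 j) hv) (unit_mul (h1 k) hv)
        (by rw [← re_swap, ← re_swap, hj]) (by rw [← re_swap, ← re_swap, heq]) with h | h | h
      · exact hji (hinj (cancel hv h)).symm
      · exact hki (hinj (cancel hv h)).symm
      · exact hkj (hinj (cancel hv h)).symm
  · push Not at hex
    have hlt : ∀ k, k ≠ i → (conj (d k) * v).re < (conj (d i) * v).re :=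
      fun k hk => lt_of_le_of_ne (hmax k) (hex k hk)
    have hj : ∃ j, d j ≠ d i ∧ d j ≠ -d i := by
      by_contra hcon
      push Not at hcon
      have ha := hcon i0
      have hb := hcon j0
      by_cases h5 : d i0 = d i
      · by_cases h6 : d j0 = d i
        · exact hij1 (by rw [h5, h6])
        · exact hij2 (by rw [hb h6, h5])
      · by_cases h6 : d j0 = d i
        · exact hij2 (by rw [ha h5, h6, neg_neg])
        · exact hij1 (by rw [ha h5, hb h6])
    obtain ⟨j, hj1, hj2⟩ := hj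
    exact ⟨i, j, hj1, hj2, fun k hki _ => hlt k hki⟩

end PW1

theorem gap (d : ι → ℂ) (hinj : Function.Injective d) (h1 : ∀ i, ‖d i‖ = 1)
    (hneg : ∀ i, ∃ j, d j = -d i) (h3 : ∃ i j, d j ≠ d i ∧ d j ≠ -d i) :
    ∃ δ : ℝ, 0 < δ ∧ ∀ v : ℂ, ∃ i j, d j ≠ d i ∧ d j ≠ -d i ∧
      ∀ k, k ≠ i → k ≠ j → (conj (d k) * v).re ≤ (conj (d i) * v).re - δ * ‖v‖ := by
  classical
  have hsph : ∃ δ : ℝ, 0 < δ ∧ ∀ v ∈ Metric.sphere (0 : ℂ) 1, ∃ i j, d j ≠ d i ∧ d j ≠ -d i ∧
      ∀ k, k ≠ i → k ≠ j → (conj (d k) * v).re ≤ (conj (d i) * v).re - δ := by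
    refine (isCompact_sphere (0 : ℂ) 1).induction_on
      (p := fun s => ∃ δ : ℝ, 0 < δ ∧ ∀ v ∈ s, ∃ i j, d j ≠ d i ∧ d j ≠ -d i ∧
        ∀ k, k ≠ i → k ≠ j → (conj (d k) * v).re ≤ (conj (d i) * v).re - δ) ?_ ?_ ?_ ?_
    · exact ⟨1, one_pos, fun v hv => absurd hv (Set.notMem_empty v)⟩
    · rintro s t hst ⟨δ, hδ, h⟩
      exact ⟨δ, hδ, fun v hv => h v (hst hv)⟩
    · rintro s t ⟨δ, hδ, h⟩ ⟨δ', hδ', h'⟩
      refine ⟨min δ δ', lt_min hδ hδ', fun v hv => ?_⟩
      rcases hv with hv | hv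
      · obtain ⟨i, j, a, b, c⟩ := h v hv
        exact ⟨i, j, a, b, fun k hk hk' => (c k hk hk').trans (by linarith [min_le_left δ δ'])⟩
      · obtain ⟨i, j, a, b, c⟩ := h' v hv
        exact ⟨i, j, a, b, fun k hk hk' => (c k hk hk').trans (by linarith [min_le_right δ δ'])⟩
    · intro v hv
      have hv1 : ‖v‖ = 1 := by simpa using hv
      obtain ⟨i, j, a, b, c⟩ := PW1.point d hinj h1 hneg h3 v hv1
      have he : ∀ᶠ δ : ℝ in 𝓝[>] 0, ∀ k, k ≠ i → k ≠ j →
          (conj (d k) * v).re < (conj (d i) * v).re - δ := by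
        refine eventually_all.2 (fun k => ?_)
        by_cases hk : k ≠ i ∧ k ≠ j
        · have hc : Tendsto (fun δ : ℝ => (conj (d i) * v).re - δ) (𝓝[>] 0)
              (𝓝 ((conj (d i) * v).re - 0)) :=
            ((continuous_const.sub continuous_id).tendsto 0).mono_left nhdsWithin_le_nhds
          rw [sub_zero] at hc
          filter_upwards [hc.eventually (lt_mem_nhds (c k hk.1 hk.2))] with δ hδ _ _
          exact hδ
        · refine Eventually.of_forall (fun δ h5 h6 => absurd ⟨h5, h6⟩ hk)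
      obtain ⟨δ, hδ, hδpos⟩ := (he.and self_mem_nhdsWithin).exists
      have hu : ∀ᶠ u : ℂ in 𝓝 v, ∀ k, k ≠ i → k ≠ j →
          (conj (d k) * u).re < (conj (d i) * u).re - δ := by
        refine eventually_all.2 (fun k => ?_)
        by_cases hk : k ≠ i ∧ k ≠ j
        · have hc1 : Continuous (fun u : ℂ => (conj (d k) * u).re) :=
            Complex.continuous_re.comp (continuous_const.mul continuous_id)
          have hc2 : Continuous (fun u : ℂ => (conj (d i) * u).re - δ) :=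
            (Complex.continuous_re.comp (continuous_const.mul continuous_id)).sub continuous_const
          filter_upwards [(isOpen_lt hc1 hc2).mem_nhds (hδ k hk.1 hk.2)] with u hu _ _
          exact hu
        · exact Eventually.of_forall (fun u h5 h6 => absurd ⟨h5, h6⟩ hk)
      refine ⟨{u | ∀ k, k ≠ i → k ≠ j → (conj (d k) * u).re < (conj (d i) * u).re - δ},
        mem_nhdsWithin_of_mem_nhds hu, δ, hδpos, fun u hu' => ⟨i, j, a, b, fun k hk hk' => (hu' k hk hk').le⟩⟩
  obtain ⟨δ, hδ, h⟩ := hsph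
  refine ⟨δ, hδ, fun v => ?_⟩
  by_cases hv : v = 0
  · obtain ⟨i, j, a, b⟩ := h3
    refine ⟨i, j, a, b, fun k _ _ => ?_⟩
    simp [hv]
  · have hn : 0 < ‖v‖ := norm_pos_iff.2 hv
    have hu : v / (‖v‖ : ℂ) ∈ Metric.sphere (0 : ℂ) 1 := by
      rw [mem_sphere_zero_iff_norm, norm_div, Complex.norm_real, norm_norm, div_self hn.ne']
    obtain ⟨i, j, a, b, c⟩ := h _ hu
    refine ⟨i, j, a, b, fun k hk hk' => ?_⟩
    have hcn : (‖v‖ : ℂ) ≠ 0 := by exact_mod_cast hn.ne'
    have key : ∀ x : ℂ, (conj x * v).re = ‖v‖ * (conj x * (v / (‖v‖ : ℂ))).re := by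
      intro x
      rw [← Complex.re_ofReal_mul]
      congr 1
      field_simp
    rw [key (d k), key (d i)]
    have := c k hk hk'
    nlinarith

end Pool.Agent.Helper327_Sch.PW
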