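import Pool.Agent.Helper327_Sch.PDefs
import Pool.Agent.Helper327_Sch.Fin.PW1

set_option autoImplicit false

open Complex Filter Topology Set MeasureTheory
open scoped ComplexConjugate

namespace Pool.Agent.Helper327_Sch.PW

variable {ι : Type} [Fintype ι]

namespace PW2

theorem norm_E (a z w : ℂ) : ‖E a z w‖ = Real.exp ((conj a * (I * (z - conj w))).re) := by
  unfold E
  rw [Complex.norm_exp]
  congr 1
  simp only [Complex.mul_re, Complex.mul_im, Complex.add_re, Complex.add_im, Complex.sub_re, Complex.sub_im,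
    Complex.I_re, Complex.I_im, Complex.conj_re, Complex.conj_im]
  ring

theorem im_ne {a b : ℂ} (ha : ‖a‖ = 1) (hb : ‖b‖ = 1) (h1 : b ≠ a) (h2 : b ≠ -a) :
    (conj a * b).im ≠ 0 := by
  intro h
  have ha2 : a.re * a.re + a.im * a.im = 1 := by
    have := Complex.sq_norm a
    rw [ha, Complex.normSq_apply] at this
    linarith
  have hb2 : b.re * b.re + b.im * b.im = 1 := by
    have := Complex.sq_norm b
    rw [hb, Complex.normSq_apply] at this
    linarith
  simp only [Complex.mul_im, Complex.conj_re, Complex.conj_im] at h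
  set t : ℝ := a.re * b.re + a.im * b.im with ht
  have h3 : b.re = t * a.re := by
    rw [ht]
    linear_combination (-b.re) * ha2 - a.im * h
  have h4 : b.im = t * a.im := by
    rw [ht]
    linear_combination (-b.im) * ha2 + a.re * h
  have h5 : t * t = 1 := by
    have : t * t * (a.re * a.re + a.im * a.im) = 1 := by
      rw [h3, h4] at hb2
      linarith
    rwa [ha2, mul_one] at this
  have h6 : (t - 1) * (t + 1) = 0 := by linarith
  rcases mul_eq_zero.1 h6 with h7 | h7
  · exact h1 (Complex.ext (by rw [h3]; linear_combination a.re * h7) (by rw [h4]; linear_combination a.im * h7))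
  · exact h2 (Complex.ext (by rw [h3, Complex.neg_re]; linear_combination a.re * h7)
      (by rw [h4, Complex.neg_im]; linear_combination a.im * h7))

theorem rel (d c : ι → ℂ) (z w : ℂ) (hz : Uz d c z w = 0) (hw : Uw d c z w = 0) (j : ι) :
    ∑ k, c k * ((conj (d k) * d j).im : ℂ) * E (d k) z w = 0 := by
  have h1 : d j * Uz d c z w - conj (d j) * Uw d c z w =
      -2 * ∑ k, c k * ((conj (d k) * d j).im : ℂ) * E (d k) z w := by
    unfold Uz Uw
    rw [Finset.mul_sum, Finset.mul_sum, Finset.mul_sum, ← Finset.sum_sub_distrib]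
    refine Finset.sum_congr rfl fun k _ => ?_
    have h2 : conj (d k) * d j - d k * conj (d j) = 2 * ((conj (d k) * d j).im : ℂ) * I := by
      apply Complex.ext
      · simp
      · simp
        ring
    linear_combination (c k * I * E (d k) z w) * h2 + (2 * c k * ((conj (d k) * d j).im : ℂ) * E (d k) z w) *
      Complex.I_mul_I
  rw [hz, hw, mul_zero, mul_zero, sub_zero] at h1
  have h3 : (-2 : ℂ) ≠ 0 := by norm_num
  exact (mul_eq_zero.1 h1.symm).resolve_left h3

theorem abs_im_le {a b : ℂ} (ha : ‖a‖ = 1) (hb : ‖b‖ = 1) : |(conj a * b).im| ≤ 1 := by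
  refine (Complex.abs_im_le_norm _).trans ?_
  rw [norm_mul, RCLike.norm_conj, ha, hb, mul_one]

end PW2

theorem bounded (d : ι → ℂ) (hinj : Function.Injective d) (h1 : ∀ i, ‖d i‖ = 1)
    (hneg : ∀ i, ∃ j, d j = -d i) (h3 : ∃ i j, d j ≠ d i ∧ d j ≠ -d i)
    (r : ι → ℝ) (hr : ∀ i, 0 < r i) :
    ∃ C : ℝ, ∀ c : ι → ℂ, (∀ i, ‖c i‖ = r i) → ∀ z w : ℂ, Uz d c z w = 0 → Uw d c z w = 0 →
      ‖z - conj w‖ ≤ C := by
  classical
  obtain ⟨δ, hδ, hgap⟩ := gap d hinj h1 hneg h3
  set R : ℝ := ∑ k, r k with hR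
  have hR0 : 0 ≤ R := Finset.sum_nonneg fun k _ => (hr k).le
  set K : ℝ := ∑ i, ∑ j, R / (r i * |(conj (d i) * d j).im|) with hK
  have hterm : ∀ i j, R / (r i * |(conj (d i) * d j).im|) ≤ K := by
    intro i j
    have h0 : ∀ i j, 0 ≤ R / (r i * |(conj (d i) * d j).im|) := fun i j =>
      div_nonneg hR0 (mul_nonneg (hr i).le (abs_nonneg _))
    have e1 : R / (r i * |(conj (d i) * d j).im|) ≤ ∑ j, R / (r i * |(conj (d i) * d j).im|) :=
      Finset.single_le_sum (f := fun j => R / (r i * |(conj (d i) * d j).im|)) (fun j _ => h0 i j)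
        (Finset.mem_univ j)
    exact e1.trans (Finset.single_le_sum (f := fun i => ∑ j, R / (r i * |(conj (d i) * d j).im|))
      (fun i _ => Finset.sum_nonneg fun j _ => h0 i j) (Finset.mem_univ i))
  refine ⟨K / δ, fun c hc z w hz hw => ?_⟩
  obtain ⟨i, j, hij1, hij2, hk⟩ := hgap (I * (z - conj w))
  have hv : ‖I * (z - conj w)‖ = ‖z - conj w‖ := by
    rw [norm_mul, Complex.norm_I, one_mul]
  rw [hv] at hk
  have hrel := PW2.rel d c z w hz hw j
  have hti : 0 < |(conj (d i) * d j).im| := abs_pos.2 (PW2.im_ne (h1 i) (h1 j) hij1 hij2)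
  have htj : (conj (d j) * d j).im = 0 := by
    simp only [Complex.mul_im, Complex.conj_re, Complex.conj_im]
    ring
  set A : ℝ := (conj (d i) * (I * (z - conj w))).re with hA
  have hsum : c i * ((conj (d i) * d j).im : ℂ) * E (d i) z w =
      -∑ k ∈ Finset.univ.erase i, c k * ((conj (d k) * d j).im : ℂ) * E (d k) z w := by
    rw [← Finset.add_sum_erase _ _ (Finset.mem_univ i)] at hrel
    exact eq_neg_of_add_eq_zero_left hrel
  have hnorm : r i * |(conj (d i) * d j).im| * Real.exp A ≤ R * Real.exp (A - δ * ‖z - conj w‖) := by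
    have e1 : r i * |(conj (d i) * d j).im| * Real.exp A =
        ‖c i * ((conj (d i) * d j).im : ℂ) * E (d i) z w‖ := by
      rw [norm_mul, norm_mul, hc, PW2.norm_E, Complex.norm_real, Real.norm_eq_abs]
    rw [e1, hsum, norm_neg]
    refine (norm_sum_le _ _).trans ?_
    rw [hR, Finset.sum_mul]
    refine (Finset.sum_le_sum (g := fun k => r k * Real.exp (A - δ * ‖z - conj w‖)) fun k hki => ?_).trans
      (Finset.sum_le_sum_of_subset_of_nonneg (Finset.erase_subset _ _)
        fun k _ _ => mul_nonneg (hr k).le (Real.exp_pos _).le)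
    have hki' := Finset.ne_of_mem_erase hki
    rw [norm_mul, norm_mul, hc, PW2.norm_E, Complex.norm_real, Real.norm_eq_abs]
    rcases eq_or_ne k j with rfl | hkj
    · rw [htj, abs_zero, mul_zero, zero_mul]
      exact mul_nonneg (hr k).le (Real.exp_pos _).le
    · have e2 : Real.exp ((conj (d k) * (I * (z - conj w))).re) ≤ Real.exp (A - δ * ‖z - conj w‖) :=
        Real.exp_le_exp.2 (hk k hki' hkj)
      have e3 : r k * |(conj (d k) * d j).im| ≤ r k := by
        have := PW2.abs_im_le (h1 k) (h1 j)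
        nlinarith [hr k]
      exact mul_le_mul e3 e2 (Real.exp_pos _).le (hr k).le
  have hexp : Real.exp (δ * ‖z - conj w‖) ≤ K := by
    refine le_trans ?_ (hterm i j)
    rw [le_div_iff₀ (mul_pos (hr i) hti)]
    have e4 : Real.exp (A - δ * ‖z - conj w‖) * Real.exp (δ * ‖z - conj w‖) = Real.exp A := by
      rw [← Real.exp_add]
      congr 1
      ring
    have e5 := Real.exp_pos (A - δ * ‖z - conj w‖)
    rw [← e4] at hnorm
    have e6 : r i * |(conj (d i) * d j).im| * Real.exp (δ * ‖z - conj w‖) ≤ R := by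
      refine le_of_mul_le_mul_right ?_ e5
      calc r i * |(conj (d i) * d j).im| * Real.exp (δ * ‖z - conj w‖) * Real.exp (A - δ * ‖z - conj w‖)
          = r i * |(conj (d i) * d j).im| *
            (Real.exp (A - δ * ‖z - conj w‖) * Real.exp (δ * ‖z - conj w‖)) := by ring
        _ ≤ R * Real.exp (A - δ * ‖z - conj w‖) := hnorm
    linarith
  rw [le_div_iff₀ hδ]
  have e7 := Real.add_one_le_exp (δ * ‖z - conj w‖)
  linarith

end Pool.Agent.Helper327_Sch.PW
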