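import Pool.Agent.Helper327_Sch.PDefs

set_option autoImplicit false

open Complex Filter Topology Set MeasureTheory
open scoped ComplexConjugate ContDiff

namespace Pool.Agent.Helper327_Sch.PW

variable {ι : Type} [Fintype ι]

namespace PW3

theorem E_contDiff (a : ℂ) : ContDiff ℂ ω (fun q : ℂ × ℂ => E a q.1 q.2) := by
  unfold E
  exact ContDiff.cexp (contDiff_const.mul ((contDiff_const.mul contDiff_fst).add
    (contDiff_const.mul contDiff_snd)))

theorem sum_contDiff (b d : ι → ℂ) :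
    ContDiff ℂ ω (fun q : ℂ × ℂ => ∑ i, b i * E (d i) q.1 q.2) :=
  ContDiff.sum fun i _ => contDiff_const.mul (E_contDiff (d i))

/-- derivative of a sum along a curve -/
theorem sum_deriv (b d : ι → ℂ) (f g : ℂ → ℂ) (f' g' t : ℂ) (hf : HasDerivAt f f' t)
    (hg : HasDerivAt g g' t) :
    HasDerivAt (fun t => ∑ i, b i * E (d i) (f t) (g t))
      (∑ i, b i * (E (d i) (f t) (g t) * (I * (conj (d i) * f' + d i * g')))) t := by
  refine HasDerivAt.fun_sum fun i _ => ?_
  unfold E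
  exact ((((hf.const_mul _).add (hg.const_mul _)).const_mul I).cexp).const_mul _

end PW3

open PW3

theorem graph (d c : ι → ℂ) (h1 : ∀ i, ‖d i‖ = 1) (h : ℂ) (hh : h ≠ 0) (p : ℂ × ℂ)
    (hp : U d c p.1 p.2 = h)
    (hacc : AccPt p (𝓟 {q : ℂ × ℂ | Uz d c q.1 q.2 = 0 ∧ Uw d c q.1 q.2 = 0})) :
    ∃ (r : ℝ) (S : ℂ → ℂ), 0 < r ∧ DifferentiableOn ℂ S (Metric.ball p.1 r) ∧ S p.1 = p.2 ∧
      ∀ z ∈ Metric.ball p.1 r, (z, S z) ∈ CP d c h := by
  have hcz : ContDiff ℂ ω (fun q : ℂ × ℂ => Uz d c q.1 q.2) := sum_contDiff _ d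
  have hcw : ContDiff ℂ ω (fun q : ℂ × ℂ => Uw d c q.1 q.2) := sum_contDiff _ d
  -- the point is critical
  have hclosed : IsClosed {q : ℂ × ℂ | Uz d c q.1 q.2 = 0 ∧ Uw d c q.1 q.2 = 0} :=
    (isClosed_eq hcz.continuous continuous_const).and (isClosed_eq hcw.continuous continuous_const)
  have hmem : p ∈ {q : ℂ × ℂ | Uz d c q.1 q.2 = 0 ∧ Uw d c q.1 q.2 = 0} := by
    rw [← hclosed.closure_eq, mem_closure_iff_clusterPt]
    exact hacc.clusterPt
  obtain ⟨hpz, hpw⟩ := hmem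
  -- the derivative
  have hd : (fderiv ℂ (fun q : ℂ × ℂ => Uz d c q.1 q.2) p) (0, 1) = -h := by
    have e1 : HasFDerivAt (fun q : ℂ × ℂ => Uz d c q.1 q.2)
        (fderiv ℂ (fun q : ℂ × ℂ => Uz d c q.1 q.2) p) (p.1, p.2) :=
      (hcz.differentiable (by simp) p).hasFDerivAt
    have e2 : HasDerivAt (fun w : ℂ => ((p.1, w) : ℂ × ℂ)) ((0, 1) : ℂ × ℂ) p.2 :=
      (hasDerivAt_const _ _).prodMk (hasDerivAt_id _)
    have e3 := e1.comp_hasDerivAt p.2 e2
    have e4 : HasDerivAt (fun w : ℂ => Uz d c p.1 w) _ p.2 :=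
      sum_deriv (fun i => c i * (I * conj (d i))) d (fun _ => p.1) (fun w => w) 0 1 p.2
        (hasDerivAt_const _ _) (hasDerivAt_id _)
    have e5 := e3.unique e4
    rw [e5, ← hp]
    unfold U
    rw [← Finset.sum_neg_distrib]
    refine Finset.sum_congr rfl fun i _ => ?_
    have e6 : conj (d i) * d i = 1 := by
      rw [Complex.conj_mul', h1]
      simp
    linear_combination (c i * E (d i) p.1 p.2 * I ^ 2) * e6 + c i * E (d i) p.1 p.2 * I_sq
  have hinv : (fderiv ℂ (fun q : ℂ × ℂ => Uz d c q.1 q.2) p ∘L .inr ℂ ℂ ℂ).IsInvertible := by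
    refine ⟨ContinuousLinearEquiv.unitsEquivAut ℂ (Units.mk0 (-h) (neg_ne_zero.2 hh)), ?_⟩
    ext
    simp [hd]
  have hca : ContDiffAt ℂ ω (fun q : ℂ × ℂ => Uz d c q.1 q.2) p := hcz.contDiffAt
  set S : ℂ → ℂ := hca.implicitFunction (by simp) hinv with hS
  have hS0 : S p.1 = p.2 := hca.implicitFunction_apply_self (by simp) hinv
  have hS1 : ∀ᶠ x in 𝓝 p.1, Uz d c x (S x) = 0 := by
    filter_upwards [hca.eventually_apply_implicitFunction (by simp) hinv] with x hx
    exact hx.trans hpz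
  have hS2 := hca.eventually_apply_eq_iff_implicitFunction (by simp) hinv
  have hS3 : AnalyticAt ℂ S p.1 := by
    rw [← analyticWithinAt_univ, ← contDiffWithinAt_omega_iff_analyticWithinAt, contDiffWithinAt_univ]
    exact hca.contDiffAt_implicitFunction (by simp) hinv
  have hS4 : ∀ᶠ x in 𝓝 p.1, AnalyticAt ℂ S x := hS3.eventually_analyticAt
  have hg : AnalyticAt ℂ (fun z => Uw d c z (S z)) p.1 := by
    rw [← analyticWithinAt_univ, ← contDiffWithinAt_omega_iff_analyticWithinAt, contDiffWithinAt_univ]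
    exact (hcw.contDiffAt).comp (f := fun z : ℂ => ((z, S z) : ℂ × ℂ)) p.1
      (contDiffAt_id.prodMk hS3.contDiffAt)
  have hfr : ∃ᶠ z in 𝓝[≠] p.1, Uw d c z (S z) = 0 := by
    rw [frequently_nhdsWithin_iff]
    rw [accPt_iff_frequently] at hacc
    have h2 : ∃ᶠ q : ℂ × ℂ in 𝓝 p, Uw d c q.1 (S q.1) = 0 ∧ q.1 ∈ ({p.1}ᶜ : Set ℂ) := by
      refine (hacc.and_eventually hS2).mono ?_
      rintro q ⟨⟨hq1, hq2, hq3⟩, hq4⟩
      have h3 : S q.1 = q.2 := hq4.1 (by rw [hq2, hpz])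
      refine ⟨by rw [h3]; exact hq3, ?_⟩
      intro h4
      have h5 : q.1 = p.1 := h4
      apply hq1
      rw [h5, hS0] at h3
      exact Prod.ext h5 h3.symm
    exact (continuous_fst.tendsto p).frequently h2
  have hS5 : ∀ᶠ z in 𝓝 p.1, Uw d c z (S z) = 0 :=
    hg.frequently_zero_iff_eventually_zero.1 hfr
  obtain ⟨r, hr0, hr⟩ := Metric.eventually_nhds_iff_ball.1 (hS1.and (hS4.and hS5))
  have hdiff : DifferentiableOn ℂ S (Metric.ball p.1 r) := fun z hz =>
    (hr z hz).2.1.differentiableAt.differentiableWithinAt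
  refine ⟨r, S, hr0, hdiff, hS0, ?_⟩
  have hk : ∀ z ∈ Metric.ball p.1 r, HasDerivAt (fun z => U d c z (S z)) 0 z := by
    intro z hz
    have h3 := sum_deriv c d (fun t => t) S 1 (deriv S z) z (hasDerivAt_id _)
      (hr z hz).2.1.differentiableAt.hasDerivAt
    have h4 : (∑ i, c i * (E (d i) z (S z) * (I * (conj (d i) * 1 + d i * deriv S z)))) =
        Uz d c z (S z) + Uw d c z (S z) * deriv S z := by
      unfold Uz Uw
      rw [Finset.sum_mul, ← Finset.sum_add_distrib]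
      refine Finset.sum_congr rfl fun i _ => ?_
      ring
    have h3' : HasDerivAt (fun z => U d c z (S z))
      (∑ i, c i * (E (d i) z (S z) * (I * (conj (d i) * 1 + d i * deriv S z)))) z := h3
    rw [h4, (hr z hz).1, (hr z hz).2.2] at h3'
    simpa using h3'
  intro z hz
  refine ⟨?_, (hr z hz).1, (hr z hz).2.2⟩
  have h5 : U d c z (S z) = U d c p.1 (S p.1) :=
    Metric.isOpen_ball.is_const_of_deriv_eq_zero (convex_ball p.1 r).isPreconnected
      (f := fun z => U d c z (S z))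
      (fun z hz => (hk z hz).differentiableAt.differentiableWithinAt)
      (fun z hz => (hk z hz).deriv) hz (Metric.mem_ball_self hr0)
  rw [hS0, hp] at h5
  exact h5

end Pool.Agent.Helper327_Sch.PW
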