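import Pool.Agent.Helper327_Sch.PDefs
import Pool.Agent.Helper327_Sch.Fin.PW3

set_option autoImplicit false

open Complex Filter Topology Set MeasureTheory
open scoped ComplexConjugate

namespace Pool.Agent.Helper327_Sch.PW

variable {ι : Type} [Fintype ι]

namespace PW4

theorem cont_U (d : ι → ℂ) : Continuous (fun x : (ι → ℂ) × (ℂ × ℂ) => U d x.1 x.2.1 x.2.2) := by
  unfold U E
  fun_prop

theorem cont_Uz (d : ι → ℂ) : Continuous (fun x : (ι → ℂ) × (ℂ × ℂ) => Uz d x.1 x.2.1 x.2.2) := by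
  unfold Uz E
  fun_prop

theorem cont_Uw (d : ι → ℂ) : Continuous (fun x : (ι → ℂ) × (ℂ × ℂ) => Uw d x.1 x.2.1 x.2.2) := by
  unfold Uw E
  fun_prop

/-- pairs (c, q) with q a critical point -/
theorem closed_CP2 (d : ι → ℂ) (h : ℂ) :
    IsClosed {x : (ι → ℂ) × (ℂ × ℂ) | x.2 ∈ CP d x.1 h} := by
  have e : {x : (ι → ℂ) × (ℂ × ℂ) | x.2 ∈ CP d x.1 h} =
      {x | U d x.1 x.2.1 x.2.2 = h} ∩ ({x | Uz d x.1 x.2.1 x.2.2 = 0} ∩
        {x | Uw d x.1 x.2.1 x.2.2 = 0}) := by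
    ext x; rfl
  rw [e]
  exact (isClosed_eq (cont_U d) continuous_const).inter
    ((isClosed_eq (cont_Uz d) continuous_const).inter (isClosed_eq (cont_Uw d) continuous_const))

theorem closed_CP (d c : ι → ℂ) (h : ℂ) : IsClosed (CP d c h) := by
  have := (closed_CP2 d h).preimage
    (continuous_const.prodMk continuous_id : Continuous fun q : ℂ × ℂ => (c, q))
  exact this

theorem closed_acc {X : Type*} [TopologicalSpace X] [T1Space X] (C : Set X) :
    IsClosed {q : X | AccPt q (𝓟 C)} := by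
  rw [← isOpen_compl_iff, isOpen_iff_mem_nhds]
  intro q hq
  simp only [mem_compl_iff, mem_setOf_eq, accPt_iff_frequently, not_frequently] at hq
  have h2 := eventually_eventually_nhds.2 hq
  filter_upwards [h2, hq] with y hy hy'
  simp only [mem_compl_iff, mem_setOf_eq, accPt_iff_frequently, not_frequently]
  by_cases hyq : y = q
  · subst hyq
    exact hq
  · filter_upwards [hy, isOpen_ne.mem_nhds hyq] with z hz hz' hz2
    exact hz ⟨hz', hz2.2⟩

theorem closed_NI0 (d c : ι → ℂ) (h : ℂ) : IsClosed (NI d c h) :=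
  (closed_CP d c h).inter (closed_acc _)

end PW4

theorem graph_NI (d c : ι → ℂ) (h1 : ∀ i, ‖d i‖ = 1) (h : ℂ) (hh : h ≠ 0) (p : ℂ × ℂ)
    (hp : p ∈ NI d c h) :
    ∃ (r : ℝ) (S : ℂ → ℂ), 0 < r ∧ DifferentiableOn ℂ S (Metric.ball p.1 r) ∧ S p.1 = p.2 ∧
      ∀ z ∈ Metric.ball p.1 r, (z, S z) ∈ NI d c h := by
  obtain ⟨hp1, hp2⟩ := hp
  obtain ⟨r, S, hr, hS, hS1, hS2⟩ := graph d c h1 h hh p hp1.1
    (hp2.mono (principal_mono.2 fun q hq => hq.2))
  refine ⟨r, S, hr, hS, hS1, fun z hz => ⟨hS2 z hz, ?_⟩⟩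
  rw [accPt_iff_frequently]
  have hb : Metric.ball p.1 r ∈ 𝓝 z := Metric.isOpen_ball.mem_nhds hz
  have hc : ContinuousAt S z := (hS.continuousOn).continuousAt hb
  have ht : Tendsto (fun z' : ℂ => (z', S z')) (𝓝[≠] z) (𝓝 (z, S z)) :=
    ((continuousAt_id.prodMk hc).tendsto).mono_left nhdsWithin_le_nhds
  have he : ∀ᶠ z' in 𝓝[≠] z, ((z', S z') : ℂ × ℂ) ≠ (z, S z) ∧ ((z', S z') : ℂ × ℂ) ∈ CP d c h := by
    filter_upwards [mem_nhdsWithin_of_mem_nhds hb, self_mem_nhdsWithin] with z' h1' h2'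
    refine ⟨fun e => h2' ?_, hS2 z' h1'⟩
    exact congrArg Prod.fst e
  exact ht.frequently (he.frequently)

theorem closed_NI (d : ι → ℂ) (h1 : ∀ i, ‖d i‖ = 1) (h : ℂ) (hh : h ≠ 0) (c : ℕ → ι → ℂ)
    (c' : ι → ℂ) (hc : Tendsto c atTop (𝓝 c')) (p : ℕ → ℂ × ℂ) (p' : ℂ × ℂ)
    (hp : Tendsto p atTop (𝓝 p')) (hn : ∀ n, p n ∈ NI d (c n) h) : p' ∈ NI d c' h := by
  have hCP : p' ∈ CP d c' h := by
    have := (PW4.closed_CP2 d h).mem_of_tendsto (hc.prodMk_nhds hp)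
      (Eventually.of_forall fun n => (hn n).1)
    exact this
  refine ⟨hCP, ?_⟩
  by_contra hacc
  rw [accPt_iff_frequently, not_frequently, Metric.eventually_nhds_iff] at hacc
  obtain ⟨ε, hε, hacc⟩ := hacc
  set δ := ε / 2 with hδ
  have hδ0 : 0 < δ := by positivity
  have hδε : δ < ε := by rw [hδ]; linarith
  have hK : IsCompact (Metric.sphere p' δ) := isCompact_sphere p' δ
  have hev : ∀ᶠ c1 in 𝓝 c', ∀ q ∈ Metric.sphere p' δ, q ∉ CP d c1 h := by
    refine hK.eventually_forall_of_forall_eventually (P := fun c1 q => q ∉ CP d c1 h) ?_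
    intro q hq
    have hq' : (c', q) ∈ {x : (ι → ℂ) × (ℂ × ℂ) | x.2 ∈ CP d x.1 h}ᶜ := by
      intro hq2
      have hdq : dist q p' = δ := hq
      refine hacc (y := q) (by rw [hdq]; exact hδε) ⟨?_, hq2⟩
      intro e
      rw [e, dist_self] at hdq
      exact hδ0.ne hdq
    exact (PW4.closed_CP2 d h).isOpen_compl.mem_nhds hq'
  have hev2 : ∀ᶠ n in atTop, dist (p n) p' < δ :=
    (Metric.tendsto_nhds.1 hp) δ hδ0
  obtain ⟨n, hn1, hn2⟩ := ((hc.eventually hev).and hev2).exists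
  have hQc : IsCompact (Metric.closedBall p' δ ∩ NI d (c n) h) :=
    (isCompact_closedBall p' δ).inter_right (PW4.closed_NI0 d (c n) h)
  have hQne : (Metric.closedBall p' δ ∩ NI d (c n) h).Nonempty :=
    ⟨p n, Metric.mem_closedBall.2 hn2.le, hn n⟩
  obtain ⟨q, ⟨hqb, hqN⟩, hqmax⟩ := hQc.exists_isMaxOn hQne
    (f := fun x : ℂ × ℂ => x.1.re) (by fun_prop)
  have hqlt : dist q p' < δ := by
    refine lt_of_le_of_ne (Metric.mem_closedBall.1 hqb) ?_
    intro e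
    exact hn1 q e hqN.1
  obtain ⟨r, S, hr, hS, hS1, hS2⟩ := graph_NI d (c n) h1 h hh q hqN
  have hcont : ContinuousAt S q.1 :=
    (hS.continuousOn).continuousAt (Metric.isOpen_ball.mem_nhds (Metric.mem_ball_self hr))
  have ht : Tendsto (fun z : ℂ => (z, S z)) (𝓝 q.1) (𝓝 q) := by
    have := (continuousAt_id.prodMk hcont).tendsto
    simpa [hS1] using this
  have hev3 : ∀ᶠ z in 𝓝 q.1, (z, S z) ∈ Metric.ball p' δ ∧ z ∈ Metric.ball q.1 r :=
    (ht.eventually (Metric.isOpen_ball.mem_nhds hqlt)).and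
      (Metric.isOpen_ball.mem_nhds (Metric.mem_ball_self hr))
  rw [Metric.eventually_nhds_iff] at hev3
  obtain ⟨η, hη, hev3⟩ := hev3
  have hz : dist (q.1 + ((η / 2 : ℝ) : ℂ)) q.1 < η := by
    rw [dist_eq_norm, add_sub_cancel_left, Complex.norm_real, Real.norm_eq_abs,
      abs_of_pos (by positivity)]
    linarith
  obtain ⟨hz1, hz2⟩ := hev3 hz
  have hmem : (q.1 + ((η / 2 : ℝ) : ℂ), S (q.1 + ((η / 2 : ℝ) : ℂ))) ∈
      Metric.closedBall p' δ ∩ NI d (c n) h :=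
    ⟨Metric.ball_subset_closedBall hz1, hS2 _ hz2⟩
  have hle := hqmax hmem
  simp only [mem_setOf_eq, Complex.add_re, Complex.ofReal_re] at hle
  linarith

end Pool.Agent.Helper327_Sch.PW
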