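import Pool.Agent.Helper327_Sch.PDefs
import Pool.Agent.Helper327_Sch.Fin.PW2
import Pool.Agent.Helper327_Sch.Fin.PW4

set_option autoImplicit false

open Complex Filter Topology Set MeasureTheory
open scoped ComplexConjugate

namespace Pool.Agent.Helper327_Sch.PW

variable {ι : Type} [Fintype ι]

namespace PW5

theorem E_add (a z w s t : ℂ) : E a (z + s) (w + t) = E a z w * E a s t := by
  unfold E
  rw [← Complex.exp_add]
  congr 1
  ring

theorem E_zero (a : ℂ) : E a 0 0 = 1 := by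
  unfold E
  simp

theorem norm_E (a s : ℂ) : ‖E a s (conj s)‖ = 1 := by
  unfold E
  rw [Complex.norm_exp]
  have h : (I * (conj a * s + a * conj s)).re = 0 := by
    simp
    ring
  rw [h, Real.exp_zero]

/-- the translated coefficients -/
noncomputable def T (d : ι → ℂ) (s : ℂ) (c : ι → ℂ) (i : ι) : ℂ := c i * E (d i) (-s) (conj (-s))

theorem norm_T (d : ι → ℂ) (s : ℂ) (c : ι → ℂ) (i : ι) : ‖T d s c i‖ = ‖c i‖ := by
  unfold T
  rw [norm_mul, norm_E, mul_one]

theorem T_E (d : ι → ℂ) (s : ℂ) (c : ι → ℂ) (i : ι) (z w : ℂ) :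
    T d s c i * E (d i) (z + s) (w + conj s) = c i * E (d i) z w := by
  unfold T
  rw [E_add]
  have h : E (d i) (-s) (conj (-s)) * E (d i) s (conj s) = 1 := by
    rw [← E_add, map_neg]
    simp [E_zero]
  calc c i * E (d i) (-s) (conj (-s)) * (E (d i) z w * E (d i) s (conj s))
      = c i * E (d i) z w * (E (d i) (-s) (conj (-s)) * E (d i) s (conj s)) := by ring
    _ = _ := by rw [h, mul_one]

theorem U_T (d : ι → ℂ) (s : ℂ) (c : ι → ℂ) (z w : ℂ) :
    U d (T d s c) (z + s) (w + conj s) = U d c z w := by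
  unfold U
  exact Finset.sum_congr rfl fun i _ => T_E d s c i z w

theorem Uz_T (d : ι → ℂ) (s : ℂ) (c : ι → ℂ) (z w : ℂ) :
    Uz d (T d s c) (z + s) (w + conj s) = Uz d c z w := by
  unfold Uz
  refine Finset.sum_congr rfl fun i _ => ?_
  have h := T_E d s c i z w
  linear_combination (I * conj (d i)) * h

theorem Uw_T (d : ι → ℂ) (s : ℂ) (c : ι → ℂ) (z w : ℂ) :
    Uw d (T d s c) (z + s) (w + conj s) = Uw d c z w := by
  unfold Uw
  refine Finset.sum_congr rfl fun i _ => ?_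
  have h := T_E d s c i z w
  linear_combination (I * d i) * h

/-- the translation -/
noncomputable def tau (s : ℂ) (p : ℂ × ℂ) : ℂ × ℂ := (p.1 + s, p.2 + conj s)

theorem tau_CP (d : ι → ℂ) (s : ℂ) (c : ι → ℂ) (h : ℂ) (p : ℂ × ℂ) (hp : p ∈ CP d c h) :
    tau s p ∈ CP d (T d s c) h := by
  obtain ⟨h1, h2, h3⟩ := hp
  refine ⟨?_, ?_, ?_⟩
  · change U d (T d s c) (p.1 + s) (p.2 + conj s) = h
    rw [U_T, h1]
  · change Uz d (T d s c) (p.1 + s) (p.2 + conj s) = 0
    rw [Uz_T, h2]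
  · change Uw d (T d s c) (p.1 + s) (p.2 + conj s) = 0
    rw [Uw_T, h3]

theorem tau_NI (d : ι → ℂ) (s : ℂ) (c : ι → ℂ) (h : ℂ) (p : ℂ × ℂ) (hp : p ∈ NI d c h) :
    tau s p ∈ NI d (T d s c) h := by
  obtain ⟨h1, h2⟩ := hp
  refine ⟨tau_CP d s c h p h1, ?_⟩
  rw [accPt_iff_frequently] at h2 ⊢
  have hcont : Continuous (tau s) := by
    unfold tau
    fun_prop
  refine (hcont.tendsto p).frequently (h2.mono ?_)
  rintro y ⟨hy1, hy2⟩
  refine ⟨fun he => hy1 ?_, tau_CP d s c h y hy2⟩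
  unfold tau at he
  rw [Prod.mk.injEq] at he
  exact Prod.ext (add_right_cancel he.1) (add_right_cancel he.2)

/-- centring a point -/
theorem centre (d : ι → ℂ) (c : ι → ℂ) (h : ℂ) (p : ℂ × ℂ) (hp : p ∈ NI d c h) :
    ∃ c' : ι → ℂ, (∀ i, ‖c' i‖ = ‖c i‖) ∧
      ((p.1 - conj p.2) / 2, -conj ((p.1 - conj p.2) / 2)) ∈ NI d c' h := by
  refine ⟨T d (-(p.1 + conj p.2) / 2) c, norm_T d _ c, ?_⟩
  have h1 := tau_NI d (-(p.1 + conj p.2) / 2) c h p hp
  have h2 : tau (-(p.1 + conj p.2) / 2) p =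
      ((p.1 - conj p.2) / 2, -conj ((p.1 - conj p.2) / 2)) := by
    unfold tau
    refine Prod.ext ?_ ?_
    · simp only
      ring
    · simp only [map_div₀, map_neg, map_add, map_sub, Complex.conj_conj, map_ofNat]
      ring
  rw [h2] at h1
  exact h1

theorem exp_near {w : ℂ} (h1 : Complex.exp w = 1) (h2 : ‖w‖ < 2 * Real.pi) : w = 0 := by
  obtain ⟨n, hn⟩ := Complex.exp_eq_one_iff.1 h1
  have hpi := Real.pi_pos
  have h3 : ‖w‖ = |(n : ℝ)| * (2 * Real.pi) := by
    rw [hn, norm_mul, norm_mul, norm_mul, Complex.norm_I, Complex.norm_intCast]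
    simp [abs_of_pos hpi]
  rw [h3] at h2
  have h4 : |(n : ℝ)| < 1 := by
    by_contra h5
    push Not at h5
    nlinarith
  have h5 : n = 0 := by
    have h6 : |n| < 1 := by exact_mod_cast h4
    exact Int.abs_lt_one_iff.1 h6
  rw [hn, h5]
  simp

theorem Uz_diff (d c : ι → ℂ) (k : ℂ) : Differentiable ℂ (fun z => Uz d c z (k - z)) := by
  unfold Uz E
  fun_prop

theorem Uw_diff (d c : ι → ℂ) (k : ℂ) : Differentiable ℂ (fun z => Uw d c z (k - z)) := by
  unfold Uw E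
  fun_prop

theorem entire_zero {f : ℂ → ℂ} (hf : Differentiable ℂ f) {z0 : ℂ}
    (h : ∀ᶠ z in 𝓝 z0, f z = 0) (z : ℂ) : f z = 0 := by
  have h1 : AnalyticOnNhd ℂ f univ := fun x _ => hf.analyticAt x
  have h2 : AnalyticOnNhd ℂ (fun _ : ℂ => (0 : ℂ)) univ := fun x _ => analyticAt_const
  exact congrFun (h1.eq_of_eventuallyEq h2 h) z

end PW5

open PW5 in
theorem no_NI (d : ι → ℂ) (hinj : Function.Injective d) (h1 : ∀ i, ‖d i‖ = 1)
    (hneg : ∀ i, ∃ j, d j = -d i) (h3 : ∃ i j, d j ≠ d i ∧ d j ≠ -d i)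
    (c : ι → ℂ) (hc : ∀ i, c i ≠ 0) (h : ℂ) (hh : h ≠ 0) : NI d c h = ∅ := by
  obtain ⟨C, hC⟩ := bounded d hinj h1 hneg h3 (fun i => ‖c i‖) (fun i => norm_pos_iff.2 (hc i))
  by_contra hne
  obtain ⟨p0, hp0⟩ := Set.nonempty_iff_ne_empty.2 hne
  set 𝒩 : Set ((ι → ℂ) × ℂ) :=
    {q | (∀ i, ‖q.1 i‖ = ‖c i‖) ∧ (q.2, -conj q.2) ∈ NI d q.1 h} with h𝒩
  have hcen : ∀ c' : ι → ℂ, (∀ i, ‖c' i‖ = ‖c i‖) → ∀ p ∈ NI d c' h,
      ∃ c'' : ι → ℂ, (c'', (p.1 - conj p.2) / 2) ∈ 𝒩 := by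
    intro c' hc' p hp
    obtain ⟨c'', h2, h4⟩ := centre d c' h p hp
    exact ⟨c'', fun i => (h2 i).trans (hc' i), h4⟩
  have hnon : 𝒩.Nonempty := by
    obtain ⟨c'', h2⟩ := hcen c (fun _ => rfl) p0 hp0
    exact ⟨_, h2⟩
  have hclosed : IsClosed 𝒩 := by
    apply IsSeqClosed.isClosed
    intro q q' hq hlim
    have hl1 : Tendsto (fun n => (q n).1) atTop (𝓝 q'.1) := (continuous_fst.tendsto q').comp hlim
    have hl2 : Tendsto (fun n => (q n).2) atTop (𝓝 q'.2) := (continuous_snd.tendsto q').comp hlim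
    refine ⟨fun i => ?_, ?_⟩
    · have h2 : Tendsto (fun n => ‖(q n).1 i‖) atTop (𝓝 ‖q'.1 i‖) :=
        (((continuous_apply i).tendsto _).comp hl1).norm
      have h4 : (fun n => ‖(q n).1 i‖) = fun _ => ‖c i‖ := funext fun n => (hq n).1 i
      rw [h4] at h2
      exact (tendsto_nhds_unique h2 tendsto_const_nhds)
    · refine closed_NI d h1 h hh (fun n => (q n).1) q'.1 hl1 (fun n => ((q n).2, -conj (q n).2)) _ ?_
        (fun n => (hq n).2)
      have hcont : Continuous (fun ζ : ℂ => (ζ, -conj ζ)) := by fun_prop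
      exact (hcont.tendsto q'.2).comp hl2
  have hcomp : IsCompact 𝒩 := by
    have hK : IsCompact ((Set.pi Set.univ fun i : ι => Metric.closedBall (0 : ℂ) ‖c i‖) ×ˢ
        Metric.closedBall (0 : ℂ) (C / 2)) :=
      (isCompact_univ_pi fun i => isCompact_closedBall _ _).prod (isCompact_closedBall _ _)
    refine hK.of_isClosed_subset hclosed ?_
    rintro q ⟨hq1, hq2⟩
    refine ⟨fun i _ => ?_, ?_⟩
    · rw [mem_closedBall_zero_iff]
      exact (hq1 i).le
    · rw [mem_closedBall_zero_iff]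
      have h4 := hC q.1 hq1 q.2 (-conj q.2) hq2.1.2.1 hq2.1.2.2
      have h5 : q.2 - conj (-conj q.2) = 2 * q.2 := by
        rw [map_neg, Complex.conj_conj]
        ring
      rw [h5, norm_mul] at h4
      have h6 : ‖(2 : ℂ)‖ = 2 := by norm_num
      rw [h6] at h4
      linarith
  obtain ⟨⟨c', ζ⟩, hmem, hmax⟩ := hcomp.exists_isMaxOn hnon
    (Complex.continuous_im.comp continuous_snd).continuousOn
  have hmax' : ∀ q ∈ 𝒩, q.2.im ≤ ζ.im := fun q hq => hmax hq
  obtain ⟨hc', hNI⟩ := hmem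
  obtain ⟨r, S, hr, hS, hSζ, hgr⟩ := graph_NI d c' h1 h hh (ζ, -conj ζ) hNI
  simp only at hS hSζ hgr
  -- the imaginary part of `z + S z` is maximal at `ζ`
  have hle : ∀ z ∈ Metric.ball ζ r, (z + S z).im ≤ (ζ + S ζ).im := by
    intro z hz
    obtain ⟨c'', h2⟩ := hcen c' hc' (z, S z) (hgr z hz)
    have h4 := hmax' _ h2
    simp only at h4
    have h5 : ((z - conj (S z)) / 2).im = (z + S z).im / 2 := by
      rw [show (z - conj (S z)) / 2 = ((1 / 2 : ℝ) : ℂ) * (z - conj (S z)) by push_cast; ring,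
        Complex.im_ofReal_mul]
      simp only [Complex.sub_im, Complex.conj_im, Complex.add_im]
      ring
    have h6 : (ζ + S ζ).im = 2 * ζ.im := by
      rw [hSζ]
      simp only [Complex.add_im, Complex.neg_im, Complex.conj_im]
      ring
    rw [h5] at h4
    rw [h6]
    linarith
  have hball : Metric.ball ζ r ∈ 𝓝 ζ := Metric.ball_mem_nhds ζ hr
  have hSd : ∀ z ∈ Metric.ball ζ r, DifferentiableAt ℂ S z := fun z hz =>
    (hS z hz).differentiableAt (Metric.isOpen_ball.mem_nhds hz)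
  -- maximum modulus
  have hconst : ∀ᶠ z in 𝓝 ζ, Complex.exp (-I * (z + S z)) = Complex.exp (-I * (ζ + S ζ)) := by
    refine Complex.eventually_eq_of_isLocalMax_norm (f := fun z => Complex.exp (-I * (z + S z)))
      ?_ ?_
    · filter_upwards [hball] with z hz
      have h2 := hSd z hz
      fun_prop
    · filter_upwards [hball] with z hz
      simp only [Function.comp_apply]
      rw [Complex.norm_exp, Complex.norm_exp]
      apply Real.exp_le_exp.2
      have h2 : ∀ w : ℂ, (-I * w).re = w.im := by intro w; simp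
      rw [h2, h2]
      exact hle z hz
  have hk : ∀ᶠ z in 𝓝 ζ, S z = (ζ + S ζ) - z := by
    have hcontS : ContinuousAt (fun z => -I * (z + S z) - -I * (ζ + S ζ)) ζ := by
      have h2 : ContinuousAt S ζ := (hSd ζ (Metric.mem_ball_self hr)).continuousAt
      fun_prop
    have hsmall : ∀ᶠ z in 𝓝 ζ, ‖-I * (z + S z) - -I * (ζ + S ζ)‖ < 2 * Real.pi := by
      have h2 := hcontS.norm
      have h4 : ‖-I * (ζ + S ζ) - -I * (ζ + S ζ)‖ < 2 * Real.pi := by
        rw [sub_self, norm_zero]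
        have := Real.pi_pos
        linarith
      exact h2.eventually_lt_const h4
    filter_upwards [hconst, hsmall] with z hz1 hz2
    have h2 : Complex.exp (-I * (z + S z) - -I * (ζ + S ζ)) = 1 := by
      rw [Complex.exp_sub, hz1, div_self (Complex.exp_ne_zero _)]
    have h4 := exp_near h2 hz2
    have h5 : -I * ((z + S z) - (ζ + S ζ)) = 0 := by linear_combination h4
    have h6 : (z + S z) - (ζ + S ζ) = 0 := by
      rcases mul_eq_zero.1 h5 with h7 | h7
      · exact absurd h7 (neg_ne_zero.2 Complex.I_ne_zero)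
      · exact h7
    linear_combination h6
  set k := ζ + S ζ with hkdef
  have hUz : ∀ z, Uz d c' z (k - z) = 0 := by
    refine entire_zero (Uz_diff d c' k) (z0 := ζ) ?_
    filter_upwards [hk, hball] with z hz1 hz2
    have h2 := (hgr z hz2).1.2.1
    simp only at h2
    rw [hz1] at h2
    exact h2
  have hUw : ∀ z, Uw d c' z (k - z) = 0 := by
    refine entire_zero (Uw_diff d c' k) (z0 := ζ) ?_
    filter_upwards [hk, hball] with z hz1 hz2
    have h2 := (hgr z hz2).1.2.2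
    simp only at h2
    rw [hz1] at h2
    exact h2
  have hbd : ∀ z : ℂ, ‖z - conj (k - z)‖ ≤ C := fun z => hC c' hc' z (k - z) (hUz z) (hUw z)
  have hC0 : 0 ≤ C := (norm_nonneg _).trans (hbd 0)
  have h2 := hbd ((C + ‖k‖ + 1 : ℝ) : ℂ)
  have h4 : ((C + ‖k‖ + 1 : ℝ) : ℂ) - conj (k - ((C + ‖k‖ + 1 : ℝ) : ℂ)) =
      ((2 * (C + ‖k‖ + 1) : ℝ) : ℂ) - conj k := by
    rw [map_sub, Complex.conj_ofReal]
    push_cast
    ring
  rw [h4] at h2
  have h5 : ‖((2 * (C + ‖k‖ + 1) : ℝ) : ℂ)‖ = 2 * (C + ‖k‖ + 1) := by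
    rw [Complex.norm_real, Real.norm_eq_abs, abs_of_nonneg]
    have := norm_nonneg k
    linarith
  have h6 := norm_sub_norm_le ((2 * (C + ‖k‖ + 1) : ℝ) : ℂ) (conj k)
  rw [h5, Complex.norm_conj] at h6
  have := norm_nonneg k
  linarith

end Pool.Agent.Helper327_Sch.PW
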