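import Pool.Agent.Helper327_Sch.PDefs

set_option autoImplicit false

open Complex Filter Topology Set MeasureTheory
open scoped ComplexConjugate

namespace Pool.Agent.Helper327_Sch.PW

variable {ι : Type} [Fintype ι]

namespace PW6

/-- the amplitude -/
noncomputable def A (a b : ℝ) : ℂ := ((a : ℂ) - b * I) / 2

/-- the collected coefficient of the direction `η` -/
noncomputable def cc (N : ℕ) (d : Fin N → ℂ) (a b : Fin N → ℝ) (η : ℂ) : ℂ :=
  ∑ j, ((if d j = η then A (a j) (b j) else 0) + (if - d j = η then conj (A (a j) (b j)) else 0))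

theorem cc_neg (N : ℕ) (d : Fin N → ℂ) (a b : Fin N → ℝ) (η : ℂ) :
    cc N d a b (-η) = conj (cc N d a b η) := by
  unfold cc
  rw [map_sum]
  refine Finset.sum_congr rfl fun j _ => ?_
  rw [map_add, add_comm]
  have h1 : (- d j = - η) ↔ (d j = η) := neg_inj
  have h2 : (d j = - η) ↔ (- d j = η) := by
    constructor
    · intro h; rw [h, neg_neg]
    · intro h; rw [← h, neg_neg]
  simp only [h1, h2]
  congr 1
  · split_ifs
    · rfl
    · rw [map_zero]
  · split_ifs
    · rw [Complex.conj_conj]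
    · rw [map_zero]

theorem wave_eq (lam : ℝ) (d x : ℂ) (a b : ℝ) :
    A a b * E d ((Real.sqrt lam / 2 : ℝ) * x) ((Real.sqrt lam / 2 : ℝ) * conj x) +
      conj (A a b) * E (- d) ((Real.sqrt lam / 2 : ℝ) * x) ((Real.sqrt lam / 2 : ℝ) * conj x) =
    ((a * Real.cos (Real.sqrt lam * (conj d * x).re) +
      b * Real.sin (Real.sqrt lam * (conj d * x).re) : ℝ) : ℂ) := by
  have h1 : conj d * x + d * conj x = ((2 * (conj d * x).re : ℝ) : ℂ) := by
    have h2 := Complex.add_conj (conj d * x)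
    rw [map_mul, Complex.conj_conj] at h2
    exact h2
  have h3 : I * (conj d * ((Real.sqrt lam / 2 : ℝ) * x) + d * ((Real.sqrt lam / 2 : ℝ) * conj x)) =
      ((Real.sqrt lam * (conj d * x).re : ℝ) : ℂ) * I := by
    have h4 : conj d * ((Real.sqrt lam / 2 : ℝ) * x) + d * ((Real.sqrt lam / 2 : ℝ) * conj x) =
      ((Real.sqrt lam / 2 : ℝ) : ℂ) * (conj d * x + d * conj x) := by ring
    rw [h4, h1]
    push_cast
    ring
  have h5 : I * (conj (-d) * ((Real.sqrt lam / 2 : ℝ) * x) +
      (-d) * ((Real.sqrt lam / 2 : ℝ) * conj x)) =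
      ((-(Real.sqrt lam * (conj d * x).re) : ℝ) : ℂ) * I := by
    rw [map_neg]
    push_cast
    push_cast at h3
    linear_combination -h3
  unfold E
  rw [h3, h5, Complex.exp_mul_I, Complex.exp_mul_I]
  rw [← Complex.ofReal_cos, ← Complex.ofReal_sin, ← Complex.ofReal_cos, ← Complex.ofReal_sin,
    Real.cos_neg, Real.sin_neg]
  have h6 : conj (A a b) = ((a : ℂ) + b * I) / 2 := by
    unfold A
    rw [map_div₀, map_sub, map_mul, Complex.conj_ofReal, Complex.conj_ofReal, Complex.conj_I]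
    have : (starRingEnd ℂ) 2 = 2 := by
      have := Complex.conj_ofReal 2
      simpa using this
    rw [this]
    ring
  rw [h6]
  unfold A
  push_cast
  have hI : I * I = -1 := Complex.I_mul_I
  linear_combination (-(b : ℂ) * Complex.sin (Real.sqrt lam * (conj d * x).re)) * hI

end PW6

theorem rep (N : ℕ) (d : Fin N → ℂ) (hd : ∀ j, ‖d j‖ = 1) (a b : Fin N → ℝ) :
    ∃ (κ : Type) (_ : Fintype κ) (η c : κ → ℂ), Function.Injective η ∧ (∀ i, ‖η i‖ = 1) ∧
      (∀ i, ∃ j, η j = -η i) ∧ (∀ i, c i ≠ 0) ∧ (∀ i j, η j = -η i → c j = conj (c i)) ∧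
      ∀ (lam : ℝ) (x : ℂ), (waves lam N d a b x : ℂ) =
        U η c ((Real.sqrt lam / 2 : ℝ) * x) ((Real.sqrt lam / 2 : ℝ) * conj x) := by
  classical
  set S : Finset ℂ := Finset.univ.image d ∪ Finset.univ.image (fun j => - d j) with hS
  have hd1 : ∀ j, d j ∈ S := fun j =>
    Finset.mem_union_left _ (Finset.mem_image_of_mem _ (Finset.mem_univ j))
  have hd2 : ∀ j, - d j ∈ S := fun j =>
    Finset.mem_union_right _ (Finset.mem_image_of_mem (fun j => - d j) (Finset.mem_univ j))
  have hSn : ∀ η ∈ S, ‖η‖ = 1 ∧ -η ∈ S := by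
    intro η h
    rw [hS, Finset.mem_union, Finset.mem_image, Finset.mem_image] at h
    rcases h with ⟨j, _, rfl⟩ | ⟨j, _, rfl⟩
    · exact ⟨hd j, hd2 j⟩
    · refine ⟨by rw [norm_neg]; exact hd j, ?_⟩
      rw [neg_neg]
      exact hd1 j
  set T : Finset ℂ := S.filter (fun η => PW6.cc N d a b η ≠ 0) with hT
  have hTm : ∀ η, η ∈ T ↔ η ∈ S ∧ PW6.cc N d a b η ≠ 0 := fun η => by
    rw [hT, Finset.mem_filter]
  refine ⟨{η : ℂ // η ∈ T}, inferInstance, fun i => i.1, fun i => PW6.cc N d a b i.1,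
    Subtype.val_injective, fun i => (hSn _ ((hTm _).1 i.2).1).1, fun i => ?_,
    fun i => ((hTm _).1 i.2).2, fun i j hij => ?_, fun lam x => ?_⟩
  · refine ⟨⟨-i.1, (hTm _).2 ⟨(hSn _ ((hTm _).1 i.2).1).2, ?_⟩⟩, rfl⟩
    rw [PW6.cc_neg]
    exact fun h => ((hTm _).1 i.2).2 (by
      have := congrArg (starRingEnd ℂ) h
      rwa [Complex.conj_conj, map_zero] at this)
  · change PW6.cc N d a b j.1 = conj (PW6.cc N d a b i.1)
    have h1 : (j.1 : ℂ) = -i.1 := hij
    rw [h1, PW6.cc_neg]
  · set z : ℂ := ((Real.sqrt lam / 2 : ℝ) : ℂ) * x with hz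
    set w : ℂ := ((Real.sqrt lam / 2 : ℝ) : ℂ) * conj x with hw
    unfold U
    have h1 : (∑ i : {η : ℂ // η ∈ T}, PW6.cc N d a b i.1 * E i.1 z w) =
        ∑ η ∈ T, PW6.cc N d a b η * E η z w :=
      Finset.sum_coe_sort T (fun η => PW6.cc N d a b η * E η z w)
    rw [h1]
    have h2 : ∑ η ∈ T, PW6.cc N d a b η * E η z w = ∑ η ∈ S, PW6.cc N d a b η * E η z w := by
      refine Finset.sum_subset (Finset.filter_subset _ _) fun η hη hn => ?_
      have h3 : PW6.cc N d a b η = 0 := by
        by_contra h4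
        exact hn ((hTm η).2 ⟨hη, h4⟩)
      rw [h3, zero_mul]
    rw [h2]
    unfold waves
    rw [Complex.ofReal_sum]
    have h3 : ∀ j : Fin N, ((a j * Real.cos (Real.sqrt lam * (conj (d j) * x).re) +
        b j * Real.sin (Real.sqrt lam * (conj (d j) * x).re) : ℝ) : ℂ) =
        ∑ η ∈ S, ((if d j = η then PW6.A (a j) (b j) else 0) +
          (if - d j = η then conj (PW6.A (a j) (b j)) else 0)) * E η z w := by
      intro j
      rw [← PW6.wave_eq]
      simp only [add_mul, Finset.sum_add_distrib]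
      congr 1
      · rw [Finset.sum_eq_single (d j)]
        · rw [if_pos rfl]
        · intro η _ hη
          rw [if_neg (Ne.symm hη), zero_mul]
        · intro h
          exact absurd (hd1 j) h
      · rw [Finset.sum_eq_single (- d j)]
        · rw [if_pos rfl]
        · intro η _ hη
          rw [if_neg (Ne.symm hη), zero_mul]
        · intro h
          exact absurd (hd2 j) h
    rw [Finset.sum_congr rfl fun j _ => h3 j, Finset.sum_comm]
    refine Finset.sum_congr rfl fun η _ => ?_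
    rw [← Finset.sum_mul]
    rfl

end Pool.Agent.Helper327_Sch.PW
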