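import Pool.Agent.Helper327_Sch.PDefs

set_option autoImplicit false

open Complex Filter Topology Set MeasureTheory
open scoped ComplexConjugate

namespace Pool.Agent.Helper327_Sch.PW

variable {ι : Type} [Fintype ι]

namespace PW7

theorem expo (a x : ℂ) (t : ℝ) :
    conj a * (((t / 2 : ℝ) : ℂ) * x) + a * (((t / 2 : ℝ) : ℂ) * conj x) =
      ((t * (conj a * x).re : ℝ) : ℂ) := by
  have h1 : conj a * x + conj (conj a * x) = ((2 * (conj a * x).re : ℝ) : ℂ) := Complex.add_conj _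
  have h2 : conj (conj a * x) = a * conj x := by
    rw [map_mul, Complex.conj_conj]
  rw [h2] at h1
  have h3 : conj a * (((t / 2 : ℝ) : ℂ) * x) + a * (((t / 2 : ℝ) : ℂ) * conj x) =
      ((t / 2 : ℝ) : ℂ) * (conj a * x + a * conj x) := by ring
  rw [h3, h1]
  push_cast
  ring

theorem line (a b : ℂ) : HasDerivAt (fun s : ℝ => cexp (a + (s : ℂ) * b)) (cexp a * b) 0 := by
  have h1 : HasDerivAt (fun s : ℝ => (s : ℂ)) 1 0 := by
    have := (hasDerivAt_id (0 : ℝ)).ofReal_comp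
    simpa using this
  have h2 := ((h1.mul_const b).const_add a).cexp
  simpa using h2

theorem gline {ι : Type} [Fintype ι] (η c : ι → ℂ) (t : ℝ) (x v : ℂ) :
    HasDerivAt (fun s : ℝ => U η c ((t : ℂ) * (x + (s : ℂ) * v)) ((t : ℂ) * conj (x + (s : ℂ) * v)))
      ((t : ℂ) * (Uz η c ((t : ℂ) * x) ((t : ℂ) * conj x) * v + Uw η c ((t : ℂ) * x) ((t : ℂ) * conj x) * conj v)) 0 := by
  unfold U E
  have hi : ∀ i ∈ (Finset.univ : Finset ι), HasDerivAt (fun s : ℝ => c i * cexp (I * (conj (η i) * ((t : ℂ) * (x + (s : ℂ) * v)) +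
      η i * ((t : ℂ) * conj (x + (s : ℂ) * v)))))
      (c i * (cexp (I * (conj (η i) * ((t : ℂ) * x) + η i * ((t : ℂ) * conj x))) *
        (I * (conj (η i) * ((t : ℂ) * v) + η i * ((t : ℂ) * conj v))))) 0 := by
    intro i _
    have h1 := (line (I * (conj (η i) * ((t : ℂ) * x) + η i * ((t : ℂ) * conj x)))
      (I * (conj (η i) * ((t : ℂ) * v) + η i * ((t : ℂ) * conj v)))).const_mul (c i)
    have h2 : (fun s : ℝ => c i * cexp (I * (conj (η i) * ((t : ℂ) * (x + (s : ℂ) * v)) +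
      η i * ((t : ℂ) * conj (x + (s : ℂ) * v))))) = fun s : ℝ => c i * cexp (I * (conj (η i) * ((t : ℂ) * x) +
        η i * ((t : ℂ) * conj x)) + (s : ℂ) * (I * (conj (η i) * ((t : ℂ) * v) + η i * ((t : ℂ) * conj v)))) := by
      funext s
      congr 2
      rw [map_add, map_mul, Complex.conj_ofReal]
      ring
    rw [h2]
    exact h1
  have h3 := HasDerivAt.fun_sum hi
  refine h3.congr_deriv ?_
  unfold Uz Uw E
  rw [Finset.sum_mul, Finset.sum_mul, ← Finset.sum_add_distrib, Finset.mul_sum]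
  refine Finset.sum_congr rfl (fun i _ => ?_)
  ring

theorem gdiff {ι : Type} [Fintype ι] (η c : ι → ℂ) (t : ℝ) :
    Differentiable ℝ (fun x : ℂ => U η c ((t : ℂ) * x) ((t : ℂ) * conj x)) := by
  unfold U E
  have hconj : Differentiable ℝ (fun y : ℂ => conj y) := Complex.conjCLE.differentiable
  have hid : Differentiable ℝ (fun y : ℂ => y) := differentiable_id
  apply Differentiable.fun_sum
  intro i _
  apply Differentiable.const_mul
  apply Differentiable.cexp
  apply Differentiable.const_mul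
  exact ((hid.const_mul _).const_mul _).add ((hconj.const_mul _).const_mul _)

end PW7

theorem one_dim (η c : ι → ℂ) (hinj : Function.Injective η) (h1 : ∀ i, ‖η i‖ = 1)
    (hneg : ∀ i, ∃ j, η j = -η i) (hconj : ∀ i j, η j = -η i → c j = conj (c i))
    (h3 : ¬ ∃ i j, η j ≠ η i ∧ η j ≠ -η i) :
    ∃ (e : ℂ) (A φ : ℝ), ‖e‖ = 1 ∧ ∀ (t : ℝ) (x : ℂ),
      U η c ((t / 2 : ℝ) * x) ((t / 2 : ℝ) * conj x) =
        ((A * Real.cos (t * (conj e * x).re + φ) : ℝ) : ℂ) := by
  classical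
  rcases isEmpty_or_nonempty ι with hE | ⟨⟨i0⟩⟩
  · refine ⟨1, 0, 0, by simp, fun t x => ?_⟩
    unfold U
    simp
  · obtain ⟨j0, hj0⟩ := hneg i0
    have hne0 : η i0 ≠ 0 := by
      intro h
      have := h1 i0
      rw [h, norm_zero] at this
      exact zero_ne_one this
    have hne : i0 ≠ j0 := by
      intro h
      rw [← h] at hj0
      have h2 : (2 : ℂ) * η i0 = 0 := by linear_combination hj0
      rcases mul_eq_zero.mp h2 with h3 | h3
      · norm_num at h3
      · exact hne0 h3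
    have hall : ∀ i, i = i0 ∨ i = j0 := by
      intro i
      by_contra hcon
      push Not at hcon
      apply h3
      refine ⟨i0, i, fun h => hcon.1 (hinj h), fun h => hcon.2 (hinj (by rw [h, hj0]))⟩
    refine ⟨η i0, 2 * ‖c i0‖, Complex.arg (c i0), h1 i0, fun t x => ?_⟩
    unfold U
    rw [Finset.sum_eq_add i0 j0 hne (fun i _ hi => by
      rcases hall i with h | h
      · exact absurd h hi.1
      · exact absurd h hi.2) (fun h => absurd (Finset.mem_univ _) h) (fun h => absurd (Finset.mem_univ _) h)]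
    have hcj : c j0 = conj (c i0) := hconj i0 j0 hj0
    obtain ⟨s, hs⟩ : ∃ s : ℝ, s = t * (conj (η i0) * x).re := ⟨_, rfl⟩
    have e1 : E (η i0) (((t / 2 : ℝ) : ℂ) * x) (((t / 2 : ℝ) : ℂ) * conj x) = cexp (I * (s : ℂ)) := by
      unfold E
      rw [PW7.expo, hs]
    have e2 : E (η j0) (((t / 2 : ℝ) : ℂ) * x) (((t / 2 : ℝ) : ℂ) * conj x) = cexp (-(I * (s : ℂ))) := by
      unfold E
      rw [hj0]
      have h4 : conj (-η i0) * (((t / 2 : ℝ) : ℂ) * x) + -η i0 * (((t / 2 : ℝ) : ℂ) * conj x) =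
          -(conj (η i0) * (((t / 2 : ℝ) : ℂ) * x) + η i0 * (((t / 2 : ℝ) : ℂ) * conj x)) := by
        rw [map_neg]
        ring
      rw [h4, PW7.expo, hs]
      congr 1
      ring
    rw [e1, e2, hcj, ← hs]
    obtain ⟨r, hr⟩ : ∃ r : ℝ, r = ‖c i0‖ := ⟨_, rfl⟩
    obtain ⟨φ, hφ⟩ : ∃ φ : ℝ, φ = Complex.arg (c i0) := ⟨_, rfl⟩
    have hc : c i0 = (r : ℂ) * cexp ((φ : ℂ) * I) := by
      rw [hr, hφ]
      exact (Complex.norm_mul_exp_arg_mul_I (c i0)).symm
    have hcc : conj (c i0) = (r : ℂ) * cexp (-((φ : ℂ) * I)) := by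
      rw [hc, map_mul, Complex.conj_ofReal, ← Complex.exp_conj, map_mul, Complex.conj_ofReal, Complex.conj_I]
      congr 2
      ring
    rw [← hr, ← hφ, hcc, hc]
    push_cast
    rw [Complex.cos]
    have h5 : (r : ℂ) * cexp ((φ : ℂ) * I) * cexp (I * (s : ℂ)) = (r : ℂ) * cexp (((s : ℂ) + φ) * I) := by
      rw [mul_assoc, ← Complex.exp_add]
      congr 2
      ring
    have h6 : (r : ℂ) * cexp (-((φ : ℂ) * I)) * cexp (-(I * (s : ℂ))) = (r : ℂ) * cexp (-((s : ℂ) + φ) * I) := by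
      rw [mul_assoc, ← Complex.exp_add]
      congr 2
      ring
    rw [h5, h6]
    ring

theorem crit_UzUw (η c : ι → ℂ) (f : ℂ → ℝ) (t : ℝ) (ht : t ≠ 0)
    (hf : ∀ x, (f x : ℂ) = U η c ((t : ℝ) * x) ((t : ℝ) * conj x)) (x : ℂ)
    (hx : fderiv ℝ f x = 0) :
    Uz η c ((t : ℝ) * x) ((t : ℝ) * conj x) = 0 ∧ Uw η c ((t : ℝ) * x) ((t : ℝ) * conj x) = 0 := by
  have hfd : DifferentiableAt ℝ f x := by
    have h1 : f = fun x => (U η c ((t : ℂ) * x) ((t : ℂ) * conj x)).re := by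
      funext y
      rw [← hf y, Complex.ofReal_re]
    rw [h1]
    exact (Complex.reCLM.differentiable.comp (PW7.gdiff η c t)).differentiableAt
  have hF : HasFDerivAt f (0 : ℂ →L[ℝ] ℝ) x := by
    rw [← hx]
    exact hfd.hasFDerivAt
  have key : ∀ v : ℂ, Uz η c ((t : ℂ) * x) ((t : ℂ) * conj x) * v + Uw η c ((t : ℂ) * x) ((t : ℂ) * conj x) * conj v = 0 := by
    intro v
    have h1 : HasDerivAt (fun s : ℝ => x + (s : ℂ) * v) v 0 := by
      have h2 : HasDerivAt (fun s : ℝ => (s : ℂ)) 1 0 := by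
        have := (hasDerivAt_id (0 : ℝ)).ofReal_comp
        simpa using this
      have h3 := (h2.mul_const v).const_add x
      simpa using h3
    have hF' : HasFDerivAt f (0 : ℂ →L[ℝ] ℝ) ((fun s : ℝ => x + (s : ℂ) * v) 0) := by
      simpa using hF
    have h4 : HasDerivAt (fun s : ℝ => f (x + (s : ℂ) * v)) 0 0 := by
      have h44 := hF'.comp_hasDerivAt (0 : ℝ) h1
      rw [ContinuousLinearMap.zero_apply] at h44
      exact h44
    have h5 : HasDerivAt (fun s : ℝ => ((f (x + (s : ℂ) * v) : ℝ) : ℂ)) 0 0 := by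
      have := h4.ofReal_comp
      simpa using this
    have h6 : (fun s : ℝ => ((f (x + (s : ℂ) * v) : ℝ) : ℂ)) =
        fun s : ℝ => U η c ((t : ℂ) * (x + (s : ℂ) * v)) ((t : ℂ) * conj (x + (s : ℂ) * v)) := by
      funext s
      exact hf _
    rw [h6] at h5
    have h7 := (PW7.gline η c t x v).unique h5
    rcases mul_eq_zero.mp h7 with h8 | h8
    · exact absurd (Complex.ofReal_eq_zero.mp h8) ht
    · exact h8
  have k1 := key 1
  have k2 := key I
  rw [map_one, mul_one, mul_one] at k1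
  rw [Complex.conj_I] at k2
  have k3 : Uz η c ((t : ℂ) * x) ((t : ℂ) * conj x) - Uw η c ((t : ℂ) * x) ((t : ℂ) * conj x) = 0 := by
    have h9 : I * (Uz η c ((t : ℂ) * x) ((t : ℂ) * conj x) - Uw η c ((t : ℂ) * x) ((t : ℂ) * conj x)) = 0 := by
      linear_combination k2
    rcases mul_eq_zero.mp h9 with h10 | h10
    · exact absurd h10 Complex.I_ne_zero
    · exact h10
  constructor
  · linear_combination (1 / 2 : ℂ) * k1 + (1 / 2 : ℂ) * k3
  · linear_combination (1 / 2 : ℂ) * k1 - (1 / 2 : ℂ) * k3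

end Pool.Agent.Helper327_Sch.PW
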