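import Pool.Agent.Helper327_Sch.PDefs
import Pool.Agent.Helper327_Sch.Fin.SF9

set_option autoImplicit false

open Complex Filter Topology Set MeasureTheory
open scoped ComplexConjugate ContDiff

namespace Pool.Agent.Helper327_Sch.PW

variable {ι : Type} [Fintype ι]

namespace PW8

/-- the linear function `√lam * re (conj c * x)` -/
noncomputable def ell (lam : ℝ) (c : ℂ) : ℂ →L[ℝ] ℝ :=
  Real.sqrt lam • (Complex.reCLM.comp (ContinuousLinearMap.mul ℝ ℂ (conj c)))

theorem ell_apply (lam : ℝ) (c x : ℂ) : ell lam c x = Real.sqrt lam * (conj c * x).re := by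
  simp [ell]

theorem waves_eq (lam : ℝ) (N : ℕ) (d : Fin N → ℂ) (a b : Fin N → ℝ) :
    waves lam N d a b = fun x => ∑ j, (a j * Real.cos (ell lam (d j) x) +
      b j * Real.sin (ell lam (d j) x)) := by
  funext x
  simp only [waves, ell_apply]

theorem smooth (lam : ℝ) (N : ℕ) (d : Fin N → ℂ) (a b : Fin N → ℝ) :
    ContDiff ℝ ∞ (waves lam N d a b) := by
  rw [waves_eq]
  refine ContDiff.sum fun j _ => ?_
  have h := (ell lam (d j)).contDiff (n := ∞)
  exact (contDiff_const.mul (Real.contDiff_cos.comp h)).add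
    (contDiff_const.mul (Real.contDiff_sin.comp h))

/-- the directional derivative -/
theorem dd_waves (lam : ℝ) (N : ℕ) (d : Fin N → ℂ) (a b : Fin N → ℝ) (v : ℂ) :
    Pool.Agent.TH298.Sch.dd v (waves lam N d a b) =
      waves lam N d (fun j => b j * ell lam (d j) v) (fun j => -(a j * ell lam (d j) v)) := by
  funext x
  have h : HasFDerivAt (waves lam N d a b)
      (∑ j, (a j • (-Real.sin (ell lam (d j) x) • ell lam (d j)) +
        b j • (Real.cos (ell lam (d j) x) • ell lam (d j)))) x := by
    rw [waves_eq]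
    refine HasFDerivAt.fun_sum fun j _ => ?_
    have h := (ell lam (d j)).hasFDerivAt (x := x)
    exact (h.cos.const_mul (a j)).add (h.sin.const_mul (b j))
  unfold Pool.Agent.TH298.Sch.dd
  rw [h.fderiv, waves_eq]
  simp only [ContinuousLinearMap.sum_apply, ContinuousLinearMap.add_apply,
    ContinuousLinearMap.smul_apply, smul_eq_mul]
  refine Finset.sum_congr rfl fun j _ => ?_
  ring

/-- the Helmholtz equation -/
theorem la_waves (lam : ℝ) (hlam : 0 < lam) (N : ℕ) (d : Fin N → ℂ) (hd : ∀ j, ‖d j‖ = 1)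
    (a b : Fin N → ℝ) (x : ℂ) :
    Pool.Agent.R227.SA.la (waves lam N d a b) x = -(lam * waves lam N d a b x) := by
  unfold Pool.Agent.R227.SA.la
  rw [dd_waves, dd_waves, dd_waves, dd_waves]
  simp only [waves_eq]
  rw [← Finset.sum_add_distrib, Finset.mul_sum, ← Finset.sum_neg_distrib]
  refine Finset.sum_congr rfl fun j _ => ?_
  have h1 : ell lam (d j) 1 ^ 2 + ell lam (d j) I ^ 2 = lam := by
    rw [ell_apply, ell_apply]
    have e1 : (conj (d j) * 1).re = (d j).re := by simp
    have e2 : (conj (d j) * I).re = (d j).im := by simp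
    rw [e1, e2, mul_pow, mul_pow, Real.sq_sqrt hlam.le]
    have h2 : (d j).re ^ 2 + (d j).im ^ 2 = 1 := by
      have h3 : Complex.normSq (d j) = 1 := by
        rw [Complex.normSq_eq_norm_sq, hd j]
        norm_num
      rw [Complex.normSq_apply] at h3
      nlinarith
    linear_combination lam * h2
  linear_combination (-(a j * Real.cos (ell lam (d j) x) + b j * Real.sin (ell lam (d j) x))) * h1

end PW8

theorem waves_smooth (lam : ℝ) (N : ℕ) (d : Fin N → ℂ) (a b : Fin N → ℝ) :
    ContDiff ℝ ∞ (waves lam N d a b) := PW8.smooth lam N d a b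

theorem waves_wat (lam : ℝ) (hlam : 0 < lam) (N : ℕ) (d : Fin N → ℂ) (hd : ∀ j, ‖d j‖ = 1)
    (a b : Fin N → ℝ) : Pool.Agent.R227.SA.Wat Set.univ lam (waves lam N d a b) := by
  have hsm := waves_smooth lam N d a b
  refine ⟨hsm.continuous, fun x hx => absurd (Set.mem_univ x) hx, fun x₀ _ => ?_⟩
  let β : ContDiffBump x₀ := ⟨1, 2, one_pos, one_lt_two⟩
  refine ⟨1, one_pos, fun x => β x * waves lam N d a b x, ⟨?_, ?_⟩, Set.subset_univ _,
    fun x hx => ?_⟩
  · exact β.contDiff.mul hsm
  · exact β.hasCompactSupport.mul_right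
  · have hev : (fun x => β x * waves lam N d a b x) =ᶠ[𝓝 x] waves lam N d a b := by
      filter_upwards [Metric.isOpen_ball.mem_nhds hx] with y hy
      rw [β.one_of_mem_closedBall (Metric.ball_subset_closedBall hy), one_mul]
    have h1 : β x * waves lam N d a b x = waves lam N d a b x := hev.eq_of_nhds
    refine ⟨h1.symm, ?_⟩
    have h2 : Pool.Agent.R227.SA.la (fun x => β x * waves lam N d a b x) x =
        Pool.Agent.R227.SA.la (waves lam N d a b) x := by
      have hd : ∀ v, Pool.Agent.TH298.Sch.dd v (fun x => β x * waves lam N d a b x) =ᶠ[𝓝 x]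
          Pool.Agent.TH298.Sch.dd v (waves lam N d a b) := by
        intro v
        filter_upwards [hev.fderiv (𝕜 := ℝ)] with y hy
        unfold Pool.Agent.TH298.Sch.dd
        rw [hy]
      unfold Pool.Agent.R227.SA.la
      have hdd : ∀ v, Pool.Agent.TH298.Sch.dd v
          (Pool.Agent.TH298.Sch.dd v (fun x => β x * waves lam N d a b x)) x =
          Pool.Agent.TH298.Sch.dd v (Pool.Agent.TH298.Sch.dd v (waves lam N d a b)) x := by
        intro v
        have h3 := (hd v).fderiv_eq (𝕜 := ℝ)
        change fderiv ℝ _ x v = fderiv ℝ _ x v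
        rw [h3]
      rw [hdd, hdd]
    rw [h2, PW8.la_waves lam hlam N d hd]
    exact congrArg (fun t => -(lam * t)) h1.symm

end Pool.Agent.Helper327_Sch.PW
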