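import Pool.Agent.Helper327_Sch.PDefs
import Pool.Agent.Helper327_Drum.Fin.ST1
import Pool.Agent.Helper327_Sch.Fin.PW3
import Pool.Agent.Helper327_Sch.Fin.PW5
import Pool.Agent.Helper327_Sch.Fin.PW6
import Pool.Agent.Helper327_Sch.Fin.PW7
import Pool.Agent.Helper327_Sch.Fin.PW8

set_option autoImplicit false

open Complex Filter Topology Set MeasureTheory
open scoped ComplexConjugate ContDiff

namespace Pool.Agent.Helper327_Sch.PW

variable {ι : Type} [Fintype ι]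

namespace PW9

theorem inj_tendsto {α β : Type*} [TopologicalSpace α] [TopologicalSpace β] {F : α → β} {x : α}
    (hF : ContinuousAt F x) (hinj : ∀ y, y ≠ x → F y ≠ F x) :
    Tendsto F (𝓝[≠] x) (𝓝[≠] (F x)) := by
  rw [tendsto_nhdsWithin_iff]
  refine ⟨hF.mono_left nhdsWithin_le_nhds, ?_⟩
  filter_upwards [self_mem_nhdsWithin] with y hy
  exact hinj y hy

end PW9

theorem waves_iso (lam : ℝ) (hlam : 0 < lam) (N : ℕ) (d : Fin N → ℂ) (hd : ∀ j, ‖d j‖ = 1)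
    (a b : Fin N → ℝ)
    (hne : ¬ ∃ (e : ℂ) (A φ : ℝ), ‖e‖ = 1 ∧ ∀ x,
      waves lam N d a b x = A * Real.cos (Real.sqrt lam * (conj e * x).re + φ)) (x₀ : ℂ) :
    ¬ AccPt x₀ (𝓟 {x | fderiv ℝ (waves lam N d a b) x = 0}) := by
  intro hacc
  obtain ⟨κ, _, η, c, hinj, hη1, hneg, hc0, hconj, hrep⟩ := rep N d hd a b
  by_cases h3 : ∃ i j, η j ≠ η i ∧ η j ≠ -η i
  swap
  · obtain ⟨e, A, φ, he, hf⟩ := one_dim η c hinj hη1 hneg hconj h3
    refine hne ⟨e, A, φ, he, fun x => ?_⟩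
    have h4 := hrep lam x
    rw [hf (Real.sqrt lam) x] at h4
    exact_mod_cast h4
  have hs : 0 < Real.sqrt lam := Real.sqrt_pos.mpr hlam
  obtain ⟨t, ht⟩ : ∃ t : ℝ, t = Real.sqrt lam / 2 := ⟨_, rfl⟩
  have ht0 : t ≠ 0 := by
    rw [ht]
    positivity
  have htc : (t : ℂ) ≠ 0 := by exact_mod_cast ht0
  have hrep' : ∀ x : ℂ, (waves lam N d a b x : ℂ) = U η c ((t : ℝ) * x) ((t : ℝ) * conj x) := by
    intro x
    rw [ht]
    exact hrep lam x
  have hne0 : ∃ x, waves lam N d a b x ≠ 0 := by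
    by_contra hcon
    push Not at hcon
    exact hne ⟨1, 0, 0, by simp, fun x => by rw [hcon x]; simp⟩
  have hacc' : AccPt x₀ (𝓟 {x | x ∈ (Set.univ : Set ℂ) ∧ fderiv ℝ (waves lam N d a b) x = 0}) := by
    simpa using hacc
  obtain ⟨hx0, -⟩ := Pool.Agent.Helper327_Drum.crit_graph isOpen_univ isPreconnected_univ hlam
    (waves_wat lam hlam N d hd a b) hne0 (Set.mem_univ x₀) hacc'
  obtain ⟨h, hh⟩ : ∃ h : ℂ, h = (waves lam N d a b x₀ : ℂ) := ⟨_, rfl⟩
  have hh0 : h ≠ 0 := by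
    rw [hh]
    exact_mod_cast hx0
  obtain ⟨F, hF⟩ : ∃ F : ℂ → ℂ × ℂ, F = fun x => ((t : ℂ) * x, (t : ℂ) * conj x) := ⟨_, rfl⟩
  have hFc : Continuous F := by
    rw [hF]
    exact (continuous_const.mul continuous_id).prodMk
      (continuous_const.mul Complex.continuous_conj)
  have hFi : ∀ y, y ≠ x₀ → F y ≠ F x₀ := by
    intro y hy h4
    rw [hF] at h4
    simp only [Prod.mk.injEq] at h4
    exact hy (mul_left_cancel₀ htc h4.1)
  have hp : U η c (F x₀).1 (F x₀).2 = h := by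
    rw [hh, hrep' x₀, hF]
  have hacc2 : AccPt (F x₀) (𝓟 {q : ℂ × ℂ | Uz η c q.1 q.2 = 0 ∧ Uw η c q.1 q.2 = 0}) := by
    rw [accPt_iff_frequently_nhdsNE] at hacc ⊢
    refine (PW9.inj_tendsto hFc.continuousAt hFi).frequently (hacc.mono ?_)
    intro x hx
    have h5 := crit_UzUw η c (waves lam N d a b) t ht0 hrep' x hx
    rw [hF]
    exact h5
  obtain ⟨r, S, hr, hS, hSp, hCP⟩ := graph η c hη1 h hh0 (F x₀) hp hacc2
  obtain ⟨G, hG⟩ : ∃ G : ℂ → ℂ × ℂ, G = fun z => (z, S z) := ⟨_, rfl⟩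
  have hGp : G (F x₀).1 = F x₀ := by
    rw [hG]
    exact Prod.ext rfl hSp
  have hGc : ContinuousAt G (F x₀).1 := by
    rw [hG]
    exact continuousAt_id.prodMk
      (hS.differentiableAt (Metric.ball_mem_nhds _ hr)).continuousAt
  have hGi : ∀ y, y ≠ (F x₀).1 → G y ≠ G (F x₀).1 := by
    intro y hy h4
    rw [hG] at h4
    simp only [Prod.mk.injEq] at h4
    exact hy h4.1
  have hmem : F x₀ ∈ NI η c h := by
    refine ⟨?_, ?_⟩
    · have h6 := hCP (F x₀).1 (Metric.mem_ball_self hr)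
      rw [hSp] at h6
      exact h6
    · rw [accPt_iff_frequently_nhdsNE]
      have h7 := PW9.inj_tendsto hGc hGi
      rw [hGp] at h7
      refine h7.frequently ?_
      have h8 : ∀ᶠ z in 𝓝[≠] (F x₀).1, G z ∈ CP η c h := by
        have h9 : ∀ᶠ z in 𝓝[≠] (F x₀).1, z ∈ Metric.ball (F x₀).1 r :=
          mem_nhdsWithin_of_mem_nhds (Metric.ball_mem_nhds _ hr)
        filter_upwards [h9] with z hz
        rw [hG]
        exact hCP z hz
      exact h8.frequently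
  rw [no_NI η hinj hη1 hneg h3 c hc0 h hh0] at hmem
  exact hmem

end Pool.Agent.Helper327_Sch.PW
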