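import Pool.Agent.Helper327_Sch.TDefs
import Pool.Agent.Helper327_Sch.Fin.OSG

set_option autoImplicit false

open Complex Filter Topology Set
open scoped ComplexConjugate ContDiff

namespace Pool.Agent.Helper327_Sch.TF

namespace TF1

theorem chain {F : ℂ → ℂ → ℂ} (hF : Differentiable ℂ (fun p : ℂ × ℂ => F p.1 p.2)) {S : ℂ → ℂ}
    {a b s z : ℂ} (h1 : HasDerivAt (fun ζ => F ζ (S z)) a z)
    (h2 : HasDerivAt (fun v => F z v) b (S z)) (hS : HasDerivAt S s z) :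
    HasDerivAt (fun t => F t (S t)) (a + b * s) z := by
  have e1 : HasFDerivAt (fun p : ℂ × ℂ => F p.1 p.2)
      (fderiv ℂ (fun p : ℂ × ℂ => F p.1 p.2) (z, S z)) (z, S z) := (hF (z, S z)).hasFDerivAt
  have f1 : HasDerivAt (fun t : ℂ => ((t, S z) : ℂ × ℂ)) ((1, 0) : ℂ × ℂ) z :=
    (hasDerivAt_id _).prodMk (hasDerivAt_const _ _)
  have f2 : HasDerivAt (fun w : ℂ => ((z, w) : ℂ × ℂ)) ((0, 1) : ℂ × ℂ) (S z) :=
    (hasDerivAt_const _ _).prodMk (hasDerivAt_id _)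
  have f3 : HasDerivAt (fun t : ℂ => ((t, S t) : ℂ × ℂ)) ((1, s) : ℂ × ℂ) z :=
    (hasDerivAt_id _).prodMk hS
  have g1 : fderiv ℂ (fun p : ℂ × ℂ => F p.1 p.2) (z, S z) (1, 0) = a :=
    (HasFDerivAt.comp_hasDerivAt z (f := fun t : ℂ => ((t, S z) : ℂ × ℂ)) e1 f1).unique h1
  have g2 : fderiv ℂ (fun p : ℂ × ℂ => F p.1 p.2) (z, S z) (0, 1) = b :=
    (HasFDerivAt.comp_hasDerivAt (S z) (f := fun w : ℂ => ((z, w) : ℂ × ℂ)) e1 f2).unique h2
  have g3 := HasFDerivAt.comp_hasDerivAt z (f := fun t : ℂ => ((t, S t) : ℂ × ℂ)) e1 f3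
  have e : ((1, s) : ℂ × ℂ) = (1, 0) + s • ((0, 1) : ℂ × ℂ) := by
    ext <;> simp
  rw [e, map_add, map_smul, g1, g2, smul_eq_mul, mul_comm s b] at g3
  exact g3

end TF1

open TF1

theorem graph {U Uz Uw : ℂ → ℂ → ℂ} (H : HP U Uz Uw) (h : ℂ) (hh : h ≠ 0) (p : ℂ × ℂ)
    (hp : U p.1 p.2 = h)
    (hacc : AccPt p (𝓟 {q : ℂ × ℂ | Uz q.1 q.2 = 0 ∧ Uw q.1 q.2 = 0})) :
    ∃ (r ρ : ℝ) (S : ℂ → ℂ), 0 < r ∧ 0 < ρ ∧ DifferentiableOn ℂ S (Metric.ball p.1 r) ∧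
      S p.1 = p.2 ∧ (∀ z ∈ Metric.ball p.1 r, (z, S z) ∈ NI U Uz Uw h) ∧
      ∀ q : ℂ × ℂ, Uz q.1 q.2 = 0 → q.1 ∈ Metric.ball p.1 r → q.2 ∈ Metric.ball p.2 ρ →
        q.2 = S q.1 := by
  have hcz : ContDiff ℂ ω (fun q : ℂ × ℂ => Uz q.1 q.2) :=
    contDiff_iff_contDiffAt.2 fun q =>
      (Pool.Agent.Helper327_Sch.OG.Osg16.osgood _ H.dUz q).contDiffAt
  have hcw : ContDiff ℂ ω (fun q : ℂ × ℂ => Uw q.1 q.2) :=
    contDiff_iff_contDiffAt.2 fun q =>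
      (Pool.Agent.Helper327_Sch.OG.Osg16.osgood _ H.dUw q).contDiffAt
  -- the point is critical
  have hclosed : IsClosed {q : ℂ × ℂ | Uz q.1 q.2 = 0 ∧ Uw q.1 q.2 = 0} :=
    (isClosed_eq hcz.continuous continuous_const).and (isClosed_eq hcw.continuous continuous_const)
  have hmem : p ∈ {q : ℂ × ℂ | Uz q.1 q.2 = 0 ∧ Uw q.1 q.2 = 0} := by
    rw [← hclosed.closure_eq, mem_closure_iff_clusterPt]
    exact hacc.clusterPt
  obtain ⟨hpz, hpw⟩ := hmem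
  -- the derivative
  have hd : (fderiv ℂ (fun q : ℂ × ℂ => Uz q.1 q.2) p) (0, 1) = -h := by
    have e1 : HasFDerivAt (fun q : ℂ × ℂ => Uz q.1 q.2)
        (fderiv ℂ (fun q : ℂ × ℂ => Uz q.1 q.2) p) (p.1, p.2) :=
      (hcz.differentiable (by simp) p).hasFDerivAt
    have e2 : HasDerivAt (fun w : ℂ => ((p.1, w) : ℂ × ℂ)) ((0, 1) : ℂ × ℂ) p.2 :=
      (hasDerivAt_const _ _).prodMk (hasDerivAt_id _)
    have e3 := HasFDerivAt.comp_hasDerivAt p.2 (f := fun w : ℂ => ((p.1, w) : ℂ × ℂ)) e1 e2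
    have e5 := e3.unique (H.zw p.1 p.2)
    rw [e5, hp]
  have hinv : (fderiv ℂ (fun q : ℂ × ℂ => Uz q.1 q.2) p ∘L .inr ℂ ℂ ℂ).IsInvertible := by
    refine ⟨ContinuousLinearEquiv.unitsEquivAut ℂ (Units.mk0 (-h) (neg_ne_zero.2 hh)), ?_⟩
    ext
    simp [hd]
  have hca : ContDiffAt ℂ ω (fun q : ℂ × ℂ => Uz q.1 q.2) p := hcz.contDiffAt
  set S : ℂ → ℂ := hca.implicitFunction (by simp) hinv with hS
  have hS0 : S p.1 = p.2 := hca.implicitFunction_apply_self (by simp) hinv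
  have hS1 : ∀ᶠ x in 𝓝 p.1, Uz x (S x) = 0 := by
    filter_upwards [hca.eventually_apply_implicitFunction (by simp) hinv] with x hx
    exact hx.trans hpz
  have hS2 := hca.eventually_apply_eq_iff_implicitFunction (by simp) hinv
  have hS3 : AnalyticAt ℂ S p.1 := by
    rw [← analyticWithinAt_univ, ← contDiffWithinAt_omega_iff_analyticWithinAt, contDiffWithinAt_univ]
    exact hca.contDiffAt_implicitFunction (by simp) hinv
  have hS4 : ∀ᶠ x in 𝓝 p.1, AnalyticAt ℂ S x := hS3.eventually_analyticAt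
  have hg : AnalyticAt ℂ (fun z => Uw z (S z)) p.1 := by
    rw [← analyticWithinAt_univ, ← contDiffWithinAt_omega_iff_analyticWithinAt, contDiffWithinAt_univ]
    exact (hcw.contDiffAt).comp (f := fun z : ℂ => ((z, S z) : ℂ × ℂ)) p.1
      (contDiffAt_id.prodMk hS3.contDiffAt)
  have hfr : ∃ᶠ z in 𝓝[≠] p.1, Uw z (S z) = 0 := by
    rw [frequently_nhdsWithin_iff]
    rw [accPt_iff_frequently] at hacc
    have h2 : ∃ᶠ q : ℂ × ℂ in 𝓝 p, Uw q.1 (S q.1) = 0 ∧ q.1 ∈ ({p.1}ᶜ : Set ℂ) := by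
      refine (hacc.and_eventually hS2).mono ?_
      rintro q ⟨⟨hq1, hq2, hq3⟩, hq4⟩
      have h3 : S q.1 = q.2 := hq4.1 (by rw [hq2, hpz])
      refine ⟨by rw [h3]; exact hq3, ?_⟩
      intro h4
      have h5 : q.1 = p.1 := h4
      apply hq1
      rw [h5, hS0] at h3
      exact Prod.ext h5 h3.symm
    exact (continuous_fst.tendsto p).frequently h2
  have hS5 : ∀ᶠ z in 𝓝 p.1, Uw z (S z) = 0 :=
    hg.frequently_zero_iff_eventually_zero.1 hfr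
  obtain ⟨r0, hr00, hr0⟩ := Metric.eventually_nhds_iff_ball.1 (hS1.and (hS4.and hS5))
  obtain ⟨ρ, hρ0, hρ⟩ := Metric.eventually_nhds_iff_ball.1 hS2
  have hr : ∀ z ∈ Metric.ball p.1 (min r0 ρ),
      Uz z (S z) = 0 ∧ AnalyticAt ℂ S z ∧ Uw z (S z) = 0 := fun z hz =>
    hr0 z (Metric.ball_subset_ball (min_le_left _ _) hz)
  obtain ⟨r, hrd⟩ : ∃ r, r = min r0 ρ := ⟨_, rfl⟩
  have hrpos : 0 < r := by rw [hrd]; exact lt_min hr00 hρ0
  rw [← hrd] at hr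
  have hdiff : DifferentiableOn ℂ S (Metric.ball p.1 r) := fun z hz =>
    (hr z hz).2.1.differentiableAt.differentiableWithinAt
  have hk : ∀ z ∈ Metric.ball p.1 r, HasDerivAt (fun z => U z (S z)) 0 z := by
    intro z hz
    have h3 := chain H.dU (H.z1 z (S z)) (H.w1 z (S z)) (hr z hz).2.1.differentiableAt.hasDerivAt
    rw [(hr z hz).1, (hr z hz).2.2] at h3
    simpa using h3
  have hcp : ∀ z ∈ Metric.ball p.1 r, (z, S z) ∈ CP U Uz Uw h := by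
    intro z hz
    refine ⟨?_, (hr z hz).1, (hr z hz).2.2⟩
    have h5 : U z (S z) = U p.1 (S p.1) :=
      Metric.isOpen_ball.is_const_of_deriv_eq_zero (convex_ball p.1 r).isPreconnected
        (f := fun z => U z (S z))
        (fun z hz => (hk z hz).differentiableAt.differentiableWithinAt)
        (fun z hz => (hk z hz).deriv) hz (Metric.mem_ball_self hrpos)
    rw [hS0, hp] at h5
    exact h5
  refine ⟨r, ρ, S, hrpos, hρ0, hdiff, hS0, fun z hz => ⟨hcp z hz, ?_⟩, ?_⟩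
  · rw [accPt_iff_frequently]
    have hct : Tendsto (fun z' : ℂ => ((z', S z') : ℂ × ℂ)) (𝓝 z) (𝓝 (z, S z)) :=
      (continuousAt_id.prodMk (hr z hz).2.1.continuousAt).tendsto
    have hfz : ∃ᶠ z' in 𝓝 z, z' ≠ z ∧ z' ∈ Metric.ball p.1 r := by
      have h1 : ∃ᶠ z' in 𝓝[≠] z, z' ∈ Metric.ball p.1 r :=
        (eventually_nhdsWithin_of_eventually_nhds
          (Metric.isOpen_ball.mem_nhds hz)).frequently
      rw [frequently_nhdsWithin_iff] at h1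
      exact h1.mono fun z' hz' => ⟨hz'.2, hz'.1⟩
    refine hct.frequently (hfz.mono ?_)
    rintro z' ⟨hne, hz'⟩
    exact ⟨fun he => hne (congrArg Prod.fst he), hcp z' hz'⟩
  · intro q hq hq1 hq2
    have hqb : q ∈ Metric.ball p ρ := by
      rw [← ball_prod_same]
      exact ⟨Metric.ball_subset_ball (by rw [hrd]; exact min_le_right _ _) hq1, hq2⟩
    exact ((hρ q hqb).1 (by rw [hq, hpz])).symm

theorem graph_deriv {U Uz Uw Uzz : ℂ → ℂ → ℂ} (H : HP U Uz Uw)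
    (hzz : ∀ z w, HasDerivAt (fun ζ => Uz ζ w) (Uzz z w) z) (h : ℂ) (hh : h ≠ 0) (z₀ : ℂ) (r : ℝ)
    (S : ℂ → ℂ) (hS : DifferentiableOn ℂ S (Metric.ball z₀ r))
    (hg : ∀ z ∈ Metric.ball z₀ r, (z, S z) ∈ CP U Uz Uw h) :
    ∀ z ∈ Metric.ball z₀ r, deriv S z = Uzz z (S z) / h := by
  intro z hz
  have h1 := chain H.dUz (hzz z (S z)) (H.zw z (S z))
    ((hS z hz).differentiableAt (Metric.isOpen_ball.mem_nhds hz)).hasDerivAt
  have h2 : HasDerivAt (fun t => Uz t (S t)) 0 z := by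
    have h3 : (fun t => Uz t (S t)) =ᶠ[𝓝 z] fun _ => 0 := by
      filter_upwards [Metric.isOpen_ball.mem_nhds hz] with t ht
      exact (hg t ht).2.1
    exact (hasDerivAt_const z (0 : ℂ)).congr_of_eventuallyEq h3
  have h4 := h1.unique h2
  have h5 : U z (S z) = h := (hg z hz).1
  rw [h5] at h4
  rw [eq_div_iff hh]
  linear_combination -h4

end Pool.Agent.Helper327_Sch.TF
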