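import Pool.Agent.Helper327_Sch.TDefs

/-!
Job TF10: a linear ODE along a segment.
-/

set_option autoImplicit false

open Complex Filter Topology Set
open scoped ComplexConjugate ContDiff

namespace Pool.Agent.Helper327_Sch.TF

theorem flow_of_deriv {n : ℕ} (e : Fin n → ℂ → ℂ) (he : ∀ k, Differentiable ℝ (e k))
    (D1 D2 : V n →L[ℂ] V n)
    (h1 : ∀ (v : V n) (x : ℂ), ∑ k, v k * fderiv ℝ (e k) x 1 = ∑ k, D1 v k * e k x)
    (h2 : ∀ (v : V n) (x : ℂ), ∑ k, v k * fderiv ℝ (e k) x Complex.I = ∑ k, D2 v k * e k x)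
    (v : V n) (x : ℂ) :
    ∑ k, v k * e k x =
      ∑ k, NormedSpace.exp ((x.re : ℂ) • D1 + (x.im : ℂ) • D2) v k * e k 0 := by
  set D : V n →L[ℂ] V n := (x.re : ℂ) • D1 + (x.im : ℂ) • D2 with hD
  let U : ℝ → (V n →L[ℂ] V n) := fun s => NormedSpace.exp (((1 - s : ℝ) : ℂ) • D)
  let φ : ℝ → ℂ := fun s => ∑ k, (U s) v k * e k ((s : ℂ) * x)
  have hU : ∀ s : ℝ, HasDerivAt U (-(D * U s)) s := by
    intro s
    have hA : HasDerivAt (fun t : ℂ => NormedSpace.exp (t • D))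
        (D * NormedSpace.exp (((1 - s : ℝ) : ℂ) • D)) ((1 - s : ℝ) : ℂ) :=
      hasDerivAt_exp_smul_const' D ((1 - s : ℝ) : ℂ)
    have hB : HasDerivAt (fun s : ℝ => ((1 - s : ℝ) : ℂ)) (-1) s := by
      have h3 : HasDerivAt (fun s : ℝ => (1 - s : ℝ)) (-1) s := by
        simpa using (hasDerivAt_id s).const_sub (1 : ℝ)
      simpa using h3.ofReal_comp
    have hC := HasDerivAt.scomp s hA hB
    have h4 : (-1 : ℂ) • (D * NormedSpace.exp (((1 - s : ℝ) : ℂ) • D)) = -(D * U s) := by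
      ext y j
      simp [U]
    rw [h4] at hC
    exact hC
  have hUk : ∀ (s : ℝ) (k : Fin n), HasDerivAt (fun s => (U s) v k) (-(D ((U s) v)) k) s := by
    intro s k
    let L : (V n →L[ℂ] V n) →L[ℂ] ℂ :=
      (ContinuousLinearMap.proj k).comp (ContinuousLinearMap.apply ℂ (V n) v)
    have h3 := (L.restrictScalars ℝ).hasFDerivAt.comp_hasDerivAt s (hU s)
    exact h3
  have hek : ∀ (s : ℝ) (k : Fin n), HasDerivAt (fun s : ℝ => e k ((s : ℂ) * x))
      ((x.re : ℂ) * fderiv ℝ (e k) ((s : ℂ) * x) 1 +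
        (x.im : ℂ) * fderiv ℝ (e k) ((s : ℂ) * x) Complex.I) s := by
    intro s k
    have hline : HasDerivAt (fun s : ℝ => (s : ℂ) * x) x s := by
      have h3 : HasDerivAt (fun s : ℝ => (s : ℂ)) 1 s := Complex.ofRealCLM.hasDerivAt
      simpa using h3.mul_const x
    have h3 := (he k ((s : ℂ) * x)).hasFDerivAt.comp_hasDerivAt s hline
    have h4 : fderiv ℝ (e k) ((s : ℂ) * x) x = (x.re : ℂ) * fderiv ℝ (e k) ((s : ℂ) * x) 1 +
        (x.im : ℂ) * fderiv ℝ (e k) ((s : ℂ) * x) Complex.I := by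
      have h5 : x = x.re • (1 : ℂ) + x.im • Complex.I := by
        apply Complex.ext <;> simp
      conv_lhs => rw [show fderiv ℝ (e k) ((s : ℂ) * x) x =
        fderiv ℝ (e k) ((s : ℂ) * x) (x.re • (1 : ℂ) + x.im • Complex.I) from
          congrArg (fderiv ℝ (e k) ((s : ℂ) * x)) h5]
      rw [map_add, map_smul, map_smul, Complex.real_smul, Complex.real_smul]
    rw [h4] at h3
    exact h3
  have hφ : ∀ s : ℝ, HasDerivAt φ 0 s := by
    intro s
    have h3 : HasDerivAt φ (∑ k, (-(D ((U s) v)) k * e k ((s : ℂ) * x) +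
        (U s) v k * ((x.re : ℂ) * fderiv ℝ (e k) ((s : ℂ) * x) 1 +
        (x.im : ℂ) * fderiv ℝ (e k) ((s : ℂ) * x) Complex.I))) s :=
      HasDerivAt.fun_sum fun k _ => (hUk s k).mul (hek s k)
    have h4 : (∑ k, (-(D ((U s) v)) k * e k ((s : ℂ) * x) +
        (U s) v k * ((x.re : ℂ) * fderiv ℝ (e k) ((s : ℂ) * x) 1 +
        (x.im : ℂ) * fderiv ℝ (e k) ((s : ℂ) * x) Complex.I))) = 0 := by
      have h5 := h1 ((U s) v) ((s : ℂ) * x)
      have h6 := h2 ((U s) v) ((s : ℂ) * x)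
      have h7 : ∀ k, (D ((U s) v)) k = (x.re : ℂ) * D1 ((U s) v) k + (x.im : ℂ) * D2 ((U s) v) k := by
        intro k
        simp [hD]
      calc (∑ k, (-(D ((U s) v)) k * e k ((s : ℂ) * x) +
          (U s) v k * ((x.re : ℂ) * fderiv ℝ (e k) ((s : ℂ) * x) 1 +
          (x.im : ℂ) * fderiv ℝ (e k) ((s : ℂ) * x) Complex.I)))
          = -((x.re : ℂ) * ∑ k, D1 ((U s) v) k * e k ((s : ℂ) * x) +
            (x.im : ℂ) * ∑ k, D2 ((U s) v) k * e k ((s : ℂ) * x)) +
            ((x.re : ℂ) * ∑ k, (U s) v k * fderiv ℝ (e k) ((s : ℂ) * x) 1 +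
            (x.im : ℂ) * ∑ k, (U s) v k * fderiv ℝ (e k) ((s : ℂ) * x) Complex.I) := by
            simp only [Finset.mul_sum]
            rw [← Finset.sum_add_distrib, ← Finset.sum_neg_distrib, ← Finset.sum_add_distrib,
              ← Finset.sum_add_distrib]
            apply Finset.sum_congr rfl
            intro k _
            rw [h7 k]
            ring
        _ = 0 := by rw [h5, h6]; ring
    rw [h4] at h3
    exact h3
  have hconst : φ 1 = φ 0 := by
    apply is_const_of_deriv_eq_zero (𝕜 := ℝ) (fun s => (hφ s).differentiableAt)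
    intro s
    exact (hφ s).deriv
  have e1 : φ 1 = ∑ k, v k * e k x := by
    have hz : NormedSpace.exp (((1 - (1 : ℝ) : ℝ) : ℂ) • D) = 1 := by
      have hz0 : (((1 - (1 : ℝ) : ℝ) : ℂ) • D) = 0 := by
        ext y j
        simp
      rw [hz0, NormedSpace.exp_zero]
    simp only [φ, U]
    rw [hz]
    apply Finset.sum_congr rfl
    intro k _
    simp
  have e0 : φ 0 = ∑ k, NormedSpace.exp D v k * e k 0 := by
    simp only [φ, U]
    apply Finset.sum_congr rfl
    intro k _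
    simp
  rw [← e1, ← e0, hconst]

end Pool.Agent.Helper327_Sch.TF
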