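import Pool.Agent.Helper327_Sch.TDefs

set_option autoImplicit false

open Complex Filter Topology Set
open scoped ComplexConjugate ContDiff

namespace Pool.Agent.Helper327_Sch.TF

theorem TF9.trans_mem (F : ℂ → ℝ) (hF : ContDiff ℝ ∞ F)
    (W : Submodule ℂ (ℂ → ℂ)) (hW : W = Submodule.span ℂ (Set.range fun p : ℂ =>
      fun x : ℂ => (F (x + p) : ℂ))) (g : ℂ → ℂ) (hg : g ∈ W) :
    ContDiff ℝ ∞ g ∧ (∀ p : ℂ, (fun x => g (x + p)) ∈ W) := by
  subst hW
  induction hg using Submodule.span_induction with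
  | mem g h =>
    obtain ⟨q, rfl⟩ := h
    constructor
    · have h1 : ContDiff ℝ ∞ (fun x : ℂ => F (x + q)) := hF.comp (contDiff_id.add contDiff_const)
      exact Complex.ofRealCLM.contDiff.comp h1
    · intro p
      apply Submodule.subset_span
      refine ⟨p + q, ?_⟩
      funext x
      simp only [add_assoc]
  | zero =>
    refine ⟨contDiff_const, fun p => ?_⟩
    exact Submodule.zero_mem _
  | add f g _ _ hf hg =>
    refine ⟨hf.1.add hg.1, fun p => ?_⟩
    exact Submodule.add_mem _ (hf.2 p) (hg.2 p)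
  | smul c f _ hf =>
    refine ⟨?_, fun p => ?_⟩
    · have : ContDiff ℝ ∞ (fun x => c * f x) := contDiff_const.mul hf.1
      exact this
    · exact Submodule.smul_mem _ c (hf.2 p)

theorem deriv_mem (F : ℂ → ℝ) (hF : ContDiff ℝ ∞ F) (v : ℂ)
    (W : Submodule ℂ (ℂ → ℂ)) (hW : W = Submodule.span ℂ (Set.range fun p : ℂ =>
      fun x : ℂ => (F (x + p) : ℂ))) (hfin : FiniteDimensional ℂ W) (g : ℂ → ℂ) (hg : g ∈ W) :
    ContDiff ℝ ∞ g ∧ (∀ p : ℂ, (fun x => g (x + p)) ∈ W) ∧ (fun x => fderiv ℝ g x v) ∈ W := by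
  obtain ⟨h1, h2⟩ := TF9.trans_mem F hF W hW g hg
  refine ⟨h1, h2, ?_⟩
  have hcl : IsClosed (W : Set (ℂ → ℂ)) := Submodule.closed_of_finiteDimensional W
  have hlim : Tendsto (fun c : ℝ => fun x : ℂ => c • (g (x + c⁻¹ • v) - g x)) atTop
      (𝓝 (fun x => fderiv ℝ g x v)) := by
    rw [tendsto_pi_nhds]
    intro x
    have hd : HasFDerivAt g (fderiv ℝ g x) x :=
      ((h1.differentiable (by simp)) x).hasFDerivAt
    exact hd.lim_real v
  refine hcl.mem_of_tendsto hlim (Filter.Eventually.of_forall fun c => ?_)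
  have h3 : (fun x : ℂ => c • (g (x + c⁻¹ • v) - g x)) =
      (c : ℂ) • ((fun x => g (x + c⁻¹ • v)) - g) := by
    funext x
    simp only [Pi.smul_apply, Pi.sub_apply, Complex.real_smul, smul_eq_mul]
  show (fun x : ℂ => c • (g (x + c⁻¹ • v) - g x)) ∈ W
  rw [h3]
  exact W.smul_mem _ (W.sub_mem (h2 _) hg)

end Pool.Agent.Helper327_Sch.TF
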