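import Pool.Agent.Helper327_Sch.TDefs
import Pool.Agent.Helper327_Sch.Fin.TF10
import Pool.Agent.Helper327_Sch.Fin.TF9

set_option autoImplicit false

open Complex Filter Topology Set
open scoped ComplexConjugate ContDiff

namespace Pool.Agent.Helper327_Sch.TF

/-- the complex span of the translates -/
noncomputable def TF11.W (F : ℂ → ℝ) : Submodule ℂ (ℂ → ℂ) :=
  Submodule.span ℂ (Set.range fun p : ℂ => fun x : ℂ => (F (x + p) : ℂ))

theorem TF11.fin (F : ℂ → ℝ) (hT : TransFin F) : FiniteDimensional ℂ (TF11.W F) := by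
  unfold TransFin at hT
  obtain ⟨S, hS⟩ := (Submodule.fg_iff_finiteDimensional _).2 hT
  let ι : (ℂ → ℝ) →ₗ[ℝ] (ℂ → ℂ) :=
    { toFun := fun g x => (g x : ℂ)
      map_add' := fun g h => by
        funext x
        simp
      map_smul' := fun c g => by
        funext x
        simp }
  have hfin : FiniteDimensional ℂ (Submodule.span ℂ (ι '' (S : Set (ℂ → ℝ)))) :=
    FiniteDimensional.span_of_finite ℂ (S.finite_toSet.image ι)
  have hle : TF11.W F ≤ Submodule.span ℂ (ι '' (S : Set (ℂ → ℝ))) := by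
    unfold TF11.W
    rw [Submodule.span_le]
    rintro _ ⟨p, rfl⟩
    have h1 : (fun x : ℂ => F (x + p)) ∈ Submodule.span ℝ (S : Set (ℂ → ℝ)) := by
      rw [hS]
      exact Submodule.subset_span ⟨p, rfl⟩
    have h2 : ι (fun x : ℂ => F (x + p)) ∈ Submodule.span ℝ (ι '' (S : Set (ℂ → ℝ))) := by
      rw [Submodule.span_image]
      exact Submodule.mem_map_of_mem h1
    exact Submodule.span_subset_span ℝ ℂ _ h2
  exact Submodule.finiteDimensional_of_le hle

theorem TF11.snd {E : Type*} [NormedAddCommGroup E] [NormedSpace ℝ E] (g : ℂ → E)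
    (hg : ContDiff ℝ ∞ g) (x v w : ℂ) :
    fderiv ℝ (fun y => fderiv ℝ g y v) x w = fderiv ℝ (fderiv ℝ g) x w v := by
  have h1 : ContDiff ℝ ∞ (fderiv ℝ g) := hg.fderiv_right (le_refl _)
  have h2 : HasFDerivAt (fderiv ℝ g) (fderiv ℝ (fderiv ℝ g) x) x :=
    ((h1.differentiable (by simp)) x).hasFDerivAt
  have h3 := ((ContinuousLinearMap.apply ℝ E v).hasFDerivAt (x := fderiv ℝ g x)).comp x h2
  have h4 : HasFDerivAt (fun y => fderiv ℝ g y v)
      ((ContinuousLinearMap.apply ℝ E v).comp (fderiv ℝ (fderiv ℝ g) x)) x := h3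
  rw [h4.fderiv]
  rfl

theorem TF11.symm (g : ℂ → ℂ) (hg : ContDiff ℝ ∞ g) (x v w : ℂ) :
    fderiv ℝ (fun y => fderiv ℝ g y v) x w = fderiv ℝ (fun y => fderiv ℝ g y w) x v := by
  rw [TF11.snd g hg, TF11.snd g hg]
  have h : IsSymmSndFDerivAt ℝ g x := hg.contDiffAt.isSymmSndFDerivAt (by
    rw [minSmoothness_of_isRCLikeNormedField]
    exact WithTop.coe_le_coe.2 (le_top : (2 : ℕ∞) ≤ ⊤))
  exact h w v

/-- the derivative in the direction `v` on the space -/
noncomputable def TF11.D (F : ℂ → ℝ) (hF : ContDiff ℝ ∞ F) (hfin : FiniteDimensional ℂ (TF11.W F))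
    (v : ℂ) : TF11.W F →ₗ[ℂ] TF11.W F where
  toFun g := ⟨fun x => fderiv ℝ (g : ℂ → ℂ) x v,
    (deriv_mem F hF v (TF11.W F) rfl hfin g g.2).2.2⟩
  map_add' g h := by
    apply Subtype.ext
    funext x
    have hg := ((deriv_mem F hF v (TF11.W F) rfl hfin g g.2).1.differentiable (by simp)) x
    have hh := ((deriv_mem F hF v (TF11.W F) rfl hfin h h.2).1.differentiable (by simp)) x
    show fderiv ℝ ((g : ℂ → ℂ) + (h : ℂ → ℂ)) x v = fderiv ℝ (g : ℂ → ℂ) x v + fderiv ℝ (h : ℂ → ℂ) x v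
    rw [fderiv_add hg hh]
    rfl
  map_smul' c g := by
    apply Subtype.ext
    funext x
    have hg := ((deriv_mem F hF v (TF11.W F) rfl hfin g g.2).1.differentiable (by simp)) x
    show fderiv ℝ (c • (g : ℂ → ℂ)) x v = c • fderiv ℝ (g : ℂ → ℂ) x v
    rw [fderiv_const_smul hg c]
    rfl

theorem TF11.D_apply (F : ℂ → ℝ) (hF : ContDiff ℝ ∞ F) (hfin : FiniteDimensional ℂ (TF11.W F))
    (v : ℂ) (g : TF11.W F) (x : ℂ) :
    ((TF11.D F hF hfin v g : TF11.W F) : ℂ → ℂ) x = fderiv ℝ (g : ℂ → ℂ) x v := rfl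

theorem TF11.D_comm (F : ℂ → ℝ) (hF : ContDiff ℝ ∞ F) (hfin : FiniteDimensional ℂ (TF11.W F))
    (v w : ℂ) (g : TF11.W F) :
    TF11.D F hF hfin v (TF11.D F hF hfin w g) = TF11.D F hF hfin w (TF11.D F hF hfin v g) := by
  apply Subtype.ext
  funext x
  show fderiv ℝ (fun y => fderiv ℝ (g : ℂ → ℂ) y w) x v =
    fderiv ℝ (fun y => fderiv ℝ (g : ℂ → ℂ) y v) x w
  exact TF11.symm g (deriv_mem F hF v (TF11.W F) rfl hfin g g.2).1 x w v

theorem TF11.gen (F : ℂ → ℝ) (hF : ContDiff ℝ ∞ F) (p v x : ℂ) :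
    fderiv ℝ (fun x : ℂ => (F (x + p) : ℂ)) x v = ((fderiv ℝ F (x + p) v : ℝ) : ℂ) := by
  have h1 : HasFDerivAt F (fderiv ℝ F (x + p)) (x + p) :=
    ((hF.differentiable (by simp)) (x + p)).hasFDerivAt
  have h2 : HasFDerivAt (fun x : ℂ => x + p) (ContinuousLinearMap.id ℝ ℂ) x :=
    (hasFDerivAt_id x).add_const p
  have h3 := h1.comp x h2
  have h4 := (Complex.ofRealCLM.hasFDerivAt (x := F (x + p))).comp x h3
  have h5 : HasFDerivAt (fun x : ℂ => (F (x + p) : ℂ))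
      (Complex.ofRealCLM.comp ((fderiv ℝ F (x + p)).comp (ContinuousLinearMap.id ℝ ℂ))) x := h4
  rw [h5.fderiv]
  rfl

theorem TF11.gen2 (F : ℂ → ℝ) (hF : ContDiff ℝ ∞ F) (p v x : ℂ) :
    fderiv ℝ (fun y => fderiv ℝ (fun x : ℂ => (F (x + p) : ℂ)) y v) x v =
      ((fderiv ℝ (fun y => fderiv ℝ F y v) (x + p) v : ℝ) : ℂ) := by
  have h1 : (fun y => fderiv ℝ (fun x : ℂ => (F (x + p) : ℂ)) y v) =
      fun y => (((fun z => fderiv ℝ F z v) (y + p) : ℝ) : ℂ) := by
    funext y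
    exact TF11.gen F hF p v y
  rw [h1]
  have h2 : ContDiff ℝ ∞ (fun z => fderiv ℝ F z v) :=
    (hF.fderiv_right (le_refl _)).clm_apply contDiff_const
  exact TF11.gen (fun z => fderiv ℝ F z v) h2 p v x

theorem TF11.lapW (F : ℂ → ℝ) (hF : ContDiff ℝ ∞ F) (hfin : FiniteDimensional ℂ (TF11.W F))
    (lam : ℝ) (hH : ∀ x, lap F x = -(lam * F x)) (g : TF11.W F) :
    TF11.D F hF hfin 1 (TF11.D F hF hfin 1 g) + TF11.D F hF hfin I (TF11.D F hF hfin I g) +
      (lam : ℂ) • g = 0 := by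
  obtain ⟨g, hg⟩ := g
  set L : TF11.W F →ₗ[ℂ] TF11.W F := TF11.D F hF hfin 1 ∘ₗ TF11.D F hF hfin 1 +
    TF11.D F hF hfin I ∘ₗ TF11.D F hF hfin I + (lam : ℂ) • LinearMap.id with hL
  suffices h : ∀ (g : ℂ → ℂ) (hg : g ∈ TF11.W F), L ⟨g, hg⟩ = 0 from h g hg
  intro g hg
  refine Submodule.span_induction (p := fun g hg => L ⟨g, hg⟩ = 0) ?_ ?_ ?_ ?_ hg
  · rintro _ ⟨p, rfl⟩
    apply Subtype.ext
    funext x
    have h1 := TF11.gen2 F hF p 1 x
    have h2 := TF11.gen2 F hF p I x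
    have h3 := hH (x + p)
    unfold lap at h3
    show fderiv ℝ (fun y => fderiv ℝ (fun x : ℂ => (F (x + p) : ℂ)) y 1) x 1 +
      fderiv ℝ (fun y => fderiv ℝ (fun x : ℂ => (F (x + p) : ℂ)) y I) x I +
      (lam : ℂ) * (F (x + p) : ℂ) = 0
    rw [h1, h2, ← Complex.ofReal_add, h3]
    push_cast
    ring
  · exact L.map_zero
  · intro x y hx hy h1 h2
    show L (⟨x, hx⟩ + ⟨y, hy⟩) = 0
    rw [L.map_add, h1, h2, add_zero]
  · intro c x hx h1
    show L (c • ⟨x, hx⟩) = 0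
    rw [L.map_smul, h1, smul_zero]

theorem TF11.alg {n : ℕ} (P Q : V n →L[ℂ] V n) (t lam : ℂ) (ht : t ≠ 0) (htt : t * t = lam)
    (hPQ : P * Q = Q * P) (hLap : P * P + Q * Q = -(lam • (1 : V n →L[ℂ] V n))) :
    ((1 / t) • (P - I • Q)) * ((1 / t) • (P + I • Q)) = -1 ∧
    ((1 / t) • (P + I • Q)) * ((1 / t) • (P - I • Q)) = -1 := by
  have h2 : 1 / t * (1 / t) * lam = 1 := by
    rw [← htt]
    field_simp
  have hpq : ∀ v, P (Q v) = Q (P v) := fun v => DFunLike.congr_fun hPQ v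
  have hl : ∀ v, P (P v) + Q (Q v) = -(lam • v) := fun v => DFunLike.congr_fun hLap v
  constructor
  · ext v : 1
    have e1 : (((1 / t) • (P - I • Q)) * ((1 / t) • (P + I • Q))) v =
        (1 / t) • (P ((1 / t) • (P v + I • Q v)) - I • Q ((1 / t) • (P v + I • Q v))) := rfl
    rw [e1]
    have e2 : (1 / t) • (P ((1 / t) • (P v + I • Q v)) - I • Q ((1 / t) • (P v + I • Q v))) =
        (1 / t * (1 / t)) • (P (P v) + Q (Q v)) := by
      rw [map_smul, map_smul, map_add, map_add, map_smul, map_smul, hpq]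
      funext k
      simp only [Pi.smul_apply, Pi.add_apply, Pi.sub_apply, smul_eq_mul]
      linear_combination (-(1 / t * (1 / t)) * Q (Q v) k) * I_mul_I
    rw [e2, hl, smul_neg, smul_smul, h2, one_smul]
    rfl
  · ext v : 1
    have e1 : (((1 / t) • (P + I • Q)) * ((1 / t) • (P - I • Q))) v =
        (1 / t) • (P ((1 / t) • (P v - I • Q v)) + I • Q ((1 / t) • (P v - I • Q v))) := rfl
    rw [e1]
    have e2 : (1 / t) • (P ((1 / t) • (P v - I • Q v)) + I • Q ((1 / t) • (P v - I • Q v))) =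
        (1 / t * (1 / t)) • (P (P v) + Q (Q v)) := by
      rw [map_smul, map_smul, map_sub, map_sub, map_smul, map_smul, hpq]
      funext k
      simp only [Pi.smul_apply, Pi.add_apply, Pi.sub_apply, smul_eq_mul]
      linear_combination (-(1 / t * (1 / t)) * Q (Q v) k) * I_mul_I
    rw [e2, hl, smul_neg, smul_smul, h2, one_smul]
    rfl

theorem TF11.comm {n : ℕ} (A B : V n →L[ℂ] V n) (a b : ℂ) (h : ∀ v, A (B v) = B (A v)) :
    Commute (a • A) (b • B) := by
  show (a • A) * (b • B) = (b • B) * (a • A)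
  ext v : 1
  show a • A (b • B v) = b • B (a • A v)
  rw [map_smul, map_smul, smul_smul, smul_smul, h, mul_comm]

theorem TF11.expadd {n : ℕ} (A B : V n →L[ℂ] V n) (h : Commute A B) :
    NormedSpace.exp (A + B) = NormedSpace.exp A * NormedSpace.exp B := by
  let _ : NormedAlgebra ℚ (V n →L[ℂ] V n) := NormedAlgebra.restrictScalars ℚ ℂ (V n →L[ℂ] V n)
  exact NormedSpace.exp_add_of_commute h

theorem rep (F : ℂ → ℝ) (hF : ContDiff ℝ ∞ F) (hT : TransFin F) (lam : ℝ) (hlam : 0 < lam)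
    (hH : ∀ x, lap F x = -(lam * F x)) :
    ∃ (n : ℕ) (A B : V n →L[ℂ] V n) (ε : V n →L[ℂ] ℂ) (y : V n), A * B = -1 ∧ B * A = -1 ∧
      Obs A B ε ∧ ∀ x : ℂ, (F x : ℂ) =
        fU A B ε y ((Real.sqrt lam / 2 : ℝ) * x) ((Real.sqrt lam / 2 : ℝ) * conj x) := by
  have hfin := TF11.fin F hT
  set n := Module.finrank ℂ (TF11.W F) with hn
  let b : Module.Basis (Fin n) ℂ (TF11.W F) := Module.finBasis ℂ (TF11.W F)
  let φ : TF11.W F ≃ₗ[ℂ] (Fin n → ℂ) := b.equivFun
  let e : Fin n → ℂ → ℂ := fun k => (b k : ℂ → ℂ)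
  have hval : ∀ (v : V n) (x : ℂ), ∑ k, v k * e k x = ((φ.symm v : TF11.W F) : ℂ → ℂ) x := by
    intro v x
    have h1 : φ.symm v = ∑ k, v k • b k := b.equivFun_symm_apply v
    rw [h1, Submodule.coe_sum, Finset.sum_apply]
    rfl
  let Dv : ℂ → (V n →L[ℂ] V n) := fun d =>
    LinearMap.toContinuousLinearMap (φ.toLinearMap ∘ₗ TF11.D F hF hfin d ∘ₗ φ.symm.toLinearMap)
  have hDv : ∀ (d : ℂ) (v : V n), Dv d v = φ (TF11.D F hF hfin d (φ.symm v)) := fun d v => rfl
  have he : ∀ k, Differentiable ℝ (e k) := fun k =>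
    (deriv_mem F hF 1 (TF11.W F) rfl hfin (b k) (b k).2).1.differentiable (by simp)
  have hder : ∀ (d : ℂ) (v : V n) (x : ℂ),
      ∑ k, v k * fderiv ℝ (e k) x d = ∑ k, Dv d v k * e k x := by
    intro d v x
    rw [hval (Dv d v) x, hDv, φ.symm_apply_apply]
    have h1 : φ.symm v = ∑ k, v k • b k := b.equivFun_symm_apply v
    rw [h1, map_sum, Submodule.coe_sum, Finset.sum_apply]
    refine Finset.sum_congr rfl fun k _ => ?_
    rw [map_smul]
    rfl
  set P : V n →L[ℂ] V n := Dv 1 with hP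
  set Q : V n →L[ℂ] V n := Dv I with hQ
  have hflow := flow_of_deriv e he P Q (hder 1) (hder I)
  have hPQ : P * Q = Q * P := by
    ext v : 1
    show Dv 1 (Dv I v) = Dv I (Dv 1 v)
    rw [hDv, hDv, hDv, hDv, φ.symm_apply_apply, φ.symm_apply_apply, TF11.D_comm]
  have hLap : P * P + Q * Q = -((lam : ℂ) • (1 : V n →L[ℂ] V n)) := by
    ext v : 1
    show Dv 1 (Dv 1 v) + Dv I (Dv I v) = -((lam : ℂ) • v)
    rw [hDv, hDv, hDv, hDv, φ.symm_apply_apply, φ.symm_apply_apply, ← map_add]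
    have h1 := TF11.lapW F hF hfin lam hH (φ.symm v)
    have h2 := eq_neg_of_add_eq_zero_left h1
    rw [h2, map_neg, map_smul, φ.apply_symm_apply]
  set t : ℝ := Real.sqrt lam with ht
  have ht0 : 0 < t := Real.sqrt_pos.2 hlam
  have htt : t * t = lam := Real.mul_self_sqrt hlam.le
  have htc : (t : ℂ) ≠ 0 := by exact_mod_cast ht0.ne'
  have httc : (t : ℂ) * t = lam := by exact_mod_cast htt
  set A : V n →L[ℂ] V n := (1 / (t : ℂ)) • (P - I • Q) with hA
  set B : V n →L[ℂ] V n := (1 / (t : ℂ)) • (P + I • Q) with hB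
  obtain ⟨hAB, hBA⟩ := TF11.alg P Q t lam htc httc hPQ hLap
  rw [← hA, ← hB] at hAB hBA
  let ε : V n →L[ℂ] ℂ := LinearMap.toContinuousLinearMap
    ((LinearMap.proj (R := ℂ) (φ := fun _ : ℂ => ℂ) (0 : ℂ)) ∘ₗ (TF11.W F).subtype ∘ₗ
      φ.symm.toLinearMap)
  have hε : ∀ v : V n, ε v = ((φ.symm v : TF11.W F) : ℂ → ℂ) 0 := fun v => rfl
  have hmain : ∀ (v : V n) (x : ℂ), ((φ.symm v : TF11.W F) : ℂ → ℂ) x =
      fU A B ε v ((t / 2 : ℝ) * x) ((t / 2 : ℝ) * conj x) := by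
    intro v x
    have h1 := hflow v x
    rw [hval, hval, ← hε] at h1
    rw [h1]
    unfold fU T
    congr 2
    have hcomm : Commute ((((t / 2 : ℝ) : ℂ) * x) • A) ((((t / 2 : ℝ) : ℂ) * conj x) • B) := by
      apply TF11.comm
      intro v
      have h8 : (A * B) v = (B * A) v := by rw [hAB, hBA]
      exact h8
    rw [← TF11.expadd _ _ hcomm]
    congr 1
    rw [hA, hB, smul_smul, smul_smul, smul_sub, smul_add, smul_smul, smul_smul]
    have c1 : (((t / 2 : ℝ) : ℂ) * x * (1 / (t : ℂ))) = x / 2 := by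
      push_cast
      field_simp
    have c2 : (((t / 2 : ℝ) : ℂ) * conj x * (1 / (t : ℂ))) = conj x / 2 := by
      push_cast
      field_simp
    rw [c1, c2]
    have c3 : x / 2 + conj x / 2 = (x.re : ℂ) := by
      have := Complex.add_conj x
      push_cast at this
      linear_combination (1 / 2) * this
    have c4 : conj x / 2 * I - x / 2 * I = (x.im : ℂ) := by
      have h3 := Complex.sub_conj x
      push_cast at h3
      linear_combination (-(I / 2)) * h3 - (x.im : ℂ) * I_mul_I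
    rw [← c3, ← c4]
    ext v k
    show (x / 2 + conj x / 2) * P v k + (conj x / 2 * I - x / 2 * I) * Q v k =
      ((x / 2) * P v k - (x / 2 * I) * Q v k) + ((conj x / 2) * P v k + (conj x / 2 * I) * Q v k)
    ring
  refine ⟨n, A, B, ε, φ ⟨fun x => (F x : ℂ), Submodule.subset_span ⟨0, by simp⟩⟩, hAB, hBA, ?_, ?_⟩
  · intro v hv
    have h1 : φ.symm v = 0 := by
      apply Subtype.ext
      funext x
      rw [hmain v x, hv]
      rfl
    have h2 := congrArg φ h1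
    rwa [φ.apply_symm_apply, map_zero] at h2
  · intro x
    rw [← hmain, φ.symm_apply_apply]

end Pool.Agent.Helper327_Sch.TF
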