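import Pool.Agent.Helper327_Sch.TDefs

set_option autoImplicit false

open Complex Filter Topology Set
open scoped ComplexConjugate ContDiff

namespace Pool.Agent.Helper327_Sch.TF

namespace TF2

/-- the order of a zero: bounds for the function and its derivative -/
theorem order_bounds {f f' : ℂ → ℂ} (hd : ∀ z, HasDerivAt f (f' z) z) (h0 : f 0 = 0)
    (hne : ∃ z, f z ≠ 0) :
    ∃ (m : ℕ) (c C δ : ℝ), 1 ≤ m ∧ 0 < c ∧ 0 < C ∧ 0 < δ ∧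
      ∀ z : ℂ, ‖z‖ ≤ δ → ‖f z‖ ≤ C * ‖z‖ ^ m ∧ c * ‖z‖ ^ (m - 1) ≤ ‖f' z‖ := by
  have hdiff : Differentiable ℂ f := fun z => (hd z).differentiableAt
  have han : AnalyticAt ℂ f 0 := hdiff.analyticAt 0
  have hnz : ¬ ∀ᶠ z in 𝓝 (0 : ℂ), f z = 0 := by
    intro hz
    obtain ⟨z, hz1⟩ := hne
    have hon : AnalyticOnNhd ℂ f univ := fun z _ => hdiff.analyticAt z
    have := hon.eqOn_zero_of_preconnected_of_eventuallyEq_zero isPreconnected_univ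
      (mem_univ (0 : ℂ)) hz
    exact hz1 (this (mem_univ z))
  obtain ⟨m, g, hg, hg0, hfg⟩ := han.exists_eventuallyEq_pow_smul_nonzero_iff.2 hnz
  simp only [sub_zero, smul_eq_mul] at hfg
  have hm : 1 ≤ m := by
    rw [Nat.one_le_iff_ne_zero]
    rintro rfl
    have := hfg.self_of_nhds
    rw [h0, pow_zero, one_mul] at this
    exact hg0 this.symm
  have hγ : 0 < ‖g 0‖ := norm_pos_iff.2 hg0
  -- the derivative
  have hfd : ∀ᶠ z in 𝓝 (0 : ℂ), f' z = (m : ℂ) * z ^ (m - 1) * g z + z ^ m * deriv g z := by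
    filter_upwards [hfg.eventually_nhds, hg.eventually_analyticAt] with z h1 h2
    have h3 : HasDerivAt (fun z => z ^ m * g z) ((m : ℂ) * z ^ (m - 1) * g z + z ^ m * deriv g z) z :=
      (hasDerivAt_pow m z).mul h2.differentiableAt.hasDerivAt
    have h4 : HasDerivAt f ((m : ℂ) * z ^ (m - 1) * g z + z ^ m * deriv g z) z :=
      h3.congr_of_eventuallyEq h1
    exact (hd z).unique h4
  have hc1 : ∀ᶠ z in 𝓝 (0 : ℂ), ‖g z‖ < 2 * ‖g 0‖ := by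
    have : ContinuousAt (fun z => ‖g z‖) 0 := hg.continuousAt.norm
    exact this.eventually_lt continuousAt_const (by linarith)
  have hc2 : ∀ᶠ z in 𝓝 (0 : ℂ), ‖g 0‖ / 2 < (m : ℝ) * ‖g z‖ - ‖z‖ * ‖deriv g z‖ := by
    have hc : ContinuousAt (fun z => (m : ℝ) * ‖g z‖ - ‖z‖ * ‖deriv g z‖) 0 :=
      (continuousAt_const.mul hg.continuousAt.norm).sub
        (continuous_norm.continuousAt.mul hg.deriv.continuousAt.norm)
    refine continuousAt_const.eventually_lt hc ?_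
    have h5 : (1 : ℝ) ≤ m := by exact_mod_cast hm
    simp only [norm_zero, zero_mul, sub_zero]
    nlinarith
  obtain ⟨δ, hδ, hball⟩ := Metric.eventually_nhds_iff_ball.1 ((hfg.and hfd).and (hc1.and hc2))
  refine ⟨m, ‖g 0‖ / 2, 2 * ‖g 0‖, δ / 2, hm, by positivity, by positivity, by positivity, ?_⟩
  intro z hz
  obtain ⟨⟨e1, e2⟩, e3, e4⟩ := hball z (by rw [Metric.mem_ball, dist_zero_right]; linarith)
  constructor
  · rw [e1, norm_mul, norm_pow, mul_comm]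
    exact mul_le_mul_of_nonneg_right e3.le (by positivity)
  · obtain ⟨k, rfl⟩ : ∃ k, m = k + 1 := ⟨m - 1, by omega⟩
    rw [Nat.add_sub_cancel] at e2 ⊢
    have e5 : f' z = z ^ k * (((k + 1 : ℕ) : ℂ) * g z + z * deriv g z) := by
      rw [e2]; ring
    rw [e5, norm_mul, norm_pow, mul_comm]
    refine mul_le_mul_of_nonneg_left ?_ (by positivity)
    have e6 : ‖((k + 1 : ℕ) : ℂ) * g z‖ - ‖z * deriv g z‖ ≤ ‖((k + 1 : ℕ) : ℂ) * g z + z * deriv g z‖ := by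
      have := norm_sub_norm_le (((k + 1 : ℕ) : ℂ) * g z) (-(z * deriv g z))
      rw [norm_neg, sub_neg_eq_add] at this
      exact this
    rw [norm_mul, norm_mul, Complex.norm_natCast] at e6
    linarith

theorem norm_le_of_segment {z ζ : ℂ} (h : ζ ∈ segment ℝ (0 : ℂ) z) : ‖ζ‖ ≤ ‖z‖ := by
  have := (convexOn_univ_norm (E := ℂ)).le_on_segment (mem_univ 0) (mem_univ z) h
  simpa using this

theorem seg_compact (z : ℂ) : IsCompact (segment ℝ (0 : ℂ) z) := by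
  rw [segment_eq_image_lineMap]
  exact isCompact_Icc.image AffineMap.lineMap_continuous

theorem seg_sub {z ζ : ℂ} (h : ζ ∈ segment ℝ (0 : ℂ) z) :
    segment ℝ (0 : ℂ) ζ ⊆ segment ℝ (0 : ℂ) z :=
  (convex_segment (0 : ℂ) z).segment_subset (left_mem_segment ℝ 0 z) h

theorem local_bound {U Uz Uw : ℂ → ℂ → ℂ} (H : HP U Uz Uw) (h0 : U 0 0 = 0) (z w : ℂ) :
    ∃ M : ℝ, 0 ≤ M ∧ ‖Uz z w - Uz z 0‖ ≤ M * ‖w‖ ∧ ‖Uw z w - Uw 0 w‖ ≤ M * ‖z‖ ∧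
      ∃ z' w' : ℂ, ‖z'‖ ≤ ‖z‖ ∧ ‖w'‖ ≤ ‖w‖ ∧ M ≤ ‖U z' 0‖ + ‖U 0 w'‖ + M * ‖w‖ * ‖z‖ := by
  have hcz : IsCompact (segment ℝ (0 : ℂ) z) := seg_compact _
  have hcw : IsCompact (segment ℝ (0 : ℂ) w) := seg_compact _
  obtain ⟨⟨z0, w0⟩, hp0, hmax⟩ := (hcz.prod hcw).exists_isMaxOn
    ⟨(0, 0), left_mem_segment ℝ 0 z, left_mem_segment ℝ 0 w⟩
    (H.dU.continuous.norm.continuousOn)
  have hz0 : z0 ∈ segment ℝ (0 : ℂ) z := hp0.1
  have hw0 : w0 ∈ segment ℝ (0 : ℂ) w := hp0.2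
  set M : ℝ := ‖U z0 w0‖ with hM
  have hle : ∀ ζ ∈ segment ℝ (0 : ℂ) z, ∀ v ∈ segment ℝ (0 : ℂ) w, ‖U ζ v‖ ≤ M := by
    intro ζ hζ v hv
    exact hmax (show ((ζ, v) : ℂ × ℂ) ∈ segment ℝ (0 : ℂ) z ×ˢ segment ℝ (0 : ℂ) w from ⟨hζ, hv⟩)
  have hA : ∀ ζ ∈ segment ℝ (0 : ℂ) z, ∀ v ∈ segment ℝ (0 : ℂ) w,
      ‖Uz ζ v - Uz ζ 0‖ ≤ M * ‖v‖ := by
    intro ζ hζ v hv
    have := (convex_segment (0 : ℂ) w).norm_image_sub_le_of_norm_hasDerivWithin_le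
      (f := fun v => Uz ζ v) (f' := fun v => -U ζ v) (C := M)
      (fun x _ => (H.zw ζ x).hasDerivWithinAt)
      (fun x hx => by rw [norm_neg]; exact hle ζ hζ x hx) (left_mem_segment ℝ 0 w) hv
    simpa using this
  have hB : ‖Uw z w - Uw 0 w‖ ≤ M * ‖z‖ := by
    have := (convex_segment (0 : ℂ) z).norm_image_sub_le_of_norm_hasDerivWithin_le
      (f := fun ζ => Uw ζ w) (f' := fun ζ => -U ζ w) (C := M)
      (fun x _ => (H.wz x w).hasDerivWithinAt)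
      (fun x hx => by rw [norm_neg]; exact hle x hx w (right_mem_segment ℝ 0 w))
      (left_mem_segment ℝ 0 z) (right_mem_segment ℝ 0 z)
    simpa using this
  refine ⟨M, norm_nonneg _, hA z (right_mem_segment ℝ 0 z) w (right_mem_segment ℝ 0 w), hB,
    z0, w0, norm_le_of_segment hz0, norm_le_of_segment hw0, ?_⟩
  have hC := (convex_segment (0 : ℂ) z0).norm_image_sub_le_of_norm_hasDerivWithin_le
      (f := fun ζ => U ζ w0 - U ζ 0) (f' := fun ζ => Uz ζ w0 - Uz ζ 0) (C := M * ‖w‖)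
      (fun x _ => ((H.z1 x w0).sub (H.z1 x 0)).hasDerivWithinAt)
      (fun x hx => (hA x (seg_sub hz0 hx) w0 hw0).trans
        (mul_le_mul_of_nonneg_left (norm_le_of_segment hw0) (norm_nonneg _)))
      (left_mem_segment ℝ 0 z0) (right_mem_segment ℝ 0 z0)
  simp only [h0, sub_zero] at hC
  have h1 : ‖U z0 w0‖ ≤ ‖U z0 0‖ + ‖U 0 w0‖ + ‖U z0 w0 - U z0 0 - U 0 w0‖ := by
    have : U z0 w0 = U z0 0 + U 0 w0 + (U z0 w0 - U z0 0 - U 0 w0) := by ring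
    calc ‖U z0 w0‖ = ‖U z0 0 + U 0 w0 + (U z0 w0 - U z0 0 - U 0 w0)‖ := by rw [← this]
      _ ≤ ‖U z0 0 + U 0 w0‖ + ‖U z0 w0 - U z0 0 - U 0 w0‖ := norm_add_le _ _
      _ ≤ _ := by gcongr; exact norm_add_le _ _
  have h2 : M * ‖w‖ * ‖z0‖ ≤ M * ‖w‖ * ‖z‖ :=
    mul_le_mul_of_nonneg_left (norm_le_of_segment hz0) (by positivity)
  calc M ≤ ‖U z0 0‖ + ‖U 0 w0‖ + ‖U z0 w0 - U z0 0 - U 0 w0‖ := h1
    _ ≤ ‖U z0 0‖ + ‖U 0 w0‖ + M * ‖w‖ * ‖z‖ := by linarith [hC.trans h2]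

/-- the numerical part -/
theorem num {a b c C δ M : ℝ} {m l : ℕ} (ha : 0 ≤ a) (hb : 0 ≤ b) (had : a ≤ δ) (hbd : b ≤ δ)
    (hc : 0 < c) (hC : 0 < C) (hδ : 0 < δ) (hδ1 : δ ≤ 1 / 2) (hδ2 : 4 * C * δ ≤ c)
    (hm : 1 ≤ m) (hl : 1 ≤ l) (hM0 : 0 ≤ M) (hM : M ≤ C * a ^ m + C * b ^ l + M * b * a)
    (h1 : c * a ^ (m - 1) ≤ M * b) (h2 : c * b ^ (l - 1) ≤ M * a) : a = 0 ∧ b = 0 := by
  obtain ⟨p, rfl⟩ : ∃ p, m = p + 1 := ⟨m - 1, by omega⟩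
  obtain ⟨q, rfl⟩ : ∃ q, l = q + 1 := ⟨l - 1, by omega⟩
  rw [Nat.add_sub_cancel] at h1 h2
  have hab : b * a ≤ δ * δ := mul_le_mul hbd had ha hδ.le
  have hM2 : M ≤ 2 * C * (a ^ (p + 1) + b ^ (q + 1)) := by
    have : M * (b * a) ≤ M * (1 / 4) := mul_le_mul_of_nonneg_left (by nlinarith) hM0
    have h5 : 0 ≤ C * a ^ (p + 1) := by positivity
    have h6 : 0 ≤ C * b ^ (q + 1) := by positivity
    nlinarith
  have hP : 0 ≤ a ^ p := by positivity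
  have hQ : 0 ≤ b ^ q := by positivity
  -- `(c / 2) a ^ p ≤ 2 C b ^ (q + 2)`
  have k1 : c / 2 * a ^ p ≤ 2 * C * (b ^ 2 * b ^ q) := by
    have e1 : M * b ≤ 2 * C * (a ^ (p + 1) + b ^ (q + 1)) * b := mul_le_mul_of_nonneg_right hM2 hb
    have e2 : 2 * C * (a ^ (p + 1) + b ^ (q + 1)) * b =
        (2 * C * (a * b)) * a ^ p + 2 * C * (b ^ 2 * b ^ q) := by ring
    have e3 : 2 * C * (a * b) ≤ c / 2 := by
      have : a * b ≤ δ * (1 / 2) := by nlinarith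
      nlinarith
    have e4 : (2 * C * (a * b)) * a ^ p ≤ c / 2 * a ^ p := mul_le_mul_of_nonneg_right e3 hP
    linarith
  have k2 : c / 2 * b ^ q ≤ 2 * C * (a ^ 2 * a ^ p) := by
    have e1 : M * a ≤ 2 * C * (a ^ (p + 1) + b ^ (q + 1)) * a := mul_le_mul_of_nonneg_right hM2 ha
    have e2 : 2 * C * (a ^ (p + 1) + b ^ (q + 1)) * a =
        (2 * C * (a * b)) * b ^ q + 2 * C * (a ^ 2 * a ^ p) := by ring
    have e3 : 2 * C * (a * b) ≤ c / 2 := by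
      have : a * b ≤ δ * (1 / 2) := by nlinarith
      nlinarith
    have e4 : (2 * C * (a * b)) * b ^ q ≤ c / 2 * b ^ q := mul_le_mul_of_nonneg_right e3 hQ
    linarith
  have ha2 : 2 * C * a ^ 2 ≤ c / 4 := by
    have : a ^ 2 ≤ δ * (1 / 2) := by nlinarith
    nlinarith
  have hb2 : 2 * C * b ^ 2 ≤ c / 4 := by
    have : b ^ 2 ≤ δ * (1 / 2) := by nlinarith
    nlinarith
  have k3 : c / 2 * b ^ q ≤ c / 4 * a ^ p := by
    calc c / 2 * b ^ q ≤ 2 * C * (a ^ 2 * a ^ p) := k2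
      _ = (2 * C * a ^ 2) * a ^ p := by ring
      _ ≤ c / 4 * a ^ p := mul_le_mul_of_nonneg_right ha2 hP
  have k4 : c / 2 * a ^ p ≤ c / 4 * b ^ q := by
    calc c / 2 * a ^ p ≤ 2 * C * (b ^ 2 * b ^ q) := k1
      _ = (2 * C * b ^ 2) * b ^ q := by ring
      _ ≤ c / 4 * b ^ q := mul_le_mul_of_nonneg_right hb2 hQ
  have k5 : a ^ p = 0 := by nlinarith
  have k6 : b ^ q = 0 := by nlinarith
  exact ⟨eq_zero_of_pow_eq_zero k5, eq_zero_of_pow_eq_zero k6⟩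

end TF2

theorem isolated {U Uz Uw : ℂ → ℂ → ℂ} (H : HP U Uz Uw) (h0 : U 0 0 = 0)
    (ha : ∃ z, U z 0 ≠ 0) (hb : ∃ w, U 0 w ≠ 0) :
    ¬ AccPt ((0 : ℂ), (0 : ℂ)) (𝓟 {q : ℂ × ℂ | Uz q.1 q.2 = 0 ∧ Uw q.1 q.2 = 0}) := by
  obtain ⟨m, c1, C1, δ1, hm, hc1, hC1, hδ1, hα⟩ :=
    TF2.order_bounds (f := fun z => U z 0) (fun z => H.z1 z 0) h0 ha
  obtain ⟨l, c2, C2, δ2, hl, hc2, hC2, hδ2, hβ⟩ :=
    TF2.order_bounds (f := fun w => U 0 w) (fun w => H.w1 0 w) h0 hb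
  set c : ℝ := min c1 c2 with hc
  set C : ℝ := max C1 C2 with hC
  have hcp : 0 < c := lt_min hc1 hc2
  have hCp : 0 < C := lt_max_of_lt_left hC1
  set δ : ℝ := min (min δ1 δ2) (min (1 / 2) (c / (4 * C))) with hδ
  have hδp : 0 < δ := by positivity
  have hd1 : δ ≤ δ1 := (min_le_left _ _).trans (min_le_left _ _)
  have hd2 : δ ≤ δ2 := (min_le_left _ _).trans (min_le_right _ _)
  have hd3 : δ ≤ 1 / 2 := (min_le_right _ _).trans (min_le_left _ _)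
  have hd4 : 4 * C * δ ≤ c := by
    have : δ ≤ c / (4 * C) := (min_le_right _ _).trans (min_le_right _ _)
    rw [le_div_iff₀ (by positivity)] at this
    linarith
  rw [accPt_iff_frequently, not_frequently]
  filter_upwards [Metric.ball_mem_nhds ((0 : ℂ), (0 : ℂ)) hδp]
  rintro ⟨z, w⟩ hzw ⟨hne, h1, h2⟩
  simp only at h1 h2
  rw [Metric.mem_ball, Prod.dist_eq, max_lt_iff, dist_zero_right, dist_zero_right] at hzw
  obtain ⟨hz, hw⟩ := hzw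
  simp only at hz hw
  obtain ⟨M, hM0, hM1, hM2, z', w', hz', hw', hM⟩ := TF2.local_bound H h0 z w
  rw [h1, zero_sub, norm_neg] at hM1
  rw [h2, zero_sub, norm_neg] at hM2
  have a1 := (hα z (hz.le.trans hd1)).2
  have b1 := (hβ w (hw.le.trans hd2)).2
  have a2 : ‖U z' 0‖ ≤ C * ‖z‖ ^ m :=
    ((hα z' ((hz'.trans hz.le).trans hd1)).1).trans (by
      have : ‖z'‖ ^ m ≤ ‖z‖ ^ m := pow_le_pow_left₀ (norm_nonneg _) hz' _
      exact mul_le_mul (le_max_left _ _) this (by positivity) hCp.le)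
  have b2 : ‖U 0 w'‖ ≤ C * ‖w‖ ^ l :=
    ((hβ w' ((hw'.trans hw.le).trans hd2)).1).trans (by
      have : ‖w'‖ ^ l ≤ ‖w‖ ^ l := pow_le_pow_left₀ (norm_nonneg _) hw' _
      exact mul_le_mul (le_max_right _ _) this (by positivity) hCp.le)
  have a3 : c * ‖z‖ ^ (m - 1) ≤ M * ‖w‖ :=
    ((mul_le_mul_of_nonneg_right (min_le_left _ _) (by positivity)).trans a1).trans hM1
  have b3 : c * ‖w‖ ^ (l - 1) ≤ M * ‖z‖ :=
    ((mul_le_mul_of_nonneg_right (min_le_right _ _) (by positivity)).trans b1).trans hM2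
  obtain ⟨e1, e2⟩ := TF2.num (norm_nonneg z) (norm_nonneg w) hz.le hw.le hcp hCp hδp hd3 hd4 hm hl
    hM0 (by linarith) a3 b3
  exact hne (Prod.ext (norm_eq_zero.1 e1) (norm_eq_zero.1 e2))

end Pool.Agent.Helper327_Sch.TF
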