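import Pool.Agent.Helper327_Sch.TDefs

set_option autoImplicit false

open Complex Filter Topology Set
open scoped ComplexConjugate ContDiff

namespace Pool.Agent.Helper327_Sch.TF

namespace TF5

variable {n : ℕ}

lemma comm_of {A B : V n →L[ℂ] V n} (hAB : A * B = -1) (hBA : B * A = -1) : Commute A B := by
  unfold Commute SemiconjBy
  rw [hAB, hBA]

lemma comm_smul {A B : V n →L[ℂ] V n} (h : Commute A B) (z w : ℂ) : Commute (z • A) (w • B) := by
  unfold Commute SemiconjBy
  refine ContinuousLinearMap.ext fun v => ?_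
  have h' : A (B v) = B (A v) := congrArg (fun L : V n →L[ℂ] V n => L v) h.eq
  change z • A (w • B v) = w • B (z • A v)
  rw [map_smul, map_smul, h', smul_comm]

lemma comm_smul_right {A B : V n →L[ℂ] V n} (h : Commute A B) (w : ℂ) : Commute A (w • B) := by
  unfold Commute SemiconjBy
  refine ContinuousLinearMap.ext fun v => ?_
  have h' : A (B v) = B (A v) := congrArg (fun L : V n →L[ℂ] V n => L v) h.eq
  change A (w • B v) = w • B (A v)
  rw [map_smul, h']

lemma exp_add_smul (A : V n →L[ℂ] V n) (z z' : ℂ) :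
    NormedSpace.exp ((z + z') • A) = NormedSpace.exp (z • A) * NormedSpace.exp (z' • A) := by
  let _ : NormedAlgebra ℚ (V n →L[ℂ] V n) := NormedAlgebra.restrictScalars ℚ ℂ (V n →L[ℂ] V n)
  have h : (z + z') • A = z • A + z' • A := add_smul z z' A
  rw [h]
  exact NormedSpace.exp_add_of_commute (comm_smul (Commute.refl A) z z')

lemma exp_zero_smul (A : V n →L[ℂ] V n) : NormedSpace.exp ((0 : ℂ) • A) = 1 := by
  have h : (0 : ℂ) • A = 0 := zero_smul ℂ A
  rw [h, NormedSpace.exp_zero]

lemma exp_comm {A B : V n →L[ℂ] V n} (h : Commute A B) (z w : ℂ) :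
    Commute (NormedSpace.exp (z • A)) (NormedSpace.exp (w • B)) :=
  ((comm_smul h z w).exp_left).exp_right

lemma dT_z (A B : V n →L[ℂ] V n) (z w : ℂ) :
    HasDerivAt (fun ζ => T A B ζ w) (A * T A B z w) z := by
  have h := (hasDerivAt_exp_smul_const' (𝕂 := ℂ) A z).mul_const (NormedSpace.exp (w • B))
  unfold T
  rw [← mul_assoc]
  exact h

lemma dT_w {A B : V n →L[ℂ] V n} (hc : Commute A B) (z w : ℂ) :
    HasDerivAt (fun v => T A B z v) (B * T A B z w) w := by
  have h := (hasDerivAt_exp_smul_const' (𝕂 := ℂ) B w).const_mul (NormedSpace.exp (z • A))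
  have hBz : B * NormedSpace.exp (z • A) = NormedSpace.exp (z • A) * B :=
    ((comm_smul_right hc.symm z).exp_right).eq
  unfold T
  rw [← mul_assoc, hBz, mul_assoc]
  exact h

lemma d_app (ε : V n →L[ℂ] ℂ) (D : V n →L[ℂ] V n) (y : V n) {f : ℂ → (V n →L[ℂ] V n)}
    {f' : V n →L[ℂ] V n} {z : ℂ} (h : HasDerivAt f f' z) :
    HasDerivAt (fun ζ => ε (D (f ζ y))) (ε (D (f' y))) z := by
  have h1 := ((ε.comp D).comp (ContinuousLinearMap.apply ℂ (V n) y)).hasFDerivAt.comp_hasDerivAt z h
  exact h1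

lemma d_app' (ε : V n →L[ℂ] ℂ) (y : V n) {f : ℂ → (V n →L[ℂ] V n)}
    {f' : V n →L[ℂ] V n} {z : ℂ} (h : HasDerivAt f f' z) :
    HasDerivAt (fun ζ => ε (f ζ y)) (ε (f' y)) z := by
  have h1 := (ε.comp (ContinuousLinearMap.apply ℂ (V n) y)).hasFDerivAt.comp_hasDerivAt z h
  exact h1

lemma exp_diff (A : V n →L[ℂ] V n) : Differentiable ℂ (fun z : ℂ => NormedSpace.exp (z • A)) :=
  fun z => (hasDerivAt_exp_smul_const' (𝕂 := ℂ) A z).differentiableAt

lemma T_diff (A B : V n →L[ℂ] V n) : Differentiable ℂ (fun p : ℂ × ℂ => T A B p.1 p.2) := by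
  unfold T
  exact ((exp_diff A).comp differentiable_fst).mul ((exp_diff B).comp differentiable_snd)

lemma app_diff (ε : V n →L[ℂ] ℂ) (D : V n →L[ℂ] V n) (y : V n) {f : ℂ × ℂ → (V n →L[ℂ] V n)}
    (h : Differentiable ℂ f) : Differentiable ℂ (fun p => ε (D (f p y))) := by
  have h1 := (((ε.comp D).comp (ContinuousLinearMap.apply ℂ (V n) y)).differentiable).comp h
  exact h1

/-- the vectors on which the functional vanishes along the flow of `A` -/
noncomputable def K (A : V n →L[ℂ] V n) (ε : V n →L[ℂ] ℂ) : Submodule ℂ (V n) where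
  carrier := {v | ∀ z : ℂ, ε (NormedSpace.exp (z • A) v) = 0}
  add_mem' := by
    intro a b ha hb z
    rw [map_add, map_add, ha z, hb z, add_zero]
  zero_mem' := by
    intro z
    rw [map_zero, map_zero]
  smul_mem' := by
    intro c v hv z
    rw [map_smul, map_smul, hv z, smul_zero]

lemma mem_K {A : V n →L[ℂ] V n} {ε : V n →L[ℂ] ℂ} {v : V n} :
    v ∈ K A ε ↔ ∀ z : ℂ, ε (NormedSpace.exp (z • A) v) = 0 := Iff.rfl

lemma K_inv {A : V n →L[ℂ] V n} {ε : V n →L[ℂ] ℂ} {v : V n} (hv : v ∈ K A ε) : A v ∈ K A ε := by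
  rw [mem_K]
  intro z
  have h1 := d_app' ε v (hasDerivAt_exp_smul_const (𝕂 := ℂ) A z)
  have h2 : (fun ζ : ℂ => ε (NormedSpace.exp (ζ • A) v)) = fun _ => 0 := by
    funext ζ
    exact hv ζ
  rw [h2] at h1
  have h3 := h1.unique (hasDerivAt_const z (0 : ℂ))
  exact h3

lemma K_inv' {A B : V n →L[ℂ] V n} {ε : V n →L[ℂ] ℂ} (hBA : B * A = -1) {v : V n}
    (hv : v ∈ K A ε) : B v ∈ K A ε := by
  have hinj : Function.Injective A := by
    intro a b hab
    have h1 : (B * A) a = (B * A) b := by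
      change B (A a) = B (A b)
      rw [hab]
    rw [hBA] at h1
    have h2 : -a = -b := h1
    exact neg_injective h2
  let f : K A ε →ₗ[ℂ] K A ε := (A : V n →ₗ[ℂ] V n).restrict (fun v hv => K_inv hv)
  have hf : Function.Injective f := by
    intro a b hab
    have h1 : A (a : V n) = A (b : V n) := congrArg Subtype.val hab
    exact Subtype.ext (hinj h1)
  have hs : Function.Surjective f := LinearMap.injective_iff_surjective.mp hf
  obtain ⟨u, hu⟩ := hs ⟨v, hv⟩
  have h1 : A (u : V n) = v := congrArg Subtype.val hu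
  have h2 : B v = -(u : V n) := by
    rw [← h1]
    have h3 : (B * A) (u : V n) = (-1 : V n →L[ℂ] V n) u := by rw [hBA]
    exact h3
  rw [h2]
  exact (K A ε).neg_mem u.2

lemma K_exp {A B : V n →L[ℂ] V n} {ε : V n →L[ℂ] ℂ} (hBA : B * A = -1) {v : V n}
    (hv : v ∈ K A ε) (w : ℂ) : NormedSpace.exp (w • B) v ∈ K A ε := by
  have hpow : ∀ k : ℕ, ((w • B) ^ k) v ∈ K A ε := by
    intro k
    induction k with
    | zero => simpa using hv
    | succ k ih =>
      rw [pow_succ']
      have : ((w • B) * (w • B) ^ k) v = w • B (((w • B) ^ k) v) := rfl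
      rw [this]
      exact (K A ε).smul_mem w (K_inv' hBA ih)
  have hsum := NormedSpace.exp_series_hasSum_exp' (𝕂 := ℂ) (w • B)
  have hsum2 := hsum.mapL (ContinuousLinearMap.apply ℂ (V n) v)
  have hcl : IsClosed ((K A ε : Submodule ℂ (V n)) : Set (V n)) := Submodule.closed_of_finiteDimensional _
  have h3 : NormedSpace.exp (w • B) v = (ContinuousLinearMap.apply ℂ (V n) v) (NormedSpace.exp (w • B)) := rfl
  rw [h3]
  refine hcl.mem_of_tendsto hsum2 (Filter.Eventually.of_forall fun s => ?_)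
  refine Submodule.sum_mem _ fun k _ => ?_
  have h4 : (ContinuousLinearMap.apply ℂ (V n) v) (((k.factorial : ℂ))⁻¹ • (w • B) ^ k)
      = ((k.factorial : ℂ))⁻¹ • ((w • B) ^ k) v := rfl
  rw [h4]
  exact (K A ε).smul_mem _ (hpow k)

end TF5

section flow

variable {n : ℕ} (A B : V n →L[ℂ] V n) (ε : V n →L[ℂ] ℂ)

theorem flow_HP (hAB : A * B = -1) (hBA : B * A = -1) (y : V n) :
    HP (fU A B ε y) (fUz A B ε y) (fUw A B ε y) where
  dU := by
    have h := TF5.app_diff ε 1 y (TF5.T_diff A B)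
    exact h
  dUz := TF5.app_diff ε A y (TF5.T_diff A B)
  dUw := TF5.app_diff ε B y (TF5.T_diff A B)
  z1 := fun z w => TF5.d_app' ε y (TF5.dT_z A B z w)
  w1 := fun z w => TF5.d_app' ε y (TF5.dT_w (TF5.comm_of hAB hBA) z w)
  zw := fun z w => by
    have h := TF5.d_app ε A y (TF5.dT_w (TF5.comm_of hAB hBA) z w)
    have h2 : ε (A ((B * T A B z w) y)) = -fU A B ε y z w := by
      have h3 : A ((B * T A B z w) y) = (A * B) (T A B z w y) := rfl
      rw [h3, hAB]
      have h4 : (-1 : V n →L[ℂ] V n) (T A B z w y) = -(T A B z w y) := rfl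
      rw [h4, map_neg]
      rfl
    rw [h2] at h
    exact h
  wz := fun z w => by
    have h := TF5.d_app ε B y (TF5.dT_z A B z w)
    have h2 : ε (B ((A * T A B z w) y)) = -fU A B ε y z w := by
      have h3 : B ((A * T A B z w) y) = (B * A) (T A B z w y) := rfl
      rw [h3, hBA]
      have h4 : (-1 : V n →L[ℂ] V n) (T A B z w y) = -(T A B z w y) := rfl
      rw [h4, map_neg]
      rfl
    rw [h2] at h
    exact h

theorem flow_zz (y : V n) (z w : ℂ) :
    HasDerivAt (fun ζ => fUz A B ε y ζ w) (fUzz A B ε y z w) z :=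
  TF5.d_app ε A y (TF5.dT_z A B z w)

theorem flow_add (hAB : A * B = -1) (hBA : B * A = -1) (z w z' w' : ℂ) :
    T A B (z + z') (w + w') = T A B z w * T A B z' w' := by
  have hc := (TF5.exp_comm (TF5.comm_of hAB hBA) z' w).eq
  unfold T
  rw [TF5.exp_add_smul, TF5.exp_add_smul]
  calc NormedSpace.exp (z • A) * NormedSpace.exp (z' • A) * (NormedSpace.exp (w • B) * NormedSpace.exp (w' • B))
      = NormedSpace.exp (z • A) * (NormedSpace.exp (z' • A) * NormedSpace.exp (w • B)) * NormedSpace.exp (w' • B) := by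
        simp only [mul_assoc]
    _ = NormedSpace.exp (z • A) * (NormedSpace.exp (w • B) * NormedSpace.exp (z' • A)) * NormedSpace.exp (w' • B) := by
        rw [hc]
    _ = _ := by simp only [mul_assoc]

theorem flow_zero : T A B 0 0 = 1 := by
  unfold T
  rw [TF5.exp_zero_smul, TF5.exp_zero_smul, mul_one]

theorem flow_cont : Continuous (fun q : ℂ × ℂ => T A B q.1 q.2) :=
  (TF5.T_diff A B).continuous

theorem flow_obs (hAB : A * B = -1) (hBA : B * A = -1) (hobs : Obs A B ε) (y : V n) (hy : y ≠ 0) :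
    (∃ z, fU A B ε y z 0 ≠ 0) ∧ ∃ w, fU A B ε y 0 w ≠ 0 := by
  constructor
  · by_contra hcon
    push Not at hcon
    apply hy
    apply hobs
    have hyK : y ∈ TF5.K A ε := by
      intro z
      have h := hcon z
      unfold fU T at h
      rw [TF5.exp_zero_smul, mul_one] at h
      exact h
    intro z w
    exact (TF5.K_exp hBA hyK w) z
  · by_contra hcon
    push Not at hcon
    apply hy
    apply hobs
    have hyK : y ∈ TF5.K B ε := by
      intro w
      have h := hcon w
      unfold fU T at h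
      rw [TF5.exp_zero_smul, one_mul] at h
      exact h
    intro z w
    have h1 := (TF5.K_exp hAB hyK z) w
    have hc := (TF5.exp_comm (TF5.comm_of hAB hBA) z w).eq
    unfold fU T
    rw [hc]
    exact h1

end flow

end Pool.Agent.Helper327_Sch.TF
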