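import Pool.Agent.Helper327_Sch.TDefs

/-!
A closed curve with bounded slope is an entire graph.
-/

set_option autoImplicit false

open Complex Filter Topology Set
open scoped ComplexConjugate ContDiff

namespace Pool.Agent.Helper327_Sch.TF

namespace TF4

/-- `N` is locally a holomorphic graph at each of its points -/
def Locg (N : Set (ℂ × ℂ)) : Prop := ∀ p ∈ N, ∃ (r ρ : ℝ) (S : ℂ → ℂ), 0 < r ∧ 0 < ρ ∧
      DifferentiableOn ℂ S (Metric.ball p.1 r) ∧ S p.1 = p.2 ∧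
      (∀ z ∈ Metric.ball p.1 r, (z, S z) ∈ N) ∧
      ∀ q ∈ N, q.1 ∈ Metric.ball p.1 r → q.2 ∈ Metric.ball p.2 ρ → q.2 = S q.1

/-- `S` is a holomorphic branch of `N` over `U` -/
def Br (N : Set (ℂ × ℂ)) (U : Set ℂ) (S : ℂ → ℂ) : Prop :=
  DifferentiableOn ℂ S U ∧ ∀ z ∈ U, (z, S z) ∈ N

theorem Br.mono {N : Set (ℂ × ℂ)} {U V : Set ℂ} {S : ℂ → ℂ} (h : Br N U S) (hVU : V ⊆ U) :
    Br N V S := ⟨h.1.mono hVU, fun z hz => h.2 z (hVU hz)⟩

theorem uniq {N : Set (ℂ × ℂ)} (hg : Locg N) {U : Set ℂ} (hU : IsOpen U) (hUc : IsPreconnected U)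
    {S S' : ℂ → ℂ} (h : Br N U S) (h' : Br N U S') {w : ℂ} (hw : w ∈ U) (e : S w = S' w) :
    ∀ z ∈ U, S z = S' z := by
  obtain ⟨r, ρ, T, hr, hρ, -, -, -, hloc⟩ := hg (w, S w) (h.2 w hw)
  have hA : AnalyticOnNhd ℂ S U := h.1.analyticOnNhd hU
  have hA' : AnalyticOnNhd ℂ S' U := h'.1.analyticOnNhd hU
  refine hA.eqOn_of_preconnected_of_eventuallyEq hA' hUc hw ?_
  have c1 : ∀ᶠ z in 𝓝 w, S z ∈ Metric.ball (S w) ρ :=
    (hA w hw).continuousAt.eventually_mem (Metric.ball_mem_nhds _ hρ)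
  have c2 : ∀ᶠ z in 𝓝 w, S' z ∈ Metric.ball (S w) ρ := by
    rw [e]
    exact (hA' w hw).continuousAt.eventually_mem (Metric.ball_mem_nhds _ hρ)
  have c3 : ∀ᶠ z in 𝓝 w, z ∈ Metric.ball w r := Metric.ball_mem_nhds _ hr
  have c4 : ∀ᶠ z in 𝓝 w, z ∈ U := hU.mem_nhds hw
  filter_upwards [c1, c2, c3, c4] with z h1 h2 h3 h4
  exact (hloc (z, S z) (h.2 z h4) h3 h1).trans (hloc (z, S' z) (h'.2 z h4) h3 h2).symm

theorem glue {N : Set (ℂ × ℂ)} {ι : Type} (U : ι → Set ℂ) (hU : ∀ i, IsOpen (U i))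
    (S : ι → ℂ → ℂ) (hS : ∀ i, Br N (U i) (S i))
    (hc : ∀ i j, ∀ z ∈ U i, z ∈ U j → S i z = S j z) :
    ∃ T : ℂ → ℂ, Br N (⋃ i, U i) T ∧ ∀ i, ∀ z ∈ U i, T z = S i z := by
  classical
  let T : ℂ → ℂ := fun z => if h : ∃ i, z ∈ U i then S h.choose z else 0
  have hT : ∀ i, ∀ z ∈ U i, T z = S i z := by
    intro i z hz
    have h : ∃ i, z ∈ U i := ⟨i, hz⟩
    simp only [T, dif_pos h]
    exact hc _ _ z h.choose_spec hz
  refine ⟨T, ⟨?_, ?_⟩, hT⟩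
  · intro z hz
    obtain ⟨i, hi⟩ := mem_iUnion.mp hz
    have h1 : DifferentiableAt ℂ (S i) z := ((hS i).1 z hi).differentiableAt ((hU i).mem_nhds hi)
    have h2 : T =ᶠ[𝓝 z] S i := by
      filter_upwards [(hU i).mem_nhds hi] with y hy using hT i y hy
    exact (h2.differentiableAt_iff.mpr h1).differentiableWithinAt
  · intro z hz
    obtain ⟨i, hi⟩ := mem_iUnion.mp hz
    rw [hT i z hi]
    exact (hS i).2 z hi

theorem ext_step {N : Set (ℂ × ℂ)} (hg : Locg N) (c : ℂ) (R r₀ : ℝ) (hR : 0 < R) (hr : 0 < r₀)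
    (S : ℂ → ℂ) (hS : Br N (Metric.ball c R) S)
    (h : ∀ w ∈ Metric.ball c R, ∃ S' : ℂ → ℂ, Br N (Metric.ball w r₀) S' ∧ S' w = S w) :
    ∃ T : ℂ → ℂ, Br N (Metric.ball c (R + r₀)) T ∧ T c = S c := by
  choose! F hF using h
  -- the extensions agree with `S`
  have h1 : ∀ w ∈ Metric.ball c R, ∀ z ∈ Metric.ball w r₀ ∩ Metric.ball c R, F w z = S z := by
    intro w hw
    refine uniq hg (Metric.isOpen_ball.inter Metric.isOpen_ball)
      (((convex_ball w r₀).inter (convex_ball c R)).isPreconnected)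
      ((hF w hw).1.mono inter_subset_left) (hS.mono inter_subset_right)
      ⟨Metric.mem_ball_self hr, hw⟩ (hF w hw).2
  -- compatibility
  have h2 : ∀ w ∈ Metric.ball c R, ∀ w' ∈ Metric.ball c R,
      ∀ z ∈ Metric.ball w r₀ ∩ Metric.ball w' r₀, F w z = F w' z := by
    intro w hw w' hw' z hz
    have hd : dist w w' < 2 * r₀ := by
      have h3 := dist_triangle w z w'
      have h4 := Metric.mem_ball'.mp hz.1
      have h5 := Metric.mem_ball.mp hz.2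
      linarith
    have hm1 : midpoint ℝ w w' ∈ Metric.ball w r₀ := by
      rw [Metric.mem_ball, dist_midpoint_left]
      simp only [Real.norm_ofNat]
      linarith
    have hm2 : midpoint ℝ w w' ∈ Metric.ball w' r₀ := by
      rw [Metric.mem_ball, dist_midpoint_right]
      simp only [Real.norm_ofNat]
      linarith
    have hm3 : midpoint ℝ w w' ∈ Metric.ball c R := (convex_ball c R).midpoint_mem hw hw'
    refine uniq hg (Metric.isOpen_ball.inter Metric.isOpen_ball)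
      (((convex_ball w r₀).inter (convex_ball w' r₀)).isPreconnected)
      ((hF w hw).1.mono inter_subset_left) ((hF w' hw').1.mono inter_subset_right)
      (w := midpoint ℝ w w') ⟨hm1, hm2⟩ ?_ z hz
    rw [h1 w hw _ ⟨hm1, hm3⟩, h1 w' hw' _ ⟨hm2, hm3⟩]
  obtain ⟨T, hT, hT'⟩ := glue (N := N) (ι := Metric.ball c R) (fun w => Metric.ball w.1 r₀)
    (fun _ => Metric.isOpen_ball) (fun w => F w.1) (fun w => (hF w.1 w.2).1)
    (fun w w' z hz hz' => h2 w.1 w.2 w'.1 w'.2 z ⟨hz, hz'⟩)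
  refine ⟨T, hT.mono ?_, ?_⟩
  · intro z hz
    rw [add_comm, ← thickening_ball hr hR] at hz
    obtain ⟨w, hw, hzw⟩ := Metric.mem_thickening_iff.mp hz
    exact mem_iUnion.mpr ⟨⟨w, hw⟩, hzw⟩
  · have hcR : c ∈ Metric.ball c R := Metric.mem_ball_self hR
    rw [hT' ⟨c, hcR⟩ c (Metric.mem_ball_self hr)]
    exact (hF c hcR).2

theorem unif {N : Set (ℂ × ℂ)} (hg : Locg N) (K : Set (ℂ × ℂ)) (hK : IsCompact K) (hKN : K ⊆ N) :
    ∃ r₀ : ℝ, 0 < r₀ ∧ ∀ q ∈ K, ∃ S' : ℂ → ℂ, Br N (Metric.ball q.1 r₀) S' ∧ S' q.1 = q.2 := by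
  have hmain : ∃ r₀ : ℝ, 0 < r₀ ∧ ∀ q ∈ K, q ∈ N → ∃ S' : ℂ → ℂ,
      Br N (Metric.ball q.1 r₀) S' ∧ S' q.1 = q.2 := by
    refine hK.induction_on (p := fun K => ∃ r₀ : ℝ, 0 < r₀ ∧ ∀ q ∈ K, q ∈ N → ∃ S' : ℂ → ℂ,
      Br N (Metric.ball q.1 r₀) S' ∧ S' q.1 = q.2) ?_ ?_ ?_ ?_
    · exact ⟨1, one_pos, fun q hq => absurd hq (notMem_empty q)⟩
    · rintro s t hst ⟨r₀, hr₀, h⟩
      exact ⟨r₀, hr₀, fun q hq => h q (hst hq)⟩
    · rintro s t ⟨r₁, hr₁, h₁⟩ ⟨r₂, hr₂, h₂⟩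
      refine ⟨min r₁ r₂, lt_min hr₁ hr₂, ?_⟩
      rintro q (hq | hq) hqN
      · obtain ⟨S', hS', e⟩ := h₁ q hq hqN
        exact ⟨S', hS'.mono (Metric.ball_subset_ball (min_le_left _ _)), e⟩
      · obtain ⟨S', hS', e⟩ := h₂ q hq hqN
        exact ⟨S', hS'.mono (Metric.ball_subset_ball (min_le_right _ _)), e⟩
    · intro q hq
      obtain ⟨r, ρ, S, hr, hρ, hS, hSq, hSN, hloc⟩ := hg q (hKN hq)
      refine ⟨Metric.ball q.1 (r / 2) ×ˢ Metric.ball q.2 ρ, ?_, r / 2, by positivity, ?_⟩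
      · apply mem_nhdsWithin_of_mem_nhds
        exact prod_mem_nhds (Metric.ball_mem_nhds _ (by positivity)) (Metric.ball_mem_nhds _ hρ)
      · rintro q' ⟨h1, h2⟩ hq'N
        refine ⟨S, ⟨hS.mono ?_, ?_⟩, ?_⟩
        · intro z hz
          rw [Metric.mem_ball] at *
          have := dist_triangle z q'.1 q.1
          linarith
        · intro z hz
          apply hSN
          rw [Metric.mem_ball] at *
          have := dist_triangle z q'.1 q.1
          linarith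
        · refine (hloc q' hq'N ?_ h2).symm
          exact Metric.ball_subset_ball (by linarith) h1
  obtain ⟨r₀, hr₀, h⟩ := hmain
  exact ⟨r₀, hr₀, fun q hq => h q hq (hKN hq)⟩

theorem all_balls (N : Set (ℂ × ℂ)) (hN : IsClosed N) (C : ℝ) (hg : Locg N)
    (hC : ∀ (z₀ : ℂ) (r : ℝ) (S : ℂ → ℂ), 0 < r → DifferentiableOn ℂ S (Metric.ball z₀ r) →
      (∀ z ∈ Metric.ball z₀ r, (z, S z) ∈ N) → ∀ z ∈ Metric.ball z₀ r, ‖deriv S z‖ ≤ C)
    (p : ℂ × ℂ) (hp : p ∈ N) (R₀ : ℝ) (hR₀ : 0 < R₀) :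
    ∃ S : ℂ → ℂ, Br N (Metric.ball p.1 R₀) S ∧ S p.1 = p.2 := by
  have hK : IsCompact ((Metric.closedBall p.1 R₀ ×ˢ Metric.closedBall p.2 (C * R₀)) ∩ N) :=
    ((isCompact_closedBall _ _).prod (isCompact_closedBall _ _)).inter_right hN
  obtain ⟨r₀, hr₀, hunif⟩ := unif hg _ hK inter_subset_right
  -- the extension step
  have hstep : ∀ R : ℝ, 0 < R → R ≤ R₀ →
      (∃ S : ℂ → ℂ, Br N (Metric.ball p.1 R) S ∧ S p.1 = p.2) →
      ∃ S : ℂ → ℂ, Br N (Metric.ball p.1 (R + r₀)) S ∧ S p.1 = p.2 := by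
    rintro R hR hRR ⟨S, hS, hSp⟩
    have hder := hC p.1 R S hR hS.1 hS.2
    have hC0 : 0 ≤ C := (norm_nonneg _).trans (hder p.1 (Metric.mem_ball_self hR))
    obtain ⟨T, hT, hTp⟩ := ext_step hg p.1 R r₀ hR hr₀ S hS (by
      intro w hw
      have h1 : ‖S w - S p.1‖ ≤ C * ‖w - p.1‖ := by
        refine (convex_ball p.1 R).norm_image_sub_le_of_norm_deriv_le (𝕜 := ℂ) ?_ hder
          (Metric.mem_ball_self hR) hw
        intro x hx
        exact (hS.1 x hx).differentiableAt (Metric.isOpen_ball.mem_nhds hx)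
      have h2 : ‖w - p.1‖ ≤ R₀ := by
        have := Metric.mem_ball.mp hw
        rw [dist_eq_norm] at this
        linarith
      refine hunif (w, S w) ⟨⟨?_, ?_⟩, hS.2 w hw⟩
      · show w ∈ Metric.closedBall p.1 R₀
        rw [Metric.mem_closedBall, dist_eq_norm]
        exact h2
      · show S w ∈ Metric.closedBall p.2 (C * R₀)
        rw [Metric.mem_closedBall, dist_eq_norm, ← hSp]
        exact h1.trans (by gcongr))
    exact ⟨T, hT, hTp.trans hSp⟩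
  obtain ⟨r, ρ, S, hr, hρ, hS, hSp, hSN, -⟩ := hg p hp
  have hind : ∀ n : ℕ, ∃ S : ℂ → ℂ, Br N (Metric.ball p.1 (min R₀ (r + n * r₀))) S ∧
      S p.1 = p.2 := by
    intro n
    induction n with
    | zero =>
      refine ⟨S, ⟨hS.mono ?_, fun z hz => hSN z ?_⟩, hSp⟩
      · exact Metric.ball_subset_ball (by simp)
      · exact Metric.ball_subset_ball (by simp) hz
    | succ n ih =>
      have hpos : 0 < min R₀ (r + n * r₀) := lt_min hR₀ (by positivity)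
      obtain ⟨S, hS, hSp⟩ := hstep _ hpos (min_le_left _ _) ih
      refine ⟨S, hS.mono (Metric.ball_subset_ball ?_), hSp⟩
      push_cast
      rcases le_total R₀ (r + n * r₀) with h | h
      · rw [min_eq_left h]
        exact (min_le_left _ _).trans (by linarith)
      · rw [min_eq_right h]
        exact (min_le_right _ _).trans (by linarith)
  obtain ⟨n, hn⟩ := exists_nat_ge (R₀ / r₀)
  obtain ⟨S, hS, hSp⟩ := hind n
  refine ⟨S, hS.mono (Metric.ball_subset_ball ?_), hSp⟩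
  refine le_min le_rfl ?_
  rw [div_le_iff₀ hr₀] at hn
  linarith

end TF4

theorem entire (N : Set (ℂ × ℂ)) (hN : IsClosed N) (C : ℝ)
    (hg : ∀ p ∈ N, ∃ (r ρ : ℝ) (S : ℂ → ℂ), 0 < r ∧ 0 < ρ ∧
      DifferentiableOn ℂ S (Metric.ball p.1 r) ∧ S p.1 = p.2 ∧
      (∀ z ∈ Metric.ball p.1 r, (z, S z) ∈ N) ∧
      ∀ q ∈ N, q.1 ∈ Metric.ball p.1 r → q.2 ∈ Metric.ball p.2 ρ → q.2 = S q.1)
    (hC : ∀ (z₀ : ℂ) (r : ℝ) (S : ℂ → ℂ), 0 < r → DifferentiableOn ℂ S (Metric.ball z₀ r) →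
      (∀ z ∈ Metric.ball z₀ r, (z, S z) ∈ N) → ∀ z ∈ Metric.ball z₀ r, ‖deriv S z‖ ≤ C)
    (p : ℂ × ℂ) (hp : p ∈ N) :
    ∃ S : ℂ → ℂ, Differentiable ℂ S ∧ S p.1 = p.2 ∧ ∀ z, (z, S z) ∈ N := by
  have hall := TF4.all_balls N hN C hg hC p hp
  choose F hF using fun n : ℕ => hall ((n : ℝ) + 1) (by positivity)
  have hcomp : ∀ m n : ℕ, m ≤ n → ∀ z ∈ Metric.ball p.1 ((m : ℝ) + 1), F m z = F n z := by
    intro m n hmn
    have hsub : Metric.ball p.1 ((m : ℝ) + 1) ⊆ Metric.ball p.1 ((n : ℝ) + 1) := by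
      apply Metric.ball_subset_ball
      have : (m : ℝ) ≤ n := by exact_mod_cast hmn
      linarith
    refine TF4.uniq hg Metric.isOpen_ball (convex_ball _ _).isPreconnected (hF m).1
      ((hF n).1.mono hsub) (Metric.mem_ball_self (by positivity)) ?_
    rw [(hF m).2, (hF n).2]
  obtain ⟨T, hT, hT'⟩ := TF4.glue (N := N) (fun n : ℕ => Metric.ball p.1 ((n : ℝ) + 1))
    (fun _ => Metric.isOpen_ball) F (fun n => (hF n).1) (by
      intro m n z hm hn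
      rcases le_total m n with h | h
      · exact hcomp m n h z hm
      · exact (hcomp n m h z hn).symm)
  have hU : (⋃ n : ℕ, Metric.ball p.1 ((n : ℝ) + 1)) = univ := by
    rw [eq_univ_iff_forall]
    intro z
    obtain ⟨n, hn⟩ := exists_nat_ge (dist z p.1)
    exact mem_iUnion.mpr ⟨n, Metric.mem_ball.mpr (by linarith)⟩
  rw [hU] at hT
  refine ⟨T, differentiableOn_univ.mp hT.1, ?_, fun z => hT.2 z (mem_univ z)⟩
  rw [hT' 0 p.1 (Metric.mem_ball_self (by positivity))]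
  exact (hF 0).2

end Pool.Agent.Helper327_Sch.TF
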