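import Pool.Agent.Helper327_Sch.TDefs

set_option autoImplicit false

open Complex Filter Topology Set
open scoped ComplexConjugate ContDiff

namespace Pool.Agent.Helper327_Sch.TF

theorem cross (N : Set (ℂ × ℂ)) (hN : IsClosed N)
    (hg : ∀ p ∈ N, ∃ (r : ℝ) (S : ℂ → ℂ), 0 < r ∧ ContinuousOn S (Metric.ball p.1 r) ∧
      S p.1 = p.2 ∧ ∀ z ∈ Metric.ball p.1 r, (z, S z) ∈ N)
    (p : ℂ × ℂ) (hp : p ∈ N) (ρ : ℝ) (hρ : 0 < ρ) : ∃ q ∈ N, dist q p = ρ := by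
  by_contra hcon
  push Not at hcon
  have hK : IsCompact (N ∩ Metric.closedBall p ρ) := (isCompact_closedBall p ρ).inter_left hN
  have hne : (N ∩ Metric.closedBall p ρ).Nonempty := ⟨p, hp, Metric.mem_closedBall_self hρ.le⟩
  have hcont : ContinuousOn (fun q : ℂ × ℂ => q.1.re) (N ∩ Metric.closedBall p ρ) :=
    (continuous_re.comp continuous_fst).continuousOn
  obtain ⟨q, hq, hmax⟩ := hK.exists_isMaxOn hne hcont
  have hqρ : dist q p < ρ := lt_of_le_of_ne (Metric.mem_closedBall.1 hq.2) (hcon q hq.1)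
  obtain ⟨r, S, hr, hS, hSq, hSN⟩ := hg q hq.1
  have hSc : ContinuousAt S q.1 := hS.continuousAt (Metric.ball_mem_nhds q.1 hr)
  have h1 : ContinuousAt (fun t : ℝ => q.1 + (t : ℂ)) 0 := by fun_prop
  have h10 : (fun t : ℝ => q.1 + (t : ℂ)) 0 = q.1 := by simp
  have h2 : ContinuousAt (fun t : ℝ => S (q.1 + (t : ℂ))) 0 := by
    refine ContinuousAt.comp (g := S) (f := fun t : ℝ => q.1 + (t : ℂ)) ?_ h1
    simpa using hSc
  have h3 : ContinuousAt (fun t : ℝ => (q.1 + (t : ℂ), S (q.1 + (t : ℂ)))) 0 := h1.prodMk h2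
  have h30 : (fun t : ℝ => (q.1 + (t : ℂ), S (q.1 + (t : ℂ)))) 0 = q := by
    simp [hSq]
  have h4 : ∀ᶠ t : ℝ in 𝓝 0, dist (q.1 + (t : ℂ), S (q.1 + (t : ℂ))) p < ρ := by
    have h5 : ContinuousAt (fun t : ℝ => dist (q.1 + (t : ℂ), S (q.1 + (t : ℂ))) p) 0 :=
      h3.dist continuousAt_const
    refine h5.eventually (gt_mem_nhds ?_)
    change dist ((fun t : ℝ => (q.1 + (t : ℂ), S (q.1 + (t : ℂ)))) 0) p < ρ
    rw [h30]
    exact hqρ
  have h6 : ∀ᶠ t : ℝ in 𝓝 0, q.1 + (t : ℂ) ∈ Metric.ball q.1 r := by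
    have h5 : Tendsto (fun t : ℝ => q.1 + (t : ℂ)) (𝓝 0) (𝓝 q.1) := by
      have := h1.tendsto
      simpa using this
    exact h5.eventually (Metric.ball_mem_nhds q.1 hr)
  have h7 : ∀ᶠ t : ℝ in 𝓝[>] 0, dist (q.1 + (t : ℂ), S (q.1 + (t : ℂ))) p < ρ ∧
      q.1 + (t : ℂ) ∈ Metric.ball q.1 r ∧ 0 < t := by
    filter_upwards [h4.filter_mono nhdsWithin_le_nhds, h6.filter_mono nhdsWithin_le_nhds,
      self_mem_nhdsWithin] with t ha hb hc
    exact ⟨ha, hb, hc⟩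
  obtain ⟨t, ht1, ht2, ht3⟩ := h7.exists
  have h8 : (q.1 + (t : ℂ), S (q.1 + (t : ℂ))) ∈ N ∩ Metric.closedBall p ρ :=
    ⟨hSN _ ht2, Metric.mem_closedBall.2 ht1.le⟩
  have h9 := hmax h8
  simp only [mem_ofPred_eq, add_re, ofReal_re] at h9
  linarith

end Pool.Agent.Helper327_Sch.TF
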