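import Pool.Agent.Helper327_Sch.TDefs
import Pool.Agent.Helper327_Sch.Fin.TF1
import Pool.Agent.Helper327_Sch.Fin.TF2
import Pool.Agent.Helper327_Sch.Fin.TF3
import Pool.Agent.Helper327_Sch.Fin.TF5

set_option autoImplicit false

open Complex Filter Topology Set
open scoped ComplexConjugate ContDiff

namespace Pool.Agent.Helper327_Sch.TF

section flow

variable {n : ℕ} (A B : V n →L[ℂ] V n) (ε : V n →L[ℂ] ℂ)

namespace TF6

/-- application of operators is continuous -/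
theorem tendsto_apply {n : ℕ} {α : Type} {l : Filter α} {f : α → (V n →L[ℂ] V n)}
    {g : α → V n} {f0 : V n →L[ℂ] V n} {g0 : V n} (hf : Tendsto f l (𝓝 f0))
    (hg : Tendsto g l (𝓝 g0)) : Tendsto (fun a => f a (g a)) l (𝓝 (f0 g0)) := by
  have hc : Continuous (fun q : (V n →L[ℂ] V n) × V n => q.1 q.2) :=
    continuous_fst.clm_apply continuous_snd
  have h1 := (hc.tendsto (f0, g0)).comp (hf.prodMk_nhds hg)
  simpa only [Function.comp_def] using h1

end TF6

theorem bounded (hAB : A * B = -1) (hBA : B * A = -1) (hobs : Obs A B ε) (y : V n) (h : ℂ)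
    (hh : h ≠ 0) :
    ∃ C : ℝ, ∀ p ∈ NI (fU A B ε y) (fUz A B ε y) (fUw A B ε y) h, ‖T A B p.1 p.2 y‖ ≤ C := by
  have H := flow_HP A B ε hAB hBA y
  have hcU : Continuous (fun p : ℂ × ℂ => fU A B ε y p.1 p.2) := H.dU.continuous
  have hcUz : Continuous (fun p : ℂ × ℂ => fUz A B ε y p.1 p.2) := H.dUz.continuous
  have hcUw : Continuous (fun p : ℂ × ℂ => fUw A B ε y p.1 p.2) := H.dUw.continuous
  have hNcl : IsClosed (NI (fU A B ε y) (fUz A B ε y) (fUw A B ε y) h) := by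
    have h1 : IsClosed (CP (fU A B ε y) (fUz A B ε y) (fUw A B ε y) h) := by
      have ha : IsClosed {p : ℂ × ℂ | fU A B ε y p.1 p.2 = h} := isClosed_eq hcU continuous_const
      have hb : IsClosed {p : ℂ × ℂ | fUz A B ε y p.1 p.2 = 0} :=
        isClosed_eq hcUz continuous_const
      have hc : IsClosed {p : ℂ × ℂ | fUw A B ε y p.1 p.2 = 0} :=
        isClosed_eq hcUw continuous_const
      exact ha.inter (hb.inter hc)
    have h2 : IsClosed (derivedSet (CP (fU A B ε y) (fUz A B ε y) (fUw A B ε y) h)) :=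
      isClosed_derivedSet _
    exact h1.inter h2
  have hgraph : ∀ p ∈ NI (fU A B ε y) (fUz A B ε y) (fUw A B ε y) h,
      ∃ (r : ℝ) (S : ℂ → ℂ), 0 < r ∧ ContinuousOn S (Metric.ball p.1 r) ∧
      S p.1 = p.2 ∧ ∀ z ∈ Metric.ball p.1 r,
        (z, S z) ∈ NI (fU A B ε y) (fUz A B ε y) (fUw A B ε y) h := by
    intro p hp
    have hacc : AccPt p (𝓟 {q : ℂ × ℂ | fUz A B ε y q.1 q.2 = 0 ∧ fUw A B ε y q.1 q.2 = 0}) :=
      hp.2.mono (Filter.principal_mono.2 (fun q hq => ⟨hq.2.1, hq.2.2⟩))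
    obtain ⟨r, ρ, S, hr, -, hd, hS, hN, -⟩ := graph H h hh p hp.1.1 hacc
    exact ⟨r, S, hr, hd.continuousOn, hS, hN⟩
  by_contra hcon
  push Not at hcon
  have hex : ∀ k : ℕ, ∃ p ∈ NI (fU A B ε y) (fUz A B ε y) (fUw A B ε y) h,
      (k : ℝ) < ‖T A B p.1 p.2 y‖ := fun k => hcon k
  choose p hpN hpL using hex
  set L : ℕ → ℝ := fun k => ‖T A B (p k).1 (p k).2 y‖ with hL
  have hLk : ∀ k : ℕ, (k : ℝ) < L k := hpL
  have hLpos : ∀ k, 0 < L k := fun k => lt_of_le_of_lt (Nat.cast_nonneg k) (hLk k)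
  have hLne : ∀ k, (L k : ℂ) ≠ 0 := fun k => by exact_mod_cast (hLpos k).ne'
  set v : ℕ → V n := fun k => ((L k : ℂ)⁻¹) • T A B (p k).1 (p k).2 y with hv
  have hvmul : ∀ k, T A B (p k).1 (p k).2 y = (L k : ℂ) • v k := by
    intro k
    simp only [hv]
    rw [smul_smul, mul_inv_cancel₀ (hLne k), one_smul]
  have hvn : ∀ k, v k ∈ Metric.sphere (0 : V n) 1 := by
    intro k
    rw [mem_sphere_zero_iff_norm]
    simp only [hv]
    rw [norm_smul, norm_inv, Complex.norm_real, Real.norm_eq_abs, abs_of_pos (hLpos k)]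
    exact inv_mul_cancel₀ (hLpos k).ne'
  obtain ⟨v0, hv0, φ, hφ, hlim⟩ := (isCompact_sphere (0 : V n) 1).tendsto_subseq hvn
  have hv0n : ‖v0‖ = 1 := mem_sphere_zero_iff_norm.1 hv0
  have hv0ne : v0 ≠ 0 := by
    intro h0
    rw [h0, norm_zero] at hv0n
    exact zero_ne_one hv0n
  have hφtop : Tendsto φ atTop atTop := hφ.tendsto_atTop
  have hLtop : Tendsto L atTop atTop :=
    tendsto_atTop_mono (fun k => (hLk k).le) tendsto_natCast_atTop_atTop
  -- value at zero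
  have hval : fU A B ε v0 0 0 = 0 := by
    have h1 : fU A B ε v0 0 0 = ε v0 := by
      simp only [fU]
      rw [flow_zero A B]
      rfl
    rw [h1]
    have h2 : Tendsto (fun k => ε (v (φ k))) atTop (𝓝 (ε v0)) :=
      (ε.continuous.tendsto v0).comp hlim
    have h3 : Tendsto (fun k => ε (v (φ k))) atTop (𝓝 0) := by
      have h4 : ∀ k, ε (v (φ k)) = ((L (φ k) : ℝ) : ℂ)⁻¹ * h := by
        intro k
        simp only [hv]
        rw [map_smul, smul_eq_mul]
        congr 1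
        exact (hpN (φ k)).1.1
      simp only [h4]
      have h5 : Tendsto (fun k => ((L (φ k) : ℝ)⁻¹)) atTop (𝓝 0) :=
        tendsto_inv_atTop_zero.comp (hLtop.comp hφtop)
      have h6 : Tendsto (fun k => (((L (φ k))⁻¹ : ℝ) : ℂ)) atTop (𝓝 ((0 : ℝ) : ℂ)) :=
        (Complex.continuous_ofReal.tendsto 0).comp h5
      have h7 : Tendsto (fun k => (((L (φ k))⁻¹ : ℝ) : ℂ) * h) atTop (𝓝 (((0 : ℝ) : ℂ) * h)) :=
        h6.mul_const h
      simpa using h7
    exact tendsto_nhds_unique h2 h3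
  -- zeros on every sphere
  have hsph : ∀ ρ : ℝ, 0 < ρ → ∃ d : ℂ × ℂ, ‖d‖ = ρ ∧ fUz A B ε v0 d.1 d.2 = 0 ∧
      fUw A B ε v0 d.1 d.2 = 0 := by
    intro ρ hρ
    have hq : ∀ k : ℕ, ∃ q ∈ NI (fU A B ε y) (fUz A B ε y) (fUw A B ε y) h,
        dist q (p (φ k)) = ρ := fun k => cross _ hNcl hgraph (p (φ k)) (hpN (φ k)) ρ hρ
    choose q hqN hqd using hq
    set δ : ℕ → ℂ × ℂ := fun k => q k - p (φ k) with hδ
    have hδn : ∀ k, δ k ∈ Metric.sphere (0 : ℂ × ℂ) ρ := by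
      intro k
      rw [mem_sphere_zero_iff_norm]
      simp only [hδ]
      rw [← dist_eq_norm]
      exact hqd k
    obtain ⟨d, hd, ψ, hψ, hdlim⟩ := (isCompact_sphere (0 : ℂ × ℂ) ρ).tendsto_subseq hδn
    have hTq : ∀ k, T A B (q k).1 (q k).2 y
        = (L (φ k) : ℂ) • T A B (δ k).1 (δ k).2 (v (φ k)) := by
      intro k
      have e1 : (q k).1 = (δ k).1 + (p (φ k)).1 := by simp [hδ]
      have e2 : (q k).2 = (δ k).2 + (p (φ k)).2 := by simp [hδ]
      rw [e1, e2, flow_add A B hAB hBA]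
      show T A B (δ k).1 (δ k).2 (T A B (p (φ k)).1 (p (φ k)).2 y) = _
      rw [hvmul (φ k), map_smul]
    have hlimv : Tendsto (fun k => v (φ (ψ k))) atTop (𝓝 v0) := by
      have h1 := hlim.comp hψ.tendsto_atTop
      simpa only [Function.comp_def] using h1
    have hlimd : Tendsto (fun k => T A B (δ (ψ k)).1 (δ (ψ k)).2) atTop (𝓝 (T A B d.1 d.2)) := by
      have h1 := (Continuous.tendsto (flow_cont A B) d).comp hdlim
      simpa only [Function.comp_def] using h1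
    have hlimT : Tendsto (fun k => T A B (δ (ψ k)).1 (δ (ψ k)).2 (v (φ (ψ k)))) atTop
        (𝓝 (T A B d.1 d.2 v0)) := TF6.tendsto_apply hlimd hlimv
    refine ⟨d, mem_sphere_zero_iff_norm.1 hd, ?_, ?_⟩
    · have hz : ∀ k, ε (A (T A B (δ k).1 (δ k).2 (v (φ k)))) = 0 := by
        intro k
        have h1 : fUz A B ε y (q k).1 (q k).2 = 0 := (hqN k).1.2.1
        simp only [fUz] at h1
        rw [hTq k, map_smul, map_smul, smul_eq_mul] at h1
        exact (mul_eq_zero.1 h1).resolve_left (hLne (φ k))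
      have h2 : Tendsto (fun k => ε (A (T A B (δ (ψ k)).1 (δ (ψ k)).2 (v (φ (ψ k)))))) atTop
          (𝓝 (ε (A (T A B d.1 d.2 v0)))) :=
        (ε.continuous.tendsto _).comp ((A.continuous.tendsto _).comp hlimT)
      simp only [hz] at h2
      exact (tendsto_nhds_unique h2 tendsto_const_nhds)
    · have hz : ∀ k, ε (B (T A B (δ k).1 (δ k).2 (v (φ k)))) = 0 := by
        intro k
        have h1 : fUw A B ε y (q k).1 (q k).2 = 0 := (hqN k).1.2.2
        simp only [fUw] at h1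
        rw [hTq k, map_smul, map_smul, smul_eq_mul] at h1
        exact (mul_eq_zero.1 h1).resolve_left (hLne (φ k))
      have h2 : Tendsto (fun k => ε (B (T A B (δ (ψ k)).1 (δ (ψ k)).2 (v (φ (ψ k)))))) atTop
          (𝓝 (ε (B (T A B d.1 d.2 v0)))) :=
        (ε.continuous.tendsto _).comp ((B.continuous.tendsto _).comp hlimT)
      simp only [hz] at h2
      exact (tendsto_nhds_unique h2 tendsto_const_nhds)
  obtain ⟨ha, hb⟩ := flow_obs A B ε hAB hBA hobs v0 hv0ne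
  refine isolated (flow_HP A B ε hAB hBA v0) hval ha hb ?_
  rw [accPt_iff_nhds]
  intro W hW
  obtain ⟨r, hr, hrW⟩ := Metric.mem_nhds_iff.1 hW
  obtain ⟨d, hdn, hd1, hd2⟩ := hsph (r / 2) (half_pos hr)
  refine ⟨d, ⟨hrW ?_, hd1, hd2⟩, ?_⟩
  · have : dist d ((0 : ℂ), (0 : ℂ)) = ‖d‖ := dist_zero_right d
    rw [Metric.mem_ball, this, hdn]
    linarith
  · intro h0
    have : ‖d‖ = 0 := by
      rw [h0]
      exact norm_zero
    rw [hdn] at this
    linarith

end flow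

end Pool.Agent.Helper327_Sch.TF
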