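import Pool.Agent.Helper327_Sch.TDefs
import Pool.Agent.Helper327_Sch.Fin.TF1
import Pool.Agent.Helper327_Sch.Fin.TF4
import Pool.Agent.Helper327_Sch.Fin.TF5
import Pool.Agent.Helper327_Sch.Fin.TF6

set_option autoImplicit false

open Complex Filter Topology Set
open scoped ComplexConjugate ContDiff

namespace Pool.Agent.Helper327_Sch.TF

namespace TF7

theorem TF7_exp_eig {n : ℕ} (M : V n →L[ℂ] V n) (e : V n) (c : ℂ) (h : M e = c • e) :
    (NormedSpace.exp M) e = Complex.exp c • e := by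
  have h1 := NormedSpace.exp_series_hasSum_exp' (𝕂 := ℂ) M
  have h2 := h1.mapL (ContinuousLinearMap.apply ℂ (V n) e)
  have h3 := NormedSpace.exp_series_hasSum_exp' (𝕂 := ℂ) c
  have h4 := h3.smul_const e
  have h5 : ∀ m : ℕ, (M ^ m) e = c ^ m • e := by
    intro m
    induction m with
    | zero => simp
    | succ m ih =>
      rw [pow_succ, mul_apply_eq_comp, h, map_smul, ih, smul_smul, pow_succ]
      congr 1
      ring
  have h6 : (fun m : ℕ => (ContinuousLinearMap.apply ℂ (V n) e)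
      ((((m.factorial : ℂ))⁻¹ : ℂ) • M ^ m)) =
      fun m : ℕ => (((m.factorial : ℂ))⁻¹ • c ^ m) • e := by
    funext m
    rw [map_smul, ContinuousLinearMap.apply_apply, h5, smul_smul, smul_eq_mul]
  rw [h6] at h2
  have h7 := h2.unique h4
  rw [ContinuousLinearMap.apply_apply] at h7
  rw [h7, Complex.exp_eq_exp_ℂ]

theorem TF7_ms {n : ℕ} (A B : V n →L[ℂ] V n) (z : ℂ) : A * (z • B) = z • (A * B) := by
  ext v : 1
  simp

theorem TF7_sm {n : ℕ} (A B : V n →L[ℂ] V n) (z : ℂ) : (z • A) * B = z • (A * B) := by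
  ext v : 1
  simp

theorem TF7_comm {n : ℕ} {A B : V n →L[ℂ] V n} (hAB : A * B = -1) (hBA : B * A = -1) (z : ℂ) :
    B * NormedSpace.exp (z • A) = NormedSpace.exp (z • A) * B := by
  have h1 : Commute B (z • A) := by
    rw [Commute, SemiconjBy, TF7_ms, TF7_sm, hAB, hBA]
  exact (h1.exp_right).eq

theorem TF7_deriv {n : ℕ} {A B : V n →L[ℂ] V n} (hAB : A * B = -1) (hBA : B * A = -1)
    (y : V n) (S : ℂ → ℂ) (hS : Differentiable ℂ S) (z : ℂ) :
    HasDerivAt (fun ζ => T A B ζ (S ζ) y)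
      (A (T A B z (S z) y) + deriv S z • B (T A B z (S z) y)) z := by
  have h1 : HasDerivAt (fun ζ : ℂ => NormedSpace.exp (ζ • A))
      (A * NormedSpace.exp (z • A)) z := hasDerivAt_exp_smul_const' A z
  have h2 : HasDerivAt (fun ζ : ℂ => NormedSpace.exp (S ζ • B))
      (deriv S z • (B * NormedSpace.exp (S z • B))) z :=
    HasDerivAt.scomp z (hasDerivAt_exp_smul_const' B (S z)) (hS z).hasDerivAt
  have h3 := h1.mul h2
  have h4 := ((ContinuousLinearMap.apply ℂ (V n) y).hasFDerivAt.comp_hasDerivAt z h3)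
  have h5 : (ContinuousLinearMap.apply ℂ (V n) y)
      (A * NormedSpace.exp (z • A) * NormedSpace.exp (S z • B) +
        NormedSpace.exp (z • A) * (deriv S z • (B * NormedSpace.exp (S z • B)))) =
      A (T A B z (S z) y) + deriv S z • B (T A B z (S z) y) := by
    rw [TF7_ms, ← mul_assoc, ← TF7_comm hAB hBA]
    simp only [ContinuousLinearMap.apply_apply, T]
    rfl
  rw [h5] at h4
  exact h4

end TF7

section flow

variable {n : ℕ} (A B : V n →L[ℂ] V n) (ε : V n →L[ℂ] ℂ)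

theorem cosh_form (hAB : A * B = -1) (hBA : B * A = -1) (hobs : Obs A B ε) (y : V n) (h : ℂ)
    (hh : h ≠ 0) (p : ℂ × ℂ) (hp : p ∈ NI (fU A B ε y) (fUz A B ε y) (fUw A B ε y) h) :
    ∃ σ : ℂ, σ ≠ 0 ∧ ∀ z w, fU A B ε y z w =
      h * Complex.cosh (σ * ((z - p.1) - (w - p.2) / σ ^ 2)) := by
  obtain ⟨C0, hC0⟩ := bounded A B ε hAB hBA hobs y h hh
  have H := flow_HP A B ε hAB hBA y
  set N := NI (fU A B ε y) (fUz A B ε y) (fUw A B ε y) h with hN
  -- closed
  have hCPc : IsClosed (CP (fU A B ε y) (fUz A B ε y) (fUw A B ε y) h) := by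
    have e1 : CP (fU A B ε y) (fUz A B ε y) (fUw A B ε y) h =
        {p : ℂ × ℂ | fU A B ε y p.1 p.2 = h} ∩
          ({p : ℂ × ℂ | fUz A B ε y p.1 p.2 = 0} ∩ {p : ℂ × ℂ | fUw A B ε y p.1 p.2 = 0}) := rfl
    rw [e1]
    exact (isClosed_eq H.dU.continuous continuous_const).inter
      ((isClosed_eq H.dUz.continuous continuous_const).inter
        (isClosed_eq H.dUw.continuous continuous_const))
  have hNc : IsClosed N := by
    have e1 : N = CP (fU A B ε y) (fUz A B ε y) (fUw A B ε y) h ∩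
        derivedSet (CP (fU A B ε y) (fUz A B ε y) (fUw A B ε y) h) := rfl
    rw [e1]
    exact hCPc.inter (isClosed_derivedSet _)
  -- the entire function
  have hent := entire N hNc (‖ε‖ * (‖A‖ * (‖A‖ * C0)) / ‖h‖)
    (by
      intro q hq
      obtain ⟨r, ρ, S, hr, hρ, hS, hSq, hSN, hS2⟩ := graph H h hh q hq.1.1
        (hq.2.mono (principal_mono.2 fun x hx => ⟨hx.2.1, hx.2.2⟩))
      exact ⟨r, ρ, S, hr, hρ, hS, hSq, hSN, fun x hx h1 h2 => hS2 x hx.1.2.1 h1 h2⟩)
    (by
      intro z₀ r S hr hS hSN z hz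
      rw [graph_deriv H (fun z w => flow_zz A B ε y z w) h hh z₀ r S hS (fun z hz => (hSN z hz).1)
        z hz]
      rw [norm_div]
      apply div_le_div_of_nonneg_right _ (norm_nonneg h)
      have h1 : ‖T A B z (S z) y‖ ≤ C0 := hC0 (z, S z) (hSN z hz)
      calc ‖fUzz A B ε y z (S z)‖ ≤ ‖ε‖ * ‖A (A (T A B z (S z) y))‖ := ε.le_opNorm _
        _ ≤ ‖ε‖ * (‖A‖ * ‖A (T A B z (S z) y)‖) :=
            mul_le_mul_of_nonneg_left (A.le_opNorm _) (norm_nonneg _)
        _ ≤ ‖ε‖ * (‖A‖ * (‖A‖ * ‖T A B z (S z) y‖)) :=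
            mul_le_mul_of_nonneg_left (mul_le_mul_of_nonneg_left (A.le_opNorm _) (norm_nonneg _))
              (norm_nonneg _)
        _ ≤ ‖ε‖ * (‖A‖ * (‖A‖ * C0)) :=
            mul_le_mul_of_nonneg_left (mul_le_mul_of_nonneg_left
              (mul_le_mul_of_nonneg_left h1 (norm_nonneg _)) (norm_nonneg _)) (norm_nonneg _))
    p hp
  obtain ⟨S, hSd, hSp, hSN⟩ := hent
  -- Liouville
  set y0 : V n := T A B p.1 p.2 y with hy0
  have hconst : ∀ z, T A B z (S z) y = y0 := by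
    intro z
    have h1 : Differentiable ℂ (fun ζ => T A B ζ (S ζ) y) := fun ζ =>
      (TF7.TF7_deriv hAB hBA y S hSd ζ).differentiableAt
    have h2 : Bornology.IsBounded (range fun ζ => T A B ζ (S ζ) y) := by
      rw [isBounded_iff_forall_norm_le]
      refine ⟨C0, ?_⟩
      rintro _ ⟨ζ, rfl⟩
      have h5 := hC0 (ζ, S ζ) (hSN ζ)
      exact h5
    have h3 := h1.apply_eq_apply_of_bounded h2 z p.1
    rw [h3, hSp]
  set a : ℂ := deriv S p.1 with ha
  have hd : A y0 + a • B y0 = 0 := by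
    have h1 := TF7.TF7_deriv hAB hBA y S hSd p.1
    rw [hconst] at h1
    have h2 : (fun ζ => T A B ζ (S ζ) y) = fun _ => y0 := funext hconst
    rw [h2] at h1
    exact h1.unique (hasDerivAt_const _ _)
  have hABy : ∀ v : V n, A (B v) = -v := by
    intro v
    have : (A * B) v = (-1 : V n →L[ℂ] V n) v := by rw [hAB]
    simpa using this
  have hBAy : ∀ v : V n, B (A v) = -v := by
    intro v
    have : (B * A) v = (-1 : V n →L[ℂ] V n) v := by rw [hBA]
    simpa using this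
  have hAA : A (A y0) = a • y0 := by
    have h1 := congrArg A hd
    rw [map_add, map_smul, hABy, map_zero, smul_neg] at h1
    exact add_neg_eq_zero.1 h1
  have hεy : ε y0 = h := hp.1.1
  have hεA : ε (A y0) = 0 := hp.1.2.1
  have ha0 : a ≠ 0 := by
    intro h0
    rw [h0, zero_smul, add_zero] at hd
    have h1 := hBAy y0
    rw [hd, map_zero] at h1
    have h2 : y0 = 0 := neg_eq_zero.1 h1.symm
    rw [h2, map_zero] at hεy
    exact hh hεy.symm
  obtain ⟨σ, hσ⟩ := IsAlgClosed.exists_pow_nat_eq a (n := 2) (by norm_num)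
  have hσ0 : σ ≠ 0 := by
    rintro rfl
    apply ha0
    rw [← hσ]
    norm_num
  refine ⟨σ, hσ0, ?_⟩
  -- eigenvectors
  have hBy : B y0 = -(a⁻¹ • A y0) := by
    have h1 : a • B y0 = -A y0 := by
      rw [eq_neg_iff_add_eq_zero, add_comm]
      exact hd
    have h2 := congrArg (fun v => a⁻¹ • v) h1
    simp only [smul_smul, inv_mul_cancel₀ ha0, one_smul, smul_neg] at h2
    exact h2
  have key : ∀ τ : ℂ, τ ^ 2 = a → τ ≠ 0 → ∀ ζ υ : ℂ,
      ε (T A B ζ υ (A y0 + τ • y0)) = Complex.exp (τ * ζ - υ / τ) * (τ * h) := by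
    intro τ hτ hτ0 ζ υ
    have hA1 : A (A y0 + τ • y0) = τ • (A y0 + τ • y0) := by
      rw [map_add, map_smul, hAA, smul_add, smul_smul, ← hτ, sq, add_comm]
    have hB1 : B (A y0 + τ • y0) = (-τ⁻¹) • (A y0 + τ • y0) := by
      rw [map_add, map_smul, hBAy, hBy, smul_add, smul_smul, ← hτ, smul_neg, smul_smul]
      have e1 : τ * (τ ^ 2)⁻¹ = τ⁻¹ := by
        field_simp
      have e2 : -τ⁻¹ * τ = -1 := by
        field_simp
      rw [e1, e2, neg_smul, neg_smul, one_smul]
      exact add_comm _ _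
    have h1 : (NormedSpace.exp (υ • B)) (A y0 + τ • y0) =
        Complex.exp (-(υ / τ)) • (A y0 + τ • y0) := by
      apply TF7.TF7_exp_eig
      rw [_root_.smul_apply, hB1, smul_smul]
      congr 1
      rw [div_eq_mul_inv]
      ring
    have h2 : (NormedSpace.exp (ζ • A)) (A y0 + τ • y0) =
        Complex.exp (τ * ζ) • (A y0 + τ • y0) := by
      apply TF7.TF7_exp_eig
      rw [_root_.smul_apply, hA1, smul_smul]
      congr 1
      ring
    have h3 : T A B ζ υ (A y0 + τ • y0) =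
        Complex.exp (τ * ζ - υ / τ) • (A y0 + τ • y0) := by
      unfold T
      rw [mul_apply_eq_comp, h1, map_smul, h2, smul_smul, ← Complex.exp_add]
      congr 2
      ring
    rw [h3, map_smul, map_add, map_smul, hεA, hεy, zero_add, smul_eq_mul, smul_eq_mul]
  intro z w
  have hT : T A B z w y = T A B (z - p.1) (w - p.2) y0 := by
    have h1 := flow_add A B hAB hBA (z - p.1) (w - p.2) p.1 p.2
    rw [sub_add_cancel, sub_add_cancel] at h1
    rw [h1, hy0]
    rfl
  have hy2 : (2 * σ) • y0 = (A y0 + σ • y0) - (A y0 + (-σ) • y0) := by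
    rw [neg_smul, two_mul, add_smul]
    abel
  have h1 := key σ hσ hσ0 (z - p.1) (w - p.2)
  have h2 := key (-σ) (by rw [neg_sq]; exact hσ) (neg_ne_zero.2 hσ0) (z - p.1) (w - p.2)
  have h3 : (2 * σ) * fU A B ε y z w =
      Complex.exp (σ * (z - p.1) - (w - p.2) / σ) * (σ * h) -
      Complex.exp (-σ * (z - p.1) - (w - p.2) / (-σ)) * (-σ * h) := by
    rw [← h1, ← h2]
    unfold fU
    rw [hT, ← smul_eq_mul, ← map_smul, ← map_smul, hy2, map_sub, map_sub]
  have e1 : σ * ((z - p.1) - (w - p.2) / σ ^ 2) = σ * (z - p.1) - (w - p.2) / σ := by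
    field_simp
  have e2 : -σ * (z - p.1) - (w - p.2) / (-σ) = -(σ * (z - p.1) - (w - p.2) / σ) := by
    field_simp
    ring
  rw [e1]
  rw [e2] at h3
  rw [Complex.cosh]
  have h4 : (2 * σ) * fU A B ε y z w = (2 * σ) * (h * ((Complex.exp (σ * (z - p.1) - (w - p.2) / σ) +
      Complex.exp (-(σ * (z - p.1) - (w - p.2) / σ))) / 2)) := by
    rw [h3]
    ring
  exact mul_left_cancel₀ (mul_ne_zero two_ne_zero hσ0) h4

end flow

end Pool.Agent.Helper327_Sch.TF
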