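import Pool.Agent.Helper327_Sch.TDefs

set_option autoImplicit false

open Complex Filter Topology Set
open scoped ComplexConjugate ContDiff

namespace Pool.Agent.Helper327_Sch.TF

namespace TF8

theorem cosh_im (a b : ℝ) : (Complex.cosh ((a : ℂ) + (b : ℂ) * I)).im = Real.sinh a * Real.sin b := by
  have h : Complex.cosh ((a : ℂ) + (b : ℂ) * I) =
      ((Real.cosh a * Real.cos b : ℝ) : ℂ) + ((Real.sinh a * Real.sin b : ℝ) : ℂ) * I := by
    rw [Complex.cosh_add, Complex.cosh_mul_I, Complex.sinh_mul_I]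
    push_cast
    ring
  rw [h, Complex.add_im, Complex.ofReal_im, Complex.im_ofReal_mul, Complex.I_im]
  ring

theorem dich (w : ℂ) (hw : ∀ s : ℝ, (Complex.cosh ((s : ℂ) * w)).im = 0) : w.re = 0 ∨ w.im = 0 := by
  by_contra hcon
  push Not at hcon
  obtain ⟨h1, h2⟩ := hcon
  obtain ⟨s, hs⟩ : ∃ s : ℝ, s = Real.pi / 2 / w.im := ⟨_, rfl⟩
  have h3 := hw s
  have h4 : (s : ℂ) * w = ((s * w.re : ℝ) : ℂ) + ((s * w.im : ℝ) : ℂ) * I := by
    apply Complex.ext <;> simp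
  have h6 : s * w.im = Real.pi / 2 := by rw [hs, div_mul_cancel₀ _ h2]
  rw [h4, cosh_im, h6, Real.sin_pi_div_two, mul_one, Real.sinh_eq_zero] at h3
  have h5 : s ≠ 0 := by
    have := Real.pi_pos
    rw [hs]
    positivity
  rcases mul_eq_zero.mp h3 with h | h
  · exact h5 h
  · exact h1 h

theorem norm_one (σ : ℂ) (hσ : σ ≠ 0)
    (hd : ∀ v : ℂ, (σ * v - conj v / σ).re = 0 ∨ (σ * v - conj v / σ).im = 0) : ‖σ‖ = 1 := by
  obtain ⟨N, hN⟩ : ∃ N : ℝ, N = normSq σ := ⟨_, rfl⟩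
  have hNpos : 0 < N := by rw [hN]; exact normSq_pos.2 hσ
  have hNe : N = σ.re * σ.re + σ.im * σ.im := by rw [hN, normSq_apply]
  have hinv : ∀ z : ℂ, z / σ = z * conj σ * ((N⁻¹ : ℝ) : ℂ) := by
    intro z
    rw [div_eq_mul_inv, Complex.inv_def, ← hN, mul_assoc]
  have k1 := hd 1
  have k2 := hd (1 + I)
  rw [hinv] at k1 k2
  have e1 : (σ * 1 - conj 1 * conj σ * ((N⁻¹ : ℝ) : ℂ)).re = σ.re * (1 - N⁻¹) := by
    simp
    ring
  have e2 : (σ * 1 - conj 1 * conj σ * ((N⁻¹ : ℝ) : ℂ)).im = σ.im * (1 + N⁻¹) := by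
    simp
    ring
  have e3 : (σ * (1 + I) - conj (1 + I) * conj σ * ((N⁻¹ : ℝ) : ℂ)).re = (σ.re - σ.im) * (1 - N⁻¹) := by
    simp
    ring
  have e4 : (σ * (1 + I) - conj (1 + I) * conj σ * ((N⁻¹ : ℝ) : ℂ)).im = (σ.re + σ.im) * (1 + N⁻¹) := by
    simp
    ring
  rw [e1, e2] at k1
  rw [e3, e4] at k2
  have hp : (1 + N⁻¹ : ℝ) ≠ 0 := by positivity
  have hN1 : N = 1 := by
    by_contra hne
    have hm : (1 - N⁻¹ : ℝ) ≠ 0 := by
      intro h0
      apply hne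
      have : N⁻¹ = 1 := by linarith
      exact inv_eq_one.mp this
    have a1 : σ.re = 0 ∨ σ.im = 0 := by
      rcases k1 with k | k
      · exact Or.inl ((mul_eq_zero.mp k).resolve_right hm)
      · exact Or.inr ((mul_eq_zero.mp k).resolve_right hp)
    have a2 : σ.re - σ.im = 0 ∨ σ.re + σ.im = 0 := by
      rcases k2 with k | k
      · exact Or.inl ((mul_eq_zero.mp k).resolve_right hm)
      · exact Or.inr ((mul_eq_zero.mp k).resolve_right hp)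
    have a3 : σ.re = 0 ∧ σ.im = 0 := by
      rcases a1 with a | a <;> rcases a2 with b | b <;> constructor <;> linarith
    exact hσ (Complex.ext a3.1 a3.2)
  rw [Complex.norm_def, ← hN, hN1, Real.sqrt_one]

end TF8

theorem real_cos (t : ℝ) (ht : 0 < t) (F : ℂ → ℝ) (h σ : ℂ) (hh : h ≠ 0) (hσ : σ ≠ 0) (x₀ : ℂ)
    (hF : ∀ x, (F x : ℂ) = h * Complex.cosh (σ * (((t / 2 : ℝ) * x - (t / 2 : ℝ) * x₀) -
      ((t / 2 : ℝ) * conj x - (t / 2 : ℝ) * conj x₀) / σ ^ 2))) :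
    ∃ (e : ℂ) (A φ : ℝ), ‖e‖ = 1 ∧ ∀ x, F x = A * Real.cos (t * (conj e * x).re + φ) := by
  obtain ⟨ρ, hρ⟩ : ∃ ρ : ℝ, ρ = t / 2 := ⟨_, rfl⟩
  have hρ0 : ρ ≠ 0 := by rw [hρ]; positivity
  simp only [← hρ] at hF
  have hH : h = (F x₀ : ℂ) := by
    rw [hF x₀]
    simp
  have hH0 : F x₀ ≠ 0 := by
    intro h0
    apply hh
    rw [hH, h0, Complex.ofReal_zero]
  -- the linear form
  have hL : ∀ v : ℂ, (F (x₀ + v) : ℂ) = (F x₀ : ℂ) * Complex.cosh ((ρ : ℂ) * (σ * v - conj v / σ)) := by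
    intro v
    rw [hF (x₀ + v), ← hH]
    congr 2
    rw [map_add]
    field_simp
    ring
  have hd : ∀ v : ℂ, (σ * v - conj v / σ).re = 0 ∨ (σ * v - conj v / σ).im = 0 := by
    intro v
    have h0 : ((ρ : ℂ) * (σ * v - conj v / σ)).re = 0 ∨ ((ρ : ℂ) * (σ * v - conj v / σ)).im = 0 := by
      apply TF8.dich
      intro s
      have h1 := hL ((s : ℂ) * v)
      rw [map_mul, Complex.conj_ofReal] at h1
      have h2 : (ρ : ℂ) * (σ * ((s : ℂ) * v) - (s : ℂ) * conj v / σ) =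
          (s : ℂ) * ((ρ : ℂ) * (σ * v - conj v / σ)) := by
        ring
      rw [h2] at h1
      have h3 := congrArg Complex.im h1
      rw [Complex.ofReal_im, Complex.im_ofReal_mul] at h3
      exact (mul_eq_zero.mp h3.symm).resolve_left hH0
    rw [Complex.re_ofReal_mul, Complex.im_ofReal_mul] at h0
    rcases h0 with h | h
    · exact Or.inl ((mul_eq_zero.mp h).resolve_left hρ0)
    · exact Or.inr ((mul_eq_zero.mp h).resolve_left hρ0)
  have hn : ‖σ‖ = 1 := TF8.norm_one σ hσ hd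
  have hdiv : ∀ z : ℂ, z / σ = z * conj σ := by
    intro z
    rw [div_eq_mul_inv, Complex.inv_def, Complex.normSq_eq_norm_sq, hn]
    simp
  refine ⟨I * conj σ, F x₀, -(t * (σ * x₀).im), ?_, ?_⟩
  · rw [norm_mul, Complex.norm_I, Complex.norm_conj, hn, one_mul]
  · intro x
    have h1 := hL (x - x₀)
    have h2 : (ρ : ℂ) * (σ * (x - x₀) - conj (x - x₀) / σ) =
        ((t * (σ * x).im - t * (σ * x₀).im : ℝ) : ℂ) * I := by
      rw [hdiv, hρ]
      apply Complex.ext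
      · simp
        right
        ring
      · simp
        ring
    rw [h2, Complex.cosh_mul_I, add_sub_cancel] at h1
    have h3 : (conj (I * conj σ) * x).re = (σ * x).im := by
      simp
    rw [h3]
    have h4 : ((F x : ℝ) : ℂ) = ((F x₀ * Real.cos (t * (σ * x).im + -(t * (σ * x₀).im)) : ℝ) : ℂ) := by
      rw [h1]
      push_cast
      rfl
    exact Complex.ofReal_injective h4

namespace TF8

theorem lin {U Uz Uw : ℂ → ℂ → ℂ} (H : HP U Uz Uw) (z w : ℂ) :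
    ∃ L : ℂ × ℂ →L[ℂ] ℂ, HasFDerivAt (fun p : ℂ × ℂ => U p.1 p.2) L (z, w) ∧
      ∀ a b, L (a, b) = a * Uz z w + b * Uw z w := by
  have hL := (H.dU (z, w)).hasFDerivAt
  refine ⟨_, hL, fun a b => ?_⟩
  obtain ⟨L, hLd⟩ : ∃ L, L = fderiv ℂ (fun p : ℂ × ℂ => U p.1 p.2) (z, w) := ⟨_, rfl⟩
  rw [← hLd] at hL ⊢
  have h1 : L (1, 0) = Uz z w := by
    have hc : HasDerivAt (fun ζ : ℂ => (ζ, w)) ((1 : ℂ), (0 : ℂ)) z :=
      (hasDerivAt_id z).prodMk (hasDerivAt_const z w)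
    have h2 : HasDerivAt (fun ζ : ℂ => U ζ w) (L (1, 0)) z := HasFDerivAt.comp_hasDerivAt (f := fun ζ : ℂ => (ζ, w)) z hL hc
    exact h2.unique (H.z1 z w)
  have h2 : L (0, 1) = Uw z w := by
    have hc : HasDerivAt (fun v : ℂ => (z, v)) ((0 : ℂ), (1 : ℂ)) w :=
      (hasDerivAt_const w z).prodMk (hasDerivAt_id w)
    have h2 : HasDerivAt (fun v : ℂ => U z v) (L (0, 1)) w := HasFDerivAt.comp_hasDerivAt (f := fun v : ℂ => (z, v)) w hL hc
    exact h2.unique (H.w1 z w)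
  have h3 : ((a, b) : ℂ × ℂ) = a • ((1 : ℂ), (0 : ℂ)) + b • ((0 : ℂ), (1 : ℂ)) := by
    ext <;> simp
  rw [h3, map_add, map_smul, map_smul, h1, h2, smul_eq_mul, smul_eq_mul]

end TF8

theorem crit {U Uz Uw : ℂ → ℂ → ℂ} (H : HP U Uz Uw) (F : ℂ → ℝ) (t : ℝ) (ht : t ≠ 0)
    (hF : ∀ x, (F x : ℂ) = U ((t : ℝ) * x) ((t : ℝ) * conj x)) (x : ℂ)
    (hx : fderiv ℝ F x = 0) :
    Uz ((t : ℝ) * x) ((t : ℝ) * conj x) = 0 ∧ Uw ((t : ℝ) * x) ((t : ℝ) * conj x) = 0 := by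
  obtain ⟨L, hL, hLa⟩ := TF8.lin H ((t : ℂ) * x) ((t : ℂ) * conj x)
  -- the inner real-linear map
  have hin : ∀ y : ℂ, HasFDerivAt (𝕜 := ℝ) (fun y : ℂ => ((t : ℂ) * y, (t : ℂ) * conj y))
      (((t : ℂ) • (ContinuousLinearMap.id ℝ ℂ)).prod ((t : ℂ) • (Complex.conjCLE : ℂ →L[ℝ] ℂ))) y := by
    intro y
    have h1 : HasFDerivAt (𝕜 := ℝ) (fun y : ℂ => (t : ℂ) * y) ((t : ℂ) • (ContinuousLinearMap.id ℝ ℂ)) y :=
      (hasFDerivAt_id y).const_mul (t : ℂ)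
    have h2 : HasFDerivAt (𝕜 := ℝ) (fun y : ℂ => (t : ℂ) * conj y) ((t : ℂ) • (Complex.conjCLE : ℂ →L[ℝ] ℂ)) y :=
      ((Complex.conjCLE : ℂ →L[ℝ] ℂ).hasFDerivAt (x := y)).const_mul (t : ℂ)
    exact h1.prodMk h2
  have hcomp : HasFDerivAt (𝕜 := ℝ) (fun y : ℂ => (F y : ℂ))
      ((L.restrictScalars ℝ).comp
        (((t : ℂ) • (ContinuousLinearMap.id ℝ ℂ)).prod ((t : ℂ) • (Complex.conjCLE : ℂ →L[ℝ] ℂ)))) x := by
    have h3 : (fun y : ℂ => (F y : ℂ)) =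
        (fun p : ℂ × ℂ => U p.1 p.2) ∘ fun y : ℂ => ((t : ℂ) * y, (t : ℂ) * conj y) := by
      funext y
      exact hF y
    rw [h3]
    exact HasFDerivAt.comp x (hL.restrictScalars ℝ) (hin x)
  have hFd : DifferentiableAt ℝ F x := by
    have h1 : F = fun y => ((F y : ℂ)).re := by
      funext y
      rw [Complex.ofReal_re]
    rw [h1]
    exact (Complex.reCLM.differentiableAt).comp x hcomp.differentiableAt
  have hF0 : HasFDerivAt F (0 : ℂ →L[ℝ] ℝ) x := by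
    rw [← hx]
    exact hFd.hasFDerivAt
  have h0 : HasFDerivAt (𝕜 := ℝ) (fun y : ℂ => (F y : ℂ)) (Complex.ofRealCLM.comp (0 : ℂ →L[ℝ] ℝ)) x :=
    (Complex.ofRealCLM.hasFDerivAt).comp x hF0
  have key : ∀ v : ℂ, Uz ((t : ℂ) * x) ((t : ℂ) * conj x) * v + Uw ((t : ℂ) * x) ((t : ℂ) * conj x) * conj v = 0 := by
    intro v
    have h4 := congrArg (fun M : ℂ →L[ℝ] ℂ => M v) (hcomp.unique h0)
    have h5 : L ((t : ℂ) * v, (t : ℂ) * conj v) = 0 := by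
      simpa using h4
    rw [hLa] at h5
    have h6 : (t : ℂ) * (Uz ((t : ℂ) * x) ((t : ℂ) * conj x) * v +
        Uw ((t : ℂ) * x) ((t : ℂ) * conj x) * conj v) = 0 := by
      linear_combination h5
    exact (mul_eq_zero.mp h6).resolve_left (Complex.ofReal_ne_zero.2 ht)
  have k1 := key 1
  have k2 := key I
  rw [map_one, mul_one, mul_one] at k1
  rw [Complex.conj_I] at k2
  have k3 : Uz ((t : ℂ) * x) ((t : ℂ) * conj x) - Uw ((t : ℂ) * x) ((t : ℂ) * conj x) = 0 := by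
    have h9 : I * (Uz ((t : ℂ) * x) ((t : ℂ) * conj x) - Uw ((t : ℂ) * x) ((t : ℂ) * conj x)) = 0 := by
      linear_combination k2
    exact (mul_eq_zero.mp h9).resolve_left Complex.I_ne_zero
  constructor
  · linear_combination (1 / 2 : ℂ) * k1 + (1 / 2 : ℂ) * k3
  · linear_combination (1 / 2 : ℂ) * k1 - (1 / 2 : ℂ) * k3

end Pool.Agent.Helper327_Sch.TF
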