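import Pool.Agent.Helper327_Sch.TDefs
import Pool.Agent.Helper327_Sch.Fin.TF1
import Pool.Agent.Helper327_Sch.Fin.TF11
import Pool.Agent.Helper327_Sch.Fin.TF2
import Pool.Agent.Helper327_Sch.Fin.TF5
import Pool.Agent.Helper327_Sch.Fin.TF7
import Pool.Agent.Helper327_Sch.Fin.TF8

set_option autoImplicit false

open Complex Filter Topology Set
open scoped ComplexConjugate ContDiff

namespace Pool.Agent.Helper327_Sch.TF

section flow

variable {n : ℕ} (A B : V n →L[ℂ] V n) (ε : V n →L[ℂ] ℂ)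

end flow

namespace TF12

theorem accMap {X Y : Type*} [TopologicalSpace X] [TopologicalSpace Y] (f : X → Y) (x₀ : X)
    (hf : ContinuousAt f x₀) (hinj : Function.Injective f) (C : Set X) (D : Set Y)
    (h : ∀ x ∈ C, f x ∈ D) (hacc : AccPt x₀ (𝓟 C)) : AccPt (f x₀) (𝓟 D) := by
  rw [accPt_iff_frequently] at hacc ⊢
  exact hf.tendsto.frequently (hacc.mono fun x hx => ⟨fun h0 => hx.1 (hinj h0), h x hx.2⟩)

end TF12

theorem iso (F : ℂ → ℝ) (hF : ContDiff ℝ ∞ F) (hT : TransFin F) (lam : ℝ) (hlam : 0 < lam)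
    (hH : ∀ x, lap F x = -(lam * F x))
    (hne : ¬ ∃ (e : ℂ) (A φ : ℝ), ‖e‖ = 1 ∧ ∀ x,
      F x = A * Real.cos (Real.sqrt lam * (conj e * x).re + φ)) (x₀ : ℂ) :
    ¬ AccPt x₀ (𝓟 {x | fderiv ℝ F x = 0}) := by
  classical
  intro hacc
  obtain ⟨n, A, B, ε, y, hAB, hBA, hobs, hrep⟩ := rep F hF hT lam hlam hH
  set t := Real.sqrt lam with ht
  have ht0 : 0 < t := Real.sqrt_pos.2 hlam
  have ht2 : ((t / 2 : ℝ) : ℂ) ≠ 0 := by
    exact_mod_cast (by positivity : (t / 2 : ℝ) ≠ 0)
  have hHP := flow_HP A B ε hAB hBA y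
  set f : ℂ → ℂ × ℂ := fun x => (((t / 2 : ℝ) : ℂ) * x, ((t / 2 : ℝ) : ℂ) * conj x) with hf
  have hfc : Continuous f := by
    rw [hf]
    exact (continuous_const.mul continuous_id).prodMk
      (continuous_const.mul Complex.continuous_conj)
  have hfi : Function.Injective f := by
    intro a b hab
    have h1 := congrArg Prod.fst hab
    exact mul_left_cancel₀ ht2 h1
  have haccp : AccPt (f x₀) (𝓟 {q : ℂ × ℂ | fUz A B ε y q.1 q.2 = 0 ∧ fUw A B ε y q.1 q.2 = 0}) := by
    refine TF12.accMap f x₀ hfc.continuousAt hfi _ _ ?_ hacc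
    intro x hx
    exact crit hHP F (t / 2) (by positivity) hrep x hx
  set p := f x₀ with hp
  by_cases hh : fU A B ε y p.1 p.2 = 0
  · have hy : y ≠ 0 := by
      rintro rfl
      apply hne
      refine ⟨1, 0, 0, by simp, fun x => ?_⟩
      have h1 := hrep x
      unfold fU at h1
      rw [map_zero, map_zero] at h1
      have h2 : F x = 0 := by exact_mod_cast h1
      rw [h2]
      ring
    set y' := T A B p.1 p.2 y with hy'
    have hshift : ∀ z w, T A B z w y' = T A B (z + p.1) (w + p.2) y := by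
      intro z w
      rw [flow_add A B hAB hBA]
      rfl
    have hy0 : y' ≠ 0 := by
      intro h0
      have h1 := hshift (-p.1) (-p.2)
      rw [h0, map_zero, neg_add_cancel, neg_add_cancel, flow_zero] at h1
      exact hy h1.symm
    obtain ⟨ha, hb⟩ := flow_obs A B ε hAB hBA hobs y' hy0
    have h00 : fU A B ε y' 0 0 = 0 := by
      unfold fU
      rw [hshift, zero_add, zero_add]
      exact hh
    refine isolated (flow_HP A B ε hAB hBA y') h00 ha hb ?_
    have h2 := TF12.accMap (fun q : ℂ × ℂ => q - p) p (by fun_prop) sub_left_injective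
      {q : ℂ × ℂ | fUz A B ε y q.1 q.2 = 0 ∧ fUw A B ε y q.1 q.2 = 0}
      {q : ℂ × ℂ | fUz A B ε y' q.1 q.2 = 0 ∧ fUw A B ε y' q.1 q.2 = 0} ?_ haccp
    · have h3 : p - p = ((0 : ℂ), (0 : ℂ)) := sub_self p
      rw [h3] at h2
      exact h2
    · intro q hq
      obtain ⟨hq1, hq2⟩ := hq
      unfold fUz at hq1
      unfold fUw at hq2
      have h4 : T A B (q - p).1 (q - p).2 y' = T A B q.1 q.2 y := by
        rw [hshift, Prod.fst_sub, Prod.snd_sub, sub_add_cancel, sub_add_cancel]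
      constructor
      · unfold fUz
        rw [h4]
        exact hq1
      · unfold fUw
        rw [h4]
        exact hq2
  · obtain ⟨r, ρ, S, hr, hρ, hS, hSp, hNI, _⟩ := graph hHP (fU A B ε y p.1 p.2) hh p rfl haccp
    have hpNI : p ∈ NI (fU A B ε y) (fUz A B ε y) (fUw A B ε y) (fU A B ε y p.1 p.2) := by
      have h1 := hNI p.1 (Metric.mem_ball_self hr)
      rw [hSp] at h1
      exact h1
    obtain ⟨σ, hσ, hform⟩ := cosh_form A B ε hAB hBA hobs y _ hh p hpNI
    apply hne
    refine real_cos t ht0 F (fU A B ε y p.1 p.2) σ hh hσ x₀ ?_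
    intro x
    rw [hrep x, hform]

end Pool.Agent.Helper327_Sch.TF
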