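import Pool.Agent.Helper327_Sch.TDefs

set_option autoImplicit false

open Complex Filter Topology Set
open scoped ComplexConjugate ContDiff

namespace Pool.Agent.Helper327_Sch.TF

theorem trans_of_deriv (X : Submodule ℝ (ℝ → ℝ)) (hX : FiniteDimensional ℝ X)
    (hd : ∀ φ ∈ X, Differentiable ℝ φ ∧ deriv φ ∈ X) (φ : ℝ → ℝ) (hφ : φ ∈ X) (a : ℝ) :
    (fun x => φ (x + a)) ∈ X := by
  classical
  set n := Module.finrank ℝ X with hn
  let b : Module.Basis (Fin n) ℝ X := Module.finBasis ℝ X
  let e : Fin n → ℝ → ℝ := fun j => (b j : ℝ → ℝ)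
  have heX : ∀ j, e j ∈ X := fun j => (b j).2
  have hdiff : ∀ j, Differentiable ℝ (e j) := fun j => (hd _ (heX j)).1
  let M : Matrix (Fin n) (Fin n) ℝ := fun j k => b.repr ⟨deriv (e j), (hd _ (heX j)).2⟩ k
  -- expansion of an element of `X` in the basis
  have hexp : ∀ ψ : X, ∀ x : ℝ, (ψ : ℝ → ℝ) x = ∑ k, b.repr ψ k * e k x := by
    intro ψ x
    have h1 := b.sum_repr ψ
    have h2 : ((∑ k, b.repr ψ k • b k : X) : ℝ → ℝ) x = (ψ : ℝ → ℝ) x := by rw [h1]
    rw [← h2]
    rw [Submodule.coe_sum, Finset.sum_apply]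
    rfl
  have hM : ∀ j x, deriv (e j) x = ∑ k, M j k * e k x := by
    intro j x
    exact hexp ⟨deriv (e j), (hd _ (heX j)).2⟩ x
  let A : (Fin n → ℝ) →L[ℝ] (Fin n → ℝ) := LinearMap.toContinuousLinearMap (Matrix.toLin' M)
  have hA : ∀ v j, A v j = ∑ k, M j k * v k := by
    intro v j
    show (Matrix.toLin' M v) j = _
    rw [Matrix.toLin'_apply]
    rfl
  let E : ℝ → (Fin n → ℝ) := fun x j => e j x
  have hE : ∀ x, HasDerivAt E (A (E x)) x := by
    intro x
    rw [hasDerivAt_pi]
    intro j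
    have h1 := (hdiff j x).hasDerivAt
    rw [hM j x] at h1
    rw [hA]
    exact h1
  have hkey : ∀ x, E (x + a) = NormedSpace.exp (a • A) (E x) := by
    intro x
    have h1 : (fun s : ℝ => E (x + s)) = fun s : ℝ => NormedSpace.exp (s • A) (E x) := by
      refine ODE_solution_unique_univ (v := fun _ y => A y) (s := fun _ => Set.univ) (K := ‖A‖₊)
        (t₀ := 0) (fun t => A.lipschitz.lipschitzOnWith) ?_ ?_ ?_
      · intro t
        refine ⟨?_, mem_univ _⟩
        have h2 := (hE (x + t)).scomp t ((hasDerivAt_id t).const_add x)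
        rw [one_smul] at h2
        exact h2
      · intro t
        refine ⟨?_, mem_univ _⟩
        have h2 := (hasDerivAt_exp_smul_const' (𝕂 := ℝ) A t).clm_apply (hasDerivAt_const t (E x))
        simpa using h2
      · simp
    exact congrFun h1 a
  -- the translates of the basis are in `X`
  have htr : ∀ j, (fun x => e j (x + a)) ∈ X := by
    intro j
    have h1 : (fun x => e j (x + a)) =
        ∑ k, (NormedSpace.exp (a • A) (fun i => if k = i then (1 : ℝ) else 0) j) • e k := by
      funext x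
      have h2 : e j (x + a) = NormedSpace.exp (a • A) (E x) j := congrFun (hkey x) j
      rw [h2, Finset.sum_apply]
      have h3 := LinearMap.pi_apply_eq_sum_univ
        ((NormedSpace.exp (a • A) : (Fin n → ℝ) →L[ℝ] (Fin n → ℝ)) : (Fin n → ℝ) →ₗ[ℝ] (Fin n → ℝ)) (E x)
      have h4 := congrFun h3 j
      rw [Finset.sum_apply] at h4
      refine h4.trans (Finset.sum_congr rfl fun k _ => ?_)
      simp only [Pi.smul_apply, smul_eq_mul, ContinuousLinearMap.coe_coe]
      exact mul_comm _ _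
    rw [h1]
    exact X.sum_mem fun k _ => X.smul_mem _ (heX k)
  have h5 : (fun x => φ (x + a)) = ∑ k, (b.repr ⟨φ, hφ⟩ k) • (fun x => e k (x + a)) := by
    funext x
    rw [Finset.sum_apply]
    exact hexp ⟨φ, hφ⟩ (x + a)
  rw [h5]
  exact X.sum_mem fun k _ => X.smul_mem _ (htr k)

end Pool.Agent.Helper327_Sch.TF
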