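import Pool.Agent.Helper327_Sch.TDefs

set_option autoImplicit false

open Complex Filter Topology Set
open scoped ComplexConjugate ContDiff

namespace Pool.Agent.Helper327_Sch.TF

namespace TG3

/-- evaluation at `x` -/
def ev (X : Submodule ℝ (ℝ → ℝ)) (x : ℝ) : Module.Dual ℝ X where
  toFun f := f.1 x
  map_add' _ _ := rfl
  map_smul' _ _ := rfl

theorem ev_span (X : Submodule ℝ (ℝ → ℝ)) (hX : FiniteDimensional ℝ X) :
    Submodule.span ℝ (Set.range (ev X)) = ⊤ := by
  have h1 : (Submodule.span ℝ (Set.range (ev X))).dualCoannihilator = ⊥ := by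
    rw [eq_bot_iff]
    intro f hf
    rw [Submodule.mem_dualCoannihilator] at hf
    rw [Submodule.mem_bot]
    apply Subtype.ext
    funext x
    exact hf (ev X x) (Submodule.subset_span ⟨x, rfl⟩)
  have h2 := Subspace.dualCoannihilator_dualAnnihilator_eq (W := Submodule.span ℝ (Set.range (ev X)))
  rw [h1] at h2
  rw [← h2]
  exact Submodule.dualAnnihilator_bot

/-- the product of a function of the real part and a function of the imaginary part -/
def B : (ℝ → ℝ) →ₗ[ℝ] (ℝ → ℝ) →ₗ[ℝ] (ℂ → ℝ) :=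
  LinearMap.mk₂ ℝ (fun φ ψ => fun z => φ z.re * ψ z.im)
    (fun _ _ _ => by funext z; simp [add_mul])
    (fun _ _ _ => by funext z; simp [mul_assoc])
    (fun _ _ _ => by funext z; simp [mul_add])
    (fun _ _ _ => by funext z; simp [mul_left_comm])

theorem B_apply (φ ψ : ℝ → ℝ) (z : ℂ) : B φ ψ z = φ z.re * ψ z.im := rfl

end TG3

open TG3

theorem trans_of_slices (F : ℂ → ℝ) (X Y : Submodule ℝ (ℝ → ℝ)) (hX : FiniteDimensional ℝ X)
    (hY : FiniteDimensional ℝ Y) (tX : ∀ φ ∈ X, ∀ a : ℝ, (fun x => φ (x + a)) ∈ X)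
    (tY : ∀ φ ∈ Y, ∀ a : ℝ, (fun x => φ (x + a)) ∈ Y)
    (sX : ∀ y : ℝ, (fun x : ℝ => F ⟨x, y⟩) ∈ X) (sY : ∀ x : ℝ, (fun y : ℝ => F ⟨x, y⟩) ∈ Y) :
    TransFin F := by
  set Z : Submodule ℝ (ℂ → ℝ) := Submodule.map₂ B X Y with hZ
  have hZfin : FiniteDimensional ℝ Z := by
    have h1 : X.FG := (Submodule.fg_iff_finiteDimensional X).2 hX
    have h2 : Y.FG := (Submodule.fg_iff_finiteDimensional Y).2 hY
    exact (Submodule.fg_iff_finiteDimensional Z).1 (Submodule.FG.map₂ B h1 h2)
  have htr : ∀ p : ℂ, Z ≤ Z.comap (LinearMap.funLeft ℝ ℝ (fun x : ℂ => x + p)) := by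
    intro p
    rw [hZ, Submodule.map₂_le]
    intro φ hφ ψ hψ
    rw [Submodule.mem_comap]
    have h3 : LinearMap.funLeft ℝ ℝ (fun x : ℂ => x + p) (B φ ψ)
        = B (fun x => φ (x + p.re)) (fun x => ψ (x + p.im)) := by
      funext z
      rw [LinearMap.funLeft_apply, B_apply, B_apply, Complex.add_re, Complex.add_im]
    rw [h3]
    exact Submodule.apply_mem_map₂ _ (tX φ hφ _) (tY ψ hψ _)
  have hF : F ∈ Z := by
    let e := Module.finBasis ℝ X
    have hc : ∀ j, ∃ c : ℝ →₀ ℝ, (c.sum fun i a => a • ev X i) = e.coord j := by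
      intro j
      rw [← Finsupp.mem_span_range_iff_exists_finsupp, ev_span X hX]
      exact Submodule.mem_top
    choose c hc using hc
    let s : ℝ → X := fun y => ⟨fun x : ℝ => F ⟨x, y⟩, sX y⟩
    let b : Fin (Module.finrank ℝ X) → ℝ → ℝ := fun j => (c j).sum fun x a => a • (fun y : ℝ => F ⟨x, y⟩)
    have hb : ∀ j, b j ∈ Y := fun j => Submodule.sum_mem _ (fun x _ => Submodule.smul_mem _ _ (sY x))
    have hbj : ∀ j y, e.coord j (s y) = b j y := by
      intro j y
      rw [← hc j]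
      simp only [b, Finsupp.sum, LinearMap.sum_apply, Finset.sum_apply, LinearMap.smul_apply, Pi.smul_apply]
      rfl
    have hFe : F = ∑ j, B (e j).1 (b j) := by
      funext z
      rw [Finset.sum_apply]
      have h4 := e.sum_repr (s z.im)
      have h5 := congrArg (fun f : X => f.1 z.re) h4
      simp only [Submodule.coe_sum, Submodule.coe_smul, Finset.sum_apply, Pi.smul_apply] at h5
      have h6 : (s z.im).1 z.re = F z := rfl
      rw [← h6, ← h5]
      apply Finset.sum_congr rfl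
      intro j _
      rw [B_apply, ← hbj, smul_eq_mul, mul_comm]
      rfl
    rw [hFe]
    exact Submodule.sum_mem _ (fun j _ => Submodule.apply_mem_map₂ _ (e j).2 (hb j))
  have hle : Submodule.span ℝ (Set.range fun p : ℂ => fun x : ℂ => F (x + p)) ≤ Z := by
    rw [Submodule.span_le]
    rintro _ ⟨p, rfl⟩
    exact htr p hF
  exact Submodule.finiteDimensional_of_le hle

end Pool.Agent.Helper327_Sch.TF
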