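import Pool.Agent.Helper327_Sch.Fin.TG1
import Pool.Agent.Helper327_Sch.Fin.TG2
import Pool.Agent.Helper327_Sch.Fin.TG3

/-! Finite sums of products have translates in a finite-dimensional space. -/

set_option autoImplicit false

open scoped ContDiff

namespace Pool.Agent.Helper327_Sch.TF

theorem trans_of_products (F : ℂ → ℝ) (hF : ContDiff ℝ ∞ F) (lam : ℝ)
    (hH : ∀ x, lap F x = -(lam * F x))
    (K : ℕ) (f g : Fin K → ℝ → ℝ) (hP : ∀ x : ℂ, F x = ∑ k, f k x.re * g k x.im) :
    TransFin F := by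
  obtain ⟨⟨X, hX, dX, sX⟩, Y, hY, dY, sY⟩ := hull F hF lam hH K f g hP
  exact trans_of_slices F X Y hX hY (fun φ hφ a => trans_of_deriv X hX dX φ hφ a)
    (fun φ hφ a => trans_of_deriv Y hY dY φ hφ a) sX sY

end Pool.Agent.Helper327_Sch.TF
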