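import Pool.Agent.Helper327_Sch.TDefs

set_option autoImplicit false

open Complex Filter Topology Set
open scoped ComplexConjugate ContDiff

namespace Pool.Agent.Helper327_Sch.TF

namespace TG1

/-- the derivative in the parameter of a family of functions of a closed subspace is in the subspace -/
lemma mem_of_deriv (X : Submodule ℝ (ℝ → ℝ)) (hX : IsClosed (X : Set (ℝ → ℝ))) (u v : ℝ → ℝ → ℝ)
    (h : ∀ x y, HasDerivAt (fun y => u x y) (v x y) y) (hu : ∀ y, (fun x => u x y) ∈ X) (y : ℝ) :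
    (fun x => v x y) ∈ X := by
  have ht : Tendsto (fun y' : ℝ => fun x : ℝ => slope (fun y => u x y) y y') (𝓝[≠] y)
      (𝓝 (fun x => v x y)) := by
    rw [tendsto_pi_nhds]
    intro x
    exact hasDerivAt_iff_tendsto_slope.mp (h x y)
  refine hX.mem_of_tendsto ht (Filter.Eventually.of_forall fun y' => ?_)
  have h1 : (fun x : ℝ => slope (fun y => u x y) y y') =
      (y' - y)⁻¹ • ((fun x => u x y') - (fun x => u x y)) := by
    funext x
    simp [slope_def_field, div_eq_inv_mul]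
  rw [h1]
  exact X.smul_mem _ (X.sub_mem (hu y') (hu y))

theorem core (u ux uxx uy uyy : ℝ → ℝ → ℝ) (lam : ℝ)
    (h1 : ∀ x y, HasDerivAt (fun x => u x y) (ux x y) x)
    (h2 : ∀ x y, HasDerivAt (fun x => ux x y) (uxx x y) x)
    (h3 : ∀ x y, HasDerivAt (fun y => u x y) (uy x y) y)
    (h4 : ∀ x y, HasDerivAt (fun y => uy x y) (uyy x y) y)
    (hH : ∀ x y, uxx x y + uyy x y = -(lam * u x y))
    (K : ℕ) (f g : Fin K → ℝ → ℝ) (hP : ∀ x y : ℝ, u x y = ∑ k, f k x * g k y) :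
    ∃ X : Submodule ℝ (ℝ → ℝ), FiniteDimensional ℝ X ∧
      (∀ φ ∈ X, Differentiable ℝ φ ∧ deriv φ ∈ X) ∧ ∀ y : ℝ, (fun x : ℝ => u x y) ∈ X := by
  classical
  set X0 : Submodule ℝ (ℝ → ℝ) := Submodule.span ℝ (Set.range fun y : ℝ => fun x : ℝ => u x y) with hX0
  have hs : ∀ y : ℝ, (fun x : ℝ => u x y) ∈ X0 := fun y => Submodule.subset_span ⟨y, rfl⟩
  have hle : X0 ≤ Submodule.span ℝ (Set.range f) := by
    rw [hX0, Submodule.span_le]
    rintro _ ⟨y, rfl⟩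
    have : (fun x : ℝ => u x y) = ∑ k, g k y • f k := by
      funext x
      rw [hP x y, Finset.sum_apply]
      refine Finset.sum_congr rfl fun k _ => ?_
      rw [Pi.smul_apply, smul_eq_mul, mul_comm]
    show (fun x : ℝ => u x y) ∈ Submodule.span ℝ (Set.range f)
    rw [this]
    exact Submodule.sum_mem _ fun k _ => Submodule.smul_mem _ _ (Submodule.subset_span ⟨k, rfl⟩)
  have hfd0 : FiniteDimensional ℝ (Submodule.span ℝ (Set.range f)) :=
    FiniteDimensional.span_of_finite ℝ (Set.finite_range f)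
  have hfd : FiniteDimensional ℝ X0 := Submodule.finiteDimensional_of_le hle
  have hcl : IsClosed (X0 : Set (ℝ → ℝ)) := Submodule.closed_of_finiteDimensional X0
  have hy1 : ∀ y, (fun x => uy x y) ∈ X0 := mem_of_deriv X0 hcl u uy h3 hs
  have hy2 : ∀ y, (fun x => uyy x y) ∈ X0 := mem_of_deriv X0 hcl uy uyy h4 hy1
  have hxx : ∀ y, (fun x => uxx x y) ∈ X0 := by
    intro y
    have : (fun x => uxx x y) = (-lam) • (fun x => u x y) - (fun x => uyy x y) := by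
      funext x
      have := hH x y
      simp only [Pi.sub_apply, Pi.smul_apply, smul_eq_mul]
      linarith
    rw [this]
    exact X0.sub_mem (X0.smul_mem _ (hs y)) (hy2 y)
  have hind : ∀ φ ∈ X0, ∃ φ' φ'' : ℝ → ℝ, (∀ x, HasDerivAt φ (φ' x) x) ∧
      (∀ x, HasDerivAt φ' (φ'' x) x) ∧ φ'' ∈ X0 := by
    intro φ hφ
    rw [hX0] at hφ
    induction hφ using Submodule.span_induction with
    | mem x hx =>
      obtain ⟨y, rfl⟩ := hx
      exact ⟨fun x => ux x y, fun x => uxx x y, fun x => h1 x y, fun x => h2 x y, hxx y⟩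
    | zero => exact ⟨0, 0, fun x => hasDerivAt_const x 0, fun x => hasDerivAt_const x 0, X0.zero_mem⟩
    | add a b _ _ iha ihb =>
      obtain ⟨a', a'', ha1, ha2, ha3⟩ := iha
      obtain ⟨b', b'', hb1, hb2, hb3⟩ := ihb
      exact ⟨a' + b', a'' + b'', fun x => (ha1 x).add (hb1 x), fun x => (ha2 x).add (hb2 x),
        X0.add_mem ha3 hb3⟩
    | smul c a _ iha =>
      obtain ⟨a', a'', ha1, ha2, ha3⟩ := iha
      exact ⟨c • a', c • a'', fun x => (ha1 x).const_smul c, fun x => (ha2 x).const_smul c,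
        X0.smul_mem c ha3⟩
  have hd1 : ∀ φ ∈ X0, Differentiable ℝ φ := by
    intro φ hφ
    obtain ⟨φ', φ'', ha, _, _⟩ := hind φ hφ
    exact fun x => (ha x).differentiableAt
  have hd2 : ∀ φ ∈ X0, Differentiable ℝ (deriv φ) ∧ deriv (deriv φ) ∈ X0 := by
    intro φ hφ
    obtain ⟨φ', φ'', ha, hb, hc⟩ := hind φ hφ
    have e1 : deriv φ = φ' := funext fun x => (ha x).deriv
    have e2 : deriv φ' = φ'' := funext fun x => (hb x).deriv
    rw [e1, e2]
    exact ⟨fun x => (hb x).differentiableAt, hc⟩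
  let D : X0 →ₗ[ℝ] (ℝ → ℝ) :=
    { toFun := fun φ => deriv (φ : ℝ → ℝ)
      map_add' := by
        intro a b
        funext x
        exact deriv_add (hd1 a a.2 x) (hd1 b b.2 x)
      map_smul' := by
        intro c a
        funext x
        exact deriv_const_smul c (hd1 a a.2 x) }
  refine ⟨X0 ⊔ LinearMap.range D, inferInstance, ?_, fun y => Submodule.mem_sup_left (hs y)⟩
  intro φ hφ
  obtain ⟨a, ha, b, hb, rfl⟩ := Submodule.mem_sup.mp hφ
  obtain ⟨c, rfl⟩ := hb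
  have hDc : D c = deriv (c : ℝ → ℝ) := rfl
  have hc2 := hd2 c c.2
  rw [hDc]
  refine ⟨(hd1 a ha).add hc2.1, ?_⟩
  have e : deriv (a + deriv (c : ℝ → ℝ)) = deriv a + deriv (deriv (c : ℝ → ℝ)) := by
    funext x
    exact deriv_add (hd1 a ha x) (hc2.1 x)
  rw [e, add_comm]
  exact Submodule.add_mem_sup hc2.2 ⟨⟨a, ha⟩, rfl⟩

lemma hmk1 (x y : ℝ) : HasDerivAt (fun x : ℝ => (⟨x, y⟩ : ℂ)) 1 x := by
  have h : (fun x : ℝ => (⟨x, y⟩ : ℂ)) = fun x : ℝ => (x : ℂ) + (y : ℂ) * Complex.I := by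
    funext x
    exact Complex.mk_eq_add_mul_I x y
  rw [h]
  exact (HasDerivAt.ofReal_comp (hasDerivAt_id x)).add_const _

lemma hmk2 (x y : ℝ) : HasDerivAt (fun y : ℝ => (⟨x, y⟩ : ℂ)) Complex.I y := by
  have h : (fun y : ℝ => (⟨x, y⟩ : ℂ)) = fun y : ℝ => (x : ℂ) + (y : ℂ) * Complex.I := by
    funext y
    exact Complex.mk_eq_add_mul_I x y
  rw [h]
  have h2 := ((HasDerivAt.ofReal_comp (hasDerivAt_id y)).mul_const Complex.I).const_add (x : ℂ)
  simpa using h2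

lemma d1 (G : ℂ → ℝ) (hG : Differentiable ℝ G) (x y : ℝ) :
    HasDerivAt (fun x : ℝ => G ⟨x, y⟩) (fderiv ℝ G ⟨x, y⟩ 1) x :=
  (hG ⟨x, y⟩).hasFDerivAt.comp_hasDerivAt x (hmk1 x y)

lemma d2 (G : ℂ → ℝ) (hG : Differentiable ℝ G) (x y : ℝ) :
    HasDerivAt (fun y : ℝ => G ⟨x, y⟩) (fderiv ℝ G ⟨x, y⟩ Complex.I) y :=
  (hG ⟨x, y⟩).hasFDerivAt.comp_hasDerivAt y (hmk2 x y)

end TG1

theorem hull (F : ℂ → ℝ) (hF : ContDiff ℝ ∞ F) (lam : ℝ) (hH : ∀ x, lap F x = -(lam * F x))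
    (K : ℕ) (f g : Fin K → ℝ → ℝ) (hP : ∀ x : ℂ, F x = ∑ k, f k x.re * g k x.im) :
    (∃ X : Submodule ℝ (ℝ → ℝ), FiniteDimensional ℝ X ∧
      (∀ φ ∈ X, Differentiable ℝ φ ∧ deriv φ ∈ X) ∧ ∀ y : ℝ, (fun x : ℝ => F ⟨x, y⟩) ∈ X) ∧
    ∃ Y : Submodule ℝ (ℝ → ℝ), FiniteDimensional ℝ Y ∧
      (∀ φ ∈ Y, Differentiable ℝ φ ∧ deriv φ ∈ Y) ∧ ∀ x : ℝ, (fun y : ℝ => F ⟨x, y⟩) ∈ Y := by
  have hF0 : Differentiable ℝ F := hF.differentiable (by simp)
  have hF2 : ContDiff ℝ 2 F := by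
    have h := contDiff_infty.mp hF 2
    exact_mod_cast h
  have hF' : ContDiff ℝ 1 (fderiv ℝ F) := hF2.fderiv_right (m := 1) (by norm_num)
  have hd : ∀ v : ℂ, Differentiable ℝ (fun z => fderiv ℝ F z v) := fun v =>
    (hF'.clm_apply contDiff_const).differentiable (by simp)
  have hlap : ∀ x y : ℝ, fderiv ℝ (fun z => fderiv ℝ F z 1) ⟨x, y⟩ 1 +
      fderiv ℝ (fun z => fderiv ℝ F z Complex.I) ⟨x, y⟩ Complex.I = -(lam * F ⟨x, y⟩) :=
    fun x y => hH ⟨x, y⟩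
  constructor
  · exact TG1.core (fun x y => F ⟨x, y⟩) (fun x y => fderiv ℝ F ⟨x, y⟩ 1)
      (fun x y => fderiv ℝ (fun z => fderiv ℝ F z 1) ⟨x, y⟩ 1)
      (fun x y => fderiv ℝ F ⟨x, y⟩ Complex.I)
      (fun x y => fderiv ℝ (fun z => fderiv ℝ F z Complex.I) ⟨x, y⟩ Complex.I) lam
      (fun x y => TG1.d1 F hF0 x y) (fun x y => TG1.d1 _ (hd 1) x y)
      (fun x y => TG1.d2 F hF0 x y) (fun x y => TG1.d2 _ (hd Complex.I) x y)
      hlap K f g (fun x y => hP ⟨x, y⟩)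
  · exact TG1.core (fun y x => F ⟨x, y⟩) (fun y x => fderiv ℝ F ⟨x, y⟩ Complex.I)
      (fun y x => fderiv ℝ (fun z => fderiv ℝ F z Complex.I) ⟨x, y⟩ Complex.I)
      (fun y x => fderiv ℝ F ⟨x, y⟩ 1)
      (fun y x => fderiv ℝ (fun z => fderiv ℝ F z 1) ⟨x, y⟩ 1) lam
      (fun y x => TG1.d2 F hF0 x y) (fun y x => TG1.d2 _ (hd Complex.I) x y)
      (fun y x => TG1.d1 F hF0 x y) (fun y x => TG1.d1 _ (hd 1) x y)
      (fun y x => by rw [add_comm]; exact hlap x y) K g f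
      (fun y x => by
        refine (hP ⟨x, y⟩).trans (Finset.sum_congr rfl fun k _ => ?_)
        exact mul_comm _ _)

end Pool.Agent.Helper327_Sch.TF
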